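import Pool.Agent.P.MP_8c9ada_nt.Defs

/-! Finite power sums over monic polynomials. -/

namespace ZetaLikeMZV

section

open Polynomial Finset WithZero

variable (F : Type*) [Field F] [Fintype F]

theorem finite_degLT (d : ℕ) : {a : F[X] | a.degree < d}.Finite := by
  have : Finite (degreeLT F d) := Finite.of_equiv _ (degreeLTEquiv F d).symm.toEquiv
  have h : {a : F[X] | a.degree < d} = (degreeLT F d : Set F[X]) := by
    ext a; simp [mem_degreeLT]
  rw [h]; exact Set.toFinite _

/-- Polynomials of degree less than `d`. -/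
noncomputable def lowP (d : ℕ) : Finset F[X] := (finite_degLT F d).toFinset

variable {F} in
theorem mem_lowP {d : ℕ} {a : F[X]} : a ∈ lowP F d ↔ a.degree < d := by
  simp [lowP]

theorem card_lowP (d : ℕ) : (lowP F d).card = Fintype.card F ^ d := by
  have h1 : Nat.card (degreeLT F d) = Fintype.card F ^ d := by
    rw [Nat.card_congr (degreeLTEquiv F d).toEquiv]; simp
  rw [← h1, lowP, ← Nat.card_eq_card_finite_toFinset (finite_degLT F d)]
  apply Nat.card_congr
  exact Equiv.subtypeEquivRight (fun a => by simp [mem_degreeLT])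

open Classical in
/-- Monic polynomials of degree `d`. -/
noncomputable def monics (d : ℕ) : Finset F[X] :=
  (lowP F (d + 1)).filter (fun a => a.Monic ∧ a.natDegree = d)

variable {F} in
theorem mem_monics {d : ℕ} {a : F[X]} : a ∈ monics F d ↔ a.Monic ∧ a.natDegree = d := by
  simp only [monics, mem_filter, mem_lowP, and_iff_right_iff_imp]
  rintro ⟨h1, h2⟩
  rw [degree_eq_natDegree h1.ne_zero, h2]
  exact_mod_cast Nat.lt_succ_self d

open Classical in
theorem monics_eq (d : ℕ) : monics F d = (lowP F d).image (fun b => X ^ d + b) := by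
  ext a
  simp only [mem_monics, mem_image, mem_lowP]
  constructor
  · rintro ⟨h1, h2⟩
    refine ⟨a - X ^ d, ?_, by ring⟩
    have : (a - X ^ d).degree < a.degree := by
      apply degree_sub_lt_left _ h1.ne_zero (by simp [h1.leadingCoeff])
      rw [degree_eq_natDegree h1.ne_zero, h2, degree_X_pow]
    rwa [degree_eq_natDegree h1.ne_zero, h2] at this
  · rintro ⟨b, hb, rfl⟩
    refine ⟨monic_X_pow_add hb, ?_⟩
    apply natDegree_eq_of_degree_eq_some
    rw [degree_add_eq_left_of_degree_lt (by rwa [degree_X_pow]), degree_X_pow]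

theorem card_monics (d : ℕ) : (monics F d).card = Fintype.card F ^ d := by
  classical
  rw [monics_eq, card_image_of_injective _ (add_right_injective _), card_lowP]

theorem monics_zero : monics F 0 = {1} := by
  ext a
  simp only [mem_monics, mem_singleton]
  constructor
  · rintro ⟨h1, h2⟩; exact h1.natDegree_eq_zero.mp h2
  · rintro rfl; simp

open Classical in
theorem sum_monic_lowP {M : Type*} [AddCommMonoid M] (f : F[X] → M) (D : ℕ) :
    ∑ a ∈ (lowP F D).filter Monic, f a = ∑ e ∈ range D, ∑ a ∈ monics F e, f a := by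
  rw [← sum_fiberwise_of_maps_to (s := (lowP F D).filter Monic) (t := range D)
    (g := natDegree)]
  · apply sum_congr rfl
    intro e he
    apply sum_congr _ (fun _ _ => rfl)
    ext a
    simp only [mem_filter, mem_lowP, mem_monics]
    constructor
    · rintro ⟨⟨_, h⟩, h'⟩; exact ⟨h, h'⟩
    · rintro ⟨h, h'⟩
      refine ⟨⟨?_, h⟩, h'⟩
      rw [degree_eq_natDegree h.ne_zero, h']
      exact_mod_cast mem_range.mp he
  · intro a ha
    simp only [mem_filter, mem_lowP] at ha
    rw [mem_range]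
    have := ha.1
    rw [degree_eq_natDegree ha.2.ne_zero] at this
    exact_mod_cast this

/-- The power sum over monic polynomials of degree `d`. -/
noncomputable def Sd (s d : ℕ) : RatFunc F :=
  ∑ a ∈ monics F d, (algebraMap F[X] (RatFunc F) a ^ s)⁻¹

/-- The power sum over monic polynomials of degree less than `d`. -/
noncomputable def Slt (s d : ℕ) : RatFunc F := ∑ e ∈ range d, Sd F s e

/-- The depth-two sum truncated at `deg a₁ < D`. -/
noncomputable def Ztwo (s₁ s₂ D : ℕ) : RatFunc F := ∑ d ∈ range D, Sd F s₁ d * Slt F s₂ d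

theorem Sd_zero (s : ℕ) : Sd F s 0 = 1 := by simp [Sd, monics_zero]

theorem Slt_zero (s : ℕ) : Slt F s 0 = 0 := by simp [Slt]

theorem Slt_succ (s d : ℕ) : Slt F s (d + 1) = Slt F s d + Sd F s d := by
  simp [Slt, sum_range_succ]

theorem Ztwo_succ (s₁ s₂ d : ℕ) :
    Ztwo F s₁ s₂ (d + 1) = Ztwo F s₁ s₂ d + Sd F s₁ d * Slt F s₂ d := by
  simp [Ztwo, sum_range_succ]

variable [DecidableEq (RatFunc F)]

omit [Fintype F] in
variable {F} in
theorem v_poly {a : F[X]} (ha : a ≠ 0) :
    RatFunc.inftyValuation F (algebraMap F[X] (RatFunc F) a) = exp (a.natDegree : ℤ) :=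
  RatFunc.inftyValuation.polynomial F ha

theorem v_Sd_lt_one {s d : ℕ} (hs : 1 ≤ s) (hd : 1 ≤ d) :
    RatFunc.inftyValuation F (Sd F s d) < 1 := by
  apply Valuation.map_sum_lt _ one_ne_zero
  intro a ha
  obtain ⟨h1, h2⟩ := mem_monics.mp ha
  rw [map_inv₀, map_pow, v_poly h1.ne_zero, h2, ← exp_nsmul, ← exp_neg, ← exp_zero, exp_lt_exp]
  have : 0 < s * d := Nat.mul_pos hs hd
  simp only [nsmul_eq_mul]
  have : (0 : ℤ) < s * d := by exact_mod_cast this
  omega

theorem v_Slt {s d : ℕ} (hs : 1 ≤ s) (hd : 1 ≤ d) :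
    RatFunc.inftyValuation F (Slt F s d) = 1 := by
  induction d, hd using Nat.le_induction with
  | base => simp [Slt_succ, Slt_zero, Sd_zero]
  | succ d hd ih =>
    rw [Slt_succ, Valuation.map_add_eq_of_lt_left _ (by rw [ih]; exact v_Sd_lt_one F hs hd), ih]

end

end ZetaLikeMZV

/-! Reduction of zeta-likeness to a statement about finite sums in `F(t)`. -/

namespace ZetaLikeMZV

section

open Polynomial Filter Topology WithZero Finset

variable {F : Type*} [Field F] [DecidableEq (RatFunc F)]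

theorem complete_Kinf : CompleteSpace (RatFunc.CompletionAtInfty F) :=
  @UniformSpace.Completion.completeSpace (RatFunc F) (RatFunc.inftyValued F).toUniformSpace

theorem v_alg (x : RatFunc F) :
    Valued.v (algebraMap (RatFunc F) (RatFunc.CompletionAtInfty F) x) =
      RatFunc.inftyValuation F x :=
  @Valued.valuedCompletion_apply (RatFunc F) _ ℤᵐ⁰ _ (RatFunc.inftyValued F) x

theorem tendsto_zero_iff {α : Type*} {l : Filter α} {f : α → RatFunc.CompletionAtInfty F} :
    Tendsto f l (𝓝 0) ↔ ∀ N : ℤ, ∀ᶠ a in l, Valued.v (f a) < exp N := by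
  rw [(Valued.hasBasis_nhds_zero _ _).tendsto_right_iff]
  constructor
  · intro h N
    have hy : Valued.v (algebraMap (RatFunc F) (RatFunc.CompletionAtInfty F) (RatFunc.X ^ N))
        = exp N := by rw [v_alg, RatFunc.inftyValuation.X_zpow]
    have h0 : (Valued.v (R := RatFunc.CompletionAtInfty F)).restrict
        (algebraMap (RatFunc F) (RatFunc.CompletionAtInfty F) (RatFunc.X ^ N)) ≠ 0 := by
      rw [Ne, Valuation.restrict_eq_zero_iff, hy]; exact exp_ne_zero
    filter_upwards [h (Units.mk0 _ h0) trivial] with a ha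
    rw [← hy]
    exact (Valuation.restrict_lt_iff _).mp ha
  · intro h γ _
    have h0 : MonoidWithZeroHom.ValueGroup₀.embedding γ.1 ≠ 0 := by
      simp
    filter_upwards [h (log (MonoidWithZeroHom.ValueGroup₀.embedding γ.1))] with a ha
    rw [exp_log h0] at ha
    exact (Valuation.restrict_lt_iff_lt_embedding _).mpr ha

theorem nonarch_Kinf : NonarchimedeanAddGroup (RatFunc.CompletionAtInfty F) := by
  refine ⟨fun U hU => ?_⟩
  obtain ⟨γ, hγ⟩ := Valued.mem_nhds_zero.mp hU
  refine ⟨⟨(Valued.v (R := RatFunc.CompletionAtInfty F)).restrict.ltAddSubgroup γ, ?_⟩, hγ⟩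
  exact Valued.isOpen_ball _ _

theorem v_emb {a : F[X]} (ha : a ≠ 0) : Valued.v (emb F a) = exp (a.natDegree : ℤ) := by
  rw [emb, v_alg, v_poly ha]

variable [Fintype F]

theorem summable_zeta {s : ℕ} (hs : 1 ≤ s) :
    Summable (fun a : {a : F[X] // a.Monic} => (emb F a.1 ^ s)⁻¹) := by
  have := complete_Kinf (F := F)
  have := nonarch_Kinf (F := F)
  apply NonarchimedeanAddGroup.summable_of_tendsto_cofinite_zero
  rw [tendsto_zero_iff]
  intro N
  rw [eventually_cofinite]
  apply Set.Finite.subset ((finite_degLT F (N.natAbs + 1)).preimage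
    (f := fun a : {a : F[X] // a.Monic} => a.1) Subtype.val_injective.injOn)
  intro a ha
  simp only [Set.mem_ofPred_eq, Set.mem_preimage] at ha ⊢
  rw [map_inv₀, map_pow, v_emb a.2.ne_zero, ← exp_nsmul, ← exp_neg, exp_lt_exp] at ha
  rw [degree_eq_natDegree a.2.ne_zero]
  have h1 : a.1.natDegree ≤ s * a.1.natDegree := Nat.le_mul_of_pos_left _ hs
  have h2 : (a.1.natDegree : ℤ) ≤ s * a.1.natDegree := by exact_mod_cast h1
  simp only [nsmul_eq_mul] at ha
  have : a.1.natDegree < N.natAbs + 1 := by omega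
  exact_mod_cast this

theorem summable_zetaTwo {s₁ : ℕ} (s₂ : ℕ) (hs : 1 ≤ s₁) :
    Summable (fun a : {a : F[X] × F[X] // a.1.Monic ∧ a.2.Monic ∧ a.2.natDegree < a.1.natDegree}
      => (emb F a.1.1 ^ s₁ * emb F a.1.2 ^ s₂)⁻¹) := by
  have := complete_Kinf (F := F)
  have := nonarch_Kinf (F := F)
  apply NonarchimedeanAddGroup.summable_of_tendsto_cofinite_zero
  rw [tendsto_zero_iff]
  intro N
  rw [eventually_cofinite]
  apply Set.Finite.subset (((finite_degLT F (N.natAbs + 1)).prod
    (finite_degLT F (N.natAbs + 1))).preimage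
    (f := fun a : {a : F[X] × F[X] // a.1.Monic ∧ a.2.Monic ∧ a.2.natDegree < a.1.natDegree}
      => a.1) Subtype.val_injective.injOn)
  rintro ⟨⟨a, b⟩, h1, h2, h3⟩ ha
  simp only [Set.mem_ofPred_eq, Set.mem_preimage, Set.mem_prod] at ha h1 h2 h3 ⊢
  rw [map_inv₀, map_mul, map_pow, map_pow, v_emb h1.ne_zero, v_emb h2.ne_zero, ← exp_nsmul,
    ← exp_nsmul, ← exp_add, ← exp_neg, exp_lt_exp] at ha
  rw [degree_eq_natDegree h1.ne_zero, degree_eq_natDegree h2.ne_zero]
  have h4 : a.natDegree ≤ s₁ * a.natDegree := Nat.le_mul_of_pos_left _ hs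
  have h5 : (a.natDegree : ℤ) ≤ s₁ * a.natDegree := by exact_mod_cast h4
  have h6 : (0 : ℤ) ≤ s₂ * b.natDegree := by positivity
  simp only [nsmul_eq_mul] at ha
  have h7 : a.natDegree < N.natAbs + 1 := by omega
  have h8 : b.natDegree < N.natAbs + 1 := by omega
  exact ⟨by exact_mod_cast h7, by exact_mod_cast h8⟩

omit [DecidableEq (RatFunc F)] in
theorem lowP_mono : Monotone (lowP F) := by
  intro a b h x hx
  rw [mem_lowP] at hx ⊢
  exact lt_of_lt_of_le hx (by exact_mod_cast h)

omit [DecidableEq (RatFunc F)] in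
theorem mem_lowP_of_lt {a : F[X]} {D : ℕ} (h : a.natDegree < D) : a ∈ lowP F D := by
  rw [mem_lowP]
  exact lt_of_le_of_lt degree_le_natDegree (by exact_mod_cast h)

theorem tendsto_zeta {s : ℕ} (hs : 1 ≤ s) :
    Tendsto (fun D => algebraMap (RatFunc F) (RatFunc.CompletionAtInfty F) (Slt F s D)) atTop
      (𝓝 (zeta F s)) := by
  classical
  have h1 := (summable_zeta (F := F) hs).hasSum
  have h2 : Tendsto (fun D => (lowP F D).subtype Monic) atTop atTop := by
    apply tendsto_atTop_finset_of_monotone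
    · intro a b h
      exact subtype_mono (lowP_mono h)
    · intro a
      exact ⟨a.1.natDegree + 1, mem_subtype.mpr (mem_lowP_of_lt (Nat.lt_succ_self _))⟩
  have h3 := Tendsto.comp h1 h2
  refine h3.congr (fun D => ?_)
  simp only [Function.comp]
  rw [sum_subtype_eq_sum_filter (f := fun a => (emb F a ^ s)⁻¹), sum_monic_lowP]
  simp [Slt, Sd, emb]

theorem tendsto_zetaTwo {s₁ : ℕ} (s₂ : ℕ) (hs : 1 ≤ s₁) :
    Tendsto (fun D => algebraMap (RatFunc F) (RatFunc.CompletionAtInfty F) (Ztwo F s₁ s₂ D))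
      atTop (𝓝 (zetaTwo F s₁ s₂)) := by
  classical
  have h1 := (summable_zetaTwo (F := F) s₂ hs).hasSum
  have h2 : Tendsto (fun D => (lowP F D ×ˢ lowP F D).subtype
      (fun a : F[X] × F[X] => a.1.Monic ∧ a.2.Monic ∧ a.2.natDegree < a.1.natDegree))
      atTop atTop := by
    apply tendsto_atTop_finset_of_monotone
    · intro a b h
      exact subtype_mono (product_subset_product (lowP_mono h) (lowP_mono h))
    · intro a
      refine ⟨a.1.1.natDegree + 1, mem_subtype.mpr (mem_product.mpr ⟨?_, ?_⟩)⟩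
      · exact mem_lowP_of_lt (Nat.lt_succ_self _)
      · exact mem_lowP_of_lt (by have := a.2.2.2; omega)
  have h3 := Tendsto.comp h1 h2
  refine h3.congr (fun D => ?_)
  simp only [Function.comp]
  rw [sum_subtype_eq_sum_filter (f := fun a : F[X] × F[X] =>
    (emb F a.1 ^ s₁ * emb F a.2 ^ s₂)⁻¹), sum_filter, sum_product]
  have h4 : ∀ a ∈ lowP F D, (∑ b ∈ lowP F D, if a.Monic ∧ b.Monic ∧ b.natDegree < a.natDegree
      then (emb F a ^ s₁ * emb F b ^ s₂)⁻¹ else 0) =
      if a.Monic then (emb F a ^ s₁)⁻¹ * algebraMap (RatFunc F) (RatFunc.CompletionAtInfty F)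
        (Slt F s₂ a.natDegree) else 0 := by
    intro a ha
    by_cases hm : a.Monic
    · simp only [hm, true_and, if_true]
      rw [← sum_filter]
      have h5 : (lowP F D).filter (fun b : F[X] => b.Monic ∧ b.natDegree < a.natDegree) =
          (lowP F a.natDegree).filter Monic := by
        ext b
        simp only [mem_filter]
        have h6 : a.natDegree < D := by
          have := mem_lowP.mp ha
          rw [degree_eq_natDegree hm.ne_zero] at this
          exact_mod_cast this
        constructor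
        · rintro ⟨_, h7, h8⟩; exact ⟨mem_lowP_of_lt h8, h7⟩
        · rintro ⟨h7, h8⟩
          have h9 : b.natDegree < a.natDegree := by
            have := mem_lowP.mp h7
            rw [degree_eq_natDegree h8.ne_zero] at this
            exact_mod_cast this
          exact ⟨mem_lowP_of_lt (by omega), h8, h9⟩
      rw [h5, sum_monic_lowP]
      simp [Slt, Sd, emb, mul_sum, mul_comm]
    · simp [hm]
  rw [sum_congr rfl h4, ← sum_filter, sum_monic_lowP]
  simp only [Ztwo, map_sum, map_mul]
  apply sum_congr rfl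
  intro d _
  simp only [Sd, map_sum, sum_mul]
  apply sum_congr rfl
  intro a ha
  rw [(mem_monics.mp ha).2]
  simp [emb]

theorem zeta_ne_zero {s : ℕ} (hs : 1 ≤ s) : zeta F s ≠ 0 := by
  intro h
  have h1 := tendsto_zeta (F := F) hs
  rw [h, tendsto_zero_iff] at h1
  obtain ⟨D, hD, hD'⟩ := ((h1 0).and (eventually_ge_atTop 1)).exists
  rw [v_alg, v_Slt F hs hD'] at hD
  simp at hD

theorem zetaLike_iff {s₁ s₂ : ℕ} (hs : 1 ≤ s₁) :
    ZetaLike F s₁ s₂ ↔ ∃ c : RatFunc F, ∀ N : ℤ, ∀ᶠ D in atTop,
      RatFunc.inftyValuation F (Ztwo F s₁ s₂ D - c * Slt F (s₁ + s₂) D) < exp N := by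
  have hw : 1 ≤ s₁ + s₂ := by omega
  apply exists_congr
  intro c
  have h1 : Tendsto (fun D => algebraMap (RatFunc F) (RatFunc.CompletionAtInfty F)
      (Ztwo F s₁ s₂ D - c * Slt F (s₁ + s₂) D)) atTop
      (𝓝 (zetaTwo F s₁ s₂ - algebraMap (RatFunc F) (RatFunc.CompletionAtInfty F) c *
        zeta F (s₁ + s₂))) := by
    simp only [map_sub, map_mul]
    exact (tendsto_zetaTwo s₂ hs).sub ((tendsto_zeta hw).const_mul _)
  rw [div_eq_iff (zeta_ne_zero hw), ← sub_eq_zero]
  constructor
  · intro h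
    rw [h, tendsto_zero_iff] at h1
    simpa only [v_alg] using h1
  · intro h
    refine tendsto_nhds_unique h1 ?_
    rw [tendsto_zero_iff]
    simpa only [v_alg] using h

end

end ZetaLikeMZV
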