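import Mathlib

/-! Digit sums: subadditivity, carries, top parts and the greedy splitting. -/

set_option autoImplicit false

namespace Pool.Agent.P.MP_8c9ada_nt.Cl

/-- The sum of the base `q` digits. -/
def ds (q N : ℕ) : ℕ := (Nat.digits q N).sum

variable {q : ℕ}

@[simp] theorem ds_zero : ds q 0 = 0 := by simp [ds]

theorem ds_le (N : ℕ) : ds q N ≤ N := Nat.digit_sum_le q N

theorem ds_rec (hq : 1 < q) (N : ℕ) : ds q N = N % q + ds q (N / q) := by
  rcases Nat.eq_zero_or_pos N with rfl | h
  · simp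
  · rw [ds, Nat.digits_def' hq h]; rfl

theorem ds_step (hq : 1 < q) {a : ℕ} (ha : a < q) (N : ℕ) : ds q (a + q * N) = a + ds q N := by
  rw [ds_rec hq, Nat.add_mul_mod_self_left, Nat.mod_eq_of_lt ha,
    Nat.add_mul_div_left _ _ (by omega), Nat.div_eq_of_lt ha, zero_add]

theorem ds_lt (hq : 1 < q) {a : ℕ} (ha : a < q) : ds q a = a := by
  simpa using ds_step hq ha 0

theorem ds_mul (hq : 1 < q) (N : ℕ) : ds q (q * N) = ds q N := by
  simpa using ds_step hq (by omega : 0 < q) N

theorem ds_pow_mul (hq : 1 < q) (r N : ℕ) : ds q (q ^ r * N) = ds q N := by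
  induction r with
  | zero => simp
  | succ r ih => rw [pow_succ', mul_assoc, ds_mul hq, ih]

theorem ds_pow (hq : 1 < q) (r : ℕ) : ds q (q ^ r) = 1 := by
  have := ds_pow_mul hq r 1
  rwa [mul_one, ds_lt hq hq] at this

/-- Induction on digits. -/
theorem dig_ind (hq : 1 < q) {P : ℕ → Prop} (h0 : P 0)
    (h : ∀ a N, a < q → 0 < a + q * N → P N → P (a + q * N)) (N : ℕ) : P N := by
  induction N using Nat.strong_induction_on with
  | _ N ih =>
    rcases Nat.eq_zero_or_pos N with rfl | hN
    · exact h0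
    · have e := Nat.mod_add_div N q
      rw [← e]
      exact h _ _ (Nat.mod_lt _ (by omega)) (by omega) (ih _ (Nat.div_lt_self hN hq))

theorem dig_ex (hq : 1 < q) (N : ℕ) : ∃ a M, a < q ∧ N = a + q * M :=
  ⟨N % q, N / q, Nat.mod_lt _ (by omega), (Nat.mod_add_div N q).symm⟩

theorem ds_eq_zero (hq : 1 < q) {N : ℕ} (h : ds q N = 0) : N = 0 := by
  induction N using dig_ind hq with
  | h0 => rfl
  | h a N ha _ ih =>
    rw [ds_step hq ha] at h
    rw [ih (by omega)]; omega

theorem ds_pos (hq : 1 < q) {N : ℕ} (h : 0 < N) : 0 < ds q N :=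
  Nat.pos_of_ne_zero fun e => by have := ds_eq_zero hq e; omega

theorem ds_cong (hq : 1 < q) (N : ℕ) : ∃ k, N = ds q N + k * (q - 1) := by
  induction N using dig_ind hq with
  | h0 => exact ⟨0, by simp⟩
  | h a N ha _ ih =>
    obtain ⟨k, hk⟩ := ih
    obtain ⟨g, rfl⟩ : ∃ g, q = g + 1 := ⟨q - 1, by omega⟩
    refine ⟨k + N, ?_⟩
    rw [ds_step hq ha]
    simp only [Nat.add_sub_cancel] at hk ⊢
    nlinarith

theorem add_carry (hq : 1 < q) {a b e : ℕ} (ha : a < q) (hb : b < q) (he : e ≤ 1) (x y : ℕ) :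
    ∃ d e', d < q ∧ e' ≤ 1 ∧ a + b + e = d + q * e' ∧
      a + q * x + (b + q * y) + e = d + q * (x + y + e') := by
  by_cases h : a + b + e < q
  · exact ⟨_, 0, h, by omega, by omega, by ring⟩
  · refine ⟨a + b + e - q, 1, by omega, le_rfl, by omega, ?_⟩
    rw [mul_add, mul_add]; omega

theorem ds_add_le' (hq : 1 < q) (x : ℕ) : ∀ y e, e ≤ 1 → ds q (x + y + e) ≤ ds q x + ds q y + e := by
  have one : ∀ y, ds q (y + 1) ≤ ds q y + 1 := fun y => by
    induction y using dig_ind hq with
    | h0 => simp [ds_lt hq hq]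
    | h a N ha _ ih =>
      by_cases h : a + 1 < q
      · rw [show a + q * N + 1 = a + 1 + q * N by ring, ds_step hq h, ds_step hq ha]; omega
      · rw [show a + q * N + 1 = q * (N + 1) by rw [mul_add]; omega, ds_mul hq, ds_step hq ha]; omega
  induction x using dig_ind hq with
  | h0 =>
    intro y e he
    rcases Nat.le_one_iff_eq_zero_or_eq_one.1 he with rfl | rfl
    · simp
    · simpa using one y
  | h a x ha _ ih =>
    intro y e he
    obtain ⟨b, y, hb, rfl⟩ := dig_ex hq y
    obtain ⟨d, e', hd, he', h1, h2⟩ := add_carry hq ha hb he x y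
    rw [h2, ds_step hq hd, ds_step hq ha, ds_step hq hb]
    have := ih y e' he'
    have : e' ≤ q * e' := Nat.le_mul_of_pos_left _ (by omega)
    omega

theorem ds_add_le (hq : 1 < q) (x y : ℕ) : ds q (x + y) ≤ ds q x + ds q y :=
  ds_add_le' hq x y 0 (by omega)

theorem ds_carry (hq : 1 < q) (r : ℕ) : ∀ x y e, e ≤ 1 → x + y + e < q ^ (r + 1) →
    ds q x + ds q y + e ≤ ds q (x + y + e) + r * (q - 1) := by
  induction r with
  | zero =>
    intro x y e _ h
    rw [zero_add, pow_one] at h
    rw [ds_lt hq h, ds_lt hq (by omega : x < q), ds_lt hq (by omega : y < q)]; omega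
  | succ r ih =>
    intro x y e he h
    obtain ⟨a, x, ha, rfl⟩ := dig_ex hq x
    obtain ⟨b, y, hb, rfl⟩ := dig_ex hq y
    obtain ⟨d, e', hd, he', h1, h2⟩ := add_carry hq ha hb he x y
    rw [h2] at h ⊢
    rw [ds_step hq hd, ds_step hq ha, ds_step hq hb]
    have := ih x y e' he' (by
      rw [pow_succ'] at h
      exact Nat.lt_of_mul_lt_mul_left (a := q) (by omega))
    rw [add_mul]
    rcases Nat.le_one_iff_eq_zero_or_eq_one.1 he' with rfl | rfl <;> omega

theorem ds_split (hq : 1 < q) (r : ℕ) : ∀ a b, a < q ^ r → ds q (a + q ^ r * b) = ds q a + ds q b := by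
  induction r with
  | zero => intro a b h; obtain rfl : a = 0 := by simpa using h
            simp
  | succ r ih =>
    intro a b h
    obtain ⟨c, a, hc, rfl⟩ := dig_ex hq a
    rw [show c + q * a + q ^ (r + 1) * b = c + q * (a + q ^ r * b) by ring, ds_step hq hc,
      ds_step hq hc, ih a b (by
        rw [pow_succ'] at h
        exact Nat.lt_of_mul_lt_mul_left (a := q) (by omega))]
    omega

theorem ds_mod_div (hq : 1 < q) (r N : ℕ) : ds q N = ds q (N % q ^ r) + ds q (N / q ^ r) := by
  conv_lhs => rw [← Nat.mod_add_div N (q ^ r)]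
  exact ds_split hq r _ _ (Nat.mod_lt _ (by positivity))

theorem ds_mod_le (hq : 1 < q) (r N : ℕ) : ds q (N % q ^ r) ≤ ds q N := by
  rw [ds_mod_div hq r N]; omega

theorem compl_step (hq : 1 < q) {a b x y Q : ℕ} (ha : a < q) (hb : b < q)
    (h : a + q * x + (b + q * y) + 1 = q * Q) : a + b + 1 = q ∧ x + y + 1 = Q := by
  obtain ⟨d, e', hd, he', h1, h2⟩ := add_carry hq ha hb le_rfl x y
  rw [h2] at h
  have d0 : d = 0 := by
    have := congrArg (· % q) h
    simpa [Nat.mod_eq_of_lt hd] using this
  subst d0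
  rw [zero_add] at h h1
  have := Nat.eq_of_mul_eq_mul_left (by omega : 0 < q) h
  rcases Nat.le_one_iff_eq_zero_or_eq_one.1 he' with rfl | rfl <;> omega

theorem ds_compl (hq : 1 < q) (r : ℕ) : ∀ x y, x + y + 1 = q ^ r → ds q x + ds q y = r * (q - 1) := by
  induction r with
  | zero =>
    intro x y h
    obtain ⟨rfl, rfl⟩ : x = 0 ∧ y = 0 := by simp at h; omega
    simp
  | succ r ih =>
    intro x y h
    obtain ⟨a, x, ha, rfl⟩ := dig_ex hq x
    obtain ⟨b, y, hb, rfl⟩ := dig_ex hq y
    rw [pow_succ'] at h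
    obtain ⟨h1, h2⟩ := compl_step hq ha hb h
    rw [ds_step hq ha, ds_step hq hb, add_mul]
    have := ih x y h2
    omega

theorem ds_eq_one (hq : 1 < q) {N : ℕ} (h : ds q N = 1) : ∃ e, N = q ^ e := by
  induction N using dig_ind hq with
  | h0 => simp at h
  | h a N ha _ ih =>
    rw [ds_step hq ha] at h
    rcases Nat.eq_zero_or_pos a with rfl | h'
    · obtain ⟨e, rfl⟩ := ih (by omega)
      exact ⟨e + 1, by ring⟩
    · have := ds_eq_zero hq (by omega : ds q N = 0)
      exact ⟨0, by subst this; rw [pow_zero]; omega⟩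

/-- A number below `q ^ (r + 1)` is at most its digit sum times `q ^ r`. -/
theorem le_ds_mul (hq : 1 < q) (r : ℕ) : ∀ N, N < q ^ (r + 1) → N ≤ ds q N * q ^ r := by
  induction r with
  | zero => intro N h; rw [ds_lt hq (by simpa using h)]; simp
  | succ r ih =>
    intro N h
    obtain ⟨a, N, ha, rfl⟩ := dig_ex hq N
    have := ih N (by
      rw [pow_succ'] at h
      exact Nat.lt_of_mul_lt_mul_left (a := q) (by omega))
    rw [ds_step hq ha, pow_succ', add_mul]
    have h1 : a ≤ a * (q * q ^ r) := Nat.le_mul_of_pos_right _ (by positivity)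
    nlinarith

theorem ds_ge_of_dvd (hq : 1 < q) {N : ℕ} (h0 : 0 < N) (h : q - 1 ∣ N) : q - 1 ≤ ds q N := by
  obtain ⟨k, hk⟩ := ds_cong hq N
  refine Nat.le_of_dvd (ds_pos hq h0) ?_
  rw [hk] at h
  exact (Nat.dvd_add_left (Dvd.intro_left k rfl)).1 h

/-- Kummer. -/
theorem kummer [hp : Fact q.Prime] (x y : ℕ) :
    ¬ q ∣ (x + y).choose y ↔ ds q x + ds q y = ds q (x + y) := by
  have hq := hp.out.one_lt
  have k := sub_one_mul_padicValNat_choose_eq_sub_sum_digits' (p := q) (k := y) (n := x)
  have s := ds_add_le hq x y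
  have n0 : (x + y).choose y ≠ 0 := (Nat.choose_pos (by omega)).ne'
  change _ = ds q y + ds q x - ds q (x + y) at k
  rw [dvd_iff_padicValNat_ne_zero n0, not_not]
  constructor
  · intro h; rw [h] at k; omega
  · intro h
    have : (q - 1) * padicValNat q ((x + y).choose y) = 0 := by omega
    rcases Nat.mul_eq_zero.1 this with h | h <;> omega

/-! ### Top parts -/

/-- The largest number at most `N` with digit sum at most `c`. -/
def top (q N c : ℕ) : ℕ := Nat.findGreatest (fun x => ds q x ≤ c) N

theorem top_le (N c : ℕ) : top q N c ≤ N := Nat.findGreatest_le N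

theorem ds_top_le (N c : ℕ) : ds q (top q N c) ≤ c :=
  Nat.findGreatest_spec (P := fun x => ds q x ≤ c) (Nat.zero_le N) (by simp)

theorem le_top' {N c x : ℕ} (h : x ≤ N) (h' : ds q x ≤ c) : x ≤ top q N c :=
  Nat.le_findGreatest (P := fun x => ds q x ≤ c) h h'

theorem top_eq {N c x : ℕ} (h : x ≤ N) (h' : ds q x ≤ c) (hm : ∀ y ≤ N, ds q y ≤ c → y ≤ x) :
    top q N c = x := le_antisymm (hm _ (top_le N c) (ds_top_le N c)) (le_top' h h')

theorem top_all {N c : ℕ} (h : ds q N ≤ c) : top q N c = N := top_eq le_rfl h fun _ h _ => h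

theorem top_zero (hq : 1 < q) (N : ℕ) : top q N 0 = 0 :=
  ds_eq_zero hq (Nat.le_zero.1 (ds_top_le N 0))

theorem top_high (hq : 1 < q) {a N c : ℕ} (ha : a < q) (h : c ≤ ds q N) :
    top q (a + q * N) c = q * top q N c := by
  refine top_eq ((Nat.mul_le_mul_left _ (top_le N c)).trans (by omega))
    (by rw [ds_mul hq]; exact ds_top_le N c) fun y hy hc => ?_
  obtain ⟨b, y, hb, rfl⟩ := dig_ex hq y
  rw [ds_step hq hb] at hc
  have yN : y ≤ N := Nat.le_of_lt_succ (Nat.lt_of_mul_lt_mul_left (a := q) (by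
    rw [Nat.mul_succ]; omega))
  rcases Nat.eq_zero_or_pos b with rfl | b0
  · simpa using Nat.mul_le_mul_left q (le_top' yN (by omega))
  · have : y ≠ N := by rintro rfl; omega
    have h1 := ds_add_le hq y 1
    rw [ds_lt hq hq] at h1
    have := Nat.mul_le_mul_left q (le_top' (q := q) (c := c) (by omega : y + 1 ≤ N) (by omega))
    rw [mul_add] at this; omega

theorem top_low (hq : 1 < q) {a N i : ℕ} (ha : a < q) (h : i ≤ a) :
    top q (a + q * N) (ds q N + i) = i + q * N := by
  refine top_eq (by omega) (by rw [ds_step hq (by omega)]; omega) fun y hy hc => ?_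
  obtain ⟨b, y, hb, rfl⟩ := dig_ex hq y
  rw [ds_step hq hb] at hc
  have yN : y ≤ N := Nat.le_of_lt_succ (Nat.lt_of_mul_lt_mul_left (a := q) (by
    rw [Nat.mul_succ]; omega))
  rcases yN.eq_or_lt with rfl | h'
  · omega
  · have := Nat.mul_le_mul_left q (Nat.succ_le_of_lt h')
    rw [Nat.mul_succ] at this; omega

theorem top_spec (hq : 1 < q) (N : ℕ) : ∀ c, c ≤ ds q N →
    ds q (top q N c) = c ∧ ds q (N - top q N c) + c = ds q N := by
  induction N using dig_ind hq with
  | h0 => intro c h; obtain rfl : c = 0 := by simpa using h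
          simp [top_zero hq]
  | h a N ha _ ih =>
    intro c h
    rw [ds_step hq ha] at h ⊢
    rcases le_total c (ds q N) with h' | h'
    · obtain ⟨h1, h2⟩ := ih c h'
      rw [top_high hq ha h', ds_mul hq]
      refine ⟨h1, ?_⟩
      have := Nat.mul_le_mul_left q (top_le (q := q) N c)
      rw [show a + q * N - q * top q N c = a + q * (N - top q N c) by rw [Nat.mul_sub]; omega,
        ds_step hq ha]
      omega
    · obtain ⟨i, rfl⟩ := Nat.exists_eq_add_of_le h'
      rw [top_low hq ha (by omega), ds_step hq (by omega : i < q),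
        show a + q * N - (i + q * N) = a - i by omega, ds_lt hq (by omega : a - i < q)]
      omega

theorem top_mono (N : ℕ) {c c' : ℕ} (h : c ≤ c') : top q N c ≤ top q N c' :=
  le_top' (top_le _ _) ((ds_top_le _ _).trans h)

theorem top_top (N : ℕ) {c c' : ℕ} (h : c ≤ c') : top q (top q N c') c = top q N c :=
  top_eq (top_mono N h) (ds_top_le _ _) fun _ hy hc => le_top' (hy.trans (top_le _ _)) hc

theorem top_add_le (hq : 1 < q) {N m c : ℕ} (hm : m ≤ N) (c' : ℕ) (h : ds q m ≤ c) :
    m + top q (N - m) c' ≤ top q N (c + c') := by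
  have := top_le (q := q) (N - m) c'
  have h2 := ds_top_le (q := q) (N - m) c'
  exact le_top' (by omega) ((ds_add_le hq _ _).trans (by omega))

theorem top_add (hq : 1 < q) (N c c' : ℕ) :
    top q N c + top q (N - top q N c) c' = top q N (c + c') := by
  refine le_antisymm (top_add_le hq (top_le _ _) c' (ds_top_le _ _)) ?_
  have m := top_mono (q := q) N (Nat.le_add_right c c')
  have l := top_le (q := q) N (c + c')
  suffices h : top q N (c + c') - top q N c ≤ top q (N - top q N c) c' by omega
  refine le_top' (by omega) ?_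
  have d := ds_top_le (q := q) N (c + c')
  rcases le_total c (ds q (top q N (c + c'))) with h | h
  · have := (top_spec hq _ c h).2
    rw [top_top N (Nat.le_add_right c c')] at this
    omega
  · have := top_all h
    rw [top_top N (Nat.le_add_right c c')] at this
    rw [this]; simp

theorem top_lt (hq : 1 < q) {N c c' : ℕ} (h : c < c') (h' : top q N c' < N) :
    top q N c < top q N c' := by
  have h1 : c' ≤ ds q N := by
    by_contra e
    rw [top_all (by omega)] at h'; omega
  refine (top_mono N h.le).lt_of_ne fun e => ?_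
  have := (top_spec hq N c' h1).1
  have := ds_top_le (q := q) N c
  rw [e] at this; omega

theorem low_le' (hq : 1 < q) (N : ℕ) (h : q - 1 ≤ ds q N) :
    q * (N - top q N (q - 1)) + (q - 1) ≤ N := by
  induction N using dig_ind hq with
  | h0 => simp at h ⊢; omega
  | h a N ha _ ih =>
    rcases le_total (q - 1) (ds q N) with h' | h'
    · have i := ih h'
      have := Nat.mul_le_mul_left q (top_le (q := q) N (q - 1))
      rw [top_high hq ha h',
        show a + q * N - q * top q N (q - 1) = a + q * (N - top q N (q - 1)) by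
          rw [Nat.mul_sub]; omega]
      generalize N - top q N (q - 1) = f at i
      obtain ⟨g, rfl⟩ : ∃ g, q = g + 1 := ⟨q - 1, by omega⟩
      simp only [Nat.add_sub_cancel] at i ⊢
      have : a ≤ g := by omega
      nlinarith
    · obtain ⟨i, hi⟩ := Nat.exists_eq_add_of_le h'
      rw [ds_step hq ha] at h
      have l := ds_le (q := q) N
      rw [hi, top_low hq ha (by omega), show a + q * N - (i + q * N) = a - i by omega]
      obtain ⟨x, rfl⟩ := Nat.exists_eq_add_of_le (by omega : i ≤ a)
      rw [Nat.add_sub_cancel_left]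
      generalize ds q N = l' at *
      obtain rfl : q = l' + i + 1 := by omega
      have : x ≤ l' := by omega
      nlinarith

theorem low_le (hq : 1 < q) (N : ℕ) : q * (N - top q N (q - 1)) ≤ N := by
  rcases le_total (q - 1) (ds q N) with h | h
  · have := low_le' hq N h; omega
  · rw [top_all h]; simp

/-- The part of `N` below its top `s (q - 1)` units. -/
def low (q N s : ℕ) : ℕ := N - top q N (s * (q - 1))

theorem low_zero (hq : 1 < q) (N : ℕ) : low q N 0 = N := by simp [low, top_zero hq]

theorem low_succ (hq : 1 < q) (N s : ℕ) :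
    low q N (s + 1) = low q (N - top q N (q - 1)) s := by
  have := top_add hq N (q - 1) (s * (q - 1))
  rw [low, low, add_mul, one_mul, add_comm, ← this]; omega

theorem low_succ' (hq : 1 < q) (N s : ℕ) :
    low q N (s + 1) = low q N s - top q (low q N s) (q - 1) := by
  have := top_add hq N (s * (q - 1)) (q - 1)
  rw [low, low, add_mul, one_mul, ← this]; omega

theorem low_sum (hq : 1 < q) (k : ℕ) : ∀ N,
    (q - 1) * ∑ s ∈ Finset.range k, low q N (s + 1) + low q N k ≤ N := by
  induction k with
  | zero => intro N; simp [low_zero hq]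
  | succ k ih =>
    intro N
    have h := ih N
    have l := low_le hq (low q N k)
    rw [← low_succ' hq] at l
    rw [Finset.sum_range_succ, mul_add]
    obtain ⟨g, rfl⟩ : ∃ g, q = g + 1 := ⟨q - 1, by omega⟩
    simp only [Nat.add_sub_cancel] at h ⊢
    nlinarith

/-! ### The greedy splitting -/

theorem greedy (hq : 1 < q) (N : ℕ) : ∀ f, f < q → ∃ a u m, u ≤ f ∧ a + u + q * m = N ∧
    ds q a + ds q m = ds q (a + m) ∧
    (∀ a', (∀ r, ds q (N % q ^ (r + 1)) ≤ f + r * (q - 1) + a' / q ^ r % q) → a ≤ a') ∧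
    ∀ n D, N + D + 1 = q ^ n → (q ^ n + f ≤ (q - 1) * a + N + q ↔ f + ds q D < q) := by
  have base : ∀ N f, f < q → N % q ≤ f → ∀ n D, N + D + 1 = q ^ n →
      (q ^ n + f ≤ (q - 1) * 0 + N + q ↔ f + ds q D < q) := by
    intro N f hf h n D e
    have l := ds_le (q := q) D
    refine ⟨fun h => by omega, fun h' => ?_⟩
    rcases n with _ | n
    · rw [pow_zero] at e ⊢; omega
    obtain ⟨a, x, ha, rfl⟩ := dig_ex hq N
    obtain ⟨b, y, hb, rfl⟩ := dig_ex hq D
    rw [pow_succ'] at e ⊢
    obtain ⟨h1, h2⟩ := compl_step hq ha hb e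
    rw [Nat.add_mul_mod_self_left, Nat.mod_eq_of_lt ha] at h
    rw [ds_step hq hb] at h'
    obtain rfl := ds_eq_zero hq (by omega : ds q y = 0)
    omega
  induction N using dig_ind hq with
  | h0 => exact fun f hf => ⟨0, 0, 0, by omega, by simp, by simp, by simp, base 0 f hf (by simp)⟩
  | h c N hc _ ih =>
    intro f hf
    by_cases h : c ≤ f
    · exact ⟨0, c, N, h, by simp, by simp, by simp,
        base _ f hf (by rwa [Nat.add_mul_mod_self_left, Nat.mod_eq_of_lt hc])⟩
    obtain ⟨i, rfl⟩ := Nat.exists_eq_add_of_lt (not_le.1 h)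
    obtain ⟨j, hj⟩ := Nat.exists_eq_add_of_lt hc
    obtain ⟨a, u, m, h1, h2, h3, h4, h5⟩ := ih (f + j) (by omega)
    refine ⟨i + 1 + q * a, f, u + q * m, le_rfl, by rw [← h2]; ring, ?_, fun a' ha' => ?_,
      fun n D e => ?_⟩
    · rw [ds_step hq (by omega), ds_step hq (by omega),
        show i + 1 + q * a + (u + q * m) = i + 1 + u + q * (a + m) by ring, ds_step hq (by omega)]
      omega
    · have a0 := ha' 0
      rw [zero_add, pow_one, Nat.add_mul_mod_self_left, Nat.mod_eq_of_lt hc, ds_lt hq hc,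
        pow_zero, Nat.div_one] at a0
      have := h4 (a' / q) fun r => by
        have := ha' (r + 1)
        rw [pow_succ' q (r + 1), Nat.mod_mul, Nat.add_mul_mod_self_left, Nat.mod_eq_of_lt hc,
          Nat.add_mul_div_left _ _ (by omega), Nat.div_eq_of_lt hc, zero_add, ds_step hq hc,
          pow_succ' q r, ← Nat.div_div_eq_div_mul, add_mul, ← pow_succ'] at this
        omega
      have e := Nat.mod_add_div a' q
      have := Nat.mul_le_mul_left q this
      omega
    · rcases n with _ | n
      · rw [pow_zero] at e; omega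
      obtain ⟨b, y, hb, rfl⟩ := dig_ex hq D
      rw [pow_succ'] at e ⊢
      obtain ⟨e1, e2⟩ := compl_step hq hc hb e
      have := h5 n y e2
      rw [ds_step hq hb]
      obtain rfl : b = j := by omega
      rw [← add_assoc f b, ← this]
      obtain ⟨g, rfl⟩ : ∃ g, q = g + 1 := ⟨q - 1, by omega⟩
      simp only [Nat.add_sub_cancel]
      generalize (g + 1) ^ n = Q
      obtain rfl : g = f + i + 1 + b := by omega
      constructor
      · intro h
        refine Nat.le_of_mul_le_mul_left (c := f + i + 1 + b + 1) ?_ (by omega)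
        nlinarith
      · intro h
        have := Nat.mul_le_mul_left (f + i + 1 + b + 1) h
        nlinarith

end Pool.Agent.P.MP_8c9ada_nt.Cl
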