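import Pool.Agent.P.MP_8c9ada_nt.C1

/-! Additive power series, their inverses, and supports. -/

set_option autoImplicit false
set_option linter.unusedSectionVars false

namespace Pool.Agent.P.MP_8c9ada_nt.Cl

open PowerSeries

variable {q : ℕ} {A B : Type*} [CommRing A] [CommRing B]

/-- The additive series with coefficients `g`. -/
noncomputable def U (q : ℕ) (g : ℕ → A) : A⟦X⟧ :=
  mk fun N => if N = q ^ Nat.log q N then g (Nat.log q N) else 0

theorem coeff_U_pow (hq : 1 < q) (g : ℕ → A) (i : ℕ) : coeff (q ^ i) (U q g) = g i := by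
  rw [U, coeff_mk, Nat.log_pow hq, if_pos rfl]

theorem coeff_U_ne (g : ℕ → A) {N : ℕ} (h : ∀ i, N ≠ q ^ i) : coeff N (U q g) = 0 := by
  rw [U, coeff_mk, if_neg (h _)]

theorem U_ext (hq : 1 < q) {f : A⟦X⟧} {g : ℕ → A} (h1 : ∀ i, coeff (q ^ i) f = g i)
    (h2 : ∀ N, (∀ i, N ≠ q ^ i) → coeff N f = 0) : f = U q g := by
  ext N
  by_cases h : ∃ i, N = q ^ i
  · obtain ⟨i, rfl⟩ := h; rw [h1, coeff_U_pow hq]
  · push Not at h; rw [h2 N h, coeff_U_ne g h]

theorem U_supp (hq : 1 < q) {g : ℕ → A} {N : ℕ} (h : coeff N (U q g) ≠ 0) :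
    ∃ i, N = q ^ i ∧ coeff N (U q g) = g i := by
  by_contra c
  exact h (coeff_U_ne g fun i e => c ⟨i, e, by rw [e, coeff_U_pow hq]⟩)

theorem const_U (hq : 1 < q) (g : ℕ → A) : constantCoeff (U q g) = 0 := by
  rw [← coeff_zero_eq_constantCoeff_apply]
  exact coeff_U_ne g fun i => (pow_pos (by omega) i).ne

theorem map_U (hq : 1 < q) (φ : A →+* B) (g : ℕ → A) : map φ (U q g) = U q fun i => φ (g i) :=
  U_ext hq (fun i => by rw [coeff_map, coeff_U_pow hq])
    fun N h => by rw [coeff_map, coeff_U_ne g h, map_zero]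

theorem rescale_U (hq : 1 < q) (c : A) (g : ℕ → A) :
    rescale c (U q g) = U q fun i => c ^ q ^ i * g i :=
  U_ext hq (fun i => by rw [coeff_rescale, coeff_U_pow hq])
    fun N h => by rw [coeff_rescale, coeff_U_ne g h, mul_zero]

theorem U_add (hq : 1 < q) (g g' : ℕ → A) : U q g + U q g' = U q fun i => g i + g' i :=
  U_ext hq (fun i => by rw [map_add, coeff_U_pow hq, coeff_U_pow hq])
    fun N h => by rw [map_add, coeff_U_ne g h, coeff_U_ne g' h, add_zero]

/-- The inverse of `1 - g`. -/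
noncomputable def inv1 (g : A⟦X⟧) : A⟦X⟧ := Ring.inverse (1 - g)

theorem inv1_mul {g : A⟦X⟧} (h : constantCoeff g = 0) : inv1 g * (1 - g) = 1 :=
  Ring.inverse_mul_cancel _ (isUnit_iff_constantCoeff.2 (by simp [h]))

theorem eq_inv1 {f g : A⟦X⟧} (h : f * (1 - g) = 1) : f = inv1 g := by
  have u : IsUnit (1 - g) := IsUnit.of_mul_eq_one_right _ h
  calc f = f * ((1 - g) * inv1 g) := by rw [inv1, Ring.mul_inverse_cancel _ u, mul_one]
    _ = _ := by rw [← mul_assoc, h, one_mul]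

theorem map_inv1 (Φ : A⟦X⟧ →+* B⟦X⟧) {g : A⟦X⟧} (h : constantCoeff g = 0) :
    Φ (inv1 g) = inv1 (Φ g) := eq_inv1 (by simpa using congrArg Φ (inv1_mul h))

theorem const_inv1 {g : A⟦X⟧} (h : constantCoeff g = 0) : constantCoeff (inv1 g) = 1 := by
  simpa [h] using congrArg constantCoeff (inv1_mul h)

theorem geom {f g h : A⟦X⟧} (hg : constantCoeff g = 0) (e : f * (1 - g) = h) {n M : ℕ}
    (hM : n < M) : coeff n f = ∑ a ∈ Finset.range M, coeff n (h * g ^ a) := by
  rw [← map_sum, ← Finset.mul_sum, ← e, mul_assoc, mul_neg_geom_sum, mul_sub, mul_one, map_sub,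
    X_pow_dvd_iff.1 (Dvd.dvd.mul_left (pow_dvd_pow_of_dvd (X_dvd_iff.2 hg) M) f) n hM, sub_zero]

/-- The series `X / u`. -/
noncomputable def Qs (u : A⟦X⟧) : A⟦X⟧ := inv1 (1 - mk fun N => coeff (N + 1) u)

theorem Qs_mul {u : A⟦X⟧} (h0 : constantCoeff u = 0) (h1 : coeff 1 u = 1) : Qs u * u = X := by
  have e := inv1_mul (g := 1 - mk fun N => coeff (N + 1) u) (by
    rw [map_sub, ← coeff_zero_eq_constantCoeff_apply (mk _), coeff_mk, h1]; simp)
  have := eq_X_mul_shift_add_const u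
  rw [h0, map_zero, add_zero] at this
  rw [sub_sub_cancel] at e
  rw [Qs]
  conv_lhs => enter [2]; rw [this]
  rw [mul_left_comm, e, mul_one]

theorem eq_Qs {f u : A⟦X⟧} (h0 : constantCoeff u = 0) (h : f * u = X) : f = Qs u := by
  refine eq_inv1 ?_
  have := eq_X_mul_shift_add_const u
  rw [h0, map_zero, add_zero] at this
  rw [sub_sub_cancel]
  apply X_mul_cancel
  rw [mul_left_comm, ← this, h, mul_one]

theorem map_Qs (φ : A →+* B) {u : A⟦X⟧} (h0 : constantCoeff u = 0) (h1 : coeff 1 u = 1) :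
    map φ (Qs u) = Qs (map φ u) :=
  eq_Qs (by rw [← coeff_zero_eq_constantCoeff_apply, coeff_map, coeff_zero_eq_constantCoeff_apply,
    h0, map_zero]) (by rw [← map_mul, Qs_mul h0 h1, map_X])

/-! ### Supports -/

/-- All exponents have digit sum at most `L`. -/
def LL (q L : ℕ) (f : A⟦X⟧) : Prop := ∀ N, coeff N f ≠ 0 → ds q N ≤ L

theorem mul_supp {f g : A⟦X⟧} {N : ℕ} (h : coeff N (f * g) ≠ 0) :
    ∃ i j, i + j = N ∧ coeff i f ≠ 0 ∧ coeff j g ≠ 0 := by
  rw [coeff_mul] at h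
  obtain ⟨⟨i, j⟩, h1, h2⟩ := Finset.exists_ne_zero_of_sum_ne_zero h
  exact ⟨i, j, Finset.HasAntidiagonal.mem_antidiagonal.1 h1, left_ne_zero_of_mul h2, right_ne_zero_of_mul h2⟩

theorem add_supp {f g : A⟦X⟧} {N : ℕ} (h : coeff N (f + g) ≠ 0) :
    coeff N f ≠ 0 ∨ coeff N g ≠ 0 := by
  by_contra c; push Not at c
  exact h (by rw [map_add, c.1, c.2, add_zero])

namespace LL
variable {L L' : ℕ} {f g : A⟦X⟧}

theorem one : LL q L (1 : A⟦X⟧) := fun N h => by
  rw [coeff_one] at h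
  obtain rfl : N = 0 := by by_contra c; exact h (if_neg c)
  simp

theorem mono (h : LL q L f) (l : L ≤ L') : LL q L' f := fun N e => (h N e).trans l

theorem mul (hq : 1 < q) (h : LL q L f) (h' : LL q L' g) : LL q (L + L') (f * g) := fun N e => by
  obtain ⟨i, j, rfl, a, b⟩ := mul_supp e
  exact (ds_add_le hq i j).trans (add_le_add (h i a) (h' j b))

theorem add (h : LL q L f) (h' : LL q L g) : LL q L (f + g) := fun N e =>
  (add_supp e).elim (h N) (h' N)

theorem neg (h : LL q L f) : LL q L (-f) := fun N e => h N (by simpa using e)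

theorem sub (h : LL q L f) (h' : LL q L g) : LL q L (f - g) := by
  rw [sub_eq_add_neg]; exact h.add h'.neg

theorem pow (hq : 1 < q) (h : LL q 1 f) (n : ℕ) : LL q n (f ^ n) := by
  induction n with
  | zero => rw [pow_zero]; exact one
  | succ n ih => rw [pow_succ]; exact ih.mul hq h

theorem U (hq : 1 < q) (g : ℕ → A) : LL q 1 (U q g) := fun N e => by
  obtain ⟨i, rfl, -⟩ := U_supp hq e
  exact (ds_pow hq i).le

end LL

/-- Support condition in two variables. -/
def S2 (S : ℕ → ℕ → Prop) (f : (Polynomial A)⟦X⟧) : Prop :=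
  ∀ K o, (coeff K f).coeff o ≠ 0 → S K o

theorem S2.mul {S T R : ℕ → ℕ → Prop} {f g : (Polynomial A)⟦X⟧} (hf : S2 S f) (hg : S2 T g)
    (h : ∀ K o K' o', S K o → T K' o' → R (K + K') (o + o')) : S2 R (f * g) := fun K o e => by
  rw [coeff_mul, Polynomial.finsetSum_coeff] at e
  obtain ⟨⟨i, j⟩, h1, h2⟩ := Finset.exists_ne_zero_of_sum_ne_zero e
  rw [Polynomial.coeff_mul] at h2
  obtain ⟨⟨a, b⟩, h3, h4⟩ := Finset.exists_ne_zero_of_sum_ne_zero h2
  rw [← Finset.HasAntidiagonal.mem_antidiagonal.1 h1, ← Finset.HasAntidiagonal.mem_antidiagonal.1 h3]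
  exact h _ _ _ _ (hf _ _ (left_ne_zero_of_mul h4)) (hg _ _ (right_ne_zero_of_mul h4))

theorem S2.one {S : ℕ → ℕ → Prop} (h : S 0 0) : S2 S (1 : (Polynomial A)⟦X⟧) := fun K o e => by
  rw [coeff_one] at e
  obtain rfl : K = 0 := by by_contra c; simp [c] at e
  rw [if_pos rfl, Polynomial.coeff_one] at e
  obtain rfl : o = 0 := by by_contra c; simp [c] at e
  exact h

/-- Degree bound: `a` times the degree of the coefficient of `x ^ K` is at most `K`. -/
def Dg (a : ℕ) (f : (Polynomial A)⟦X⟧) : Prop := S2 (fun K o => a * o ≤ K) f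

namespace Dg
variable {a : ℕ} {f g : (Polynomial A)⟦X⟧}

theorem mul (h : Dg a f) (h' : Dg a g) : Dg a (f * g) :=
  S2.mul h h' fun _ _ _ _ x y => by rw [mul_add]; omega

theorem pow (h : Dg a f) (n : ℕ) : Dg a (f ^ n) := by
  induction n with
  | zero => rw [pow_zero]; exact S2.one (by simp)
  | succ n ih => rw [pow_succ]; exact ih.mul h

theorem inv1 (h : Dg a g) (h0 : constantCoeff g = 0) : Dg a (inv1 g) := fun K o e => by
  rw [geom h0 (inv1_mul h0) (Nat.lt_succ_self K), Polynomial.finsetSum_coeff] at e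
  obtain ⟨i, -, h2⟩ := Finset.exists_ne_zero_of_sum_ne_zero e
  rw [one_mul] at h2
  exact h.pow i K o h2

theorem deg (h : Dg a f) (K : ℕ) : a * (coeff K f).natDegree ≤ K := by
  by_cases z : coeff K f = 0
  · simp [z]
  · exact h K _ (Polynomial.leadingCoeff_ne_zero.2 z)

theorem U (hq : 1 < q) {g : ℕ → Polynomial A} (h : ∀ i, a * (g i).natDegree ≤ q ^ i) :
    Dg a (U q g) := fun K o e => by
  obtain ⟨i, rfl, h2⟩ := U_supp hq (g := g) (N := K) fun z => by simp [z] at e
  rw [h2] at e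
  exact (Nat.mul_le_mul_left a (Polynomial.le_natDegree_of_ne_zero e)).trans (h i)

theorem Qs (hq : 1 < q) {g : ℕ → Polynomial A} (h0 : g 0 = 1)
    (h : ∀ i, a * (g i).natDegree + 1 ≤ q ^ i) : Dg a (Qs (Cl.U q g)) := by
  have h1 : coeff 1 (Cl.U q g) = 1 := by rw [← h0, ← coeff_U_pow hq g 0, pow_zero]
  refine Dg.inv1 (fun K o e => ?_) (by
    rw [map_sub, ← coeff_zero_eq_constantCoeff_apply (mk _), coeff_mk, h1]; simp)
  rw [map_sub, coeff_mk] at e
  rcases K with _ | K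
  · simp [h1] at e
  rw [coeff_one, if_neg (by omega), zero_sub, Polynomial.coeff_neg, neg_ne_zero] at e
  obtain ⟨i, h3, h2⟩ := U_supp hq (g := g) (N := K + 1 + 1) fun z => by simp [z] at e
  rw [h2] at e
  have := Nat.mul_le_mul_left a (Polynomial.le_natDegree_of_ne_zero e)
  have := h i
  show a * o ≤ K + 1
  omega

end Dg

/-! ### Expansion -/

variable [hp : Fact q.Prime]

theorem q1 : 1 < q := hp.out.one_lt

/-- The substitution of `x ^ q` for `x`. -/
noncomputable def ex (q : ℕ) [hp : Fact q.Prime] : A⟦X⟧ →ₐ[A] A⟦X⟧ := expand q hp.out.ne_zero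

theorem coeff_ex (f : A⟦X⟧) (n : ℕ) :
    coeff n (ex q f) = if q ∣ n then coeff (n / q) f else 0 := coeff_expand _ _ _

theorem coeff_ex_mul (f : A⟦X⟧) (n : ℕ) : coeff (q * n) (ex q f) = coeff n f :=
  coeff_expand_mul _ _ _ _

theorem ex_supp {f : A⟦X⟧} {n : ℕ} (h : coeff n (ex q f) ≠ 0) : ∃ m, n = q * m ∧ coeff m f ≠ 0 := by
  rw [coeff_ex] at h
  split_ifs at h with d
  · obtain ⟨m, rfl⟩ := d
    exact ⟨m, rfl, by rwa [Nat.mul_div_cancel_left _ hp.out.pos] at h⟩
  · exact absurd rfl h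

theorem U_eq (g : ℕ → A) : U q g = C (g 0) * X + ex q (U q fun i => g (i + 1)) := by
  have hq := q1 (q := q)
  refine (U_ext hq (fun i => ?_) fun N h => ?_).symm
  · rw [map_add, coeff_C_mul, coeff_X]
    rcases i with _ | i
    · rw [pow_zero, if_pos rfl, coeff_ex, if_neg (by rw [Nat.dvd_one]; omega)]; simp
    · rw [if_neg (Nat.one_lt_pow (by omega) hq).ne', pow_succ', coeff_ex_mul, coeff_U_pow hq]; simp
  · rw [map_add, coeff_C_mul, coeff_X, if_neg (by simpa using h 0), mul_zero, zero_add]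
    by_contra c
    obtain ⟨m, rfl, hm⟩ := ex_supp c
    obtain ⟨i, rfl, -⟩ := U_supp hq hm
    exact h (i + 1) (by ring)

theorem const_ex (f : A⟦X⟧) : constantCoeff (ex q f) = constantCoeff f :=
  constantCoeff_expand _ _ _

theorem const_rescale (c : A) (f : A⟦X⟧) : constantCoeff (rescale c f) = constantCoeff f := by
  rw [← coeff_zero_eq_constantCoeff_apply, coeff_rescale]; simp

theorem coeff_exr (c : A) (f : A⟦X⟧) (n : ℕ) : coeff n (ex q (rescale c f)) =
    if q ∣ n then c ^ (n / q) * coeff (n / q) f else 0 := by rw [coeff_ex, coeff_rescale]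

theorem E1 (c : A) {H : A⟦X⟧} (h0 : constantCoeff H = 0) (N : ℕ) :
    coeff N (inv1 (X + ex q (rescale c H))) = ∑ a ∈ Finset.range (N + 1),
      if q ∣ N - a then c ^ ((N - a) / q) * coeff ((N - a) / q) (inv1 H ^ (a + 1)) else 0 := by
  have e0 : constantCoeff (ex q (rescale c H)) = 0 := by rw [const_ex, const_rescale, h0]
  have v := inv1_mul e0
  have w := inv1_mul (g := X + ex q (rescale c H)) (by simp [e0])
  have hv : inv1 (ex q (rescale c H)) = ex q (rescale c (inv1 H)) :=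
    (map_inv1 ((ex q : A⟦X⟧ →ₐ[A] A⟦X⟧).toRingHom.comp (rescale c)) h0).symm
  rw [geom (g := X * inv1 (ex q (rescale c H))) (h := inv1 (ex q (rescale c H))) (by simp)
    (by linear_combination inv1 (ex q (rescale c H)) * w - inv1 (X + ex q (rescale c H)) * v)
    (Nat.lt_succ_self N)]
  refine Finset.sum_congr rfl fun a ha => ?_
  rw [mul_pow, mul_left_comm, ← pow_succ', coeff_X_pow_mul', if_pos (by simpa using ha), hv,
    ← map_pow, ← map_pow, coeff_exr]

theorem E2 (c : A) {H : A⟦X⟧} (h0 : constantCoeff H = 0) {n M : ℕ} (hM : n < M) :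
    coeff n (Qs (X + ex q (rescale c H))) = ∑ b ∈ Finset.range M,
      if q ∣ n + b then (-1) ^ b * (c ^ ((n + b) / q) * coeff ((n + b) / q) (H ^ b)) else 0 := by
  have hq := q1 (q := q)
  have e0 : constantCoeff (ex q (rescale c H)) = 0 := by rw [const_ex, const_rescale, h0]
  have e1 : coeff 1 (ex q (rescale c H)) = 0 := by
    rw [coeff_ex, if_neg (by rw [Nat.dvd_one]; omega)]
  obtain ⟨g, hg⟩ := X_dvd_iff.2 e0
  have g0 : constantCoeff g = 0 := by
    rw [hg, coeff_succ_X_mul] at e1; simpa using e1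
  have w := Qs_mul (u := X + ex q (rescale c H)) (by simp [e0]) (by simp [e1])
  rw [geom (g := -g) (h := 1) (by simp [g0]) (X_mul_cancel (by
    rw [hg] at w ⊢; linear_combination w)) hM]
  refine Finset.sum_congr rfl fun b _ => ?_
  have : coeff n (g ^ b) = coeff (n + b) (ex q (rescale c (H ^ b))) := by
    rw [map_pow (rescale c), map_pow (ex q), hg, mul_pow, coeff_X_pow_mul]
  rw [one_mul, neg_pow, show (-1 : A⟦X⟧) ^ b = C ((-1) ^ b) by simp, coeff_C_mul, this, coeff_exr]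
  split_ifs <;> simp

variable [CharP A q]

theorem pow_q (f : A⟦X⟧) : f ^ q = ex q (map (frobenius A q) f) := by
  rw [ex, ← map_expand]
  exact (MvPowerSeries.map_frobenius_expand q hp.out.ne_zero).symm

instance : CharP A⟦X⟧ q := charP_of_injective_algebraMap (R := A) C_injective q

theorem U_pow (g : ℕ → A) : U q g ^ q = ex q (U q fun i => g i ^ q) := by
  rw [pow_q, map_U q1]; rfl

theorem frob_supp {f : A⟦X⟧} {N : ℕ} (h : coeff N (f ^ q) ≠ 0) :
    ∃ m, N = q * m ∧ coeff m f ≠ 0 := by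
  rw [pow_q] at h
  obtain ⟨m, rfl, hm⟩ := ex_supp h
  exact ⟨m, rfl, fun z => hm (by rw [coeff_map, z, map_zero])⟩

theorem frob_supp' (r : ℕ) {f : A⟦X⟧} : ∀ {N : ℕ}, coeff N (f ^ q ^ r) ≠ 0 →
    ∃ m, N = q ^ r * m ∧ coeff m f ≠ 0 := by
  induction r with
  | zero => intro N h; exact ⟨N, by simp, by simpa using h⟩
  | succ r ih =>
    intro N h
    rw [pow_succ, pow_mul] at h
    obtain ⟨m, rfl, hm⟩ := frob_supp h
    obtain ⟨m', rfl, hm'⟩ := ih hm
    exact ⟨m', by ring, hm'⟩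

theorem LL.frob {L : ℕ} {f : A⟦X⟧} (h : LL q L f) : LL q L (f ^ q) := fun N e => by
  obtain ⟨m, rfl, hm⟩ := frob_supp e
  rw [ds_mul q1]; exact h m hm

theorem LL.pow_ds (b : ℕ) : ∀ {f : A⟦X⟧}, LL q 1 f → LL q (ds q b) (f ^ b) := by
  induction b using dig_ind (q1 (q := q)) with
  | h0 => intro f _; rw [pow_zero]; exact LL.one
  | h a N ha _ ih =>
    intro f h
    rw [ds_step q1 ha, pow_add, pow_mul]
    exact (h.pow q1 a).mul q1 (ih h.frob)

theorem Vp {H : A⟦X⟧} (h0 : constantCoeff H = 0) (h : LL q 1 H) {a m : ℕ}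
    (e : coeff m (inv1 H ^ (a + 1)) ≠ 0) (r : ℕ) :
    ds q (m % q ^ r) + ds q (a % q ^ r) ≤ r * (q - 1) := by
  have hq := q1 (q := q)
  have l := Nat.mod_lt a (pow_pos hp.out.pos r)
  obtain ⟨D, hD⟩ := Nat.exists_eq_add_of_lt l
  have c := ds_compl hq r _ _ hD.symm
  have i : inv1 H ^ (a + 1) = (1 - H) ^ D * (inv1 H ^ (a / q ^ r + 1)) ^ q ^ r := by
    have := Nat.mod_add_div a (q ^ r)
    rw [← pow_mul, show (a / q ^ r + 1) * q ^ r = D + (a + 1) by
      rw [add_mul, mul_comm]; omega, pow_add _ D, ← mul_assoc, ← mul_pow, mul_comm (1 - H),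
      inv1_mul h0, one_pow, one_mul]
  rw [i] at e
  obtain ⟨x, y, rfl, a1, a2⟩ := mul_supp e
  obtain ⟨z, rfl, -⟩ := frob_supp' r a2
  have := LL.pow_ds D (LL.one.sub h) x a1
  have := ds_mod_le hq r x
  rw [Nat.add_mul_mod_self_left]
  omega

theorem P_frob {u : A⟦X⟧} (h0 : constantCoeff u = 0) (h : LL q 1 u)
    (h1 : coeff (q - 1) (inv1 u) = 1) (N : ℕ) :
    coeff (q * N + (q - 1)) (inv1 u) = coeff N (inv1 u) ^ q := by
  have hq := q1 (q := q)
  have i : inv1 u = (1 - u) ^ (q - 1) * inv1 u ^ q := by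
    conv_rhs => enter [2, 2]; rw [show q = q - 1 + 1 by omega]
    rw [pow_succ, ← mul_assoc, ← mul_pow, mul_comm (1 - u), inv1_mul h0, one_pow, one_mul]
  have k : ∀ N, coeff (q * N + (q - 1)) (inv1 u) =
      coeff (q - 1) ((1 - u) ^ (q - 1)) * coeff N (inv1 u) ^ q := fun N => by
    conv_lhs => rw [i, coeff_mul]
    rw [Finset.sum_eq_single (q - 1, q * N)]
    · rw [pow_q (inv1 u), coeff_ex_mul, coeff_map, frobenius_def]
    · rintro ⟨x, y⟩ h1 h2
      by_contra c
      obtain ⟨m, rfl, -⟩ := frob_supp (right_ne_zero_of_mul c)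
      have d := (LL.one.sub h).pow hq (q - 1) x (left_ne_zero_of_mul c)
      have h1 : x + q * m = q * N + (q - 1) := Finset.HasAntidiagonal.mem_antidiagonal.1 h1
      have mN : m ≤ N := Nat.le_of_lt_succ (Nat.lt_of_mul_lt_mul_left (a := q) (by
        rw [Nat.mul_succ]; omega))
      obtain ⟨j, rfl⟩ := Nat.exists_eq_add_of_le mN
      obtain rfl : x = q - 1 + q * j := by rw [mul_add] at h1; omega
      rw [ds_step hq (by omega)] at d
      obtain rfl := ds_eq_zero hq (by omega : ds q j = 0)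
      simp at h2
    · intro c; exact absurd (Finset.HasAntidiagonal.mem_antidiagonal.2 (by simp [add_comm])) c
  have := k 0
  rw [mul_zero, zero_add, h1, coeff_zero_eq_constantCoeff_apply, const_inv1 h0, one_pow,
    mul_one] at this
  rw [k, ← this, one_mul]

/-! ### The reduced series -/

theorem bar_P {u : A⟦X⟧} {w : A} (h0 : constantCoeff u = 0) (e : u - u ^ q = X - C w * X ^ q) :
    X * inv1 u * (1 - C w * X ^ (q - 1)) = ∑ i ∈ Finset.range (q - 1), u ^ (i + 1) := by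
  have hq := q1 (q := q)
  obtain ⟨g, rfl⟩ : ∃ g, q = g + 1 := ⟨q - 1, by omega⟩
  have s := mul_neg_geom_sum u g
  have v := inv1_mul h0
  simp only [Nat.add_sub_cancel, pow_succ' u, ← Finset.mul_sum] at e ⊢
  linear_combination (-inv1 u) * e + u * (∑ i ∈ Finset.range g, u ^ i) * v - inv1 u * u * s

theorem bar_Q {u : A⟦X⟧} {w : A} (h0 : constantCoeff u = 0) (h1 : coeff 1 u = 1) (h : LL q 1 u)
    (e : u - u ^ q = X - C w * X ^ q) (j : ℕ) :
    coeff (j * (q - 1)) (Qs u + X * inv1 u) = w ^ j := by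
  have hq := q1 (q := q)
  have i : (Qs u + X * inv1 u) * (1 - C w * X ^ (q - 1)) = ∑ i ∈ Finset.range (q - 1), u ^ i := by
    rw [add_mul, bar_P h0 e]
    obtain ⟨g, rfl⟩ : ∃ g, q = g + 1 := ⟨q - 1, by omega⟩
    have s := mul_neg_geom_sum u g
    have v := Qs_mul h0 h1
    simp only [Nat.add_sub_cancel, pow_succ' u, ← Finset.mul_sum] at e ⊢
    apply X_mul_cancel
    linear_combination (-Qs u) * e + (1 - u ^ g) * v - X * s
  induction j with
  | zero =>
    have := congrArg constantCoeff i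
    obtain ⟨g, hg⟩ : ∃ g, q - 1 = g + 1 := ⟨q - 2, by omega⟩
    rw [hg, Finset.sum_range_succ'] at this
    simpa [h0] using this
  | succ j ih =>
    have := congrArg (coeff (j * (q - 1) + (q - 1))) i
    rw [mul_sub, mul_one, map_sub, mul_left_comm, coeff_C_mul, coeff_mul_X_pow, ih, map_sum,
      Finset.sum_eq_zero, sub_eq_zero] at this
    · rw [add_mul, one_mul, this, pow_succ']
    · intro i hi
      by_contra c
      have := h.pow hq i _ c
      have := ds_ge_of_dvd hq (N := j * (q - 1) + (q - 1)) (by omega) ⟨j + 1, by ring⟩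
      have := Finset.mem_range.1 hi
      omega

end Pool.Agent.P.MP_8c9ada_nt.Cl
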