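import Pool.Agent.P.MP_8c9ada_nt.C2

/-! The size of the coefficients of powers of the series `sum t y ^ q ^ i / [i + 1]`. -/

set_option autoImplicit false
set_option linter.unusedSectionVars false

namespace Pool.Agent.P.MP_8c9ada_nt.Cl

open PowerSeries

variable {q : ℕ} [hp : Fact q.Prime] {K : Type*} [Field K] [CharP K q]

/-- The series `sum y ^ q ^ i`. -/
noncomputable def ee (q : ℕ) (K : Type*) [Field K] : K⟦X⟧ := U q fun _ => 1

theorem ee_eq : ee q K = X + ee q K ^ q := by
  conv_lhs => rw [ee, U_eq]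
  rw [ee, U_pow]; simp

theorem ee_LL : LL q 1 (ee q K) := LL.U q1 _

theorem ee_pow (a : ℕ) : ee q K ^ q ^ a = X ^ q ^ a + ee q K ^ q ^ (a + 1) := by
  conv_lhs => rw [ee_eq]
  rw [add_pow_char_pow, ← pow_mul, ← pow_succ']

theorem ee_pow_LL (a : ℕ) : LL q 1 (ee q K ^ q ^ a) := by
  simpa [ds_pow (q1 (q := q))] using LL.pow_ds (q ^ a) (ee_LL (q := q) (K := K))

theorem coeff_frob (r : ℕ) (f : K⟦X⟧) (m : ℕ) :
    coeff (q ^ r * m) (f ^ q ^ r) = coeff m f ^ q ^ r := by
  induction r with
  | zero => simp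
  | succ r ih =>
    rw [pow_succ q r, pow_mul, pow_mul, pow_q, mul_comm _ q, mul_assoc, coeff_ex_mul, coeff_map,
      ih, frobenius_def]

theorem ee_ne (m : ℕ) : ds q m < q → coeff m (ee q K ^ ds q m) ≠ 0 := by
  have hq := q1 (q := q)
  induction m using dig_ind hq with
  | h0 => simp
  | h a m ha _ ih =>
    intro h
    rw [ds_step hq ha] at h ⊢
    conv_lhs => enter [2, 1]; rw [ee_eq]
    rw [add_pow, map_sum, Finset.sum_eq_single a]
    · rw [← map_natCast (C (R := K)), coeff_mul_C, add_comm a (q * m), coeff_X_pow_mul,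
        Nat.add_sub_cancel_left, ← pow_mul, mul_comm q (ds q m), pow_mul]
      have := coeff_frob (q := q) 1 (ee q K ^ ds q m) m
      rw [pow_one] at this
      rw [this]
      refine mul_ne_zero (pow_ne_zero _ (ih (by omega))) ?_
      rw [Ne, CharP.cast_eq_zero_iff K q, add_comm a, kummer, ds_lt hq ha,
        ds_lt hq (a := ds q m) (by omega), ds_lt hq (a := ds q m + a) (by omega)]
    · intro i hi hne
      rw [← map_natCast (C (R := K)), coeff_mul_C, coeff_X_pow_mul']
      split_ifs with c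
      · by_contra z
        rw [← pow_mul, mul_comm q (_ - _), pow_mul] at z
        obtain ⟨y, hy, -⟩ := frob_supp (q := q) (left_ne_zero_of_mul z)
        have := congrArg (· % q) (show a + q * m = i + q * y by omega)
        have hi := Finset.mem_range.1 hi
        simp [Nat.mod_eq_of_lt ha, Nat.mod_eq_of_lt (by omega : i < q)] at this
        exact hne this.symm
      · simp
    · intro c; exact absurd (Finset.mem_range.2 (by omega)) c

/-- Exponents that cannot contribute. -/
def Bad (q r n : ℕ) (f : K⟦X⟧) : Prop :=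
  ∀ m, coeff m f ≠ 0 → ∀ x u, x + m = q ^ r * (u + 1) → ds q u + 1 < ds q x + n

namespace Bad
variable {r n n' : ℕ} {f g : K⟦X⟧}

theorem zero : Bad q r n (0 : K⟦X⟧) := fun _ h => by simp at h

theorem add (h : Bad q r n f) (h' : Bad q r n g) : Bad q r n (f + g) := fun m e =>
  (add_supp e).elim (h m) (h' m)

theorem neg (h : Bad q r n f) : Bad q r n (-f) := fun m e => h m (by simpa using e)

theorem mono (h : Bad q r n f) (l : n ≤ n') : Bad q r n' f := fun m e x u a => by
  have := h m e x u a; omega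

theorem mul (h : Bad q r n f) (h' : LL q n' g) : Bad q r (n + n') (f * g) := fun m e x u a => by
  obtain ⟨i, j, rfl, b, c⟩ := mul_supp e
  have := h i b (x + j) u (by omega)
  have := h' j c
  have := ds_add_le (q1 (q := q)) x j
  omega

theorem small {c : ℕ} (h : c < r) : Bad q r 1 (X ^ q ^ c : K⟦X⟧) := fun m e x u a => by
  have hq := q1 (q := q)
  rw [coeff_X_pow] at e
  obtain rfl : m = q ^ c := by by_contra z; exact e (if_neg z)
  have l : q ^ c < q ^ r := Nat.pow_lt_pow_right hq h
  have p : 0 < q ^ c := by positivity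
  obtain rfl : x = q ^ r - q ^ c + q ^ r * u := by rw [mul_add] at a; omega
  have := ds_pos hq (by omega : 0 < q ^ r - q ^ c)
  have h1 := ds_compl hq r (q ^ r - q ^ c) (q ^ c - 1) (by omega)
  have h2 := ds_compl hq c 0 (q ^ c - 1) (by omega)
  rw [ds_split hq r _ _ (by omega)]
  omega

theorem two : Bad q r 2 (X ^ q ^ r : K⟦X⟧) := fun m e x u a => by
  rw [coeff_X_pow] at e
  obtain rfl : m = q ^ r := by by_contra z; exact e (if_neg z)
  obtain rfl : x = q ^ r * u := by rw [mul_add] at a; omega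
  rw [ds_pow_mul q1]; omega

end Bad

theorem bad_one {r a : ℕ} (h : a ≤ r) : Bad q r 1 (ee q K ^ q ^ a - ee q K ^ q ^ r) := by
  induction h using Nat.decreasingInduction with
  | self => simpa using Bad.zero
  | of_succ a ha ih => rw [ee_pow a, add_sub_assoc]; exact (Bad.small ha).add ih

theorem bad_mul {r n n' : ℕ} {f g f' g' : K⟦X⟧} (h : Bad q r n (f - g)) (h' : Bad q r n' (f' - g'))
    (l : LL q n g) (l' : LL q n' f') : Bad q r (n + n') (f * f' - g * g') := by
  rw [show f * f' - g * g' = (f - g) * f' + (f' - g') * g by ring]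
  exact (h.mul l').add ((h'.mul l).mono (by omega))

theorem bad_pow {r : ℕ} {f g : K⟦X⟧} (h : Bad q r 1 (f - g)) (l : LL q 1 g) (l' : LL q 1 f) (n : ℕ) :
    Bad q r n (f ^ n - g ^ n) := by
  induction n with
  | zero => simpa using Bad.zero
  | succ n ih => rw [pow_succ, pow_succ]; exact bad_mul ih h (l.pow q1 n) l'

theorem bad_ds (r b : ℕ) : ∀ a, q ^ a * b < q ^ (r + 1) →
    Bad q r (ds q b) ((ee q K ^ q ^ a) ^ b - (ee q K ^ q ^ r) ^ ds q b) := by
  have hq := q1 (q := q)
  induction b using dig_ind hq with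
  | h0 => intro a _; simpa using Bad.zero
  | h c b hc h0 ih =>
    intro a h
    have ar : a ≤ r := Nat.le_of_lt_succ ((Nat.pow_lt_pow_iff_right hq).1
      ((Nat.le_mul_of_pos_right _ h0).trans_lt h))
    rw [ds_step hq hc, pow_add, pow_add, pow_mul _ q b, ← pow_mul _ _ q, ← pow_succ]
    exact bad_mul (bad_pow (bad_one ar) (ee_pow_LL r) (ee_pow_LL a) c)
      (ih (a + 1) (lt_of_le_of_lt (by rw [pow_succ, mul_assoc]; gcongr; omega) h))
      ((ee_pow_LL r).pow hq c) (LL.pow_ds b (ee_pow_LL _))

theorem bad_red (r j k : ℕ) : Bad q r (j + 1 + k * (q - 1))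
    ((ee q K ^ q ^ r) ^ (j + 1 + k * (q - 1)) - (ee q K ^ q ^ r) ^ (j + 1)) := by
  have hq := q1 (q := q)
  induction k with
  | zero => simpa using Bad.zero
  | succ k ih =>
    have e : (ee q K ^ q ^ r) ^ (j + 1 + (k + 1) * (q - 1)) =
        -(X ^ q ^ r * (ee q K ^ q ^ r) ^ (j + k * (q - 1))) +
          (ee q K ^ q ^ r) ^ (j + 1 + k * (q - 1)) := by
      rw [show j + 1 + (k + 1) * (q - 1) = q + (j + k * (q - 1)) by rw [add_mul]; omega,
        show j + 1 + k * (q - 1) = 1 + (j + k * (q - 1)) by omega, pow_add _ q, pow_add _ 1,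
        ← pow_mul _ _ q, ← pow_succ, pow_one]
      linear_combination (-(ee q K ^ q ^ r) ^ (j + k * (q - 1))) * ee_pow (q := q) (K := K) r
    rw [e, add_sub_assoc]
    exact ((Bad.two.mul ((ee_pow_LL r).pow hq _)).neg.mono (by rw [add_mul]; omega)).add
      (ih.mono (by rw [add_mul]; omega))

theorem coef_e {r b j k x m u : ℕ} (hb : b < q ^ (r + 1)) (hj : ds q b = j + 1 + k * (q - 1))
    (h : x + m = q ^ r * (u + 1)) (h' : ds q x + ds q b ≤ ds q u + 1) :
    coeff m (ee q K ^ b) = coeff m ((ee q K ^ (j + 1)) ^ q ^ r) := by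
  have h1 := bad_ds (K := K) r b 0 (by simpa using hb)
  have h2 := bad_red (q := q) (K := K) r j k
  rw [← hj] at h2
  have := h1.add h2
  rw [pow_zero, pow_one, sub_add_sub_cancel, ← pow_mul, mul_comm, pow_mul] at this
  by_contra c
  have := this m (by rwa [map_sub, sub_ne_zero]) x u h
  omega

/-! ### The arithmetic of the exponents -/

/-- One term of the exponent. -/
def term (q r b u s : ℕ) : ℤ :=
  if low q u s = 0 then 0 else (q ^ (r + 1) * low q u s : ℕ) - top q b (ds q b - s * (q - 1))

theorem term_cmp {r b c u m : ℕ} (hb : b + c < q ^ (r + 1)) (h1 : ds q m ≤ ds q c)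
    (h2 : ds q m ≤ q - 1) (h3 : ds q b + ds q c = ds q (b + c)) (s : ℕ) :
    term q r (b + c) (u + m) (s + 1) ≤ term q r b u s ∧
      (s = 0 → term q r (b + c) (u + m) (s + 1) = term q r b u s →
        u = low q (u + m) 1 ∧ (u ≠ 0 → b = top q (b + c) (ds q (b + c) - (q - 1)))) := by
  have hq := q1 (q := q)
  have a1 := top_add_le hq (N := u + m) (m := m) (by omega) (s * (q - 1)) le_rfl
  rw [Nat.add_sub_cancel] at a1
  have a2 := top_mono (q := q) (u + m) (show ds q m + s * (q - 1) ≤ (s + 1) * (q - 1) by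
    rw [add_mul]; omega)
  have a3 := top_le (q := q) b (ds q b - s * (q - 1))
  have a4 := top_le (q := q) u (s * (q - 1))
  have a5 := top_le (q := q) (u + m) ((s + 1) * (q - 1))
  have z : s = 0 → top q u (s * (q - 1)) = 0 ∧ top q b (ds q b - s * (q - 1)) = b ∧
      (s + 1) * (q - 1) = q - 1 := by
    rintro rfl; simp [top_zero hq, top_all]
  have l1 : low q (u + m) 1 = u + m - top q (u + m) (q - 1) := by rw [low, one_mul]
  rw [l1]
  unfold term low
  generalize q ^ (r + 1) = Q at *
  by_cases A : u + m - top q (u + m) ((s + 1) * (q - 1)) = 0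
  · rw [if_pos A]
    split_ifs with B
    · refine ⟨le_rfl, fun s0 _ => ?_⟩
      obtain ⟨z1, z2, z3⟩ := z s0
      rw [z3] at A; omega
    · have : Q ≤ Q * (u - top q u (s * (q - 1))) := Nat.le_mul_of_pos_right _ (by omega)
      exact ⟨by omega, fun _ _ => by omega⟩
  · rw [if_neg A, if_neg (by omega)]
    rcases le_or_gt (q - 1) (ds q c) with C | C
    · have b1 : top q b (ds q b - s * (q - 1)) ≤ top q (b + c) (ds q (b + c) - (s + 1) * (q - 1)) :=
        le_top' (by omega) ((ds_top_le _ _).trans (by rw [add_mul]; omega))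
      have b2 : u + m - top q (u + m) ((s + 1) * (q - 1)) ≤ u - top q u (s * (q - 1)) := by omega
      have b3 := Nat.mul_le_mul_left Q b2
      refine ⟨by omega, fun s0 e => ?_⟩
      obtain ⟨z1, z2, z3⟩ := z s0
      have := Nat.eq_of_mul_eq_mul_left (by omega : 0 < Q)
        (show Q * (u + m - top q (u + m) ((s + 1) * (q - 1))) = Q * (u - top q u (s * (q - 1))) by
          omega)
      rw [z3] at this e b1 a2 a5
      rw [z1, z2] at e
      rw [z1] at this
      rw [Nat.sub_zero] at this e
      refine ⟨this.symm, fun _ => ?_⟩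
      rw [this] at e
      omega
    · have b1 := top_lt hq (N := u + m) (show ds q m + s * (q - 1) < (s + 1) * (q - 1) by
        rw [add_mul]; omega) (by omega)
      have b2 : u + m - top q (u + m) ((s + 1) * (q - 1)) + 1 ≤ u - top q u (s * (q - 1)) := by
        omega
      have b3 := Nat.mul_le_mul_left Q b2
      rw [mul_add] at b3
      exact ⟨by omega, fun _ _ => by omega⟩

theorem term_top (r b u s : ℕ) :
    term q r (top q b (ds q b - (q - 1))) (low q u 1) s = term q r b u (s + 1) := by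
  have hq := q1 (q := q)
  rw [term, term, low_succ hq u s, show low q u 1 = u - top q u (q - 1) by rw [low, one_mul],
    (top_spec hq b _ (Nat.sub_le _ _)).1,
    top_top b (Nat.sub_le _ _), Nat.sub_sub, add_mul, one_mul, add_comm (q - 1)]

theorem term_zero {r b u s : ℕ} (h : low q u 1 = 0) : term q r b u (s + 1) = 0 := by
  rw [low, one_mul] at h
  rw [term, if_pos]
  rw [low_succ q1, h, low]; simp

/-! ### Valuations -/

variable {Γ : Type*} [LinearOrderedCommGroupWithZero Γ] (v : Valuation K Γ)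

theorem v_fix {x : K} (h : x ^ q = x) (h0 : x ≠ 0) : v x = 1 := by
  have hq := q1 (q := q)
  have e : x ^ (q - 1) = 1 := mul_right_cancel₀ h0 (by
    rw [← pow_succ, Nat.sub_add_cancel hq.le, h, one_mul])
  have := congrArg v e
  rw [map_pow, map_one] at this
  exact (pow_eq_one_iff_of_nonneg zero_le (by omega)).1 this

theorem ee_fix (b m : ℕ) : coeff m (ee q K ^ b) ^ q = coeff m (ee q K ^ b) := by
  have : map (frobenius K q) (ee q K) = ee q K := by rw [ee, map_U q1]; simp
  rw [← frobenius_def, ← coeff_map, map_pow, this]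

/-- The bracket `[i]`. -/
def br (q : ℕ) (t : K) (i : ℕ) : K := t ^ q ^ i - t

variable {v} {t : K}

theorem v_br (ht : 1 < v t) (i : ℕ) : v (br q t (i + 1)) = v t ^ q ^ (i + 1) := by
  rw [br, v.map_sub_eq_of_lt_left, map_pow]
  rw [map_pow]
  exact lt_self_pow₀ ht (Nat.one_lt_pow (by omega) q1)

theorem br_ne (ht : 1 < v t) (i : ℕ) : br q t (i + 1) ≠ 0 := fun e => by
  have := v_br (q := q) ht i
  rw [e, map_zero] at this
  exact pow_ne_zero _ (zero_lt_one.trans ht).ne' this.symm

/-- The series `sum t y ^ q ^ i / [i + 1]`. -/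
noncomputable def EE (q : ℕ) (t : K) : K⟦X⟧ := U q fun i => t / br q t (i + 1)

theorem EE_rec (ht : 1 < v t) (b o : ℕ) : (t ^ (q * o) - t ^ b) * coeff o (EE q t ^ b) =
    t ^ b * ∑ x ∈ Finset.range b ×ˢ Finset.HasAntidiagonal.antidiagonal o,
      coeff x.2.1 (ee q K ^ (x.1 + 1)) * coeff x.2.2 (EE q t ^ (b - (x.1 + 1))) *
        (b.choose (x.1 + 1) : K) := by
  have hq := q1 (q := q)
  have e : rescale (t ^ q) (EE q t) = C t * (ee q K + EE q t) := by
    rw [EE, ee, rescale_U hq, U_add hq]
    refine (U_ext hq (fun i => ?_) fun N h => by rw [coeff_C_mul, coeff_U_ne _ h, mul_zero]).symm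
    have := br_ne (q := q) ht i
    rw [coeff_C_mul, coeff_U_pow hq, ← pow_mul, ← pow_succ']
    field_simp
    rw [br]; ring
  have : coeff o (rescale (t ^ q) (EE q t) ^ b) = coeff o ((C t * (ee q K + EE q t)) ^ b) := by
    rw [e]
  rw [← map_pow, coeff_rescale, mul_pow, ← map_pow, coeff_C_mul, add_pow, map_sum,
    Finset.sum_range_succ', ← pow_mul] at this
  rw [sub_mul, this, Finset.sum_product]
  rw [pow_zero, one_mul, Nat.sub_zero, Nat.choose_zero_right, Nat.cast_one, mul_one, mul_add,
    add_sub_cancel_right]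
  simp only [← map_natCast (C (R := K)), coeff_mul_C]
  simp only [coeff_mul, Finset.sum_mul]

theorem kappa (ht : 1 < v t) (r k : ℕ) : ∀ b u, u ≤ k → b < q ^ (r + 1) →
    (∀ u', u = u' + 1 → ds q b ≤ ds q u' + 1) →
    v (coeff (q ^ r * u) (EE q t ^ b)) ≤ v t ^ (-∑ s ∈ Finset.range k, term q r b u s) ∧
    ((u = 0 → b = 0) → (∃ x, ds q b = ds q u + x * (q - 1)) →
      v (coeff (q ^ r * u) (EE q t ^ b)) = v t ^ (-∑ s ∈ Finset.range k, term q r b u s)) := by
  have hq := q1 (q := q)
  have t0 : v t ≠ 0 := (zero_lt_one.trans ht).ne'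
  have c0 : ∀ b, coeff 0 (EE q t ^ b) = 0 ^ b := fun b => by
    rw [coeff_zero_eq_constantCoeff_apply, map_pow, EE, const_U hq]
  have base : ∀ k b, v (coeff (q ^ r * 0) (EE q t ^ b)) ≤
      v t ^ (-∑ s ∈ Finset.range k, term q r b 0 s) ∧
      (((0 : ℕ) = 0 → b = 0) → (∃ x, ds q b = ds q 0 + x * (q - 1)) →
      v (coeff (q ^ r * 0) (EE q t ^ b)) = v t ^ (-∑ s ∈ Finset.range k, term q r b 0 s)) := by
    intro k b
    rw [mul_zero, c0, Finset.sum_eq_zero fun s _ => by simp [term, low]]
    refine ⟨by rcases b with _ | b <;> simp, fun h _ => by simp [h rfl]⟩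
  induction k with
  | zero => intro b u hu _ _; obtain rfl : u = 0 := by omega
            exact base 0 b
  | succ k ih =>
    intro b u hu hb inv
    rcases u with _ | u
    · exact base _ b
    replace inv := inv u rfl
    set D : ℤ := ∑ s ∈ Finset.range k, term q r b (u + 1) (s + 1) with hD
    set F : ℕ × ℕ × ℕ → K := fun x => coeff x.2.1 (ee q K ^ (x.1 + 1)) *
      coeff x.2.2 (EE q t ^ (b - (x.1 + 1))) * (b.choose (x.1 + 1) : K) with hF
    set S := Finset.range b ×ˢ Finset.HasAntidiagonal.antidiagonal (q ^ r * (u + 1)) with hS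
    have lt : b < q * (q ^ r * (u + 1)) := by
      rw [← mul_assoc, ← pow_succ']; exact hb.trans_le (Nat.le_mul_of_pos_right _ (by omega))
    have main : v (coeff (q ^ r * (u + 1)) (EE q t ^ b)) =
        v t ^ (-term q r b (u + 1) 0) * v (∑ x ∈ S, F x) := by
      have := congrArg v (EE_rec (q := q) ht b (q ^ r * (u + 1)))
      rw [map_mul, map_mul, v.map_sub_eq_of_lt_left (by
        rw [map_pow, map_pow]; exact pow_lt_pow_right₀ ht lt), map_pow v, map_pow v] at this
      rw [term, low_zero hq, if_neg (by omega), zero_mul, Nat.sub_zero, top_all le_rfl, neg_sub,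
        zpow_sub₀ t0, zpow_natCast, zpow_natCast, pow_succ', mul_assoc, div_mul_eq_mul_div, ← this,
        mul_div_cancel_left₀ _ (pow_ne_zero _ t0)]
    have fin : ∀ {y : Γ}, v t ^ (-∑ s ∈ Finset.range (k + 1), term q r b (u + 1) s) =
        v t ^ (-term q r b (u + 1) 0) * v t ^ (-D) := by
      intro y
      rw [Finset.sum_range_succ', ← zpow_add₀ t0]; congr 1; ring
    have vF : ∀ x, F x ≠ 0 → v (F x) = v (coeff x.2.2 (EE q t ^ (b - (x.1 + 1)))) := fun x h => by
      rw [hF]; simp only [map_mul]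
      rw [v_fix v (ee_fix _ _) (left_ne_zero_of_mul (left_ne_zero_of_mul h)),
        v_fix (q := q) v (by rw [← frobenius_def, map_natCast]) (right_ne_zero_of_mul h),
        one_mul, mul_one]
    have key : ∀ x ∈ S, v (F x) ≤ v t ^ (-D) ∧ (v (F x) = v t ^ (-D) →
        x.2.2 = q ^ r * low q (u + 1) 1 ∧
        b - (x.1 + 1) = if low q (u + 1) 1 = 0 then 0 else top q b (ds q b - (q - 1))) := by
      rintro ⟨c, m, o⟩ hx
      by_cases z : F (c, m, o) = 0
      · rw [z, map_zero]
        exact ⟨zero_le, fun e => absurd e.symm (zpow_ne_zero _ t0)⟩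
      rw [vF _ z]
      obtain ⟨h1, h2⟩ := Finset.mem_product.1 hx
      replace h1 : c < b := Finset.mem_range.1 h1
      replace h2 : m + o = q ^ r * (u + 1) := Finset.HasAntidiagonal.mem_antidiagonal.1 h2
      obtain ⟨b', rfl⟩ : ∃ b', b = b' + (c + 1) := ⟨b - (c + 1), by omega⟩
      simp only [hF, Nat.add_sub_cancel] at z ⊢
      have z1 := left_ne_zero_of_mul (left_ne_zero_of_mul z)
      have z2 := right_ne_zero_of_mul (left_ne_zero_of_mul z)
      have z3 := right_ne_zero_of_mul z
      rw [Ne, CharP.cast_eq_zero_iff K q, kummer] at z3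
      have d2 := LL.pow_ds b' (LL.U hq _) o z2
      have p := ds_pos hq (by omega : 0 < c + 1)
      have j1 := Nat.mod_add_div (ds q (c + 1) - 1) (q - 1)
      have j2 := Nat.mod_lt (ds q (c + 1) - 1) (by omega : 0 < q - 1)
      rw [coef_e (r := r) (j := (ds q (c + 1) - 1) % (q - 1)) (k := (ds q (c + 1) - 1) / (q - 1))
        (x := o) (u := u) (by omega) (by rw [mul_comm]; omega) (by omega) (by omega)] at z1
      obtain ⟨m1, rfl, z4⟩ := frob_supp' r z1
      have d1 := ee_LL.pow hq _ m1 z4
      have m0 : m1 ≠ 0 := by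
        rintro rfl
        exact z4 (by rw [coeff_zero_eq_constantCoeff_apply, map_pow, ee, const_U hq]; simp)
      have mu : m1 ≤ u + 1 := Nat.le_of_mul_le_mul_left (c := q ^ r) (by omega) (by positivity)
      obtain ⟨u1, hu1⟩ : ∃ u1, u + 1 = u1 + m1 := ⟨u + 1 - m1, by omega⟩
      obtain rfl : o = q ^ r * u1 := by rw [hu1, mul_add] at h2; omega
      have le := (ih b' u1 (by omega) (by omega) fun u' e => by
        have := ds_add_le hq u' m1
        rw [show u' + m1 = u by omega] at this
        omega).1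
      have cmp := fun s => term_cmp (r := r) (b := b') (c := c + 1) (u := u1) (m := m1) hb
        (by omega) (by omega) z3 s
      rw [← hu1] at cmp
      have sle : D ≤ ∑ s ∈ Finset.range k, term q r b' u1 s :=
        Finset.sum_le_sum fun s _ => (cmp s).1
      refine ⟨le.trans (zpow_le_zpow_right₀ ht.le (by omega)), fun e => ?_⟩
      have k0 : u1 = 0 → b' = 0 := by
        rintro rfl
        rw [mul_zero, c0] at z2
        by_contra c; exact z2 (zero_pow c)
      have : u1 = low q (u + 1) 1 ∧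
          (u1 ≠ 0 → b' = top q (b' + (c + 1)) (ds q (b' + (c + 1)) - (q - 1))) := by
        refine (cmp 0).2 rfl ?_
        rcases k with _ | k
        · obtain rfl : u1 = 0 := by omega
          obtain rfl : u = 0 := by omega
          rw [term_zero (by rw [low, top_all (by rw [ds_lt hq hq]; omega)])]
          simp [term, low]
        · by_contra ne
          have : D < ∑ s ∈ Finset.range (k + 1), term q r b' u1 s :=
            Finset.sum_lt_sum (fun s _ => (cmp s).1)
              ⟨0, by simp, lt_of_le_of_ne (cmp 0).1 ne⟩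
          exact absurd (e ▸ le) (not_le.2 (zpow_lt_zpow_right₀ ht (by omega)))
      rw [← this.1]
      refine ⟨rfl, ?_⟩
      split_ifs with c
      · exact k0 c
      · exact this.2 c
    rw [main, fin (y := 0)]
    refine ⟨by gcongr; exact v.map_sum_le fun x hx => (key x hx).1, fun _ hx => ?_⟩
    obtain ⟨x, hx⟩ := hx
    congr 1
    have pu : 0 < ds q (u + 1) := ds_pos hq (Nat.succ_pos u)
    obtain ⟨b', c, u1, m1, j, y, rfl, h1, h2, h3, h4, h5, h6, h7, h8, h9⟩ : ∃ b' c u1 m1 j y,
        b = b' + (c + 1) ∧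
        u + 1 = u1 + m1 ∧ u1 = low q (u + 1) 1 ∧
        b' = (if low q (u + 1) 1 = 0 then 0 else top q b (ds q b - (q - 1))) ∧
        ds q b' + ds q (c + 1) = ds q b ∧ ds q m1 = j + 1 ∧ ds q (c + 1) = j + 1 + y * (q - 1) ∧
        (u1 = 0 → b' = 0) ∧ (∃ x, ds q b' = ds q u1 + x * (q - 1)) ∧
        ∀ s, term q r b' u1 s = term q r b (u + 1) (s + 1) := by
      have tl := top_le (q := q) (u + 1) (q - 1)
      have td := ds_top_le (q := q) (u + 1) (q - 1)
      by_cases c : low q (u + 1) 1 = 0
      · have b0 : b ≠ 0 := by rintro rfl; simp at hx; omega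
        refine ⟨0, b - 1, 0, u + 1, ds q (u + 1) - 1, x, by omega, by omega, c.symm, by simp [c],
          ?_, by omega, ?_, fun _ => rfl, ⟨0, by simp⟩, fun s => ?_⟩
        · rw [Nat.sub_add_cancel (by omega)]; simp
        · rw [Nat.sub_add_cancel (by omega)]; omega
        · rw [term_zero c]; simp [term, low]
      · have l1 : low q (u + 1) 1 = u + 1 - top q (u + 1) (q - 1) := by rw [low, one_mul]
        have g : q - 1 ≤ ds q (u + 1) := by
          by_contra g; rw [l1, top_all (by omega)] at c; omega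
        obtain ⟨s1, s2⟩ := top_spec hq _ _ g
        obtain ⟨s3, s4⟩ := top_spec hq b _ (Nat.sub_le _ (q - 1))
        have s5 := top_le (q := q) b (ds q b - (q - 1))
        have s6 : b - top q b (ds q b - (q - 1)) ≠ 0 := fun e => by
          rw [e, ds_zero] at s4; omega
        refine ⟨top q b (ds q b - (q - 1)), b - top q b (ds q b - (q - 1)) - 1, low q (u + 1) 1,
          top q (u + 1) (q - 1), q - 2, 0, by omega, by omega, rfl, by simp [c], ?_, by omega, ?_,
          fun e => absurd e c, ⟨x, by rw [l1]; omega⟩, fun s => term_top _ _ _ s⟩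
        · rw [Nat.sub_add_cancel (by omega)]; omega
        · rw [Nat.sub_add_cancel (by omega)]; omega
    have jq : j + 1 < q := by
      have a := ds_top_le (q := q) (u + 1) (q - 1)
      have := top_le (q := q) (u + 1) (q - 1)
      rw [low, one_mul] at h2
      rw [show top q (u + 1) (q - 1) = m1 by omega] at a
      omega
    have m0 : m1 ≠ 0 := by rintro rfl; simp at h5
    obtain ⟨x', hx'⟩ := h8
    have eq := (ih b' u1 (by omega) (by omega) fun u' e => by
      have := ds_add_le hq u' m1
      rw [show u' + m1 = u by omega] at this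
      omega).2 h7 ⟨x', hx'⟩
    rw [Finset.sum_congr rfl fun s _ => h9 s] at eq
    have z : F (c, q ^ r * m1, q ^ r * u1) ≠ 0 := by
      simp only [hF, Nat.add_sub_cancel]
      refine mul_ne_zero (mul_ne_zero ?_ fun e => ?_) ?_
      · rw [coef_e (r := r) (x := q ^ r * u1) (u := u) (by omega) h6 (by rw [h1, mul_add])
          (by rw [ds_pow_mul hq]; omega), coeff_frob, ← h5]
        exact pow_ne_zero _ (ee_ne m1 (by omega))
      · rw [e, map_zero] at eq; exact zpow_ne_zero _ t0 eq.symm
      · rwa [Ne, CharP.cast_eq_zero_iff K q, kummer]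
    have vz := vF _ z
    simp only [Nat.add_sub_cancel] at vz
    rw [eq] at vz
    rw [v.map_sum_eq_of_lt (j := (c, q ^ r * m1, q ^ r * u1)), vz]
    · exact Finset.mem_product.2 ⟨Finset.mem_range.2 (by simp only; omega),
        Finset.HasAntidiagonal.mem_antidiagonal.2 (by simp only; rw [h1]; ring)⟩
    · rintro ⟨c', m', o'⟩ hi
      obtain ⟨i1, i2⟩ := Finset.mem_sdiff.1 hi
      rw [vz]
      refine lt_of_le_of_ne (key _ i1).1 fun e => i2 ?_
      obtain ⟨e1, e2⟩ := (key _ i1).2 e
      obtain ⟨i3, i4⟩ := Finset.mem_product.1 i1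
      replace i3 : c' < b' + (c + 1) := Finset.mem_range.1 i3
      replace i4 : m' + o' = q ^ r * (u + 1) := Finset.HasAntidiagonal.mem_antidiagonal.1 i4
      rw [← h2] at e1
      rw [← h3] at e2
      simp only at e1 e2
      rw [h1, mul_add] at i4
      simp only [Finset.mem_singleton, Prod.mk.injEq]
      omega

/-- The lower bound for the coefficient. -/
theorem kappa_lb (ht : 1 < v t) {r b u n : ℕ} (hb : b < q ^ (r + 1)) (h : ds q b = ds q u + 1)
    (h1 : ∀ k, q ^ (r + 1) * ∑ s ∈ Finset.range k, low q (u + 1) (s + 1) < q ^ n) :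
    v t ^ b < v t ^ (q ^ (r + 1) * (u + 1) + q ^ n) * v (coeff (q ^ r * (u + 1)) (EE q t ^ b)) := by
  have hq := q1 (q := q)
  have t0 : v t ≠ 0 := (zero_lt_one.trans ht).ne'
  obtain ⟨x, hx⟩ := ds_cong hq u
  obtain ⟨y, hy⟩ := ds_cong hq (u + 1)
  have s := ds_add_le hq u 1
  rw [ds_lt hq hq] at s
  have xy : x ≤ y := Nat.le_of_mul_le_mul_right (c := q - 1) (by omega) (by omega)
  obtain ⟨z, rfl⟩ := Nat.exists_eq_add_of_le xy
  rw [(kappa ht r (u + 1) b (u + 1) le_rfl hb fun u' e => by
    obtain rfl : u = u' := by omega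
    omega).2 (by omega) ⟨z, by rw [add_mul] at hy; omega⟩, ← zpow_natCast, ← zpow_natCast,
    ← zpow_add₀ t0]
  refine zpow_lt_zpow_right₀ ht ?_
  have : ∑ s ∈ Finset.range u, term q r b (u + 1) (s + 1) ≤
      (q ^ (r + 1) * ∑ s ∈ Finset.range u, low q (u + 1) (s + 1) : ℕ) := by
    rw [Finset.mul_sum, Nat.cast_sum]
    refine Finset.sum_le_sum fun s _ => ?_
    rw [term]; split_ifs <;> omega
  have := h1 u
  rw [Finset.sum_range_succ', term, low_zero hq, if_neg (by omega), zero_mul, Nat.sub_zero,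
    top_all le_rfl]
  omega

end Pool.Agent.P.MP_8c9ada_nt.Cl
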