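import Mathlib

/-! Geometric series of power series, and the series attached to a sequence `g`. -/

namespace ZetaLikeMZV

section

open PowerSeries Finset

variable {R S : Type*} [CommRing R] [CommRing S]

/-- The series `1 / (1 - φ)`. -/
noncomputable def geo (φ : R⟦X⟧) : R⟦X⟧ := invOfUnit (1 - φ) 1

theorem mul_geo {φ : R⟦X⟧} (hφ : constantCoeff φ = 0) : (1 - φ) * geo φ = 1 :=
  mul_invOfUnit _ _ (by simp [hφ])

theorem geo_unique {φ ψ : R⟦X⟧} (hφ : constantCoeff φ = 0) (h : (1 - φ) * ψ = 1) :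
    ψ = geo φ := by
  have h1 := mul_geo hφ
  calc ψ = ((1 - φ) * geo φ) * ψ := by rw [h1, one_mul]
    _ = ((1 - φ) * ψ) * geo φ := by ring
    _ = geo φ := by rw [h, one_mul]

theorem map_geo (f : R →+* S) {φ : R⟦X⟧} (hφ : constantCoeff φ = 0) :
    map f (geo φ) = geo (map f φ) := by
  apply geo_unique
  · rw [← coeff_zero_eq_constantCoeff_apply, coeff_map, coeff_zero_eq_constantCoeff_apply, hφ,
      map_zero]
  · have := congrArg (map f) (mul_geo hφ)
    simpa using this

theorem rescale_geo (a : R) {φ : R⟦X⟧} (hφ : constantCoeff φ = 0) :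
    rescale a (geo φ) = geo (rescale a φ) := by
  apply geo_unique
  · rw [← coeff_zero_eq_constantCoeff_apply, coeff_rescale, coeff_zero_eq_constantCoeff_apply, hφ,
      mul_zero]
  · have := congrArg (rescale a) (mul_geo hφ)
    simpa using this

theorem geo_eq {φ : R⟦X⟧} (hφ : constantCoeff φ = 0) : geo φ = 1 + φ * geo φ := by
  have := mul_geo hφ
  linear_combination this

theorem coeff_zero_geo {φ : R⟦X⟧} (hφ : constantCoeff φ = 0) : coeff 0 (geo φ) = 1 := by
  rw [geo_eq hφ]; simp [hφ]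

theorem coeff_succ_geo {φ : R⟦X⟧} (hφ : constantCoeff φ = 0) (n : ℕ) :
    coeff (n + 1) (geo φ) = ∑ i ∈ range (n + 1), coeff (i + 1) φ * coeff (n - i) (geo φ) := by
  conv_lhs => rw [geo_eq hφ]
  rw [map_add, coeff_one, if_neg (Nat.succ_ne_zero n), zero_add, coeff_mul,
    Nat.sum_antidiagonal_eq_sum_range_succ (fun i j => coeff i φ * coeff j (geo φ)),
    sum_range_succ']
  simp [hφ]

/-- The series `∑ g i x^(q^i)`. -/
noncomputable def GG (q : ℕ) (g : ℕ → R) : R⟦X⟧ :=
  mk fun n => if q ^ Nat.log q n = n then g (Nat.log q n) else 0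

theorem coeff_GG_pow {q : ℕ} (hq : 1 < q) (g : ℕ → R) (i : ℕ) : coeff (q ^ i) (GG q g) = g i := by
  simp [GG, Nat.log_pow hq]

theorem coeff_GG_of_ne {q : ℕ} (g : ℕ → R) {n : ℕ} (h : ∀ i, q ^ i ≠ n) :
    coeff n (GG q g) = 0 := by
  simp [GG, h]

theorem constantCoeff_GG {q : ℕ} (hq : 1 < q) (g : ℕ → R) : constantCoeff (GG q g) = 0 := by
  rw [← coeff_zero_eq_constantCoeff_apply]
  exact coeff_GG_of_ne g (fun i => by positivity)

theorem map_GG (f : R →+* S) (q : ℕ) (g : ℕ → R) : map f (GG q g) = GG q (fun i => f (g i)) := by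
  ext n
  simp only [GG, coeff_map, coeff_mk]
  split_ifs <;> simp

theorem rescale_GG (a : R) (q : ℕ) (g : ℕ → R) :
    rescale a (GG q g) = GG q (fun i => g i * a ^ q ^ i) := by
  ext n
  simp only [GG, coeff_rescale, coeff_mk]
  split_ifs with h
  · rw [h, mul_comm]
  · simp

/-- The series `1 - G / x`. -/
noncomputable def GP (q : ℕ) (g : ℕ → R) : R⟦X⟧ :=
  mk fun n => if n = 0 then 0 else - coeff (n + 1) (GG q g)

theorem constantCoeff_GP (q : ℕ) (g : ℕ → R) : constantCoeff (GP q g) = 0 := by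
  simp [GP]

theorem coeff_succ_GP (q : ℕ) (g : ℕ → R) (n : ℕ) :
    coeff (n + 1) (GP q g) = - coeff (n + 2) (GG q g) := by
  simp [GP]

theorem map_GP (f : R →+* S) (q : ℕ) (g : ℕ → R) : map f (GP q g) = GP q (fun i => f (g i)) := by
  ext n
  simp only [GP, coeff_map, coeff_mk, ← map_GG]
  split_ifs <;> simp

theorem X_mul_GP {q : ℕ} (hq : 1 < q) {g : ℕ → R} (h0 : g 0 = 1) :
    X * (1 - GP q g) = GG q g := by
  ext n
  rcases n with _ | n
  · simp [constantCoeff_GG hq]
  · rw [coeff_succ_X_mul]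
    rcases n with _ | n
    · have := coeff_GG_pow hq g 0
      simp only [pow_zero] at this
      simp [this, h0, constantCoeff_GP]
    · simp [coeff_succ_GP, coeff_one]

/-- The coefficient of `x^n` in `1 / (1 - G)`. -/
noncomputable def hh (q : ℕ) (g : ℕ → R) (n : ℕ) : R := coeff n (geo (GG q g))

/-- The coefficient of `x^k` in `x / G`. -/
noncomputable def PP (q : ℕ) (g : ℕ → R) (k : ℕ) : R := coeff k (geo (GP q g))

theorem map_hh (f : R →+* S) {q : ℕ} (hq : 1 < q) (g : ℕ → R) (n : ℕ) :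
    f (hh q g n) = hh q (fun i => f (g i)) n := by
  rw [hh, hh, ← coeff_map, map_geo f (constantCoeff_GG hq g), map_GG]

theorem map_PP (f : R →+* S) (q : ℕ) (g : ℕ → R) (n : ℕ) :
    f (PP q g n) = PP q (fun i => f (g i)) n := by
  rw [PP, PP, ← coeff_map, map_geo f (constantCoeff_GP q g), map_GP]

/-- A degree bound passes from `φ` to `1 / (1 - φ)`. -/
theorem natDegree_coeff_geo {φ : (Polynomial R)⟦X⟧} (hφ : constantCoeff φ = 0) {a b : ℕ}
    (h : ∀ j, a * (coeff j φ).natDegree ≤ b * j) (n : ℕ) :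
    a * (coeff n (geo φ)).natDegree ≤ b * n := by
  induction n using Nat.strong_induction_on with
  | _ n ih =>
    rcases n with _ | n
    · simp [coeff_zero_geo hφ]
    · rcases Nat.eq_zero_or_pos a with rfl | ha
      · simp
      rw [coeff_succ_geo hφ]
      have : (∑ i ∈ range (n + 1), coeff (i + 1) φ * coeff (n - i) (geo φ)).natDegree ≤
          b * (n + 1) / a := by
        apply Polynomial.natDegree_sum_le_of_forall_le
        intro i hi
        rw [Nat.le_div_iff_mul_le ha]
        have h1 := Polynomial.natDegree_mul_le (p := coeff (i + 1) φ) (q := coeff (n - i) (geo φ))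
        have h2 := h (i + 1)
        have h3 := ih (n - i) (by omega)
        have h4 : n + 1 = (i + 1) + (n - i) := by have := mem_range.mp hi; omega
        rw [h4, mul_add]
        nlinarith
      rw [Nat.le_div_iff_mul_le ha] at this
      linarith

theorem natDegree_hh {q : ℕ} (hq : 1 < q) {g : ℕ → Polynomial R}
    (hg : ∀ i, (q - 1) * (g i).natDegree + q ≤ q * q ^ i) (n : ℕ) :
    (q - 1) * (hh q g n).natDegree ≤ q * n := by
  apply natDegree_coeff_geo (constantCoeff_GG hq g)
  intro j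
  by_cases hj : ∃ i, q ^ i = j
  · obtain ⟨i, rfl⟩ := hj
    rw [coeff_GG_pow hq]
    have := hg i
    omega
  · push Not at hj
    simp [coeff_GG_of_ne g hj]

theorem natDegree_PP {q : ℕ} (hq : 1 < q) {g : ℕ → Polynomial R}
    (hg : ∀ i, (q - 1) * (g i).natDegree + q ≤ q * q ^ i) (n : ℕ) :
    (q - 1) * (PP q g n).natDegree ≤ q * n := by
  apply natDegree_coeff_geo (constantCoeff_GP q g)
  intro j
  rcases j with _ | j
  · simp [constantCoeff_GP]
  rw [coeff_succ_GP, Polynomial.natDegree_neg]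
  by_cases hj : ∃ i, q ^ i = j + 2
  · obtain ⟨i, hi⟩ := hj
    rw [← hi, coeff_GG_pow hq]
    have := hg i
    rw [hi] at this
    nlinarith
  · push Not at hj
    simp [coeff_GG_of_ne g hj]

end

end ZetaLikeMZV

/-! Logarithmic derivative of a split polynomial as a power series. -/

namespace ZetaLikeMZV

section

open Polynomial Finset

variable {K : Type*} [Field K] {ι : Type*}

/-- The series `1 / (a - x)`. -/
noncomputable def JJ (a : K) : PowerSeries K := PowerSeries.mk fun n => (a ^ (n + 1))⁻¹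

theorem mul_JJ {a : K} (ha : a ≠ 0) : (PowerSeries.C a - PowerSeries.X) * JJ a = 1 := by
  ext n
  rcases n with _ | n
  · simp [JJ, sub_mul, ha]
  · rw [sub_mul, map_sub, PowerSeries.coeff_succ_X_mul, PowerSeries.coeff_C_mul]
    simp only [JJ, PowerSeries.coeff_mk, PowerSeries.coeff_one, Nat.succ_ne_zero, if_false]
    field_simp
    ring

theorem logd_prod (s : Finset ι) (f : ι → K) (hf : ∀ i ∈ s, f i ≠ 0) :
    (∑ i ∈ s, JJ (f i)) * ((∏ i ∈ s, (X - C (f i)) : K[X]) : PowerSeries K) =
      - ((derivative (∏ i ∈ s, (X - C (f i)) : K[X]) : K[X]) : PowerSeries K) := by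
  classical
  induction s using Finset.induction_on with
  | empty => simp
  | insert a s ha ih =>
    have ih' := ih (fun i hi => hf i (mem_insert_of_mem hi))
    have h1 := mul_JJ (hf a (mem_insert_self a s))
    rw [sum_insert ha, prod_insert ha, derivative_mul]
    simp only [derivative_sub, derivative_X, derivative_C, sub_zero, one_mul, Polynomial.coe_mul, Polynomial.coe_add,
      Polynomial.coe_sub, coe_X, coe_C]
    linear_combination (PowerSeries.X - PowerSeries.C (f a)) * ih' -
      ((∏ i ∈ s, (X - C (f i)) : K[X]) : PowerSeries K) * h1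

theorem logd {p : K[X]} (hp : p ≠ 0) (s : Finset ι) (f : ι → K) (hinj : Set.InjOn f s)
    (hf : ∀ i ∈ s, f i ≠ 0) (hroot : ∀ i ∈ s, p.eval (f i) = 0) (hdeg : p.natDegree ≤ s.card) :
    (∑ i ∈ s, JJ (f i)) * (p : PowerSeries K) = - ((derivative p : K[X]) : PowerSeries K) := by
  have hdvd : (∏ i ∈ s, (X - C (f i)) : K[X]) ∣ p := by
    apply Finset.prod_dvd_of_coprime
    · intro i hi j hj hij
      apply isCoprime_X_sub_C_of_isUnit_sub
      exact (sub_ne_zero.mpr (fun h => hij (hinj hi hj h))).isUnit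
    · intro i hi
      exact dvd_iff_isRoot.mpr (hroot i hi)
  obtain ⟨r, hr⟩ := hdvd
  have hr0 : r ≠ 0 := by rintro rfl; simp at hr; exact hp hr
  have hm : (∏ i ∈ s, (X - C (f i)) : K[X]).Monic := monic_prod_of_monic _ _
    (fun i _ => monic_X_sub_C _)
  have hd : r.natDegree = 0 := by
    have := congrArg natDegree hr
    rw [natDegree_mul hm.ne_zero hr0, natDegree_finsetProd_X_sub_C_eq_card] at this
    omega
  rw [eq_C_of_natDegree_eq_zero hd] at hr
  rw [hr, derivative_mul]
  have := logd_prod s f hf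
  simp only [derivative_C, mul_zero, add_zero, Polynomial.coe_mul, coe_C]
  linear_combination PowerSeries.C (r.coeff 0) * this

end

end ZetaLikeMZV

/-! Reduction of polynomials with integral coefficients to the residue field. -/

namespace ZetaLikeMZV

section

open Polynomial Finset

variable {K Γ : Type*} [Field K] [LinearOrderedCommGroupWithZero Γ] (v : Valuation K Γ)

/-- The residue field of the valuation. -/
abbrev kk : Type _ := IsLocalRing.ResidueField v.valuationSubring

/-- `g` is the reduction of the integral polynomial `f`. -/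
def Red (f : K[X]) (g : (kk v)[X]) : Prop :=
  ∃ fO : v.valuationSubring[X], fO.map v.valuationSubring.subtype = f ∧
    fO.map (IsLocalRing.residue v.valuationSubring) = g

open Classical in
/-- The residue of an integral element. -/
noncomputable def res (a : K) : kk v :=
  if h : v a ≤ 1 then IsLocalRing.residue v.valuationSubring ⟨a, h⟩ else 0

variable {v}

theorem res_eq_zero_iff {a : K} (h : v a ≤ 1) : res v a = 0 ↔ v a < 1 := by
  rw [res, dif_pos h, IsLocalRing.residue_eq_zero_iff, Valuation.mem_maximalIdeal_iff]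

theorem Red.unique {f : K[X]} {g g' : (kk v)[X]} (h : Red v f g) (h' : Red v f g') : g = g' := by
  obtain ⟨a, ha, rfl⟩ := h
  obtain ⟨b, hb, rfl⟩ := h'
  have : a = b := map_injective _ v.valuationSubring.subtype_injective (ha.trans hb.symm)
  rw [this]

theorem Red.add {f f' : K[X]} {g g' : (kk v)[X]} (h : Red v f g) (h' : Red v f' g') :
    Red v (f + f') (g + g') := by
  obtain ⟨a, rfl, rfl⟩ := h
  obtain ⟨b, rfl, rfl⟩ := h'
  exact ⟨a + b, Polynomial.map_add _, Polynomial.map_add _⟩

theorem Red.sub {f f' : K[X]} {g g' : (kk v)[X]} (h : Red v f g) (h' : Red v f' g') :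
    Red v (f - f') (g - g') := by
  obtain ⟨a, rfl, rfl⟩ := h
  obtain ⟨b, rfl, rfl⟩ := h'
  exact ⟨a - b, Polynomial.map_sub _, Polynomial.map_sub _⟩

theorem Red.mul {f f' : K[X]} {g g' : (kk v)[X]} (h : Red v f g) (h' : Red v f' g') :
    Red v (f * f') (g * g') := by
  obtain ⟨a, rfl, rfl⟩ := h
  obtain ⟨b, rfl, rfl⟩ := h'
  exact ⟨a * b, Polynomial.map_mul _, Polynomial.map_mul _⟩

theorem Red.pow {f : K[X]} {g : (kk v)[X]} (h : Red v f g) (n : ℕ) : Red v (f ^ n) (g ^ n) := by
  obtain ⟨a, rfl, rfl⟩ := h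
  exact ⟨a ^ n, Polynomial.map_pow _ _, Polynomial.map_pow _ _⟩

theorem Red.zero : Red v 0 0 := ⟨0, Polynomial.map_zero _, Polynomial.map_zero _⟩

theorem Red.one : Red v 1 1 := ⟨1, Polynomial.map_one _, Polynomial.map_one _⟩

theorem Red.X : Red v X X := ⟨Polynomial.X, map_X _, map_X _⟩

theorem Red.C {a : K} (h : v a ≤ 1) : Red v (C a) (C (res v a)) :=
  ⟨Polynomial.C ⟨a, h⟩, map_C _, by rw [map_C, res, dif_pos h]⟩

theorem Red.C_small {a : K} (h : v a < 1) : Red v (Polynomial.C a) 0 := by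
  have := Red.C h.le
  rwa [(res_eq_zero_iff h.le).mpr h, map_zero] at this

theorem Red.C_one {a : K} (h : v (a - 1) < 1) : Red v (Polynomial.C a) 1 := by
  have := (Red.C_small h).add Red.one
  simpa using this

theorem Red.sum {ι : Type*} (s : Finset ι) {f : ι → K[X]} {g : ι → (kk v)[X]}
    (h : ∀ i ∈ s, Red v (f i) (g i)) : Red v (∑ i ∈ s, f i) (∑ i ∈ s, g i) := by
  classical
  induction s using Finset.induction_on with
  | empty => simpa using Red.zero
  | insert a s ha ih =>
    rw [sum_insert ha, sum_insert ha]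
    exact (h a (mem_insert_self a s)).add (ih (fun i hi => h i (mem_insert_of_mem hi)))

theorem Red.comp {f f' : K[X]} {g g' : (kk v)[X]} (h : Red v f g) (h' : Red v f' g') :
    Red v (f.comp f') (g.comp g') := by
  obtain ⟨a, rfl, rfl⟩ := h
  obtain ⟨b, rfl, rfl⟩ := h'
  exact ⟨a.comp b, map_comp _ _ _, map_comp _ _ _⟩

theorem Red.hh {q : ℕ} (hq : 1 < q) {f : ℕ → K[X]} {g : ℕ → (kk v)[X]}
    (h : ∀ i, Red v (f i) (g i)) (n : ℕ) : Red v (hh q f n) (hh q g n) := by
  choose a ha hb using h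
  refine ⟨ZetaLikeMZV.hh q a n, ?_, ?_⟩
  · have := map_hh (mapRingHom v.valuationSubring.subtype) hq a n
    simpa only [coe_mapRingHom, ha] using this
  · have := map_hh (mapRingHom (IsLocalRing.residue v.valuationSubring)) hq a n
    simpa only [coe_mapRingHom, hb] using this

theorem Red.PP (q : ℕ) {f : ℕ → K[X]} {g : ℕ → (kk v)[X]}
    (h : ∀ i, Red v (f i) (g i)) (n : ℕ) : Red v (PP q f n) (PP q g n) := by
  choose a ha hb using h
  refine ⟨ZetaLikeMZV.PP q a n, ?_, ?_⟩
  · have := map_PP (mapRingHom v.valuationSubring.subtype) q a n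
    simpa only [coe_mapRingHom, ha] using this
  · have := map_PP (mapRingHom (IsLocalRing.residue v.valuationSubring)) q a n
    simpa only [coe_mapRingHom, hb] using this

theorem Red.coeff {f : K[X]} {g : (kk v)[X]} (h : Red v f g) (n : ℕ) :
    v (f.coeff n) ≤ 1 ∧ g.coeff n = res v (f.coeff n) := by
  obtain ⟨a, rfl, rfl⟩ := h
  have h1 : v ((a.map v.valuationSubring.subtype).coeff n) ≤ 1 := by
    rw [coeff_map]; exact (a.coeff n).2
  refine ⟨h1, ?_⟩
  rw [res, dif_pos h1, coeff_map]
  congr 1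
  ext
  simp

theorem exists_Red {f : K[X]} (h : ∀ n, v (f.coeff n) ≤ 1) : ∃ g, Red v f g := by
  refine ⟨∑ n ∈ range (f.natDegree + 1), Polynomial.C (res v (f.coeff n)) * Polynomial.X ^ n, ?_⟩
  conv_lhs => rw [as_sum_range_C_mul_X_pow f]
  exact Red.sum _ (fun n _ => (Red.C (h n)).mul (Red.X.pow n))

theorem Red.of_small {f : K[X]} (h : ∀ n, v (f.coeff n) < 1) : Red v f 0 := by
  obtain ⟨g, hg⟩ := exists_Red (fun n => (h n).le)
  have : g = 0 := by
    ext n
    rw [(hg.coeff n).2, (res_eq_zero_iff (h n).le).mpr (h n), coeff_zero]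
  rwa [this] at hg

theorem Red.ne_zero {f : K[X]} {g : (kk v)[X]} (h : Red v f g) {n : ℕ} (hn : v (f.coeff n) = 1) :
    g ≠ 0 := by
  rintro rfl
  have := (h.coeff n).2
  rw [coeff_zero, eq_comm, res_eq_zero_iff hn.le, hn] at this
  exact lt_irrefl _ this

theorem Red.natDegree_le {f : K[X]} {g : (kk v)[X]} (h : Red v f g) :
    g.natDegree ≤ f.natDegree := by
  obtain ⟨a, rfl, rfl⟩ := h
  rw [natDegree_map_eq_of_injective v.valuationSubring.subtype_injective]
  exact natDegree_map_le

theorem Red.X_pow_dvd {f : K[X]} {g : (kk v)[X]} (h : Red v f g) {n : ℕ}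
    (hn : Polynomial.X ^ n ∣ f) : Polynomial.X ^ n ∣ g := by
  rw [X_pow_dvd_iff] at hn ⊢
  intro d hd
  rw [(h.coeff d).2, hn d hd, res_eq_zero_iff (by simp)]
  simp

/-- Normalising a nonzero polynomial to Gauss norm one. -/
theorem exists_normalize {f : K[X]} (hf : f ≠ 0) :
    ∃ n, f.coeff n ≠ 0 ∧ ∀ m, v (f.coeff m) ≤ v (f.coeff n) := by
  obtain ⟨n, hn, h⟩ := exists_max_image f.support (fun m => v (f.coeff m))
    (support_nonempty.mpr hf)
  refine ⟨n, mem_support_iff.mp hn, fun m => ?_⟩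
  by_cases hm : m ∈ f.support
  · exact h m hm
  · rw [notMem_support_iff.mp hm]; simp

end

end ZetaLikeMZV
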