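import Pool.Agent.P.MP_8c9ada_nt.C3
import Pool.Agent.P.MP_8c9ada_nt.Geo

/-! The polynomials `P` and `Q` in the variable `z`, their reductions and their sizes. -/

set_option autoImplicit false
set_option linter.unusedSectionVars false

namespace Pool.Agent.P.MP_8c9ada_nt.Cl

open Polynomial ZetaLikeMZV

variable {q : ℕ} [hp : Fact q.Prime]

/-! ### Generic facts -/

section generic
variable {A B : Type*} [CommRing A] [CommRing B]

/-- Coefficients of powers of `1 / (1 - u)`. -/
noncomputable def La (q : ℕ) (g : ℕ → A) (a m : ℕ) : A :=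
  PowerSeries.coeff m (inv1 (U q g) ^ (a + 1))

/-- Coefficients of `x / u`. -/
noncomputable def QU (q : ℕ) (g : ℕ → A) (n : ℕ) : A := PowerSeries.coeff n (Qs (U q g))

theorem La_zero (g : ℕ → A) (m : ℕ) : La q g 0 m = PowerSeries.coeff m (inv1 (U q g)) := by
  rw [La, zero_add, pow_one]

theorem map_La (φ : A →+* B) (g : ℕ → A) (a m : ℕ) :
    φ (La q g a m) = La q (fun i => φ (g i)) a m := by
  rw [La, La, ← PowerSeries.coeff_map, map_pow, map_inv1 _ (const_U q1 g), map_U q1]

theorem U_one {g : ℕ → A} (h : g 0 = 1) : PowerSeries.coeff 1 (U q g) = 1 := by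
  rw [← h, ← coeff_U_pow (q1 (q := q)) g 0, pow_zero]

theorem map_QU (φ : A →+* B) {g : ℕ → A} (h : g 0 = 1) (n : ℕ) :
    φ (QU q g n) = QU q (fun i => φ (g i)) n := by
  rw [QU, QU, ← PowerSeries.coeff_map, map_Qs _ (const_U q1 g) (U_one h), map_U q1]

theorem La_coeff_zero {g : ℕ → A[X]} (h0 : g 0 = 1) (h : ∀ i, (g (i + 1)).coeff 0 = 0) (a m : ℕ) :
    (La q g a m).coeff 0 = (a + m).choose a := by
  have e : U q (fun i => constantCoeff (g i)) = (PowerSeries.X : PowerSeries A) := by
    rw [U_eq]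
    simp only [constantCoeff_apply, h, h0]
    rw [← U_ext (q1 (q := q)) (f := 0) (g := fun _ => (0 : A)) (by simp) (by simp)]
    simp
  rw [← constantCoeff_apply, map_La, La, e, ← eq_inv1 (PowerSeries.mk_one_mul_one_sub_eq_one A),
    PowerSeries.mk_one_pow_eq_mk_choose_add, PowerSeries.coeff_mk]

theorem La_deg {g : ℕ → A[X]} {c : ℕ} (h : ∀ i, c * (g i).natDegree ≤ q ^ i) (a m : ℕ) :
    c * (La q g a m).natDegree ≤ m :=
  (((Dg.U q1 h).inv1 (const_U q1 g)).pow (a + 1)).deg m

/-- The reduced coefficients. -/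
noncomputable def gb (q : ℕ) (A : Type*) [CommRing A] : ℕ → A[X]
  | 0 => 1
  | i + 1 => X ^ q ^ i

theorem gb_deg (i : ℕ) : q * (gb q A i).natDegree ≤ q ^ i := by
  rcases i with _ | i
  · simp [gb]
  · rw [gb, pow_succ']; exact Nat.mul_le_mul_left _ (natDegree_X_pow_le _)

theorem gb_zero (i : ℕ) : (gb q A (i + 1)).coeff 0 = 0 := by
  rw [gb, coeff_X_pow, if_neg (pow_pos hp.out.pos i).ne]

theorem gb_pow (i : ℕ) : gb q A i ^ q = expand A q (gb q A i) := by
  rcases i with _ | i
  · simp [gb]
  · simp [gb, ← pow_mul, mul_comm]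

theorem coeff_one_sub (j i : ℕ) : ((1 - X : A[X]) ^ j).coeff i = (-1) ^ i * j.choose i := by
  have : (1 - X : A[X]) ^ j = ((1 + X) ^ j).comp (C (-1) * X) := by simp [sub_eq_add_neg]
  rw [this, comp_C_mul_X_coeff, coeff_one_add_X_pow, mul_comm]

variable [CharP A q]

theorem gb_eq : U q (gb q A) - U q (gb q A) ^ q =
    PowerSeries.X - PowerSeries.C (1 - X) * PowerSeries.X ^ q := by
  have e : U q (fun i => gb q A i ^ q) = PowerSeries.C (1 - X) * PowerSeries.X +
      U q fun i => gb q A (i + 1) := by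
    rw [U_eq, U_eq fun i => gb q A (i + 1)]
    simp only [gb, ← pow_mul, ← pow_succ]
    simp; ring
  rw [U_pow, e]
  conv_lhs => enter [1]; rw [U_eq]
  rw [map_add, map_mul, ex, PowerSeries.expand_X, PowerSeries.expand_C]
  simp [gb]

theorem Qb_add (j : ℕ) (hj : 0 < j) :
    QU q (gb q A) (j * (q - 1)) + La q (gb q A) 0 (j * (q - 1) - 1) = (1 - X) ^ j := by
  have hq := q1 (q := q)
  have := bar_Q (const_U hq _) (U_one rfl) (LL.U hq _) (gb_eq (A := A)) j
  obtain ⟨n, hn⟩ : ∃ n, j * (q - 1) = n + 1 :=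
    ⟨j * (q - 1) - 1, by have := Nat.mul_pos hj (by omega : 0 < q - 1); omega⟩
  rwa [map_add, hn, PowerSeries.coeff_succ_X_mul, ← La_zero, ← QU, ← hn,
    show n = j * (q - 1) - 1 by omega] at this

theorem Qb_coeff {j o : ℕ} (hj : 0 < j) (h : j * (q - 1) ≤ q * o) :
    (QU q (gb q A) (j * (q - 1))).coeff o = (-1) ^ o * j.choose o := by
  have hq := q1 (q := q)
  have := La_deg (gb_deg (q := q) (A := A)) 0 (j * (q - 1) - 1)
  have := Nat.mul_pos hj (by omega : 0 < q - 1)
  rw [← coeff_one_sub, ← Qb_add j hj, coeff_add, coeff_eq_zero_of_natDegree_lt (p := La _ _ _ _)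
    (Nat.lt_of_mul_lt_mul_left (a := q) (by omega)), add_zero]

theorem Pb_rec {N k : ℕ} (h : q * k ≤ N) : X ^ (k + 1) ∣
    La q (gb q A) 0 (N + (q - 1)) - (1 - X) * La q (gb q A) 0 N := by
  have hq := q1 (q := q)
  have := congrArg (PowerSeries.coeff (N + 1 + (q - 1))) (bar_P (const_U hq _) (gb_eq (A := A)))
  rw [mul_sub, mul_one, map_sub, mul_left_comm, PowerSeries.coeff_C_mul,
    PowerSeries.coeff_mul_X_pow, PowerSeries.coeff_succ_X_mul,
    show N + 1 + (q - 1) = N + (q - 1) + 1 by omega, PowerSeries.coeff_succ_X_mul, map_sum] at this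
  rw [La_zero, La_zero, this]
  have s1 : S2 (fun K o => K ≤ q * o + 1) (U q (gb q A)) := fun K o e => by
    obtain ⟨i, rfl, h2⟩ := U_supp hq (g := gb q A) (N := K) fun z => by simp [z] at e
    rw [h2] at e
    rcases i with _ | i
    · simp
    · rw [gb, coeff_X_pow] at e
      obtain rfl : o = q ^ i := by by_contra c; exact e (if_neg c)
      rw [pow_succ']; omega
  have s2 : ∀ n, S2 (fun K o => K ≤ q * o + n) (U q (gb q A) ^ n) := fun n => by
    induction n with
    | zero => rw [pow_zero]; exact S2.one (by simp)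
    | succ n ih => rw [pow_succ]; exact ih.mul s1 fun _ _ _ _ a b => by rw [mul_add]; omega
  refine Finset.dvd_sum fun i hi => X_pow_dvd_iff.2 fun o ho => ?_
  by_contra c
  have := s2 _ _ _ c
  have := Finset.mem_range.1 hi
  have := Nat.mul_le_mul_left q (Nat.le_of_lt_succ ho)
  omega

theorem Pb_frob {N k : ℕ} (h : q * k ≤ N) :
    X ^ (k + 1) ∣ La q (gb q A) 0 N ^ q - (1 - X) ^ (N + 1) * La q (gb q A) 0 N := by
  have hq := q1 (q := q)
  have a : ∀ i, X ^ (k + 1) ∣
      La q (gb q A) 0 (N + i * (q - 1)) - (1 - X) ^ i * La q (gb q A) 0 N := fun i => by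
    induction i with
    | zero => simp
    | succ i ih =>
      have := (Pb_rec (A := A) (N := N + i * (q - 1)) (k := k) (by omega)).add (ih.mul_left (1 - X))
      rw [add_mul, one_mul, ← add_assoc]
      convert this using 1; ring
  have u : U q (gb q A) = PowerSeries.X +
      ex q (PowerSeries.rescale 1 (U q fun i => gb q A (i + 1))) := by
    rw [U_eq]; simp [gb]
  have b := P_frob (const_U hq (gb q A)) (LL.U hq _) (by
    rw [u, E1 _ (const_U hq _), Finset.sum_eq_single (q - 1)]
    · simp [const_inv1 (const_U hq _)]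
    · intro b hb hne
      have := Finset.mem_range.1 hb
      exact if_neg (Nat.not_dvd_of_pos_of_lt (by omega) (by omega))
    · simp) N
  have := a (N + 1)
  rwa [show N + (N + 1) * (q - 1) = q * N + (q - 1) by
    obtain ⟨g, rfl⟩ : ∃ g, q = g + 1 := ⟨q - 1, by omega⟩
    rw [Nat.add_sub_cancel]; ring, La_zero, b, ← La_zero] at this

end generic

/-! ### The coefficients in the variable `z` -/

variable {K : Type*} [Field K] [CharP K q]

/-- The linear factor. -/
noncomputable def Lf (q : ℕ) (t : K) (i : ℕ) : K[X] := 1 + C (br q t 1 / br q t (i + 1)) * (X - 1)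

/-- The coefficients of the additive series. -/
noncomputable def ga (q : ℕ) (t : K) : ℕ → K[X]
  | 0 => 1
  | i + 1 => ga q t i ^ q * Lf q t i

/-- The coefficients divided by their order of vanishing. -/
noncomputable def de (q : ℕ) (t : K) : ℕ → K[X]
  | 0 => 1
  | i + 1 => de q t i ^ q * Lf q t (i + 1)

/-- The twisted coefficients. -/
noncomputable def et (q : ℕ) (t : K) (i : ℕ) : K[X] :=
  ga q t i ^ q * C (br q t 1 ^ q ^ i / br q t (i + 1))

/-- The substitution that corresponds to the Frobenius map. -/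
noncomputable def cs (q : ℕ) (t : K) : K[X] := C (br q t 1 ^ (q - 1)) * (X - 1) ^ q

theorem br_pow (t : K) (i : ℕ) : br q t i ^ q = br q t (i + 1) - br q t 1 := by
  rw [br, br, br, sub_pow_char, ← pow_mul, ← pow_succ, pow_one]; ring

theorem br_one_pow (t : K) (i : ℕ) : br q t 1 ^ q ^ i = br q t (i + 1) - br q t i := by
  rw [br, br, br, sub_pow_char_pow, ← pow_mul, ← pow_add, add_comm 1]; ring

theorem Lf_deg (t : K) (i : ℕ) : (Lf q t i).natDegree ≤ 1 := by unfold Lf; compute_degree

theorem ga_deg (t : K) (i : ℕ) : (q - 1) * (ga q t i).natDegree + 1 ≤ q ^ i := by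
  have hq := q1 (q := q)
  induction i with
  | zero => simp [ga]
  | succ i ih =>
    have : (ga q t (i + 1)).natDegree ≤ q * (ga q t i).natDegree + 1 :=
      natDegree_mul_le.trans (add_le_add natDegree_pow_le (Lf_deg t i))
    have := Nat.mul_le_mul_left (q - 1) this
    have := Nat.mul_le_mul_left q ih
    obtain ⟨g, rfl⟩ : ∃ g, q = g + 1 := ⟨q - 1, by omega⟩
    rw [pow_succ']
    simp only [Nat.add_sub_cancel] at *
    nlinarith

variable {Γ : Type*} [LinearOrderedCommGroupWithZero Γ] {v : Valuation K Γ} {t : K}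

theorem Lf_zero (ht : 1 < v t) : Lf q t 0 = X := by
  rw [Lf, div_self (br_ne ht 0)]; simp

theorem ga_succ (ht : 1 < v t) (i : ℕ) : ga q t (i + 1) = X ^ q ^ i * de q t i := by
  induction i with
  | zero => simp [ga, de, Lf_zero ht]
  | succ i ih => rw [ga, ih, de, mul_pow, ← pow_mul, ← pow_succ, mul_assoc]

theorem ga_zero (ht : 1 < v t) (i : ℕ) : (ga q t (i + 1)).coeff 0 = 0 := by
  rw [ga_succ ht, mul_coeff_zero, coeff_X_pow, if_neg (pow_pos hp.out.pos i).ne, zero_mul]

theorem de_zero (ht : 1 < v t) (i : ℕ) : (de q t i).coeff 0 = br q t 1 ^ q ^ i / br q t (i + 1) := by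
  induction i with
  | zero => simp [de, br_ne ht 0]
  | succ i ih =>
    have a := br_ne (q := q) ht i
    have b := br_ne (q := q) ht (i + 1)
    rw [de, mul_coeff_zero, ← constantCoeff_apply (_ ^ q), map_pow, constantCoeff_apply, ih,
      div_pow, ← pow_mul, ← pow_succ, Lf]
    have c := pow_ne_zero q a
    rw [br_pow] at c ⊢
    simp; field_simp; ring

theorem U_de (ht : 1 < v t) :
    U q (ga q t) = PowerSeries.X + ex q (PowerSeries.rescale X (U q (de q t))) := by
  rw [U_eq, rescale_U q1]; simp only [ga_succ ht]; simp [ga]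

theorem cs_eq (ht : 1 < v t) : C (br q t 1)⁻¹ * (C (br q t 1) * (X - 1)) ^ q = cs q t := by
  have hq := q1 (q := q)
  rw [cs, mul_pow, ← mul_assoc, ← map_pow, ← map_mul]
  congr 2
  rw [← pow_sub_one_mul hp.out.ne_zero, mul_comm, mul_inv_cancel_right₀ (br_ne ht 0)]

theorem ga_comp (ht : 1 < v t) (i : ℕ) :
    (ga q t (i + 1)).comp (cs q t) = cs q t ^ q ^ i * et q t i := by
  induction i with
  | zero => simp [ga, et, Lf_zero ht, br_ne ht 0]
  | succ i ih =>
    have a := br_ne (q := q) ht i
    have b := br_ne (q := q) ht (i + 1)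
    have c := br_ne (q := q) ht 0
    have e : (Lf q t (i + 1)).comp (cs q t) =
        C (br q t (i + 1) ^ q / br q t (i + 1 + 1)) * Lf q t i ^ q := by
      rw [Lf, Lf, add_pow_char, one_pow, mul_pow, ← map_pow, mul_add, ← mul_assoc, ← map_mul, cs]
      simp only [add_comp, one_comp, mul_comp, C_comp, sub_comp, X_comp]
      rw [mul_sub, ← mul_assoc, ← map_mul, mul_one, mul_one, add_sub_left_comm, add_comm,
        ← map_one C, ← map_sub]
      congr 2
      · rw [br_pow]; field_simp
      · congr 1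
        rw [div_pow, ← pow_sub_one_mul hp.out.ne_zero (br q t 1)]
        field_simp
    rw [ga, mul_comp, pow_comp, ih, e, et, et, ga, mul_pow, mul_pow, mul_pow, ← map_pow,
      ← pow_mul (cs q t), ← pow_succ]
    have : C (br q t 1 ^ q ^ (i + 1) / br q t (i + 1 + 1)) =
        C ((br q t 1 ^ q ^ i / br q t (i + 1)) ^ q) * C (br q t (i + 1) ^ q / br q t (i + 1 + 1)) := by
      rw [← map_mul, div_pow, ← pow_mul, ← pow_succ]; congr 1; field_simp
    rw [this]; ring

theorem U_et (ht : 1 < v t) : U q (fun i => (ga q t i).comp (cs q t)) =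
    PowerSeries.X + ex q (PowerSeries.rescale (cs q t) (U q (et q t))) := by
  rw [U_eq, rescale_U q1]; simp only [ga_comp ht]; simp [ga]

/-! ### Reductions -/

instance charP_kk : CharP (kk v) q := (CharP.charP_iff_prime_eq_zero hp.out).2 (by
  rw [← map_natCast (IsLocalRing.residue v.valuationSubring),
    show (q : v.valuationSubring) = 0 from Subtype.ext (by simp), map_zero])

theorem v_br_lt (ht : 1 < v t) {i j : ℕ} (h : i < j + 1) : v (br q t i / br q t (j + 1)) < 1 := by
  have t0 : 0 < v t := zero_lt_one.trans ht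
  rw [map_div₀, v_br ht, div_lt_one₀ (pow_pos t0 _)]
  rcases i with _ | i
  · simp [br, pow_pos t0]
  · rw [v_br ht]; exact pow_lt_pow_right₀ ht (Nat.pow_lt_pow_right q1 h)

theorem v_tau (ht : 1 < v t) : 1 < v (br q t 1) := by
  rw [v_br ht 0]; exact one_lt_pow₀ ht (pow_pos hp.out.pos _).ne'

theorem red_X1 : Red v (X - 1) (X - 1) := Red.X.sub Red.one

theorem red_ga (ht : 1 < v t) (i : ℕ) : Red v (ga q t i) (gb q (kk v) i) := by
  induction i with
  | zero => exact Red.one
  | succ i ih =>
    rcases i with _ | i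
    · simpa [ga, gb, Lf_zero ht] using Red.X (v := v)
    · have := (ih.pow q).mul (Red.one.add
        ((Red.C_small (v_br_lt (q := q) ht (by omega : 1 < i + 1 + 1))).mul red_X1))
      rwa [zero_mul, add_zero, mul_one, gb, ← pow_mul, ← pow_succ] at this

theorem red_et (ht : 1 < v t) (i : ℕ) : Red v (et q t i) (expand (kk v) q (gb q (kk v) i)) := by
  have := ((red_ga (q := q) ht i).pow q).mul
    (Red.C_one (a := br q t 1 ^ q ^ i / br q t (i + 1)) (by
      rw [br_one_pow, sub_div, div_self (br_ne ht i), sub_sub_cancel_left, v.map_neg]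
      exact v_br_lt ht (by omega)))
  rwa [mul_one, gb_pow] at this

theorem red_La {f : ℕ → K[X]} {g : ℕ → (kk v)[X]} (h : ∀ i, Red v (f i) (g i)) (a m : ℕ) :
    Red v (La q f a m) (La q g a m) := by
  choose x hx hy using h
  obtain rfl : f = fun i => mapRingHom v.valuationSubring.subtype (x i) :=
    funext fun i => (hx i).symm
  obtain rfl : g = fun i => mapRingHom (IsLocalRing.residue v.valuationSubring) (x i) :=
    funext fun i => (hy i).symm
  exact ⟨La q x a m, map_La (mapRingHom v.valuationSubring.subtype) x a m,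
    map_La (mapRingHom (IsLocalRing.residue v.valuationSubring)) x a m⟩

theorem red_QU {f : ℕ → K[X]} {g : ℕ → (kk v)[X]} (h : ∀ i, Red v (f i) (g i)) (h0 : f 0 = 1)
    (n : ℕ) : Red v (QU q f n) (QU q g n) := by
  choose x hx hy using h
  have x0 : x 0 = 1 := map_injective _ v.valuationSubring.subtype_injective (by
    rw [hx, h0, Polynomial.map_one])
  obtain rfl : f = fun i => mapRingHom v.valuationSubring.subtype (x i) :=
    funext fun i => (hx i).symm
  obtain rfl : g = fun i => mapRingHom (IsLocalRing.residue v.valuationSubring) (x i) :=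
    funext fun i => (hy i).symm
  exact ⟨QU q x n, map_QU (mapRingHom v.valuationSubring.subtype) x0 n,
    map_QU (mapRingHom (IsLocalRing.residue v.valuationSubring)) x0 n⟩

/-! ### Bounds -/

variable (v) in
/-- All coefficients are bounded by `r`. -/
def Bd (r : Γ) (f : K[X]) : Prop := ∀ n, v (f.coeff n) ≤ r

namespace Bd
variable {r s : Γ} {f g : K[X]}

theorem mono (h : Bd v r f) (l : r ≤ s) : Bd v s f := fun n => (h n).trans l

theorem add (h : Bd v r f) (h' : Bd v r g) : Bd v r (f + g) := fun n => by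
  rw [coeff_add]; exact v.map_add_le (h n) (h' n)

theorem sub (h : Bd v r f) (h' : Bd v r g) : Bd v r (f - g) := fun n => by
  rw [coeff_sub]; exact v.map_sub_le (h n) (h' n)

theorem mul (h : Bd v r f) (h' : Bd v s g) : Bd v (r * s) (f * g) := fun n => by
  rw [coeff_mul]
  exact v.map_sum_le fun x _ => by rw [map_mul]; exact mul_le_mul' (h _) (h' _)

theorem C_mul {a : K} (ha : v a ≤ r) (h : Bd v s g) : Bd v (r * s) (C a * g) := fun n => by
  rw [coeff_C_mul, map_mul]; exact mul_le_mul' ha (h n)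

theorem of_red {g : (kk v)[X]} (h : Red v f g) : Bd v 1 f := fun n => (h.coeff n).1

theorem red (h : Bd v r f) (hr : r < 1) : Red v f 0 := Red.of_small fun n => (h n).trans_lt hr

theorem sum {ι : Type*} {S : Finset ι} {F : ι → K[X]} (h : ∀ i ∈ S, Bd v r (F i)) :
    Bd v r (∑ i ∈ S, F i) := fun n => by
  rw [finsetSum_coeff]; exact v.map_sum_le fun i hi => h i hi n

theorem comp {a : K} {p : K[X]} {p' : (kk v)[X]} (h : ∀ k, v (f.coeff k) * v a ^ k ≤ r)
    (hp : Red v p p') : Bd v r (f.comp (C a * p)) := by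
  rw [comp_eq_sum_left]
  refine sum fun k _ => ?_
  beta_reduce
  rw [mul_pow, ← mul_assoc, ← map_pow, ← map_mul, ← mul_one r]
  exact C_mul (by rw [map_mul, map_pow]; exact h k) (of_red (hp.pow k))

theorem cancel (w : ℕ) (h : Bd v r ((X - 1) ^ w * f)) : Bd v r f := by
  induction w with
  | zero => simpa using h
  | succ w ih =>
    refine ih fun n => ?_
    rw [pow_succ', mul_assoc, sub_mul, one_mul] at h
    induction n with
    | zero => simpa using h 0
    | succ n ihn =>
      have := v.map_sub_le ihn (h (n + 1))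
      rwa [coeff_sub, coeff_X_mul, sub_sub_cancel] at this

theorem boot {a : Γ} (ha : 1 < a) (h : ∀ r, Bd v r f → Bd v (max 1 (r / a)) f) : Bd v 1 f := by
  by_cases z : f = 0
  · intro n; simp [z]
  obtain ⟨n, h0, hn⟩ := exists_normalize (v := v) z
  refine Bd.mono hn ((le_max_iff.1 (h _ hn n)).resolve_right fun c => ?_)
  rw [le_div_iff₀ (zero_lt_one.trans ha), mul_le_iff_le_one_right ((Valuation.pos_iff v).2 h0)] at c
  exact absurd c (not_le.2 ha)

theorem sigma (ht : 1 < v t) (h : Bd v r f) {e : ℕ} (he : (q - 1) * f.natDegree ≤ e) :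
    Bd v (r * v (br q t 1) ^ e) (f.comp (cs q t)) := by
  refine comp (fun k => ?_) (red_X1.pow q)
  rcases le_or_gt k f.natDegree with c | c
  · rw [map_pow, ← pow_mul]
    exact mul_le_mul' (h k)
      (pow_le_pow_right₀ (v_tau ht).le ((Nat.mul_le_mul_left _ c).trans he))
  · simp [coeff_eq_zero_of_natDegree_lt c]

end Bd

theorem red_top {f p : K[X]} {g p' : (kk v)[X]} {a : K} {d : ℕ} (h : Red v f g)
    (hd : f.natDegree ≤ d) (ha : 1 < v a) (hp : Red v p p') :
    Red v (C (a ^ d)⁻¹ * f.comp (C a * p)) (C (g.coeff d) * p' ^ d) := by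
  have a0 : a ≠ 0 := fun e => by simp [e] at ha
  have e : C (a ^ d)⁻¹ * f.comp (C a * p) =
      ∑ i ∈ Finset.range (d + 1), C (f.coeff i * (a ^ i / a ^ d)) * p ^ i := by
    conv_lhs => rw [f.as_sum_range_C_mul_X_pow' (Nat.lt_succ_of_le hd)]
    rw [sum_comp, Finset.mul_sum]
    refine Finset.sum_congr rfl fun i _ => ?_
    simp only [mul_comp, C_comp, pow_comp, X_comp, mul_pow, div_eq_mul_inv, map_mul, map_pow]
    ring
  rw [e, Finset.sum_range_succ, div_self (pow_ne_zero _ a0), mul_one, (h.coeff d).2,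
    ← zero_add (C (res v _) * _)]
  refine Red.add ?_ ((Red.C (h.coeff d).1).mul (hp.pow d))
  have := Red.sum (Finset.range d) (f := fun i => C (f.coeff i * (a ^ i / a ^ d)) * p ^ i)
    (g := fun i => 0 * p' ^ i) fun i hi => (Red.C_small (by
      rw [map_mul, map_div₀, map_pow, map_pow]
      exact (mul_le_of_le_one_left' (h.coeff i).1).trans_lt
        ((div_lt_one₀ (pow_pos (zero_lt_one.trans ha) _)).2
        (pow_lt_pow_right₀ ha (Finset.mem_range.1 hi))))).mul (hp.pow i)
  simpa using this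

theorem Q_deg (t : K) (n : ℕ) : (q - 1) * (QU q (ga q t) n).natDegree ≤ n :=
  (Dg.Qs q1 rfl (ga_deg t)).deg n

theorem P_deg (t : K) (n : ℕ) : (q - 1) * (La q (ga q t) 0 n).natDegree ≤ n :=
  La_deg (fun i => (Nat.le_succ _).trans (ga_deg t i)) 0 n

theorem P_zero (ht : 1 < v t) (n : ℕ) : (La q (ga q t) 0 n).coeff 0 = 1 := by
  rw [La_coeff_zero rfl (ga_zero ht)]; simp

theorem Q_low (ht : 1 < v t) {n b o : ℕ} (h : q * o ≤ n + b)
    (h' : ∀ b' < b, ds q b' < ds q (n + b')) : X ^ (o + 1) ∣ QU q (ga q t) n -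
      if n + b = q * o then (-1) ^ b * (X ^ o * PowerSeries.coeff o (U q (de q t) ^ b)) else 0 := by
  have hq := q1 (q := q)
  rw [QU, U_de ht, E2 _ (const_U hq _) (show n < n + b + 1 by omega),
    ← Finset.add_sum_erase _ _ (Finset.mem_range.2 (show b < n + b + 1 by omega)),
    add_sub_right_comm]
  have big : ∀ i, q * o < n + i → X ^ (o + 1) ∣ if q ∣ n + i then (-1 : K[X]) ^ i *
      (X ^ ((n + i) / q) * PowerSeries.coeff ((n + i) / q) (U q (de q t) ^ i)) else 0 := by
    intro i hi
    split_ifs with d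
    · obtain ⟨m, hm⟩ := d
      rw [hm, Nat.mul_div_cancel_left _ hp.out.pos]
      exact ((pow_dvd_pow X (Nat.lt_of_mul_lt_mul_left (a := q) (by omega))).mul_right _).mul_left _
    · exact dvd_zero _
  refine Dvd.dvd.add ?_ (Finset.dvd_sum fun i hi => ?_)
  · rcases h.eq_or_lt with e | e
    · rw [← e, if_pos (dvd_mul_right _ _), if_pos rfl, Nat.mul_div_cancel_left _ hp.out.pos]; simp
    · rw [if_neg e.ne', sub_zero]; exact big b e
  · rcases lt_or_gt_of_ne (Finset.mem_erase.1 hi).1 with c | c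
    · split_ifs with d
      · obtain ⟨m, hm⟩ := d
        have := h' i c
        rw [hm, ds_mul hq] at this
        rw [hm, Nat.mul_div_cancel_left _ hp.out.pos,
          not_not.1 fun z => absurd (LL.pow_ds i (LL.U hq (de q t)) m z) (not_le.2 this)]
        simp
      · exact dvd_zero _
    · exact big i (by omega)

theorem Q_dvd (ht : 1 < v t) {n o : ℕ} (h0 : 0 < n) (h : q * o ≤ n) :
    X ^ (o + 1) ∣ QU q (ga q t) n := by
  have := Q_low ht (n := n) (b := 0) (o := o) h (by simp)
  split_ifs at this with c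
  · rwa [pow_zero (U _ _), PowerSeries.coeff_one, if_neg (by rintro rfl; omega), mul_zero, mul_zero,
      sub_zero] at this
  · simpa using this

theorem Q_coeff (ht : 1 < v t) {n b o : ℕ} (h : n + b = q * o)
    (h' : ∀ b' < b, ds q b' < ds q (n + b')) (N : ℕ) :
    v ((La q (ga q t) 0 N * QU q (ga q t) n).coeff o) * v t ^ b =
      v t ^ (q * o) * v (PowerSeries.coeff o (EE q t ^ b)) := by
  have hq := q1 (q := q)
  have t0 : t ≠ 0 := fun e => by simp [e] at ht
  have := X_pow_dvd_iff.1 ((Q_low ht h.ge h').mul_left (La q (ga q t) 0 N)) o (Nat.lt_succ_self o)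
  rw [if_pos h, mul_sub, coeff_sub, sub_eq_zero] at this
  have e : PowerSeries.C t * PowerSeries.map constantCoeff (U q (de q t)) =
      PowerSeries.rescale (br q t 1) (EE q t) := by
    rw [map_U hq, EE, rescale_U hq]
    exact U_ext hq (fun i => by
      rw [PowerSeries.coeff_C_mul, coeff_U_pow hq, constantCoeff_apply, de_zero ht]; ring)
      fun N h => by rw [PowerSeries.coeff_C_mul, coeff_U_ne _ h, mul_zero]
  have e' : PowerSeries.coeff o ((PowerSeries.C t * PowerSeries.map constantCoeff (U q (de q t))) ^ b)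
      = PowerSeries.coeff o (PowerSeries.rescale (br q t 1) (EE q t) ^ b) := by rw [e]
  rw [mul_pow, ← map_pow, ← map_pow, ← map_pow, PowerSeries.coeff_C_mul, PowerSeries.coeff_map,
    PowerSeries.coeff_rescale, constantCoeff_apply] at e'
  have e2 := congrArg v e'
  rw [map_mul, map_mul, map_pow v, map_pow v, v_br ht 0, zero_add, pow_one, ← pow_mul] at e2
  rw [this, ← e2, mul_left_comm (La _ _ _ _), mul_left_comm (La _ _ _ _), mul_left_comm,
    coeff_X_pow_mul', if_pos le_rfl, Nat.sub_self, mul_coeff_zero, mul_coeff_zero, P_zero ht,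
    one_mul, map_mul, ← constantCoeff_apply ((-1) ^ b), map_pow]
  simp [mul_comm]

theorem sigma_P (ht : 1 < v t) {N a m : ℕ} (h : a + q * m = N)
    (h' : ∀ a', (∀ r, ds q (N % q ^ (r + 1)) ≤ 0 + r * (q - 1) + a' / q ^ r % q) → a ≤ a') :
    Red v (C ((br q t 1 ^ (q - 1)) ^ m)⁻¹ * (La q (ga q t) 0 N).comp (cs q t))
      (((X - 1) ^ q) ^ m * expand (kk v) q (La q (gb q (kk v)) a m)) := by
  have hq := q1 (q := q)
  have ha : 1 < v (br q t 1 ^ (q - 1)) := by
    rw [map_pow]; exact one_lt_pow₀ (v_tau ht) (by omega)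
  have a0 : br q t 1 ^ (q - 1) ≠ 0 := pow_ne_zero _ (br_ne ht 0)
  have r : ∀ a m, Red v (La q (et q t) a m) (expand (kk v) q (La q (gb q (kk v)) a m)) :=
    fun a m => by
      have := map_La (q := q) (expand (kk v) q).toRingHom (gb q (kk v)) a m
      exact this ▸ red_La (red_et ht) a m
  have e := map_La (q := q) (compRingHom (cs q t)) (ga q t) 0 N
  simp only [coe_compRingHom] at e
  rw [e, La_zero, U_et ht, E1 _ (const_U hq _), Finset.mul_sum]
  have := Red.sum (v := v) (Finset.range (N + 1)) (f := fun i => C ((br q t 1 ^ (q - 1)) ^ m)⁻¹ *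
    if q ∣ N - i then cs q t ^ ((N - i) / q) * La q (et q t) i ((N - i) / q) else 0)
    (g := fun i => if i = a then ((X - 1) ^ q) ^ m * expand (kk v) q (La q (gb q (kk v)) a m) else 0)
    fun i hi => by
      have hi := Finset.mem_range.1 hi
      by_cases d : q ∣ N - i
      swap
      · rw [if_neg d, if_neg, mul_zero]
        · exact Red.zero
        · rintro rfl; exact d ⟨m, by omega⟩
      obtain ⟨m', hm⟩ := d
      rw [hm, if_pos (dvd_mul_right _ _), Nat.mul_div_cancel_left _ hp.out.pos, cs, mul_pow,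
        ← map_pow, mul_assoc, ← mul_assoc, ← map_mul]
      rcases lt_trichotomy i a with c | rfl | c
      · rw [if_neg c.ne]
        by_cases z : La q (et q t) i m' = 0
        · rw [z, mul_zero, mul_zero]; exact Red.zero
        refine absurd (h' i fun r => ?_) (not_le.2 c)
        have v1 := Vp (const_U hq _) (LL.U hq _) z r
        have v2 := ds_mod_le hq (r + 1) (i % q ^ (r + 1) + q * (m' % q ^ r))
        have v3 := ds_add_le hq (i % q ^ (r + 1)) (q * (m' % q ^ r))
        rw [ds_mul hq] at v3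
        rw [← Nat.mul_mod_mul_left, ← pow_succ', ← Nat.add_mod,
          show i + q * m' = N by omega] at v2
        rw [← Nat.mul_mod_mul_left, ← pow_succ'] at v3
        have v4 := ds_split hq r _ (i / q ^ r % q) (Nat.mod_lt i (pow_pos hp.out.pos r))
        rw [← Nat.mod_pow_succ, ds_lt hq (Nat.mod_lt _ hp.out.pos)] at v4
        omega
      · obtain rfl : m' = m := Nat.eq_of_mul_eq_mul_left hp.out.pos (by omega)
        rw [if_pos rfl, inv_mul_cancel₀ (pow_ne_zero _ a0), map_one, one_mul]
        exact ((red_X1.pow q).pow _).mul (r _ _)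
      · have : m' < m := Nat.lt_of_mul_lt_mul_left (a := q) (by omega)
        have := (Red.C_small (v := v) (a := ((br q t 1 ^ (q - 1)) ^ m)⁻¹ * (br q t 1 ^ (q - 1)) ^ m')
          (by rw [map_mul, map_inv₀, map_pow v _ m, map_pow v _ m', ← div_eq_inv_mul]
              exact (div_lt_one₀ (pow_pos (zero_lt_one.trans ha) _)).2
                (pow_lt_pow_right₀ ha this))).mul (((red_X1.pow q).pow m').mul (r i m'))
        rwa [if_neg c.ne', ← zero_mul]
  rwa [Finset.sum_ite_eq', if_pos (Finset.mem_range.2 (by omega))] at this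

end Pool.Agent.P.MP_8c9ada_nt.Cl
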