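import Pool.Agent.P.MP_8c9ada_nt.C4

/-! The necessary conditions, over a valued field. -/

set_option autoImplicit false
set_option linter.unusedSectionVars false

namespace Pool.Agent.P.MP_8c9ada_nt.Cl

open Polynomial ZetaLikeMZV

variable {q : ℕ}

/-! ### Arithmetic -/

theorem low_lt (hq : 1 < q) (k : ℕ) : ∀ N, 0 < N →
    (q - 1) * ∑ s ∈ Finset.range k, low q N (s + 1) < N := by
  induction k with
  | zero => intro N h; simpa using h
  | succ k ih =>
    intro N h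
    have l := low_le hq N
    rw [Finset.sum_range_succ', low_succ hq, low_zero hq]
    simp only [low_succ hq N]
    generalize N - top q N (q - 1) = L at l ⊢
    rcases Nat.eq_zero_or_pos L with rfl | c
    · simpa [low] using h
    · have := ih L c
      obtain ⟨p, rfl⟩ : ∃ p, q = p + 1 := ⟨q - 1, by omega⟩
      rw [Nat.add_sub_cancel] at this ⊢
      nlinarith

theorem low_bound (hq : 1 < q) {N i : ℕ} (h0 : 0 < N) (h : q * N + q ^ i ≤ q ^ (i + 2)) (k : ℕ) :
    ∑ s ∈ Finset.range k, low q N (s + 1) < q ^ i := by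
  have p0 : 0 < q ^ i := by positivity
  rcases le_total N ((q - 1) * q ^ i) with c | c
  · exact Nat.lt_of_mul_lt_mul_left ((low_lt hq k N h0).trans_le c)
  rcases k with _ | k
  · simpa using p0
  have t : (q - 1) * q ^ i ≤ top q N (q - 1) :=
    le_top' c (by rw [mul_comm, ds_pow_mul hq, ds_lt hq (by omega)])
  have t' := top_le (q := q) N (q - 1)
  rw [Finset.sum_range_succ', low_succ hq, low_zero hq]
  simp only [low_succ hq N]
  obtain ⟨L, hL⟩ := Nat.exists_eq_add_of_le t'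
  rw [show N - top q N (q - 1) = L by omega]
  rcases Nat.eq_zero_or_pos L with rfl | c
  · simpa [low] using p0
  have := low_lt hq k L c
  refine Nat.lt_of_mul_lt_mul_left (a := q - 1) ?_
  rw [pow_succ, pow_succ] at h
  generalize top q N (q - 1) = T at *
  generalize q ^ i = Q at *
  obtain ⟨p, rfl⟩ : ∃ p, q = p + 1 := ⟨q - 1, by omega⟩
  rw [Nat.add_sub_cancel] at *
  nlinarith [Nat.mul_le_mul_left (p + 1) t]

theorem arith (hq : 1 < q) {n s1 s : ℕ} (hs : 0 < s) (hd : q - 1 ∣ s) (hw : s1 + s ≤ q ^ (n + 1))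
    (h0 : 0 < s1) (h1 : s1 ≤ q ^ n) (hD : ds q (q ^ n - s1) < q)
    (H : ∀ r b u, b < q ^ (r + 1) → ds q b = ds q u + 1 → s + b = q ^ (r + 1) * (u + 1) →
      (∀ b' < b, ds q b' < ds q (s + b')) →
      (∀ k, q ^ (r + 1) * ∑ s ∈ Finset.range k, low q (u + 1) (s + 1) < q ^ n) → s1 ≤ b) :
    ds q (q ^ (n + 1) - s) = 1 ∨
      (ds q (q ^ (n + 1) - s) = q ∧ s1 ≤ (q ^ (n + 1) - s) % q ^ n) := by
  obtain ⟨s', rfl⟩ : ∃ s', s = s' + 1 := ⟨s - 1, by omega⟩
  obtain ⟨M, hM⟩ : ∃ M, M + s' + 1 = q ^ (n + 1) := ⟨q ^ (n + 1) - (s' + 1), by omega⟩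
  rw [show q ^ (n + 1) - (s' + 1) = M by omega]
  have c1 := ds_compl hq _ _ _ hM
  have c2 := ds_pos hq (show 0 < M by omega)
  obtain ⟨x, hx⟩ := ds_cong hq s'
  obtain ⟨r, hr⟩ : q - 1 ∣ ds q s' + 1 :=
    (Nat.dvd_add_left (dvd_mul_left (q - 1) x)).1 (by rwa [add_right_comm, ← hx])
  rcases r with _ | r
  · omega
  rw [mul_comm] at hr
  have rn : r + 1 ≤ n + 1 := Nat.le_of_mul_le_mul_right (c := q - 1) (by omega) (by omega)
  obtain ⟨i, rfl⟩ := Nat.exists_eq_add_of_le (Nat.le_of_succ_le_succ rn)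
  rw [add_right_comm, add_mul] at c1
  rcases i with _ | i
  · left; omega
  right
  have T0 : 0 < q ^ (r + 1) := by positivity
  have b1 := Nat.mod_lt M T0
  have b2 := Nat.mod_add_div M (q ^ (r + 1))
  have b3 := ds_mod_div hq (r + 1) M
  have b4 : M / q ^ (r + 1) < q ^ (i + 1) := by
    rw [Nat.div_lt_iff_lt_mul T0, ← pow_add, show i + 1 + (r + 1) = r + (i + 1) + 1 by ring]
    omega
  have b5 : q ^ (r + i) ≤ s1 := by
    have := le_ds_mul hq (r + i) (q ^ (r + (i + 1)) - s1) (by rw [add_assoc]; omega)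
    have h2 := Nat.mul_le_mul_right (q ^ (r + i)) (show ds q (q ^ (r + (i + 1)) - s1) + 1 ≤ q from hD)
    rw [← pow_succ', add_assoc, add_mul] at h2
    omega
  have b6 : ∀ j, i = j + 1 → q ^ j ≤ M / q ^ (r + 1) := by
    rintro j rfl
    rw [Nat.le_div_iff_mul_le T0, ← pow_add, show j + (r + 1) = r + (j + 1) by ring]
    omega
  generalize hb : M % q ^ (r + 1) = b at *
  generalize M / q ^ (r + 1) = D at *
  obtain ⟨u, hu⟩ : ∃ u, u + D + 1 = q ^ (i + 1) := ⟨q ^ (i + 1) - (D + 1), by omega⟩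
  have c3 := ds_compl hq _ _ _ hu
  have e1 : s' + 1 + b = q ^ (r + 1) * (u + 1) := by
    rw [show r + (i + 1) + 1 = r + 1 + (i + 1) by ring, pow_add, ← hu, add_right_comm u,
      mul_add] at hM
    omega
  have key : s1 ≤ b := by
    by_contra c
    refine c (H r b u b1 (by omega) e1 (fun b' hb' => ?_) fun k => ?_)
    · obtain ⟨y, rfl⟩ : ∃ y, b = b' + y + 1 := ⟨b - b' - 1, by omega⟩
      obtain ⟨z, hz⟩ : ∃ z, z + y + 1 = q ^ (r + 1) := ⟨q ^ (r + 1) - (y + 1), by omega⟩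
      have d1 := ds_carry hq r b' y 1 le_rfl b1
      have d2 := ds_compl hq _ _ _ hz
      have d3 := ds_split hq (r + 1) z u (by omega)
      rw [mul_add, mul_one] at e1
      rw [show s' + 1 + b' = z + q ^ (r + 1) * u by omega, d3]
      rw [add_mul] at d2
      omega
    · rw [show r + (i + 1) = r + 1 + i by ring, pow_add q (r + 1) i]
      refine (Nat.mul_lt_mul_left T0).2 (low_bound hq (N := u + 1) u.succ_pos ?_ k)
      have : q ^ i ≤ q * D := by
        rcases i with _ | j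
        · rcases D with _ | D
          · omega
          · rw [pow_zero]; exact Nat.mul_pos (by omega) D.succ_pos
        · rw [pow_succ']; exact Nat.mul_le_mul_left _ (b6 j rfl)
      rw [pow_succ' q (i + 1), ← hu, add_right_comm u, mul_add q (u + 1)]
      omega
  obtain rfl : i = 0 := by
    have := (Nat.pow_lt_pow_iff_right hq).1 (b5.trans_lt (key.trans_lt b1))
    omega
  exact ⟨by omega, hb ▸ key⟩

variable [hp : Fact q.Prime]

theorem choose_ne {r j : ℕ} (h1 : q ^ r ≤ j) (h2 : j < q ^ (r + 1)) : ¬ q ∣ j.choose (q ^ r) := by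
  have hq := q1 (q := q)
  have T0 : 0 < q ^ r := by positivity
  obtain ⟨x, rfl⟩ := Nat.exists_eq_add_of_le' h1
  have a1 := Nat.mod_lt x T0
  have a2 := Nat.mod_add_div x (q ^ r)
  generalize x % q ^ r = y at *
  generalize x / q ^ r = z at *
  subst a2
  have : z + 1 < q := Nat.lt_of_mul_lt_mul_left (a := q ^ r) (by rw [← pow_succ, mul_add]; omega)
  rw [kummer, ds_pow hq, add_assoc, ← mul_add_one, ds_split hq _ _ _ a1, ds_split hq _ _ _ a1,
    ds_lt hq this, ds_lt hq (by omega : z < q), add_assoc]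

/-! ### The residue field -/

section res
variable {k : Type*} [Field k] [CharP k q]

theorem X_cancel {f g : k[X]} {n : ℕ} (hf : f.coeff 0 ≠ 0) (h : X ^ n ∣ f * g) : X ^ n ∣ g :=
  prime_X.pow_dvd_of_dvd_mul_left n (by rwa [X_dvd_iff]) h

theorem choose_ne' {r j : ℕ} (h1 : q ^ r ≤ j) (h2 : j < q ^ (r + 1)) :
    (-1 : k) ^ q ^ r * j.choose (q ^ r) ≠ 0 :=
  mul_ne_zero (by simp) (by rw [Ne, CharP.cast_eq_zero_iff k q]; exact choose_ne h1 h2)

theorem case_one {lam : k[X]} {n ν m : ℕ} (h0 : lam.coeff 0 ≠ 0) (hd : q * lam.natDegree ≤ m)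
    (hm : m < ν) (hν : ν < q ^ (n + 1))
    (h : X ^ (q ^ n + 1) ∣ lam ^ (q - 1) - C (lam.coeff 0) ^ (q - 1) * (1 - X) ^ ν) : False := by
  have hq := q1 (q := q)
  obtain ⟨β, b1, b2⟩ := Nat.exists_mul_mod_eq_of_coprime (k := q ^ (n + 1)) (n := q - 1) ν
    (Nat.Coprime.pow_right _ ((Nat.coprime_self_sub_left hq.le).2 (by simp))) (by omega)
  rw [Nat.mod_eq_of_lt hν] at b2
  have b3 := Nat.mod_add_div ((q - 1) * β) (q ^ (n + 1))
  rw [b2] at b3
  generalize (q - 1) * β / q ^ (n + 1) = x at b3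
  have d1 : X ^ (q ^ n + 1) ∣ (1 : k[X]) - ((1 - X) ^ q ^ (n + 1)) ^ x := by
    have := sub_dvd_pow_sub_pow (1 : k[X]) ((1 - X) ^ q ^ (n + 1)) x
    rw [one_pow] at this
    refine Dvd.dvd.trans ?_ this
    rw [sub_pow_char_pow, one_pow, sub_sub_cancel]
    exact pow_dvd_pow X (Nat.pow_lt_pow_right hq n.lt_succ_self)
  have d2 : X ^ (q ^ n + 1) ∣ lam ^ (q - 1) - (C (lam.coeff 0) * (1 - X) ^ β) ^ (q - 1) := by
    rw [mul_pow, ← pow_mul, mul_comm β, ← b3, pow_add _ ν, pow_mul]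
    convert h.add (d1.mul_left (C (lam.coeff 0) ^ (q - 1) * (1 - X) ^ ν)) using 1
    ring
  rw [← Commute.geom_sum₂_mul (Commute.all _ _)] at d2
  have d3 := X_pow_dvd_iff.1 (X_cancel (by
    rw [← constantCoeff_apply, map_sum, Finset.sum_congr rfl
      (g := fun _ => lam.coeff 0 ^ (q - 1 - 1)) fun i hi => by
        have := Finset.mem_range.1 hi
        simp only [map_mul, map_pow, map_sub, map_one, constantCoeff_apply, coeff_C_zero,
          coeff_X_zero, sub_zero, one_pow, mul_one]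
        rw [← pow_add]; congr 1; omega]
    rw [Finset.sum_const, Finset.card_range, nsmul_eq_mul, Nat.cast_pred (by omega),
      CharP.cast_eq_zero]
    exact mul_ne_zero (by simp) (pow_ne_zero _ h0)) d2)
  have d4 : ∀ i ≤ q ^ n, lam.coeff i = lam.coeff 0 * ((-1) ^ i * β.choose i) := fun i hi => by
    have := d3 i (by omega)
    rwa [coeff_sub, coeff_C_mul, coeff_one_sub, sub_eq_zero] at this
  have d5 : lam.natDegree < q ^ n := Nat.lt_of_mul_lt_mul_left (a := q) (by rw [← pow_succ']; omega)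
  rcases le_or_gt (q ^ n) β with c | c
  · exact mul_ne_zero h0 (choose_ne' c b1) ((d4 _ le_rfl).symm.trans (coeff_eq_zero_of_natDegree_lt d5))
  · have := le_natDegree_of_ne_zero (p := lam) (n := β) (by rw [d4 β c.le]; simpa using h0)
    have h2 := Nat.mul_le_mul_left q this
    have h3 := Nat.mul_le_mul_right β (Nat.sub_le q 1)
    omega

theorem case_one' {P lam : k[X]} {e ν M : ℕ} (h0 : P.coeff 0 = 1)
    (hP : X ^ (q * M + 1) ∣ P ^ q - (1 - X) ^ (e * (q - 1) + q * ν) * P)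
    (hF : X ^ (q * M + 1) ∣ (1 - X) ^ e * expand k q lam - C (lam.coeff 0) * P) :
    X ^ (M + 1) ∣ lam ^ (q - 1) - C (lam.coeff 0) ^ (q - 1) * (1 - X) ^ ν := by
  have hq := q1 (q := q)
  have a1 : X ^ (q * M + 1) ∣ P ^ (q - 1) - (1 - X) ^ (e * (q - 1) + q * ν) :=
    X_cancel (f := P) (by simp [h0]) (by
      rwa [mul_sub, ← pow_succ', Nat.sub_add_cancel hq.le, mul_comm P])
  have a2 := hF.trans (sub_dvd_pow_sub_pow _ _ (q - 1))
  have a3 : X ^ (q * M + 1) ∣
      expand k q (lam ^ (q - 1) - C (lam.coeff 0) ^ (q - 1) * (1 - X) ^ ν) := by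
    refine X_cancel (f := (1 - X) ^ (e * (q - 1))) (by simp [coeff_one_sub]) ?_
    convert a2.add (a1.mul_left (C (lam.coeff 0) ^ (q - 1))) using 1
    rw [pow_add, pow_mul _ q, sub_pow_char (p := q), one_pow]
    simp only [map_sub, map_mul, map_pow, expand_C, expand_X, map_one, mul_pow, pow_mul]
    ring
  rw [X_pow_dvd_iff] at a3 ⊢
  intro i hi
  rw [← coeff_expand_mul' hp.out.pos]
  exact a3 _ (Nat.lt_succ_of_le (Nat.mul_le_mul_left q (by omega)))

end res

/-! ### The identity and its consequences -/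

variable {K : Type*} [Field K] [CharP K q] {Γ : Type*} [LinearOrderedCommGroupWithZero Γ]
  {v : Valuation K Γ} {t : K} {N s : ℕ} {c : K} {G R : K[X]}

variable (q) in
/-- The polynomial identity that holds for a zeta-like pair. -/
structure Hyp (t : K) (N s : ℕ) (c : K) (G R : K[X]) : Prop where
  deg : (q - 1) * R.natDegree ≤ N + s
  e1 : G.comp (C (br q t 1)⁻¹ * X ^ q) = X ^ (N + 1 + s) * R
  e2 : La q (ga q t) 0 N * QU q (ga q t) s - C c * La q (ga q t) 0 (N + s) =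
    G - R.comp (C (br q t 1) * (X - 1))

namespace Hyp

variable (h : Hyp q t N s c G R)
include h

theorem coeff (i : ℕ) : (X ^ (N + 1 + s) * R).coeff i =
    if q ∣ i then G.coeff (i / q) * (br q t 1)⁻¹ ^ (i / q) else 0 := by
  have e : G.comp (C (br q t 1)⁻¹ * X ^ q) = expand K q (G.comp (C (br q t 1)⁻¹ * X)) := by
    rw [expand_eq_comp_X_pow, comp_assoc]; simp
  rw [← h.e1, e, coeff_expand hp.out.pos, comp_C_mul_X_coeff]

theorem G_dvd (ht : 1 < v t) {o : ℕ} (ho : q * o ≤ N + s) : X ^ (o + 1) ∣ G := by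
  refine X_pow_dvd_iff.2 fun m hm => ?_
  have := h.coeff (q * m)
  have l := Nat.mul_le_mul_left q (Nat.le_of_lt_succ hm)
  rw [if_pos (dvd_mul_right _ _), Nat.mul_div_cancel_left _ hp.out.pos, coeff_X_pow_mul',
    if_neg (by omega), eq_comm, mul_eq_zero] at this
  exact this.resolve_right (pow_ne_zero _ (inv_ne_zero (br_ne ht 0)))

theorem F_bd (ht : 1 < v t) {r : Γ} (hG : Bd v r G) :
    Bd v (r / v (br q t 1)) (R.comp (C (br q t 1) * (X - 1))) := by
  have hq := q1 (q := q)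
  have a := v_tau (q := q) ht
  have a0 := zero_lt_one.trans a
  refine Bd.comp (fun k => ?_) red_X1
  by_cases z : R.coeff k = 0
  · simp [z]
  have := h.coeff (k + (N + 1 + s))
  rw [coeff_X_pow_mul] at this
  split_ifs at this with d
  swap
  · exact absurd this z
  obtain ⟨m, hm⟩ := d
  have l := (Nat.mul_le_mul_left (q - 1) (le_natDegree_of_ne_zero z)).trans h.deg
  obtain ⟨i, rfl⟩ := Nat.exists_eq_add_of_lt (show k < m from Nat.lt_of_mul_lt_mul_left (a := q) (by
    rw [Nat.sub_mul, one_mul] at l; omega))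
  rw [this, hm, Nat.mul_div_cancel_left _ hp.out.pos, map_mul, map_pow, map_inv₀,
    le_div_iff₀ a0, mul_assoc, mul_assoc, ← pow_succ, inv_pow, ← div_eq_inv_mul]
  exact (mul_le_mul' (hG _) ((div_le_one₀ (pow_pos a0 _)).2
    (pow_le_pow_right₀ a.le (by omega)))).trans_eq (mul_one r)

theorem c_eq (ht : 1 < v t) (hs : 0 < s) : c = (R.comp (C (br q t 1) * (X - 1))).coeff 0 := by
  have := congrArg (fun p => Polynomial.coeff p 0) h.e2
  simp only [coeff_sub, mul_coeff_zero, P_zero ht, coeff_C_zero] at this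
  rw [X_pow_dvd_iff.1 (Q_dvd ht hs (o := 0) (by omega)) 0 one_pos,
    X_pow_dvd_iff.1 (h.G_dvd ht (o := 0) (by omega)) 0 one_pos] at this
  linear_combination -this

theorem red_G (ht : 1 < v t) (hs : 0 < s) :
    Red v G (La q (gb q (kk v)) 0 N * QU q (gb q (kk v)) s) := by
  have a := v_tau (q := q) ht
  have r1 := (red_La (red_ga ht) 0 N).mul (red_QU (red_ga (q := q) ht) rfl s)
  have r2 := Bd.of_red (red_La (red_ga (q := q) ht) 0 (N + s))
  have e : G = La q (ga q t) 0 N * QU q (ga q t) s +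
      (R.comp (C (br q t 1) * (X - 1)) - C c * La q (ga q t) 0 (N + s)) := by
    linear_combination -h.e2
  have b : ∀ r, Bd v r G → Bd v (r / v (br q t 1))
      (R.comp (C (br q t 1) * (X - 1)) - C c * La q (ga q t) 0 (N + s)) := fun r hr =>
    (h.F_bd ht hr).sub ((Bd.C_mul (h.c_eq ht hs ▸ h.F_bd ht hr 0) r2).mono (mul_one _).le)
  have b1 : Bd v 1 G := Bd.boot a fun r hr => by
    rw [e]; exact ((Bd.of_red r1).mono (le_max_left _ _)).add ((b r hr).mono (le_max_right _ _))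
  have := r1.add ((b 1 b1).red ((div_lt_one₀ (zero_lt_one.trans a)).2 a))
  rwa [← e, add_zero] at this

theorem Qb_zero (ht : 1 < v t) (hs : 0 < s) {o : ℕ} (ho : q * o ≤ N + s) :
    (QU q (gb q (kk v)) s).coeff o = 0 :=
  X_pow_dvd_iff.1 (X_cancel (by rw [La_coeff_zero rfl gb_zero]; simp)
    ((h.red_G ht hs).X_pow_dvd (h.G_dvd ht ho))) o o.lt_succ_self

end Hyp

theorem Hyp.le_j {j : ℕ} (h : Hyp q t N (j * (q - 1)) c G R) (ht : 1 < v t) (hj : 0 < j) :
    N + 1 ≤ j := by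
  have hq := q1 (q := q)
  by_contra c
  have := h.Qb_zero ht (Nat.mul_pos hj (by omega)) (o := j) (by
    rw [Nat.mul_sub, mul_comm j]; have := Nat.le_mul_of_pos_left j hp.out.pos; omega)
  rw [Qb_coeff hj (by rw [mul_comm]; exact Nat.mul_le_mul_right _ (Nat.sub_le _ _))] at this
  simp at this

theorem Hyp.le_s {j n : ℕ} (h : Hyp q t N (j * (q - 1)) c G R) (ht : 1 < v t) (hj : 0 < j)
    (hn : q ^ n ≤ N + j * (q - 1)) : q ^ n ≤ j * (q - 1) := by
  have hq := q1 (q := q)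
  have s0 : 0 < j * (q - 1) := Nat.mul_pos hj (by omega)
  have l := h.le_j ht hj
  rcases n with _ | n
  · exact s0
  by_contra c
  have := h.Qb_zero ht s0 (o := q ^ n) (by rwa [← pow_succ'])
  rw [Qb_coeff hj (by rw [← pow_succ']; omega)] at this
  refine choose_ne' (Nat.le_of_mul_le_mul_left (c := q) ?_ hp.out.pos) ?_ this
  · rw [← pow_succ']
    rw [Nat.mul_sub, mul_comm j] at hn
    have := Nat.le_mul_of_pos_left j hp.out.pos
    omega
  · have := Nat.le_mul_of_pos_right j (show 0 < q - 1 by omega)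
    omega

theorem Hyp.red_F {j a m : ℕ} (h : Hyp q t N (j * (q - 1)) c G R) (ht : 1 < v t) (hj : 0 < j)
    (hm : a + q * m = N)
    (h' : ∀ a', (∀ r, ds q (N % q ^ (r + 1)) ≤ 0 + r * (q - 1) + a' / q ^ r % q) → a ≤ a') :
    ∃ (e : ℕ) (ε : kk v), ε ≠ 0 ∧ N + j * (q - 1) + 1 = e * (q - 1) + q * (a + m + 1) ∧
      Red v (C (br q t 1 ^ (a + m + 1)) * R.comp (C (br q t 1) * (X - 1)))
        ((1 - X) ^ e * expand (kk v) q (C ε * La q (gb q (kk v)) a m)) := by
  have hq := q1 (q := q)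
  have s0 : 0 < j * (q - 1) := Nat.mul_pos hj (by omega)
  have a1 := v_tau (q := q) ht
  have a0 := zero_lt_one.trans a1
  have τ0 := br_ne (q := q) ht 0
  obtain ⟨e, he⟩ : ∃ e, j = a + e + 1 := ⟨j - (a + 1), by have := h.le_j ht hj; omega⟩
  obtain ⟨p, hp⟩ : ∃ p, q = p + 1 := ⟨q - 1, by omega⟩
  have hp' : q - 1 = p := by omega
  have rA := sigma_P ht hm h'
  have rB := red_top (a := br q t 1 ^ (q - 1)) (d := j)
    (red_QU (red_ga (q := q) ht) rfl (j * (q - 1)))
    (Nat.le_of_mul_le_mul_left ((Q_deg t _).trans_eq (mul_comm _ _)) (by omega))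
    (by rw [map_pow]; exact one_lt_pow₀ a1 (by omega)) (red_X1.pow q)
  rw [Qb_coeff hj (by rw [mul_comm]; exact Nat.mul_le_mul_right _ (Nat.sub_le _ _))] at rB
  have rAB := rA.mul rB
  have dF : (q - 1) * (R.comp (C (br q t 1) * (X - 1))).natDegree ≤ N + j * (q - 1) := by
    refine le_trans (Nat.mul_le_mul_left _ (natDegree_comp_le.trans ?_)) h.deg
    exact (Nat.mul_le_mul_left _ (by compute_degree : (C (br q t 1) * (X - 1)).natDegree ≤ 1)).trans_eq
      (mul_one _)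
  have e1 := congrArg (fun p => p.comp (C (br q t 1) * (X - 1))) h.e1
  have e2 := congrArg (fun p => p.comp (cs q t)) h.e2
  simp only [comp_assoc G, mul_comp, C_comp, pow_comp, X_comp, cs_eq ht, sub_comp] at e1 e2
  have ce := h.c_eq ht s0
  rw [← cs] at rB rAB
  generalize R.comp (C (br q t 1) * (X - 1)) = F at *
  set τ := br q t 1
  set F1 := C (τ ^ (a + m + 1)) * F with hF1
  set w := N + 1 + j * (q - 1) with hw
  have e3 : (X - 1) ^ w * F1 = C ((τ ^ (q - 1)) ^ m)⁻¹ * (La q (ga q t) 0 N).comp (cs q t) *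
      (C ((τ ^ (q - 1)) ^ j)⁻¹ * (QU q (ga q t) (j * (q - 1))).comp (cs q t)) + C (τ ^ w)⁻¹ *
      (F1.comp (cs q t) - C (F1.coeff 0) * (La q (ga q t) 0 (N + j * (q - 1))).comp (cs q t)) := by
    have u1 : (C (τ ^ w)⁻¹ : K[X]) * C τ ^ w = 1 := by
      rw [← map_pow, ← map_mul, inv_mul_cancel₀ (pow_ne_zero _ τ0), map_one]
    have u2 : (C ((τ ^ (q - 1)) ^ m)⁻¹ : K[X]) * C ((τ ^ (q - 1)) ^ j)⁻¹ =
        C (τ ^ w)⁻¹ * C (τ ^ (a + m + 1)) := by
      rw [← map_mul, ← map_mul, show w = (q - 1) * m + (q - 1) * j + (a + m + 1) by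
        rw [hw, ← hm, hp', hp]; ring, pow_add _ _ (a + m + 1), pow_add, pow_mul, pow_mul]
      field_simp
    rw [hF1, mul_comp, C_comp, coeff_C_mul, ← ce, map_mul]
    rw [e1, mul_pow] at e2
    linear_combination (-C (τ ^ w)⁻¹ * C (τ ^ (a + m + 1))) * e2 -
      (La q (ga q t) 0 N).comp (cs q t) * (QU q (ga q t) (j * (q - 1))).comp (cs q t) * u2 -
      C (τ ^ (a + m + 1)) * (X - 1) ^ w * F * u1
  have b : ∀ r, Bd v r F1 → Bd v (r / v τ) (C (τ ^ w)⁻¹ * (F1.comp (cs q t) -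
      C (F1.coeff 0) * (La q (ga q t) 0 (N + j * (q - 1))).comp (cs q t))) := fun r hr => by
    have b1 := Bd.sigma ht hr ((Nat.mul_le_mul_left _ (natDegree_C_mul_le _ _)).trans dF)
    have b2 := Bd.C_mul (hr 0)
      (Bd.sigma ht (Bd.of_red (red_La (red_ga (q := q) ht) 0 _)) (P_deg t (N + j * (q - 1))))
    rw [one_mul] at b2
    refine (Bd.C_mul le_rfl (b1.sub b2)).mono (le_of_eq ?_)
    rw [map_inv₀, map_pow, show w = N + j * (q - 1) + 1 by omega, pow_succ]
    field_simp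
    exact mul_comm _ _
  have b1 : Bd v 1 F1 := Bd.boot a1 fun r hr => Bd.cancel w (by
    rw [e3]; exact ((Bd.of_red rAB).mono (le_max_left _ _)).add ((b r hr).mono (le_max_right _ _)))
  obtain ⟨f, hf⟩ := exists_Red b1
  have r3 := rAB.add ((b 1 b1).red ((div_lt_one₀ a0).2 a1))
  rw [← e3, add_zero] at r3
  have e4 := ((red_X1.pow w).mul hf).unique r3
  refine ⟨e, (-1) ^ j * (-1) ^ e, by simp, by rw [← hm, he, hp', hp]; ring, ?_⟩
  convert hf using 1
  refine mul_left_cancel₀ (pow_ne_zero w (X_sub_C_ne_zero (1 : kk v))) ?_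
  have e5 : ((X - 1 : (kk v)[X]) ^ q) ^ m * ((X - 1) ^ q) ^ j =
      (X - 1) ^ w * ((-1) ^ e * (1 - X) ^ e) := by
    rw [← pow_mul, ← pow_mul, ← pow_add, ← neg_pow, neg_sub, ← pow_add,
      show q * m + q * j = w + e by rw [hw, ← hm, he, hp', hp]; ring]
  rw [map_one, e4]
  simp only [map_mul, map_pow, map_neg, map_one, Nat.choose_self, Nat.cast_one]
  linear_combination (-(-1) ^ j * expand (kk v) q (La q (gb q (kk v)) a m)) * e5

theorem Hyp.nec {j n : ℕ} (h : Hyp q t N (j * (q - 1)) c G R) (ht : 1 < v t) (hj : 0 < j)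
    (h1 : q ^ n ≤ N + j * (q - 1)) (h2 : N + 1 + j * (q - 1) ≤ q ^ (n + 1)) :
    N + 1 ≤ q ^ n ∧ ds q (q ^ n - (N + 1)) < q ∧ (ds q (q ^ (n + 1) - j * (q - 1)) = 1 ∨
      (ds q (q ^ (n + 1) - j * (q - 1)) = q ∧ N + 1 ≤ (q ^ (n + 1) - j * (q - 1)) % q ^ n)) := by
  have hq := q1 (q := q)
  have s0 : 0 < j * (q - 1) := Nat.mul_pos hj (by omega)
  have t0 : 0 < v t := zero_lt_one.trans ht
  have l1 : N + 1 ≤ q ^ n := Nat.le_of_mul_le_mul_left (c := q) (by
    have := Nat.mul_le_mul_right (q - 1) (h.le_j ht hj)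
    rw [Nat.mul_sub (N + 1), mul_comm] at this
    rw [← pow_succ']
    omega) hp.out.pos
  obtain ⟨a, u, m, hu, hm, hd, hmin, hiff⟩ := greedy hq N 0 hp.out.pos
  obtain rfl : u = 0 := by omega
  rw [add_zero] at hm
  replace hiff := hiff n (q ^ n - (N + 1)) (by omega)
  rw [add_zero, zero_add, show (q - 1) * a + N + q = q * (a + m + 1) by
    rw [Nat.sub_mul, ← hm, mul_add, mul_add]
    have := Nat.le_mul_of_pos_left a hp.out.pos
    omega] at hiff
  obtain ⟨e, ε, ε0, he, rF⟩ := h.red_F ht hj hm hmin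
  have e2 := h.e2
  have ce := h.c_eq ht s0
  have rP := red_La (red_ga (q := q) ht) 0 (N + j * (q - 1))
  generalize R.comp (C (br q t 1) * (X - 1)) = F at *
  have e3 : C (br q t 1 ^ (a + m + 1)) * F - C ((C (br q t 1 ^ (a + m + 1)) * F).coeff 0) *
      La q (ga q t) 0 (N + j * (q - 1)) =
      C (br q t 1 ^ (a + m + 1)) * (G - La q (ga q t) 0 N * QU q (ga q t) (j * (q - 1))) := by
    rw [coeff_C_mul, ← ce, map_mul]
    linear_combination C (br q t 1 ^ (a + m + 1)) * e2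
  have r3 := rF.sub ((Red.C (rF.coeff 0).1).mul rP)
  rw [e3, ← (rF.coeff 0).2] at r3
  have l2 : q ^ n ≤ q * (a + m + 1) := by
    by_contra c
    obtain ⟨n, rfl⟩ : ∃ n', n = n' + 2 := by
      have : q ^ 1 < q ^ n := by
        have : q ≤ q * (a + m + 1) := Nat.le_mul_of_pos_right q (Nat.succ_pos _)
        rw [pow_one]; omega
      exact ⟨n - 2, by have := (Nat.pow_lt_pow_iff_right hq).1 this; omega⟩
    have d := r3.X_pow_dvd (((h.G_dvd ht (o := q ^ (n + 1)) (by rwa [← pow_succ'])).sub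
      ((Q_dvd ht s0 (by rw [← pow_succ']; exact h.le_s ht hj h1)).mul_left _)).mul_left _)
    rw [mul_coeff_zero ((1 - X) ^ e), coeff_one_sub, coeff_expand hp.out.pos, if_pos (dvd_zero q),
      Nat.zero_div, pow_zero, Nat.choose_zero_right, Nat.cast_one, one_mul, one_mul,
      pow_succ' q n] at d
    have d2 := Pb_frob (A := kk v) (N := N + j * (q - 1)) (k := q * q ^ n)
      (by rwa [← pow_succ', ← pow_succ'])
    rw [he] at d2
    refine case_one (m := m) ?_ ?_ (by omega) ?_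
      (case_one' (by rw [La_coeff_zero rfl gb_zero]; simp) d2 d)
    · rw [coeff_C_mul, La_coeff_zero rfl gb_zero]
      refine mul_ne_zero ε0 ?_
      rw [Ne, CharP.cast_eq_zero_iff (kk v) q, add_comm, kummer, add_comm, hd, add_comm]
    · exact (Nat.mul_le_mul_left _ (natDegree_C_mul_le _ _)).trans (La_deg gb_deg a m)
    · exact Nat.lt_of_mul_lt_mul_left (a := q) (by rw [← pow_succ']; exact not_le.1 c)
  refine ⟨l1, hiff.1 l2, arith hq s0 (dvd_mul_left _ _) h2 N.succ_pos l1 (hiff.1 l2)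
    fun r b u b1 b2 b3 b4 b5 => ?_⟩
  by_contra c
  have k1 := kappa_lb ht b1 b2 b5
  have e4 : q ^ (r + 1) * (u + 1) = q * (q ^ r * (u + 1)) := by ring
  have k2 := Q_coeff ht (b3.trans e4) b4 N
  have k3 := (r3.coeff (q ^ r * (u + 1))).1
  rw [coeff_C_mul, coeff_sub, X_pow_dvd_iff.1 (h.G_dvd ht (o := q ^ r * (u + 1)) (by omega)) _
    (Nat.lt_succ_self _), zero_sub, map_mul, v.map_neg, map_pow, v_br ht 0, zero_add, pow_one,
    ← pow_mul] at k3
  rw [pow_add, mul_right_comm, e4, ← k2, mul_right_comm, mul_comm _ (v t ^ q ^ n)] at k1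
  exact k1.not_ge (mul_le_of_le_one_left' ((mul_le_mul_left (pow_le_pow_right₀ ht.le l2) _).trans k3))

end Pool.Agent.P.MP_8c9ada_nt.Cl
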