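import Pool.Agent.P.MP_8c9ada_nt.Ana
import Pool.Agent.P.MP_8c9ada_nt.Geo

/-! Carlitz's formulas for the power sums. -/

namespace ZetaLikeMZV

section

open Polynomial Finset

variable (F : Type*) [Field F] [Fintype F]

/-- The number of elements of `F`. -/
abbrev qq : ℕ := Fintype.card F

theorem one_lt_qq : 1 < qq F := Fintype.one_lt_card

section Frob

variable {R : Type*} [CommRing R] [Algebra F R]

theorem add_pow_qq (x y : R) : (x + y) ^ qq F = x ^ qq F + y ^ qq F :=
  map_add (FiniteField.frobeniusAlgHom F R) x y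

theorem sub_pow_qq (x y : R) : (x - y) ^ qq F = x ^ qq F - y ^ qq F :=
  map_sub (FiniteField.frobeniusAlgHom F R) x y

theorem add_pow_qq_pow (x y : R) (i : ℕ) : (x + y) ^ qq F ^ i = x ^ qq F ^ i + y ^ qq F ^ i := by
  induction i with
  | zero => simp
  | succ i ih => rw [pow_succ, pow_mul, ih, add_pow_qq, pow_mul, pow_mul]

theorem sub_pow_qq_pow (x y : R) (i : ℕ) : (x - y) ^ qq F ^ i = x ^ qq F ^ i - y ^ qq F ^ i := by
  induction i with
  | zero => simp
  | succ i ih => rw [pow_succ, pow_mul, ih, sub_pow_qq, pow_mul, pow_mul]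

theorem sum_pow_qq {ι : Type*} (s : Finset ι) (f : ι → R) :
    (∑ i ∈ s, f i) ^ qq F = ∑ i ∈ s, f i ^ qq F :=
  map_sum (FiniteField.frobeniusAlgHom F R) f s

theorem cast_qq : ((qq F : ℕ) : R) = 0 := by
  rw [← map_natCast (algebraMap F R), FiniteField.cast_card_eq_zero, map_zero]

end Frob

/-- The element `t^(q^i)`. -/
noncomputable def TT (i : ℕ) : RatFunc F := RatFunc.X ^ qq F ^ i

theorem TT_zero : TT F 0 = RatFunc.X := by simp [TT]

theorem TT_succ (i : ℕ) : TT F (i + 1) = TT F i ^ qq F := by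
  rw [TT, TT, pow_succ, pow_mul]

theorem TT_pow (i j : ℕ) : TT F i ^ qq F ^ j = TT F (i + j) := by
  rw [TT, TT, pow_add, pow_mul]

theorem TT_eq (i : ℕ) : TT F i = algebraMap F[X] (RatFunc F) (X ^ qq F ^ i) := by
  simp [TT]

theorem X_sub_ne_zero (i : ℕ) : (X - X ^ qq F ^ (i + 1) : F[X]) ≠ 0 := by
  intro h
  have h1 := congrArg natDegree (sub_eq_zero.mp h)
  rw [natDegree_X, natDegree_X_pow] at h1
  have : 1 < qq F ^ (i + 1) := Nat.one_lt_pow (Nat.succ_ne_zero i) (one_lt_qq F)
  omega

theorem X_sub_TT_ne_zero (i : ℕ) : RatFunc.X - TT F (i + 1) ≠ 0 := by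
  have h := X_sub_ne_zero F i
  rw [← (IsFractionRing.to_map_eq_zero_iff (K := RatFunc F)).ne] at h
  simpa [TT] using h

theorem TT_sub_X_ne_zero (i : ℕ) : TT F (i + 1) - RatFunc.X ≠ 0 := by
  have h := X_sub_TT_ne_zero F i
  intro h'; apply h; linear_combination -h'

/-- The coefficients of the Carlitz binomial series, as polynomials in `Y`. -/
noncomputable def gK : ℕ → (RatFunc F)[X]
  | 0 => 1
  | i + 1 => gK i ^ qq F * (C (TT F (i + 1)) - X ^ qq F) * C (TT F (i + 1) - RatFunc.X)⁻¹

theorem gK_zero : gK F 0 = 1 := rfl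

theorem gK_succ (i : ℕ) : gK F (i + 1) =
    gK F i ^ qq F * (C (TT F (i + 1)) - X ^ qq F) * C (TT F (i + 1) - RatFunc.X)⁻¹ := rfl

theorem gK_R3_of_R2 (y : RatFunc F) (i : ℕ)
    (h : (TT F i - y ^ qq F) * (gK F i).eval (y ^ qq F) =
      (TT F i - y ^ qq F ^ (i + 1)) * (gK F i).eval y) :
    (TT F (i + 1) - RatFunc.X) * (gK F (i + 1)).eval (y ^ qq F) =
      (TT F (i + 1) - y ^ qq F ^ (i + 2)) * (gK F i).eval y ^ qq F := by
  have h1 := congrArg (· ^ qq F) h
  simp only [mul_pow, sub_pow_qq F, ← TT_succ] at h1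
  have h2 : (y ^ qq F ^ (i + 1)) ^ qq F = y ^ qq F ^ (i + 2) := by
    rw [← pow_mul, ← pow_succ]
  rw [h2] at h1
  rw [← h1, gK_succ]
  have := TT_sub_X_ne_zero F i
  simp only [eval_mul, eval_pow, eval_sub, eval_C, eval_X]
  field_simp

theorem gK_R2 (y : RatFunc F) (i : ℕ) :
    (TT F i - y ^ qq F) * (gK F i).eval (y ^ qq F) =
      (TT F i - y ^ qq F ^ (i + 1)) * (gK F i).eval y := by
  induction i with
  | zero => simp [gK_zero]
  | succ i ih =>
    have h := gK_R3_of_R2 F y i ih
    have h0 := TT_sub_X_ne_zero F i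
    apply mul_left_cancel₀ h0
    rw [mul_left_comm, h, gK_succ]
    simp only [eval_mul, eval_pow, eval_sub, eval_C, eval_X]
    field_simp

theorem gK_R3 (y : RatFunc F) (i : ℕ) :
    (TT F (i + 1) - RatFunc.X) * (gK F (i + 1)).eval (y ^ qq F) =
      (TT F (i + 1) - y ^ qq F ^ (i + 2)) * (gK F i).eval y ^ qq F :=
  gK_R3_of_R2 F y i (gK_R2 F y i)

theorem natDegree_gK (i : ℕ) : (qq F - 1) * (gK F i).natDegree + qq F ≤ qq F * qq F ^ i := by
  induction i with
  | zero => simp [gK_zero]
  | succ i ih =>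
    have h1 : (gK F (i + 1)).natDegree ≤ qq F * (gK F i).natDegree + qq F := by
      rw [gK_succ]
      refine (natDegree_mul_C_le _ _).trans (natDegree_mul_le.trans ?_)
      apply add_le_add natDegree_pow_le
      refine (natDegree_sub_le _ _).trans ?_
      simp
    have h2 := one_lt_qq F
    obtain ⟨r, hr⟩ : ∃ r, qq F = r + 1 := ⟨qq F - 1, by omega⟩
    rw [pow_succ]
    rw [hr] at ih h1 ⊢
    simp only [Nat.add_sub_cancel] at ih h1 ⊢
    nlinarith

/-- The product `∏ (t - t^(q^i))`, `1 ≤ i ≤ d`. -/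
noncomputable def ell (d : ℕ) : F[X] := ∏ i ∈ range d, (X - X ^ qq F ^ (i + 1))

theorem ell_succ (d : ℕ) : ell F (d + 1) = ell F d * (X - X ^ qq F ^ (d + 1)) := by
  rw [ell, prod_range_succ, ell]

theorem ell_ne_zero (d : ℕ) : ell F d ≠ 0 :=
  prod_ne_zero_iff.mpr (fun i _ => X_sub_ne_zero F i)

/-- The inverse of `ell d`. -/
noncomputable def uu (d : ℕ) : RatFunc F := (algebraMap F[X] (RatFunc F) (ell F d))⁻¹

theorem uu_zero : uu F 0 = 1 := by simp [uu, ell]

theorem uu_succ (d : ℕ) : uu F (d + 1) * (RatFunc.X - TT F (d + 1)) = uu F d := by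
  have := X_sub_TT_ne_zero F d
  simp only [uu, ell_succ, map_mul, map_sub, map_pow, RatFunc.algebraMap_X, TT] at this ⊢
  field_simp

theorem uu_ne_zero (d : ℕ) : uu F d ≠ 0 := by
  simp [uu, ell_ne_zero]

/-- The coefficients of the Carlitz binomial. -/
noncomputable def gam (d i : ℕ) : RatFunc F := (gK F i).eval (TT F d) * uu F d ^ qq F ^ i

theorem gam_R2 (d i : ℕ) : (TT F i - TT F (d + 1)) * gam F (d + 1) i = gam F d i := by
  have h := gK_R2 F (TT F d) i
  rw [← TT_succ, TT_pow] at h
  rw [gam, gam, ← mul_assoc, h, ← uu_succ F d, mul_pow, sub_pow_qq_pow F, TT_pow,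
    show d + 1 + i = d + (i + 1) by ring, TT]
  ring

theorem gam_R3 (d i : ℕ) :
    (TT F (i + 1) - RatFunc.X) * gam F (d + 1) (i + 1) = gam F d i ^ qq F := by
  have h := gK_R3 F (TT F d) i
  rw [← TT_succ, TT_pow] at h
  rw [gam, gam, ← mul_assoc, h, ← uu_succ F d, mul_pow, ← pow_mul, ← pow_succ, mul_pow,
    sub_pow_qq_pow F, TT_pow, show d + 1 + (i + 1) = d + (i + 2) by ring, TT]
  ring

theorem gam_zero (d : ℕ) : gam F d 0 = uu F d := by simp [gam, gK_zero]

theorem gam_eq_zero (d : ℕ) : ∀ i, d < i → gam F d i = 0 := by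
  have hq : qq F ≠ 0 := by have := one_lt_qq F; omega
  induction d with
  | zero =>
    intro i hi
    obtain ⟨i, rfl⟩ : ∃ j, i = j + 1 := ⟨i - 1, by omega⟩
    have : (gK F (i + 1)).eval RatFunc.X = 0 := by
      induction i with
      | zero => simp [gK_succ, TT]
      | succ i ih => rw [gK_succ]; simp [ih (by omega), hq]
    simp [gam, TT_zero, this]
  | succ d ih =>
    intro i hi
    obtain ⟨i, rfl⟩ : ∃ j, i = j + 1 := ⟨i - 1, by omega⟩
    have h := gam_R3 F d i
    rw [ih i (by omega), zero_pow hq] at h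
    exact (mul_eq_zero.mp h).resolve_left (TT_sub_X_ne_zero F i)

/-- The Carlitz binomial as a polynomial. -/
noncomputable def EE (d : ℕ) : (RatFunc F)[X] := ∑ i ∈ range (d + 1), C (gam F d i) * X ^ qq F ^ i

theorem eval_EE (d : ℕ) (z : RatFunc F) :
    (EE F d).eval z = ∑ i ∈ range (d + 1), gam F d i * z ^ qq F ^ i := by
  simp [EE, eval_finsetSum]

theorem EE_R2 (d : ℕ) (z : RatFunc F) :
    (EE F (d + 1)).eval (RatFunc.X * z) =
      TT F (d + 1) * (EE F (d + 1)).eval z + (EE F d).eval z := by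
  have h : (EE F d).eval z = ∑ i ∈ range (d + 2), gam F d i * z ^ qq F ^ i := by
    rw [eval_EE, sum_range_succ _ (d + 1), gam_eq_zero F d (d + 1) (by omega)]; simp
  rw [h, eval_EE, eval_EE, mul_sum, ← sum_add_distrib]
  apply sum_congr rfl
  intro i _
  rw [← gam_R2 F d i, mul_pow, ← TT]
  ring

theorem EE_R3 (d : ℕ) (z : RatFunc F) :
    (EE F (d + 1)).eval (RatFunc.X * z) =
      RatFunc.X * (EE F (d + 1)).eval z + (EE F d).eval z ^ qq F := by
  rw [eval_EE, eval_EE, eval_EE, sum_pow_qq F, mul_sum, sum_range_succ' _ (d + 1),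
    sum_range_succ' _ (d + 1), add_right_comm, ← sum_add_distrib]
  congr 1
  · apply sum_congr rfl
    intro i _
    rw [mul_pow (gam F d i), ← gam_R3 F d i, mul_pow, ← TT, ← pow_mul, ← pow_succ]
    ring
  · simp only [pow_zero, pow_one]; ring

theorem EE_one (d : ℕ) : (EE F d).eval 1 = if d = 0 then 1 else 0 := by
  have hq : qq F ≠ 0 := by have := one_lt_qq F; omega
  induction d with
  | zero => simp [eval_EE, gam_zero, uu_zero]
  | succ d ih =>
    have h2 := EE_R2 F d 1
    have h3 := EE_R3 F d 1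
    have h4 : (EE F d).eval 1 ^ qq F = (EE F d).eval 1 := by
      rw [ih]; split_ifs <;> simp [hq]
    have h5 : (RatFunc.X - TT F (d + 1)) * (EE F (d + 1)).eval 1 = 0 := by
      linear_combination h2 - h3 - h4
    simpa using (mul_eq_zero.mp h5).resolve_left (X_sub_TT_ne_zero F d)

theorem EE_X_pow (d : ℕ) : ∀ j ≤ d, (EE F d).eval (RatFunc.X ^ j) = if j = d then 1 else 0 := by
  induction d with
  | zero =>
    intro j hj
    obtain rfl : j = 0 := by omega
    simpa using EE_one F 0
  | succ d ih =>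
    intro j
    induction j with
    | zero => intro _; simpa using EE_one F (d + 1)
    | succ j ihj =>
      intro hj
      rw [pow_succ', EE_R2, ihj (by omega), ih j (by omega), if_neg (by omega)]
      simp

theorem EE_add (d : ℕ) (x y : RatFunc F) : (EE F d).eval (x + y) =
    (EE F d).eval x + (EE F d).eval y := by
  simp only [eval_EE, add_pow_qq_pow F, mul_add, sum_add_distrib]

theorem EE_C_mul (d : ℕ) (a : F) (y : RatFunc F) : (EE F d).eval (RatFunc.C a * y) =
    RatFunc.C a * (EE F d).eval y := by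
  simp only [eval_EE, mul_pow, ← map_pow, FiniteField.pow_card_pow, mul_sum]
  apply sum_congr rfl
  intro i _
  ring

theorem EE_eval_zero (d : ℕ) : (EE F d).eval 0 = 0 := by
  have := EE_add F d 0 0
  simpa using this

theorem EE_low {d : ℕ} {b : F[X]} (hb : b ∈ lowP F d) :
    (EE F d).eval (algebraMap F[X] (RatFunc F) b) = 0 := by
  rw [mem_lowP] at hb
  have h1 : b = ∑ j ∈ range d, C (b.coeff j) * X ^ j := by
    by_cases h0 : b = 0
    · simp [h0]
    · have h : b.natDegree < d := (natDegree_lt_iff_degree_lt h0).mpr hb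
      conv_lhs => rw [as_sum_range' b d h]
      simp only [C_mul_X_pow_eq_monomial]
  rw [h1]
  have : ∀ e ≤ d, (EE F d).eval (algebraMap F[X] (RatFunc F)
      (∑ j ∈ range e, C (b.coeff j) * X ^ j)) = 0 := by
    intro e
    induction e with
    | zero => intro _; simpa using EE_eval_zero F d
    | succ e ih =>
      intro he
      rw [sum_range_succ, map_add, EE_add, ih (by omega), map_mul, map_pow, RatFunc.algebraMap_C,
        RatFunc.algebraMap_X, EE_C_mul, EE_X_pow F d e (by omega), if_neg (by omega)]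
      simp
  exact this d le_rfl

theorem EE_monic {d : ℕ} {a : F[X]} (ha : a ∈ monics F d) :
    (EE F d).eval (algebraMap F[X] (RatFunc F) a) = 1 := by
  classical
  rw [monics_eq, mem_image] at ha
  obtain ⟨b, hb, rfl⟩ := ha
  rw [map_add, EE_add, EE_low F hb, map_pow, RatFunc.algebraMap_X, EE_X_pow F d d le_rfl]
  simp

theorem natDegree_EE (d : ℕ) : (EE F d).natDegree ≤ qq F ^ d := by
  apply natDegree_sum_le_of_forall_le
  intro i hi
  refine (natDegree_C_mul_le _ _).trans ?_
  rw [natDegree_X_pow]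
  exact Nat.pow_le_pow_right (one_lt_qq F).le (by have := mem_range.mp hi; omega)

theorem derivative_EE (d : ℕ) : derivative (EE F d) = C (uu F d) := by
  rw [EE, sum_range_succ', derivative_add, derivative_sum]
  have : ∀ i ∈ range d, derivative (C (gam F d (i + 1)) * X ^ qq F ^ (i + 1)) = 0 := by
    intro i _
    rw [derivative_C_mul, derivative_X_pow, Nat.cast_pow, cast_qq F]
    simp
  rw [sum_congr rfl this]
  simp [gam_zero]

theorem coe_EE (d : ℕ) : (EE F d : PowerSeries (RatFunc F)) = GG (qq F) (gam F d) := by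
  ext n
  rw [Polynomial.coeff_coe, EE, finsetSum_coeff]
  simp only [coeff_C_mul, coeff_X_pow]
  by_cases hn : ∃ i, qq F ^ i = n
  · obtain ⟨i, rfl⟩ := hn
    rw [coeff_GG_pow (one_lt_qq F)]
    simp only [Nat.pow_right_inj (one_lt_qq F), mul_ite, mul_one, mul_zero, sum_ite_eq,
      mem_range]
    split_ifs with h
    · rfl
    · exact (gam_eq_zero F d i (by omega)).symm
  · push Not at hn
    rw [coeff_GG_of_ne _ hn]
    apply sum_eq_zero
    intro i _
    rw [if_neg (hn i).symm, mul_zero]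

/-- The polynomial giving `S_d(n + 1)`. -/
noncomputable def hK (n : ℕ) : (RatFunc F)[X] := hh (qq F) (gK F) n

/-- The polynomial giving `S_{<d}(k)` for `k` divisible by `q - 1`. -/
noncomputable def PK (k : ℕ) : (RatFunc F)[X] := PP (qq F) (gK F) k

theorem natDegree_hK (n : ℕ) : (qq F - 1) * (hK F n).natDegree ≤ qq F * n :=
  natDegree_hh (one_lt_qq F) (natDegree_gK F) n

theorem natDegree_PK (n : ℕ) : (qq F - 1) * (PK F n).natDegree ≤ qq F * n :=
  natDegree_PP (one_lt_qq F) (natDegree_gK F) n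

theorem GG_gam (d : ℕ) : GG (qq F) (gam F d) =
    PowerSeries.rescale (uu F d) (GG (qq F) (fun i => (gK F i).eval (TT F d))) := by
  rw [rescale_GG]; rfl

omit [Fintype F] in
theorem alg_injOn (s : Finset F[X]) : Set.InjOn (algebraMap F[X] (RatFunc F)) s :=
  (IsFractionRing.injective F[X] (RatFunc F)).injOn

theorem Sd_eq (n d : ℕ) : Sd F (n + 1) d = (hK F n).eval (TT F d) * uu F d ^ (n + 1) := by
  have hq := one_lt_qq F
  have hne : (1 - EE F d) ≠ 0 := by
    intro h
    have := congrArg (eval 0) h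
    simp [EE_eval_zero] at this
  have h1 := logd hne (monics F d) (algebraMap F[X] (RatFunc F)) (alg_injOn F _)
    (fun a ha => by simpa using (mem_monics.mp ha).1.ne_zero)
    (fun a ha => by simp [EE_monic F ha])
    (by
      rw [card_monics]
      refine (natDegree_sub_le _ _).trans ?_
      simp [natDegree_EE])
  rw [derivative_sub, derivative_one, derivative_EE, Polynomial.coe_sub, Polynomial.coe_sub,
    coe_EE, Polynomial.coe_one, Polynomial.coe_zero, coe_C] at h1
  have h2 := mul_geo (constantCoeff_GG hq (gam F d))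
  have h3 : ∑ a ∈ monics F d, JJ (algebraMap F[X] (RatFunc F) a) =
      PowerSeries.C (uu F d) * geo (GG (qq F) (gam F d)) := by
    linear_combination geo (GG (qq F) (gam F d)) * h1 -
      (∑ a ∈ monics F d, JJ (algebraMap F[X] (RatFunc F) a)) * h2
  have h4 := congrArg (PowerSeries.coeff n) h3
  rw [GG_gam, ← rescale_geo _ (constantCoeff_GG hq _), PowerSeries.coeff_C_mul,
    PowerSeries.coeff_rescale, map_sum] at h4
  simp only [JJ, PowerSeries.coeff_mk] at h4
  have h5 := map_hh (evalRingHom (TT F d)) hq (gK F) n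
  simp only [coe_evalRingHom] at h5
  rw [Sd, h4, hK, h5, hh]
  ring

open Classical in
theorem sum_nonzero {M : Type*} [AddCommMonoid M] (f : F[X] → M) (d : ℕ) :
    ∑ b ∈ (lowP F d).erase 0, f b =
      ∑ a ∈ (lowP F d).filter Monic, ∑ c ∈ (univ : Finset F).erase 0, f (C c * a) := by
  rw [← sum_product']
  symm
  apply sum_bij (fun x _ => C x.2 * x.1)
  · rintro ⟨a, c⟩ h
    simp only [mem_product, mem_filter, mem_erase, mem_univ, and_true, mem_lowP] at h ⊢
    obtain ⟨⟨h1, h2⟩, h3⟩ := h
    refine ⟨mul_ne_zero (by simpa using h3) h2.ne_zero, ?_⟩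
    rwa [degree_C_mul h3]
  · rintro ⟨a, c⟩ h ⟨a', c'⟩ h' he
    simp only [mem_product, mem_filter, mem_erase, mem_univ, and_true, mem_lowP] at h h' he
    have h1 := congrArg leadingCoeff he
    simp only [leadingCoeff_mul, leadingCoeff_C, h.1.2.leadingCoeff, h'.1.2.leadingCoeff,
      mul_one] at h1
    subst h1
    have := mul_left_cancel₀ (by simpa using h.2) he
    simp [this]
  · intro b hb
    simp only [mem_erase, mem_lowP] at hb
    have h0 : b.leadingCoeff ≠ 0 := by simpa using hb.1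
    refine ⟨(b * C b.leadingCoeff⁻¹, b.leadingCoeff), ?_, ?_⟩
    · simp only [mem_product, mem_filter, mem_erase, mem_univ, and_true, mem_lowP]
      refine ⟨⟨?_, monic_mul_leadingCoeff_inv hb.1⟩, h0⟩
      rw [degree_mul_C (inv_ne_zero h0)]; exact hb.2
    · simp only
      rw [mul_comm b, ← mul_assoc, ← C_mul, mul_inv_cancel₀ h0]; simp
  · intro x _; rfl

theorem Slt_eq {k : ℕ} (hk : 1 ≤ k) (hdiv : qq F - 1 ∣ k) (d : ℕ) :
    Slt F k d = (PK F k).eval (TT F d) * uu F d ^ k := by
  classical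
  have hq := one_lt_qq F
  have hE : X * divX (EE F d) = EE F d := by
    have := X_mul_divX_add (EE F d)
    rwa [coeff_zero_eq_eval_zero, EE_eval_zero, map_zero, add_zero] at this
  set N := divX (EE F d) with hN
  have hD : N + X * derivative N = C (uu F d) := by
    rw [← derivative_EE, ← hE]; simp
  have hne : N ≠ 0 := by
    intro h
    rw [h] at hD
    simp only [derivative_zero, mul_zero, add_zero] at hD
    exact uu_ne_zero F d (by simpa using hD.symm)
  have h1 := logd hne ((lowP F d).erase 0) (algebraMap F[X] (RatFunc F)) (alg_injOn F _)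
    (fun a ha => by simpa using (mem_erase.mp ha).1)
    (fun a ha => by
      have h2 := EE_low F (mem_erase.mp ha).2
      rw [← hE, eval_mul, eval_X] at h2
      exact (mul_eq_zero.mp h2).resolve_left (by simpa using (mem_erase.mp ha).1))
    (by
      rw [card_erase_of_mem (by simp [mem_lowP]), card_lowP, hN,
        natDegree_divX_eq_natDegree_tsub_one]
      exact Nat.sub_le_sub_right (natDegree_EE F d) 1)
  set gv := fun i => (gK F i).eval (TT F d) with hgv
  have h2 : (N : PowerSeries (RatFunc F)) =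
      PowerSeries.C (uu F d) * (1 - PowerSeries.rescale (uu F d) (GP (qq F) gv)) := by
    have h3 := congrArg (fun p : (RatFunc F)[X] => (p : PowerSeries (RatFunc F))) hE
    simp only [Polynomial.coe_mul, coe_X] at h3
    rw [coe_EE, GG_gam, ← X_mul_GP hq (by simp [gK_zero]), map_mul, PowerSeries.rescale_X,
      map_sub, map_one] at h3
    apply mul_left_cancel₀ (PowerSeries.X_ne_zero)
    rw [h3]; ring
  have h4 := congrArg (fun p : (RatFunc F)[X] => (p : PowerSeries (RatFunc F))) hD
  simp only [Polynomial.coe_mul, Polynomial.coe_add, coe_X, coe_C] at h4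
  set J := ∑ a ∈ (lowP F d).erase 0, JJ (algebraMap F[X] (RatFunc F) a) with hJ
  have h5 : (1 - PowerSeries.rescale (uu F d) (GP (qq F) gv)) * (1 - PowerSeries.X * J) = 1 := by
    have hu : (PowerSeries.C (uu F d) : PowerSeries (RatFunc F)) ≠ 0 := by
      simpa using uu_ne_zero F d
    apply mul_left_cancel₀ hu
    rw [← mul_assoc, ← h2]
    linear_combination h4 - PowerSeries.X * h1
  have h6 := geo_unique (by
    rw [← PowerSeries.coeff_zero_eq_constantCoeff_apply, PowerSeries.coeff_rescale,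
      PowerSeries.coeff_zero_eq_constantCoeff_apply, constantCoeff_GP, mul_zero]) h5
  rw [← rescale_geo _ (constantCoeff_GP _ _)] at h6
  obtain ⟨n, rfl⟩ : ∃ n, k = n + 1 := ⟨k - 1, by omega⟩
  have h7 := congrArg (PowerSeries.coeff (n + 1)) h6
  rw [PowerSeries.coeff_rescale, map_sub, PowerSeries.coeff_succ_X_mul, hJ, map_sum,
    PowerSeries.coeff_one, if_neg (by omega), zero_sub] at h7
  simp only [JJ, PowerSeries.coeff_mk] at h7
  have h8 := map_PP (evalRingHom (TT F d)) (qq F) (gK F) (n + 1)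
  simp only [coe_evalRingHom] at h8
  rw [PK, h8, PP, mul_comm, ← h7, sum_nonzero, sum_monic_lowP, Slt, ← sum_neg_distrib]
  apply sum_congr rfl
  intro e _
  rw [Sd, ← sum_neg_distrib]
  apply sum_congr rfl
  intro a _
  have h9 : ∀ c ∈ (univ : Finset F).erase 0,
      (algebraMap F[X] (RatFunc F) (C c * a) ^ (n + 1))⁻¹ =
        (algebraMap F[X] (RatFunc F) a ^ (n + 1))⁻¹ := by
    intro c hc
    obtain ⟨m, hm⟩ := hdiv
    rw [map_mul, mul_pow, ← map_pow, ← map_pow, hm, pow_mul,
      FiniteField.pow_card_sub_one_eq_one c (mem_erase.mp hc).1]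
    simp
  rw [sum_congr rfl h9, sum_const, card_erase_of_mem (mem_univ _), card_univ, nsmul_eq_mul,
    Nat.cast_sub hq.le, cast_qq F]
  simp

end

end ZetaLikeMZV
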