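import Mathlib

/-! Carlitz zeta values and depth-two multizeta values of `F[t]` in `F((1/t))`. -/

namespace ZetaLikeMZV

open Polynomial

variable (F : Type*) [Field F] [DecidableEq (RatFunc F)]

/-- The image of a polynomial `a ∈ F[t]` in `K_∞ = F((1/t))`, the completion of `F(t)` at
infinity. -/
noncomputable def emb (a : F[X]) : RatFunc.CompletionAtInfty F :=
  algebraMap (RatFunc F) (RatFunc.CompletionAtInfty F) (algebraMap F[X] (RatFunc F) a)

/-- The Carlitz zeta value: the sum of `a^(-s)` over monic `a`. -/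
noncomputable def zeta (s : ℕ) : RatFunc.CompletionAtInfty F :=
  ∑' a : {a : F[X] // a.Monic}, (emb F a.1 ^ s)⁻¹

/-- The depth-two multizeta value: the sum of `a₁^(-s₁) a₂^(-s₂)` over monic `a₁, a₂` with
`deg a₁ > deg a₂`. -/
noncomputable def zetaTwo (s₁ s₂ : ℕ) : RatFunc.CompletionAtInfty F :=
  ∑' a : {a : F[X] × F[X] // a.1.Monic ∧ a.2.Monic ∧ a.2.natDegree < a.1.natDegree},
    (emb F a.1.1 ^ s₁ * emb F a.1.2 ^ s₂)⁻¹

/-- `(s₁, s₂)` is zeta-like: `ζ(s₁, s₂) / ζ(s₁ + s₂)` lies in `F(t)`. -/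
def ZetaLike (s₁ s₂ : ℕ) : Prop :=
  ∃ c : RatFunc F, zetaTwo F s₁ s₂ / zeta F (s₁ + s₂) =
    algebraMap (RatFunc F) (RatFunc.CompletionAtInfty F) c

end ZetaLikeMZV
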