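import Pool.Agent.P.MP_8c9ada_nt.Liou

/-! If `(s₁, s₂)` is zeta-like then `q - 1` divides `s₂`. -/

namespace ZetaLikeMZV

section

open Polynomial Finset Filter WithZero

section Generic

variable {R : Type*} [CommRing R] (q : ℕ) (t : R)

/-- The product `∏ (t - Y^(q^j))`, `j < I`. -/
noncomputable def om : ℕ → R[X]
  | 0 => 1
  | I + 1 => (C t - X) * expand R q (om I)

/-- The coefficient of the second sequence after `I` steps. -/
noncomputable def Psi (w s₂ : ℕ) (H : R[X]) : ℕ → R[X]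
  | 0 => 0
  | I + 1 => (C t - X) ^ s₂ * (expand R q (om q t I) ^ w * H + expand R q (Psi w s₂ H I))

theorem map_om {S : Type*} [CommRing S] (f : R →+* S) (I : ℕ) :
    (om q t I).map f = om q (f t) I := by
  induction I with
  | zero => simp [om]
  | succ I ih => simp [om, map_expand, ih]

theorem map_Psi {S : Type*} [CommRing S] (f : R →+* S) (w s₂ : ℕ) (H : R[X]) (I : ℕ) :
    (Psi q t w s₂ H I).map f = Psi q (f t) w s₂ (H.map f) I := by
  induction I with
  | zero => simp [Psi]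
  | succ I ih => simp [Psi, map_expand, ih, map_om]

theorem iter_rec {w s₂ : ℕ} {H₁ H₂ H₃ : R[X]} {A M y : ℕ → R} (hy : ∀ d, y (d + 1) = y d ^ q)
    (hA : ∀ d, A (d + 1) = (t - y d) ^ w * A d + (t - y d) ^ s₂ * H₁.eval (y d) * M d +
      H₃.eval (y d))
    (hM : ∀ d, M (d + 1) = (t - y d) ^ s₂ * M d + H₂.eval (y d)) (I : ℕ) :
    ∃ Ξ : R[X], ∀ d, A (d + I) = (om q t I).eval (y d) ^ w * A d +
      (Psi q t w s₂ H₁ I).eval (y d) * M d + Ξ.eval (y d) := by
  induction I with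
  | zero => exact ⟨0, fun d => by simp [om, Psi]⟩
  | succ I ih =>
    obtain ⟨Ξ, hΞ⟩ := ih
    refine ⟨expand R q (om q t I) ^ w * H₃ + expand R q (Psi q t w s₂ H₁ I) * H₂ + expand R q Ξ,
      fun d => ?_⟩
    rw [show d + (I + 1) = (d + 1) + I by ring, hΞ, hA, hM, hy]
    simp only [om, Psi, eval_mul, eval_add, eval_pow, eval_sub, eval_C, eval_X, expand_eval,
      mul_pow]
    ring

end Generic

section FieldPart

variable {K : Type*} [Field K] {q : ℕ} (t : K)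

theorem om_ne_zero (hq : 1 < q) (I : ℕ) : om q t I ≠ 0 := by
  induction I with
  | zero => simp [om]
  | succ I ih =>
    rw [om]
    refine mul_ne_zero ?_ (by rwa [Ne, expand_eq_zero (by omega)])
    intro h
    exact X_sub_C_ne_zero t (by linear_combination -h)

theorem natDegree_C_sub_X : (C t - X).natDegree = 1 := by
  rw [← natDegree_neg, neg_sub, natDegree_X_sub_C]

theorem C_sub_X_ne_zero : (C t - X) ≠ 0 := by
  intro h
  exact X_sub_C_ne_zero t (by linear_combination -h)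

theorem natDegree_om (hq : 1 < q) (I : ℕ) :
    ((q : ℤ) - 1) * (om q t I).natDegree + 1 = (q : ℤ) ^ I := by
  induction I with
  | zero => simp [om]
  | succ I ih =>
    rw [om, natDegree_mul (C_sub_X_ne_zero t)
      (by rw [Ne, expand_eq_zero (by omega)]; exact om_ne_zero t hq I), natDegree_C_sub_X,
      natDegree_expand]
    push_cast
    rw [pow_succ]
    linear_combination (q : ℤ) * ih

theorem Z_eq_zero (hq : 1 < q) {s₁ s₂ : ℕ} {H a π : K[X]}
    (h : ∀ I, ((q : ℤ) - 1) * (om q t I ^ (s₁ + s₂) * a + Psi q t (s₁ + s₂) s₂ H I * π).natDegree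
      ≤ ((s₁ + s₂ : ℕ) - 1) * (q : ℤ) ^ I + q) :
    (C t - X) ^ s₁ * a * expand K q π + H * π * expand K q π - expand K q a * π = 0 := by
  by_contra hZ
  set Z := (C t - X) ^ s₁ * a * expand K q π + H * π * expand K q π - expand K q a * π with hZd
  set w := s₁ + s₂ with hw'
  set W := fun I => om q t I ^ w * a + Psi q t w s₂ H I * π with hW
  have key : ∀ I, W (I + 1) * expand K q π - (C t - X) ^ s₂ * π * expand K q (W I) =
      expand K q (om q t I) ^ w * (C t - X) ^ s₂ * Z := by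
    intro I
    simp only [hW, om, Psi, map_add, map_mul, map_pow, hZd, mul_pow, hw', pow_add]
    ring
  set c : ℤ := ((q : ℤ) - 1) * (π.natDegree * q + s₂ + π.natDegree) + q * q + w * q with hc
  obtain ⟨I, hI⟩ : ∃ I : ℕ, c < (q : ℤ) ^ I := by
    refine ⟨c.toNat, ?_⟩
    have h1 : c.toNat < q ^ c.toNat := Nat.lt_pow_self hq
    have h2 : (c.toNat : ℤ) < (q : ℤ) ^ c.toNat := by exact_mod_cast h1
    omega
  have h1 := congrArg natDegree (key I)
  have h2 : expand K q (om q t I) ≠ 0 := by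
    rw [Ne, expand_eq_zero (by omega)]; exact om_ne_zero t hq I
  rw [natDegree_mul (mul_ne_zero (pow_ne_zero _ h2) (pow_ne_zero _ (C_sub_X_ne_zero t))) hZ,
    natDegree_mul (pow_ne_zero _ h2) (pow_ne_zero _ (C_sub_X_ne_zero t)), natDegree_pow,
    natDegree_expand] at h1
  have h3 := natDegree_sub_le (W (I + 1) * expand K q π) ((C t - X) ^ s₂ * π * expand K q (W I))
  have h4 : (W (I + 1) * expand K q π).natDegree ≤ (W (I + 1)).natDegree + π.natDegree * q := by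
    refine natDegree_mul_le.trans ?_
    rw [natDegree_expand]
  have h5 : ((C t - X) ^ s₂ * π * expand K q (W I)).natDegree ≤
      s₂ + π.natDegree + (W I).natDegree * q := by
    refine natDegree_mul_le.trans (add_le_add (natDegree_mul_le.trans ?_) ?_)
    · rw [natDegree_pow, natDegree_C_sub_X, mul_one]
    · rw [natDegree_expand]
  have h6 : ((q : ℤ) - 1) * (W (I + 1)).natDegree ≤ ((w : ℕ) - 1) * (q : ℤ) ^ (I + 1) + q :=
    h (I + 1)
  have h7 : ((q : ℤ) - 1) * (W I).natDegree ≤ ((w : ℕ) - 1) * (q : ℤ) ^ I + q := h I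
  have h8 := natDegree_om t hq I
  have hq1 : (0 : ℤ) < (q : ℤ) - 1 := by omega
  have hq2 : (0 : ℤ) < (q : ℤ) ^ I := by positivity
  have hq3 : (q : ℤ) ^ I ≤ (q : ℤ) ^ I * q := by nlinarith
  have h9 : ((q : ℤ) - 1) * (w * ((om q t I).natDegree * q)) = w * ((q : ℤ) ^ I * q) - w * q := by
    linear_combination (w : ℤ) * q * h8
  rw [pow_succ] at h6
  have hn1 : (0 : ℤ) ≤ ((q : ℤ) - 1) * (π.natDegree * q) := by positivity
  have hn2 : (0 : ℤ) ≤ ((q : ℤ) - 1) * (s₂ + π.natDegree) := by positivity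
  have hn3 : (q : ℤ) ≤ q * q := by nlinarith
  rcases le_max_iff.mp h3 with h10 | h10
  · have h11 : w * ((om q t I).natDegree * q) ≤ (W (I + 1)).natDegree + π.natDegree * q := by
      omega
    have h12 : (w : ℤ) * ((om q t I).natDegree * q) ≤ (W (I + 1)).natDegree + π.natDegree * q := by
      exact_mod_cast h11
    have h13 := mul_le_mul_of_nonneg_left h12 hq1.le
    nlinarith
  · have h11 : w * ((om q t I).natDegree * q) ≤ s₂ + π.natDegree + (W I).natDegree * q := by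
      omega
    have h12 : (w : ℤ) * ((om q t I).natDegree * q) ≤ s₂ + π.natDegree + (W I).natDegree * q := by
      exact_mod_cast h11
    have h13 := mul_le_mul_of_nonneg_left h12 hq1.le
    have h14 := mul_le_mul_of_nonneg_left h7 (by omega : (0 : ℤ) ≤ q)
    nlinarith

theorem exists_rho (hq : 1 < q) {s₁ : ℕ} {H a π : K[X]} (hπ : π ≠ 0)
    (h : (C t - X) ^ s₁ * a * expand K q π + H * π * expand K q π - expand K q a * π = 0) :
    ∃ ρ : K[X], a = - ρ * π ∧ H = (C t - X) ^ s₁ * ρ - expand K q ρ := by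
  classical
  obtain ⟨a', π', ha, hπ', hu⟩ := extract_gcd a π
  set g := gcd a π with hg
  have hco : IsCoprime a' π' := (gcd_isUnit_iff _ _).mp hu
  have hg0 : g ≠ 0 := by rintro h0; rw [h0, zero_mul] at hπ'; exact hπ hπ'
  have hπ0 : π' ≠ 0 := by rintro h0; rw [h0, mul_zero] at hπ'; exact hπ hπ'
  have hge : expand K q g ≠ 0 := by rwa [Ne, expand_eq_zero (by omega)]
  have h1 : (C t - X) ^ s₁ * a' * expand K q π' + H * π' * expand K q π' - expand K q a' * π'
      = 0 := by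
    apply mul_left_cancel₀ (mul_ne_zero hg0 hge)
    rw [ha, hπ'] at h
    simp only [map_mul] at h
    linear_combination h
  have h2 : expand K q π' ∣ expand K q a' * π' :=
    ⟨(C t - X) ^ s₁ * a' + H * π', by linear_combination -h1⟩
  have h3 : IsCoprime (expand K q π') (expand K q a') := (hco.map (expand K q).toRingHom).symm
  have h4 := natDegree_le_of_dvd (h3.dvd_of_dvd_mul_left h2) hπ0
  rw [natDegree_expand] at h4
  have h5 : π'.natDegree = 0 := by nlinarith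
  rw [eq_C_of_natDegree_eq_zero h5] at h1 hπ' hπ0
  set u := π'.coeff 0
  have hu0 : u ≠ 0 := by simpa using hπ0
  have hu1 : (C u : K[X]) * C u⁻¹ = 1 := by rw [← C_mul, mul_inv_cancel₀ hu0, C_1]
  refine ⟨- (C u⁻¹ * a'), ?_, ?_⟩
  · rw [hπ']
    conv_lhs => rw [ha]
    linear_combination (-(g * a')) * hu1
  · simp only [map_neg, map_mul, expand_C] at h1 ⊢
    linear_combination (C u⁻¹) ^ 2 * h1 - (H * (C u * C u⁻¹ + 1) +
      (C t - X) ^ s₁ * a' * C u⁻¹ - C u⁻¹ * expand K q a') * hu1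

end FieldPart

variable (F : Type*) [Field F] [Fintype F]

omit [Fintype F] in
theorem exists_bound_coeff (P : F[X][X]) : ∃ B, ∀ n, (P.coeff n).natDegree ≤ B := by
  refine ⟨P.support.sup (fun n => (P.coeff n).natDegree), fun n => ?_⟩
  by_cases h : n ∈ P.support
  · exact le_sup (f := fun n => (P.coeff n).natDegree) h
  · rw [notMem_support_iff.mp h]; simp

omit [Fintype F] in
theorem natDegree_coeff_mul_le {P P' : F[X][X]} {B B' : ℕ} (h : ∀ n, (P.coeff n).natDegree ≤ B)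
    (h' : ∀ n, (P'.coeff n).natDegree ≤ B') (n : ℕ) : ((P * P').coeff n).natDegree ≤ B + B' := by
  rw [coeff_mul]
  apply natDegree_sum_le_of_forall_le
  intro x _
  exact natDegree_mul_le.trans (add_le_add (h _) (h' _))

theorem abstract_div {s₁ s₂ : ℕ} (hs₁ : 1 ≤ s₁) (hdiv : ¬ qq F - 1 ∣ s₂)
    {H₁ H₂ H₃ : F[X][X]} {A M : ℕ → F[X]}
    (hA : ∀ d, A (d + 1) = (X - X ^ qq F ^ d) ^ (s₁ + s₂) * A d +
      (X - X ^ qq F ^ d) ^ s₂ * H₁.eval (X ^ qq F ^ d) * M d + H₃.eval (X ^ qq F ^ d))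
    (hM : ∀ d, M (d + 1) = (X - X ^ qq F ^ d) ^ s₂ * M d + H₂.eval (X ^ qq F ^ d))
    {CA CM : ℤ}
    (hAd : ∀ d, 1 ≤ d → A d ≠ 0 →
      ((qq F : ℤ) - 1) * (A d).natDegree ≤ ((s₁ + s₂ : ℕ) - qq F) * (qq F : ℤ) ^ d + CA)
    (hMd : ∀ d, 1 ≤ d → M d ≠ 0 ∧
      ((qq F : ℤ) - 1) * (M d).natDegree = s₂ * (qq F : ℤ) ^ d + CM) :
    ∃ ρ : (RatFunc F)[X], (qq F - 1) * ρ.natDegree < s₁ ∧
      H₁.map (algebraMap F[X] (RatFunc F)) = Top F s₁ ρ := by
  have hq := one_lt_qq F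
  set q := qq F with hqd
  set w := s₁ + s₂ with hw
  set α := algebraMap F[X] (RatFunc F) with hα
  have hq1 : 0 < q - 1 := by omega
  have hqz : (0 : ℤ) < (q : ℤ) - 1 := by omega
  have hqc : ((q - 1 : ℕ) : ℤ) = q - 1 := by rw [Nat.cast_sub hq.le]; simp
  obtain ⟨K₀, f, hf0, hf1, hKf⟩ : ∃ K₀ f : ℕ, 0 < f ∧ f < q - 1 ∧ s₂ = (q - 1) * K₀ + f :=
    ⟨s₂ / (q - 1), s₂ % (q - 1), Nat.pos_of_ne_zero (fun h => hdiv (Nat.dvd_of_mod_eq_zero h)),
      Nat.mod_lt _ hq1, (Nat.div_add_mod _ _).symm⟩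
  have hKf' : (s₂ : ℤ) = (q - 1) * K₀ + f := by rw [← hqc]; exact_mod_cast hKf
  obtain ⟨nA, hnA1, hnA2⟩ : ∃ nA : ℕ, (w : ℤ) - q + 1 ≤ (q - 1) * (nA + 1 : ℕ) ∧
      (q - 1) * nA < s₁ + (q - 1) * K₀ := by
    refine ⟨(w + 1 - q) / (q - 1), ?_, ?_⟩
    · have h1 := Nat.lt_mul_div_succ (w + 1 - q) hq1
      rw [← hqc]
      have h2 : ((w + 1 - q : ℕ) : ℤ) < ((q - 1 : ℕ) : ℤ) * ((w + 1 - q) / (q - 1) + 1 : ℕ) := by
        exact_mod_cast h1
      omega
    · have h1 := Nat.mul_div_le (w + 1 - q) (q - 1)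
      omega
  have hb : ∀ I, ∃ b : ℕ, ((w : ℤ) - 1) * (q : ℤ) ^ I + 1 ≤ (q - 1) * b ∧
      (q - 1) * b ≤ ((w : ℤ) - 1) * (q : ℤ) ^ I + q := by
    intro I
    refine ⟨(w - 1) * q ^ I / (q - 1) + 1, ?_, ?_⟩
    · have h1 := Nat.lt_mul_div_succ ((w - 1) * q ^ I) hq1
      rw [← hqc]
      have h2 : (((w - 1) * q ^ I : ℕ) : ℤ) <
          ((q - 1 : ℕ) : ℤ) * ((w - 1) * q ^ I / (q - 1) + 1 : ℕ) := by
        exact_mod_cast h1
      rw [Nat.cast_mul, Nat.cast_sub (by omega), Nat.cast_pow] at h2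
      simp only [Nat.cast_one] at h2
      omega
    · have h1 := Nat.mul_div_le ((w - 1) * q ^ I) (q - 1)
      have h2 : ((q - 1 : ℕ) : ℤ) * ((w - 1) * q ^ I / (q - 1) : ℕ) ≤ ((w - 1) * q ^ I : ℕ) := by
        exact_mod_cast h1
      rw [Nat.cast_mul, Nat.cast_sub (by omega : 1 ≤ w), Nat.cast_pow, hqc] at h2
      simp only [Nat.cast_one] at h2
      rw [Nat.cast_add, Nat.cast_one]
      nlinarith
  choose b hb1 hb2 using hb
  -- digits
  have hdig : ∀ d, ∃ Pa Pm : F[X][X], Pa.degree < (nA + 1 : ℕ) ∧ Pm.degree < (K₀ + 1 : ℕ) ∧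
      (∀ k, (Pa.coeff k).degree < (q ^ d : ℕ)) ∧ (∀ k, (Pm.coeff k).degree < (q ^ d : ℕ)) ∧
      (1 ≤ d ∧ CA < (q : ℤ) ^ d ∧ CM < (q : ℤ) ^ d →
        Pa.eval (X ^ q ^ d) = A d ∧ Pm.eval (X ^ q ^ d) = M d) := by
    intro d
    by_cases hd : 1 ≤ d ∧ CA < (q : ℤ) ^ d ∧ CM < (q : ℤ) ^ d
    · obtain ⟨hd1, hd2, hd3⟩ := hd
      have hpos : (0 : ℤ) < (q : ℤ) ^ d := by positivity
      obtain ⟨Pa, h1, h2, h3⟩ := exists_digits (Q := q ^ d) (nA + 1) (A d) (by
        by_cases h0 : A d = 0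
        · rw [h0, degree_zero]; exact WithBot.bot_lt_coe _
        rw [← natDegree_lt_iff_degree_lt h0]
        have h4 := hAd d hd1 h0
        have h5 : ((A d).natDegree : ℤ) < (nA + 1 : ℕ) * (q : ℤ) ^ d := by
          apply lt_of_mul_lt_mul_left _ hqz.le
          nlinarith
        exact_mod_cast h5)
      obtain ⟨Pm, h4, h5, h6⟩ := exists_digits (Q := q ^ d) (K₀ + 1) (M d) (by
        obtain ⟨h0, h4⟩ := hMd d hd1
        rw [← natDegree_lt_iff_degree_lt h0]
        have h5 : ((M d).natDegree : ℤ) < (K₀ + 1 : ℕ) * (q : ℤ) ^ d := by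
          apply lt_of_mul_lt_mul_left _ hqz.le
          have h6 : (f : ℤ) + 1 ≤ q - 1 := by omega
          push_cast
          nlinarith
        exact_mod_cast h5)
      exact ⟨Pa, Pm, h1, h4, h2, h5, fun _ => ⟨h3, h6⟩⟩
    · exact ⟨0, 0, by rw [degree_zero]; exact WithBot.bot_lt_coe _,
        by rw [degree_zero]; exact WithBot.bot_lt_coe _,
        fun k => by rw [coeff_zero, degree_zero]; exact WithBot.bot_lt_coe _,
        fun k => by rw [coeff_zero, degree_zero]; exact WithBot.bot_lt_coe _,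
        fun h => absurd h hd⟩
  choose Pa Pm hPa hPm hPa' hPm' hev using hdig
  have hgood : ∀ᶠ d in atTop, 1 ≤ d ∧ CA < (q : ℤ) ^ d ∧ CM < (q : ℤ) ^ d :=
    (eventually_ge_atTop 1).and ((eventually_lt_pow F CA).and (eventually_lt_pow F CM))
  set V := degreeLT (RatFunc F) (nA + 1) × degreeLT (RatFunc F) (K₀ + 1) with hV
  set W : ℕ → V →ₗ[RatFunc F] (RatFunc F)[X] := fun I =>
    (LinearMap.mulLeft (RatFunc F) (om q RatFunc.X I ^ w)) ∘ₗ (Submodule.subtype _) ∘ₗ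
      (LinearMap.fst _ _ _) +
    (LinearMap.mulLeft (RatFunc F) (Psi q RatFunc.X w s₂ (H₁.map α) I)) ∘ₗ (Submodule.subtype _) ∘ₗ
      (LinearMap.snd _ _ _) with hW
  have hWv : ∀ I (x : V), W I x = om q RatFunc.X I ^ w * x.1.1 +
      Psi q RatFunc.X w s₂ (H₁.map α) I * x.2.1 := fun I x => rfl
  set L : {p : ℕ × ℕ // b p.1 ≤ p.2} → V →ₗ[RatFunc F] RatFunc F := fun p =>
    lcoeff _ p.1.2 ∘ₗ W p.1.1 with hL
  set φ : V →ₗ[RatFunc F] RatFunc F :=
    lcoeff _ K₀ ∘ₗ (Submodule.subtype _) ∘ₗ (LinearMap.snd _ _ _) with hφ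
  by_cases hk : ⨅ p, LinearMap.ker (L p) ≤ LinearMap.ker φ
  · exfalso
    have hspan := FiniteDimensional.mem_span_of_iInf_ker_le_ker hk
    set vd : ℕ → V := fun d =>
      (⟨(Pa d).map α, mem_degreeLT.mpr (lt_of_le_of_lt degree_map_le (hPa d))⟩,
       ⟨(Pm d).map α, mem_degreeLT.mpr (lt_of_le_of_lt degree_map_le (hPm d))⟩) with hvd
    set ev : (V →ₗ[RatFunc F] RatFunc F) →ₗ[RatFunc F] (ℕ → RatFunc F) :=
      LinearMap.pi (fun d => LinearMap.applyₗ (vd d)) with hev'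
    have hle : Submodule.span (RatFunc F) (Set.range L) ≤ (Good F).comap ev := by
      rw [Submodule.span_le]
      rintro _ ⟨⟨⟨I, n⟩, hn⟩, rfl⟩
      obtain ⟨Ξ, hΞ⟩ := iter_rec q X (y := fun d => X ^ q ^ d)
        (fun d => by rw [← pow_mul, ← pow_succ]) hA hM I
      obtain ⟨B1, hB1⟩ := exists_bound_coeff F (om q X I ^ w)
      obtain ⟨B2, hB2⟩ := exists_bound_coeff F (Psi q X w s₂ H₁ I)
      obtain ⟨B3, hB3⟩ := exists_bound_coeff F Ξ
      refine ⟨1, one_ne_zero, B1 + B2 + B3, ?_⟩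
      filter_upwards [hgood] with d hd
      obtain ⟨e1, e2⟩ := hev d hd
      have hdeg : ∀ (P : F[X][X]), (∀ k, (P.coeff k).degree < (q ^ d : ℕ)) →
          ∀ k, (P.coeff k).natDegree ≤ q ^ d := fun P hP k =>
        natDegree_le_iff_degree_le.mpr (hP k).le
      obtain ⟨r, s, h1, h2, h3⟩ := carry (Q := q ^ d) (C₀ := B1 + B2 + B3) (b := b I)
        (c := om q X I ^ w * Pa d + Psi q X w s₂ H₁ I * Pm d + Ξ) (n := n)
        (fun k => by
          have h1 := natDegree_coeff_mul_le F hB1 (hdeg _ (hPa' d)) k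
          have h2 := natDegree_coeff_mul_le F hB2 (hdeg _ (hPm' d)) k
          have h3 := hB3 k
          rw [coeff_add, coeff_add]
          refine (natDegree_add_le _ _).trans (max_le ((natDegree_add_le _ _).trans
            (max_le ?_ ?_)) ?_) <;> omega)
        (by
          simp only [eval_add, eval_mul, eval_pow, e1, e2]
          rw [← hΞ d]
          by_cases h0 : A (d + I) = 0
          · simp [h0]
          have h4 := hAd (d + I) (by omega) h0
          have hpos : (0 : ℤ) < (q : ℤ) ^ d := by positivity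
          have hpos' : (0 : ℤ) < (q : ℤ) ^ I := by positivity
          have h5 : ((A (d + I)).natDegree : ℤ) ≤ b I * (q : ℤ) ^ d := by
            apply le_of_mul_le_mul_left _ hqz
            have h6 := mul_le_mul_of_nonneg_right (hb1 I) hpos.le
            rw [pow_add] at h4
            have h7 : (0 : ℤ) ≤ ((q : ℤ) - 1) * ((q : ℤ) ^ d * (q : ℤ) ^ I) := by positivity
            nlinarith [hd.2.1]
          exact_mod_cast h5) hn
      refine ⟨r - Ξ.coeff n, s, (natDegree_sub_le _ _).trans (max_le h1 (by have := hB3 n; omega)),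
        h2, ?_⟩
      have h4 : r - Ξ.coeff n + X ^ q ^ d * s =
          (om q X I ^ w * Pa d + Psi q X w s₂ H₁ I * Pm d).coeff n := by
        rw [coeff_add] at h3; linear_combination -h3
      rw [h4, ← coeff_map, Polynomial.map_add, Polynomial.map_mul, Polynomial.map_mul,
        Polynomial.map_pow, map_om, map_Psi, map_one, one_mul, RatFunc.algebraMap_X]
      rfl
    have hmem : ev φ ∈ Good F := hle hspan
    refine not_Good F CM ?_ hmem
    filter_upwards [hgood, eventually_lt_pow F (-CM)] with d hd hd'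
    obtain ⟨_, e2⟩ := hev d hd
    obtain ⟨h0, h4⟩ := hMd d hd.1
    have hpos : (0 : ℤ) < (q : ℤ) ^ d := by positivity
    have hfz : (1 : ℤ) ≤ f := by omega
    have h5 := top_digit (hPm d) (hPm' d) (by rwa [e2]) (by
      rw [e2]
      have h5 : K₀ * (q : ℤ) ^ d ≤ ((M d).natDegree : ℤ) := by
        apply le_of_mul_le_mul_left _ hqz
        nlinarith
      exact_mod_cast h5)
    rw [e2] at h5
    have h6 : ((M d).natDegree : ℤ) = ((Pm d).coeff K₀).natDegree + K₀ * (q : ℤ) ^ d := by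
      exact_mod_cast h5
    have h7 : ((q : ℤ) - 1) * ((Pm d).coeff K₀).natDegree = f * (q : ℤ) ^ d + CM := by
      rw [h6, hKf'] at h4; linear_combination h4
    refine ⟨(Pm d).coeff K₀, by rw [← coeff_map]; rfl, ?_, ?_⟩
    · have h8 : (f : ℤ) ≤ q - 2 := by omega
      rw [← hqd, h7]; nlinarith
    · rw [← hqd, h7]; nlinarith
  · obtain ⟨x, hx1, hx2⟩ := SetLike.not_le_iff_exists.mp hk
    rw [Submodule.mem_iInf] at hx1
    have hx3 : x.2.1.coeff K₀ ≠ 0 := hx2
    have hπ : x.2.1 ≠ 0 := by intro h; rw [h] at hx3; simp at hx3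
    have hZ := Z_eq_zero (RatFunc.X : RatFunc F) hq (s₁ := s₁) (s₂ := s₂) (H := H₁.map α)
      (a := x.1.1) (π := x.2.1) (fun I => by
        have h1 : (W I x).natDegree ≤ b I := by
          rw [natDegree_le_iff_coeff_eq_zero]
          intro n hn
          exact hx1 ⟨(I, n), hn.le⟩
        rw [← hWv]
        have h2 : ((W I x).natDegree : ℤ) ≤ b I := by exact_mod_cast h1
        have h3 := hb2 I
        nlinarith)
    obtain ⟨ρ, h1, h2⟩ := exists_rho _ hq hπ hZ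
    refine ⟨ρ, ?_, h2⟩
    by_cases h0 : ρ = 0
    · rw [h0]; simp; omega
    have h3 : K₀ ≤ x.2.1.natDegree := le_natDegree_of_ne_zero hx3
    have h4 : x.1.1.natDegree < nA + 1 := by
      rw [natDegree_lt_iff_degree_lt (by rw [h1]; simp [h0, hπ])]
      exact mem_degreeLT.mp x.1.2
    rw [h1, natDegree_mul (by simpa using h0) hπ, natDegree_neg] at h4
    have h5 : (q - 1) * (ρ.natDegree + K₀) ≤ (q - 1) * nA := Nat.mul_le_mul_left _ (by omega)
    rw [mul_add] at h5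
    omega

variable [DecidableEq (RatFunc F)]

theorem v_Sd_le (n : ℕ) : ∃ C : ℤ, ∀ d,
    RatFunc.inftyValuation F (Sd F (n + 1) d) ≤ exp (C - (ell F d).natDegree) := by
  have hq := one_lt_qq F
  obtain ⟨C, hC⟩ := exists_v_eval_uu F (hK F n) le_rfl (n + 1)
  refine ⟨C + n * qq F, fun d => ?_⟩
  rw [Sd_eq]
  refine (hC d d).trans (exp_le_exp.mpr ?_)
  have h1 := natDegree_ell F d
  have h2 : ((qq F : ℤ) - 1) * (hK F n).natDegree ≤ qq F * n := by
    have : ((qq F - 1 : ℕ) : ℤ) * (hK F n).natDegree ≤ qq F * n := by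
      exact_mod_cast natDegree_hK F n
    rwa [Nat.cast_sub hq.le, Nat.cast_one] at this
  have h3 : (0 : ℤ) < (qq F : ℤ) - 1 := by omega
  have h4 : (0 : ℤ) < (qq F : ℤ) ^ d := by positivity
  have h5 : ((hK F n).natDegree : ℤ) * (qq F : ℤ) ^ d ≤ n * qq F + n * (ell F d).natDegree := by
    apply le_of_mul_le_mul_left _ h3
    have h6 := mul_le_mul_of_nonneg_right h2 h4.le
    have h7 : (0 : ℤ) ≤ n * qq F * ((qq F : ℤ) - 2) := by
      have : (0 : ℤ) ≤ (qq F : ℤ) - 2 := by omega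
      positivity
    nlinarith
  push_cast
  nlinarith

theorem v_Slt_le {s : ℕ} (hs : 1 ≤ s) (d : ℕ) : RatFunc.inftyValuation F (Slt F s d) ≤ 1 := by
  rcases Nat.eq_zero_or_pos d with rfl | hd
  · simp [Slt_zero]
  · exact (v_Slt F hs hd).le

omit [DecidableEq (RatFunc F)] in
theorem natDegree_ell_mono : Monotone (fun d => (ell F d).natDegree) :=
  monotone_nat_of_le_succ (fun d => by rw [natDegree_ell_succ]; omega)

theorem dvd_of_zetaLike {s₁ s₂ : ℕ} (hs₁ : 1 ≤ s₁) (hs₂ : 1 ≤ s₂) (h : ZetaLike F s₁ s₂) :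
    qq F - 1 ∣ s₂ := by
  by_contra hdiv
  have hq := one_lt_qq F
  obtain ⟨n, rfl⟩ : ∃ n, s₁ = n + 1 := ⟨s₁ - 1, by omega⟩
  obtain ⟨m, rfl⟩ : ∃ n, s₂ = n + 1 := ⟨s₂ - 1, by omega⟩
  obtain ⟨c, hc⟩ := (zetaLike_iff hs₁).mp h
  set α := algebraMap F[X] (RatFunc F) with hα
  set w := n + 1 + (m + 1) with hw
  set a : ℕ → RatFunc F := fun d => Sd F (n + 1) d * Slt F (m + 1) d - c * Sd F w d with ha
  have hT : Tz F (fun D => ∑ d ∈ range D, a d) := by
    intro N
    have := hc N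
    simp only [hw, Ztwo_sub] at this
    exact this
  obtain ⟨γ₁, hγ₁, H₁, hH₁⟩ := exists_clear F (hK F n)
  obtain ⟨γ₂, hγ₂, H₂, hH₂⟩ := exists_clear F (hK F m)
  obtain ⟨γ₃, hγ₃, H₃, hH₃⟩ := exists_clear F (C (-c) * hK F (n + 1 + m))
  have e1 : ∀ d, α (H₁.eval (X ^ qq F ^ d)) = α γ₁ * (hK F n).eval (TT F d) := fun d => by
    rw [← eval_map_TT, hH₁]; simp [hα]
  have e2 : ∀ d, α (H₂.eval (X ^ qq F ^ d)) = α γ₂ * (hK F m).eval (TT F d) := fun d => by
    rw [← eval_map_TT, hH₂]; simp [hα]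
  have e3 : ∀ d, α (H₃.eval (X ^ qq F ^ d)) = α γ₃ * (-c * (hK F (n + 1 + m)).eval (TT F d)) :=
    fun d => by rw [← eval_map_TT, hH₃]; simp [hα]
  have e4 : ∀ d, α (X - X ^ qq F ^ d) = RatFunc.X - TT F d := fun d => by
    rw [map_sub, ← TT_eq, RatFunc.algebraMap_X]
  obtain ⟨M, hM⟩ : ∃ M : ℕ → F[X], ∀ d,
      M (d + 1) = (X - X ^ qq F ^ d) ^ (m + 1) * M d + H₂.eval (X ^ qq F ^ d) :=
    ⟨fun d => Nat.rec 0
      (fun d x => (X - X ^ qq F ^ d) ^ (m + 1) * x + H₂.eval (X ^ qq F ^ d)) d, fun d => rfl⟩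
  obtain ⟨A, hA⟩ : ∃ A : ℕ → F[X], ∀ d, A (d + 1) = (X - X ^ qq F ^ d) ^ w * A d +
      (X - X ^ qq F ^ d) ^ (m + 1) * (C γ₃ * H₁).eval (X ^ qq F ^ d) * M d +
      (C (γ₁ * γ₂) * H₃).eval (X ^ qq F ^ d) :=
    ⟨fun d => Nat.rec 0 (fun d x => (X - X ^ qq F ^ d) ^ w * x +
      (X - X ^ qq F ^ d) ^ (m + 1) * (C γ₃ * H₁).eval (X ^ qq F ^ d) * M d +
      (C (γ₁ * γ₂) * H₃).eval (X ^ qq F ^ d)) d, fun d => rfl⟩
  have hM' : ∀ e, α (M (e + 1)) * uu F e ^ (m + 1) = α γ₂ * Slt F (m + 1) (e + 1) := by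
    intro e
    induction e with
    | zero => rw [hM, map_add, e2, Slt_succ, Slt_zero, Sd_eq]; simp [mul_assoc]
    | succ e ih =>
      rw [hM, map_add, e2, Slt_succ, Sd_eq, mul_add (α γ₂), ← ih, ← uu_succ F e, map_mul, map_pow, e4,
        mul_pow]
      ring
  have hA' : ∀ e, α (A (e + 1)) * uu F e ^ w = α (γ₁ * γ₂ * γ₃) * ∑ d ∈ range (e + 1), a d := by
    have hSw : ∀ d, Sd F w d = (hK F (n + 1 + m)).eval (TT F d) * uu F d ^ w := fun d =>
      Sd_eq F (n + 1 + m) d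
    intro e
    induction e with
    | zero =>
      rw [hA, map_add, eval_mul (p := C (γ₁ * γ₂)), eval_C, map_mul α (γ₁ * γ₂), e3]
      simp only [ha, sum_range_one, zero_add, Slt_zero, hSw]
      simp [hw]
      ring
    | succ e ih =>
      have h1 := hM' e
      rw [← uu_succ F e, mul_pow] at ih h1
      rw [hA, sum_range_succ, mul_add (α _), ← ih]
      simp only [ha, hSw, Sd_eq, map_add, map_mul, map_pow, eval_mul, eval_C, e1, e3, e4]
      rw [hw, pow_add (uu F (e + 1))]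
      linear_combination (α γ₃ * α γ₁ * (hK F n).eval (TT F (e + 1)) * uu F (e + 1) ^ (n + 1)) * h1
  obtain ⟨C₁, hC₁⟩ := v_Sd_le F n
  obtain ⟨C₂, hC₂⟩ := v_Sd_le F (n + 1 + m)
  obtain ⟨C₃, hC₃⟩ := exists_v_le F c
  have hva : ∀ d, RatFunc.inftyValuation F (a d) ≤
      exp (max C₁ (C₃ + C₂) - (ell F d).natDegree) := by
    intro d
    apply Valuation.map_sub_le
    · rw [map_mul]
      refine (mul_le_mul' (hC₁ d) (v_Slt_le F hs₂ d)).trans ?_
      rw [mul_one, exp_le_exp]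
      have := le_max_left C₁ (C₃ + C₂)
      omega
    · rw [map_mul]
      refine (mul_le_mul' hC₃ (hC₂ d)).trans ?_
      rw [← exp_add, exp_le_exp]
      have := le_max_right C₁ (C₃ + C₂)
      omega
  have hΓ : γ₁ * γ₂ * γ₃ ≠ 0 := mul_ne_zero (mul_ne_zero hγ₁ hγ₂) hγ₃
  have hqz : (0 : ℤ) < (qq F : ℤ) - 1 := by omega
  obtain ⟨ρ, hρ1, hρ2⟩ := abstract_div F hs₁ hdiv hA hM
    (CA := (qq F - 1) * ((γ₁ * γ₂ * γ₃).natDegree + max C₁ (C₃ + C₂)) + qq F)
    (CM := (qq F - 1) * γ₂.natDegree - (m + 1 : ℕ) * qq F)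
    (fun d hd h0 => by
      obtain ⟨e, rfl⟩ : ∃ e, d = e + 1 := ⟨d - 1, by omega⟩
      have h1 := hT.tail F (D := e + 1) (M := max C₁ (C₃ + C₂) - (ell F (e + 1)).natDegree)
        (fun d hd => (hva d).trans (exp_le_exp.mpr (by
          have := natDegree_ell_mono F hd
          simp only at this
          omega)))
      have h2 := congrArg (RatFunc.inftyValuation F) (hA' e)
      rw [map_mul, map_mul, map_pow, v_uu, v_poly h0, v_poly hΓ, ← exp_nsmul, ← exp_add] at h2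
      have h3 := h2.le.trans (mul_le_mul' le_rfl h1)
      rw [← exp_add, exp_le_exp, nsmul_eq_mul] at h3
      have h4 := natDegree_ell F e
      have h5 := natDegree_ell F (e + 1)
      have h6 := mul_le_mul_of_nonneg_left h3 hqz.le
      rw [← hw]
      rw [pow_succ] at h5 ⊢
      have h7 : (0 : ℤ) ≤ (w : ℤ) * qq F := by positivity
      nlinarith)
    (fun d hd => by
      obtain ⟨e, rfl⟩ : ∃ e, d = e + 1 := ⟨d - 1, by omega⟩
      have h2 := congrArg (RatFunc.inftyValuation F) (hM' e)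
      rw [map_mul, map_mul, map_pow, v_uu, v_poly hγ₂, v_Slt F hs₂ (by omega), mul_one] at h2
      have h0 : M (e + 1) ≠ 0 := by
        intro h0
        rw [h0, map_zero, map_zero, zero_mul] at h2
        exact exp_ne_zero h2.symm
      refine ⟨h0, ?_⟩
      rw [v_poly h0, ← exp_nsmul, ← exp_add, exp_inj, nsmul_eq_mul] at h2
      have h4 := natDegree_ell F e
      rw [pow_succ]
      linear_combination ((qq F : ℤ) - 1) * h2 + ((m + 1 : ℕ) : ℤ) * h4)
  have h1 := Tz_Top F hs₁ hρ1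
  have hγ : γ₃ * γ₁ ≠ 0 := mul_ne_zero hγ₃ hγ₁
  obtain ⟨D, hD, hD'⟩ := ((h1 ((γ₃ * γ₁).natDegree)).and (eventually_ge_atTop 1)).exists
  have h2 : ∑ d ∈ range D, (Top F (n + 1) ρ).eval (TT F d) * uu F d ^ (n + 1) =
      α (γ₃ * γ₁) * Slt F (n + 1) D := by
    rw [Slt, mul_sum]
    apply sum_congr rfl
    intro d _
    rw [← hρ2, Polynomial.map_mul, hH₁, Sd_eq, map_C]
    simp only [eval_mul, eval_C, map_mul, hα]
    ring
  simp only at hD
  rw [h2, map_mul, v_Slt F hs₁ hD', mul_one, v_poly hγ] at hD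
  exact lt_irrefl _ hD

end

end ZetaLikeMZV
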