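import Pool.Agent.P.MP_8c9ada_nt.Carlitz

/-! A Liouville-type argument turning vanishing of a series into a polynomial identity. -/

namespace ZetaLikeMZV

section

open Polynomial Finset WithZero Filter

variable (F : Type*) [Field F] [Fintype F]

theorem natDegree_X_sub (i : ℕ) :
    (X - X ^ qq F ^ (i + 1) : F[X]).natDegree = qq F ^ (i + 1) := by
  have : 1 < qq F ^ (i + 1) := Nat.one_lt_pow (Nat.succ_ne_zero i) (one_lt_qq F)
  rw [natDegree_sub_eq_right_of_natDegree_lt (by simpa using this), natDegree_X_pow]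

theorem natDegree_ell_succ (d : ℕ) :
    (ell F (d + 1)).natDegree = (ell F d).natDegree + qq F ^ (d + 1) := by
  rw [ell_succ, natDegree_mul (ell_ne_zero F d) (X_sub_ne_zero F d), natDegree_X_sub]

theorem natDegree_ell (d : ℕ) :
    ((qq F : ℤ) - 1) * (ell F d).natDegree + qq F = qq F * (qq F : ℤ) ^ d := by
  induction d with
  | zero => simp [ell]
  | succ d ih =>
    rw [natDegree_ell_succ]
    push_cast
    rw [pow_succ]
    linear_combination ih

theorem eventually_lt_pow (C : ℤ) : ∀ᶠ d in atTop, C < (qq F : ℤ) ^ d := by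
  filter_upwards [eventually_ge_atTop C.toNat] with d hd
  have h1 : d < qq F ^ d := Nat.lt_pow_self (one_lt_qq F)
  have h2 : (d : ℤ) < (qq F : ℤ) ^ d := by exact_mod_cast h1
  omega

theorem TT_injective : Function.Injective (TT F) := by
  intro i j h
  rw [TT_eq, TT_eq] at h
  have h1 := congrArg natDegree (IsFractionRing.injective F[X] (RatFunc F) h)
  simp only [natDegree_X_pow] at h1
  exact Nat.pow_right_injective (one_lt_qq F) h1

theorem eq_zero_of_eventually_TT {r : (RatFunc F)[X]} (h : ∀ᶠ d in atTop, r.eval (TT F d) = 0) :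
    r = 0 := by
  apply eq_zero_of_infinite_isRoot
  obtain ⟨D, hD⟩ := eventually_atTop.mp h
  apply Set.infinite_of_injective_forall_mem (f := fun n : ℕ => TT F (n + D))
  · intro i j hij
    have := TT_injective F hij
    omega
  · intro n
    exact hD _ (by omega)

omit [Fintype F] in
theorem exists_clear (r : (RatFunc F)[X]) : ∃ γ : F[X], γ ≠ 0 ∧ ∃ r' : F[X][X],
    r'.map (algebraMap F[X] (RatFunc F)) = C (algebraMap F[X] (RatFunc F) γ) * r := by
  obtain ⟨γ, hγ, h⟩ := IsLocalization.integerNormalization_spec (nonZeroDivisors F[X]) r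
  refine ⟨γ, nonZeroDivisors.ne_zero hγ, _, h.trans ?_⟩
  rw [Algebra.smul_def]; rfl

theorem eval_map_TT (r' : F[X][X]) (d : ℕ) :
    (r'.map (algebraMap F[X] (RatFunc F))).eval (TT F d) =
      algebraMap F[X] (RatFunc F) (r'.eval (X ^ qq F ^ d)) := by
  rw [TT_eq, eval_map, eval₂_at_apply]

/-- The operator `R ↦ (t - Y)^w R(Y) - R(Y^q)`. -/
noncomputable def Top (w : ℕ) (R : (RatFunc F)[X]) : (RatFunc F)[X] :=
  (C RatFunc.X - X) ^ w * R - expand (RatFunc F) (qq F) R

theorem sum_Top {w : ℕ} (hw : 1 ≤ w) (R : (RatFunc F)[X]) (D : ℕ) :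
    ∑ d ∈ range (D + 1), (Top F w R).eval (TT F d) * uu F d ^ w =
      - (R.eval (TT F (D + 1)) * uu F D ^ w) := by
  induction D with
  | zero =>
    simp [Top, expand_eval, zero_pow (by omega : w ≠ 0), TT]
  | succ D ih =>
    rw [sum_range_succ, ih, ← uu_succ F D]
    simp only [Top, eval_sub, eval_mul, eval_pow, eval_C, eval_X, expand_eval, ← TT_succ, mul_pow]
    ring

theorem exists_reduce {w : ℕ} (hw : 1 ≤ w) (Q : (RatFunc F)[X])
    (hQ : (qq F - 1) * Q.natDegree < qq F * w) :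
    ∃ R r : (RatFunc F)[X], Q = Top F w R + r ∧ r.natDegree < w ∧
      (qq F - 1) * R.natDegree < w := by
  have hq := one_lt_qq F
  induction h : Q.natDegree using Nat.strong_induction_on generalizing Q with
  | _ m ih =>
    by_cases hm : m < w
    · exact ⟨0, Q, by simp [Top], by omega, by simp; omega⟩
    obtain ⟨n, rfl⟩ : ∃ n, m = w + n := ⟨m - w, by omega⟩
    have hn : (qq F - 1) * n < w := by
      obtain ⟨r, hr⟩ : ∃ r, qq F = r + 1 := ⟨qq F - 1, by omega⟩
      rw [h, hr] at hQ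
      rw [hr]
      simp only [Nat.add_sub_cancel] at hQ ⊢
      nlinarith
    have hn' : n * qq F < w + n := by
      obtain ⟨r, hr⟩ : ∃ r, qq F = r + 1 := ⟨qq F - 1, by omega⟩
      rw [hr] at hn ⊢
      simp only [Nat.add_sub_cancel] at hn
      nlinarith
    have hQ0 : Q ≠ 0 := by rintro rfl; simp at h; omega
    set c := (-1) ^ w * Q.leadingCoeff with hc
    have hc0 : c ≠ 0 := by simp [hc, hQ0]
    have hmon : ((X - C RatFunc.X) ^ w * X ^ n : (RatFunc F)[X]).Monic :=
      ((monic_X_sub_C _).pow w).mul (monic_X_pow n)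
    have hdeg : ((X - C RatFunc.X) ^ w * X ^ n : (RatFunc F)[X]).natDegree = w + n := by
      rw [((monic_X_sub_C _).pow w).natDegree_mul (monic_X_pow n), natDegree_pow,
        natDegree_X_sub_C, natDegree_X_pow, mul_one]
    have he : (C RatFunc.X - X) ^ w * (C c * X ^ n) =
        C Q.leadingCoeff * ((X - C RatFunc.X) ^ w * X ^ n) := by
      have : (C RatFunc.X - X : (RatFunc F)[X]) = -1 * (X - C RatFunc.X) := by ring
      rw [this, mul_pow, hc, C_mul, C_pow, C_neg, C_1]
      have h2 : ((-1 : (RatFunc F)[X]) ^ w) * (-1) ^ w = 1 := by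
        rw [← mul_pow]; simp
      linear_combination (C Q.leadingCoeff * ((X - C RatFunc.X) ^ w * X ^ n)) * h2
    have h1 : (Q - C Q.leadingCoeff * ((X - C RatFunc.X) ^ w * X ^ n)).natDegree < w + n := by
      by_cases h0 : Q - C Q.leadingCoeff * ((X - C RatFunc.X) ^ w * X ^ n) = 0
      · rw [h0]; simp; omega
      rw [natDegree_lt_iff_degree_lt h0, ← h, ← degree_eq_natDegree hQ0]
      apply degree_sub_lt_left _ hQ0
      · rw [leadingCoeff_mul, hmon.leadingCoeff, leadingCoeff_C, mul_one]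
      · rw [degree_C_mul (by simpa using hQ0), degree_eq_natDegree hQ0,
          degree_eq_natDegree hmon.ne_zero, h, hdeg]
    have h2 : (expand (RatFunc F) (qq F) (C c * X ^ n)).natDegree < w + n := by
      rw [natDegree_expand, natDegree_C_mul hc0, natDegree_X_pow]; exact hn'
    have h3 : (Q - Top F w (C c * X ^ n)).natDegree < w + n := by
      have : Q - Top F w (C c * X ^ n) = (Q - C Q.leadingCoeff * ((X - C RatFunc.X) ^ w * X ^ n))
          + expand (RatFunc F) (qq F) (C c * X ^ n) := by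
        rw [Top, he]; ring
      rw [this]
      exact lt_of_le_of_lt (natDegree_add_le _ _) (max_lt h1 h2)
    obtain ⟨R, r, h4, h5, h6⟩ := ih _ h3 (Q - Top F w (C c * X ^ n))
      (lt_of_le_of_lt (Nat.mul_le_mul_left _ (by omega)) hQ) rfl
    refine ⟨R + C c * X ^ n, r, ?_, h5, ?_⟩
    · have : Top F w (R + C c * X ^ n) = Top F w R + Top F w (C c * X ^ n) := by
        simp only [Top, map_add]; ring
      rw [this]; linear_combination h4
    · have : (R + C c * X ^ n).natDegree ≤ max R.natDegree n := by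
        refine (natDegree_add_le _ _).trans (max_le_max le_rfl ?_)
        rw [natDegree_C_mul hc0, natDegree_X_pow]
      rcases le_total R.natDegree n with h7 | h7
      · rw [max_eq_right h7] at this
        exact lt_of_le_of_lt (Nat.mul_le_mul_left _ this) hn
      · rw [max_eq_left h7] at this
        exact lt_of_le_of_lt (Nat.mul_le_mul_left _ this) h6

variable [DecidableEq (RatFunc F)]

/-- The sequence tends to zero at infinity. -/
def Tz (b : ℕ → RatFunc F) : Prop :=
  ∀ N : ℤ, ∀ᶠ D in atTop, RatFunc.inftyValuation F (b D) < exp N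

omit [Fintype F] in
theorem Tz.add {a b : ℕ → RatFunc F} (ha : Tz F a) (hb : Tz F b) : Tz F (fun D => a D + b D) := by
  intro N
  filter_upwards [ha N, hb N] with D h1 h2
  exact Valuation.map_add_lt _ h1 h2

omit [Fintype F] in
theorem Tz.sub {a b : ℕ → RatFunc F} (ha : Tz F a) (hb : Tz F b) : Tz F (fun D => a D - b D) := by
  intro N
  filter_upwards [ha N, hb N] with D h1 h2
  exact Valuation.map_sub_lt _ h1 h2

omit [Fintype F] in
theorem Tz_succ_iff {a : ℕ → RatFunc F} : Tz F (fun D => a (D + 1)) ↔ Tz F a := by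
  constructor
  · intro h N
    obtain ⟨D, hD⟩ := eventually_atTop.mp (h N)
    filter_upwards [eventually_ge_atTop (D + 1)] with d hd
    have := hD (d - 1) (by omega)
    simp only at this
    rwa [Nat.sub_add_cancel (by omega)] at this
  · intro h N
    exact (tendsto_add_atTop_nat 1).eventually (h N)

omit [Fintype F] in
theorem Tz.tail {a : ℕ → RatFunc F} (h : Tz F (fun D => ∑ d ∈ range D, a d)) {D : ℕ} {M : ℤ}
    (hM : ∀ d, D ≤ d → RatFunc.inftyValuation F (a d) ≤ exp M) :
    RatFunc.inftyValuation F (∑ d ∈ range D, a d) ≤ exp M := by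
  obtain ⟨D', h1, h2⟩ := ((h M).and (eventually_ge_atTop D)).exists
  have : ∑ d ∈ range D, a d = ∑ d ∈ range D', a d - ∑ d ∈ Ico D D', a d := by
    rw [← sum_range_add_sum_Ico _ h2]; ring
  rw [this]
  apply Valuation.map_sub_le _ h1.le
  apply Valuation.map_sum_le
  intro d hd
  exact hM d (mem_Ico.mp hd).1

omit [Fintype F] in
theorem exists_v_le (x : RatFunc F) : ∃ C : ℤ, RatFunc.inftyValuation F x ≤ exp C := by
  by_cases h : RatFunc.inftyValuation F x = 0
  · exact ⟨0, by simp [h]⟩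
  · exact ⟨log (RatFunc.inftyValuation F x), by rw [exp_log h]⟩

omit [Fintype F] in
theorem exists_v_coeff (f : (RatFunc F)[X]) :
    ∃ C : ℤ, ∀ n, RatFunc.inftyValuation F (f.coeff n) ≤ exp C := by
  have : ∀ m : ℕ, ∃ C : ℤ, ∀ n < m, RatFunc.inftyValuation F (f.coeff n) ≤ exp C := by
    intro m
    induction m with
    | zero => exact ⟨0, by simp⟩
    | succ m ih =>
      obtain ⟨C, hC⟩ := ih
      obtain ⟨C', hC'⟩ := exists_v_le F (f.coeff m)
      refine ⟨max C C', fun n hn => ?_⟩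
      rcases Nat.lt_succ_iff_lt_or_eq.mp hn with h | rfl
      · exact (hC n h).trans (exp_le_exp.mpr (le_max_left _ _))
      · exact hC'.trans (exp_le_exp.mpr (le_max_right _ _))
  obtain ⟨C, hC⟩ := this (f.natDegree + 1)
  refine ⟨C, fun n => ?_⟩
  by_cases hn : n < f.natDegree + 1
  · exact hC n hn
  · rw [coeff_eq_zero_of_natDegree_lt (by omega)]; simp

theorem v_TT (d : ℕ) : RatFunc.inftyValuation F (TT F d) = exp ((qq F : ℤ) ^ d) := by
  rw [TT, map_pow, RatFunc.inftyValuation.X, ← exp_nsmul]; simp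

theorem v_uu (d : ℕ) : RatFunc.inftyValuation F (uu F d) = exp (-((ell F d).natDegree : ℤ)) := by
  rw [uu, map_inv₀, v_poly (ell_ne_zero F d), exp_neg]

theorem exists_v_eval (f : (RatFunc F)[X]) {m : ℕ} (hm : f.natDegree ≤ m) : ∃ C : ℤ, ∀ d,
    RatFunc.inftyValuation F (f.eval (TT F d)) ≤ exp (C + m * (qq F : ℤ) ^ d) := by
  obtain ⟨C, hC⟩ := exists_v_coeff F f
  refine ⟨C, fun d => ?_⟩
  rw [eval_eq_sum_range]
  apply Valuation.map_sum_le
  intro n hn
  rw [map_mul, map_pow, v_TT, ← exp_nsmul, exp_add]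
  apply mul_le_mul' (hC n)
  rw [exp_le_exp, nsmul_eq_mul]
  have h1 : (n : ℤ) ≤ m := by have := mem_range.mp hn; omega
  have h2 : (0 : ℤ) ≤ (qq F : ℤ) ^ d := by positivity
  nlinarith

theorem exists_v_eval_uu (f : (RatFunc F)[X]) {m : ℕ} (hm : f.natDegree ≤ m) (w : ℕ) :
    ∃ C : ℤ, ∀ d e, RatFunc.inftyValuation F (f.eval (TT F d) * uu F e ^ w) ≤
      exp (C + m * (qq F : ℤ) ^ d - w * (ell F e).natDegree) := by
  obtain ⟨C, hC⟩ := exists_v_eval F f hm
  refine ⟨C, fun d e => ?_⟩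
  rw [map_mul, map_pow, v_uu, ← exp_nsmul, sub_eq_add_neg, exp_add]
  apply mul_le_mul' (hC d)
  rw [exp_le_exp]; simp

theorem Tz_Top {w : ℕ} (hw : 1 ≤ w) {R : (RatFunc F)[X]} (hR : (qq F - 1) * R.natDegree < w) :
    Tz F (fun D => ∑ d ∈ range D, (Top F w R).eval (TT F d) * uu F d ^ w) := by
  rw [← Tz_succ_iff]
  simp only [sum_Top F hw]
  obtain ⟨C, hC⟩ := exists_v_eval_uu F R le_rfl w
  intro N
  have hq := one_lt_qq F
  filter_upwards [eventually_lt_pow F (((qq F : ℤ) - 1) * (C - N) + w * qq F)] with D hD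
  rw [Valuation.map_neg]
  refine lt_of_le_of_lt (hC _ _) ?_
  rw [exp_lt_exp]
  have h1 := natDegree_ell F D
  have h2 : ((qq F : ℤ) - 1) * R.natDegree + 1 ≤ w := by
    have : ((qq F - 1 : ℕ) : ℤ) * R.natDegree < w := by exact_mod_cast hR
    rw [Nat.cast_sub hq.le] at this
    push_cast at this
    omega
  have h3 : (0 : ℤ) < (qq F : ℤ) - 1 := by omega
  have h4 : (0 : ℤ) < (qq F : ℤ) ^ D := by positivity
  apply lt_of_mul_lt_mul_left _ h3.le
  rw [pow_succ]
  have h5 : (qq F : ℤ) ^ D ≤ (qq F : ℤ) ^ D * qq F := by nlinarith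
  nlinarith

omit [Fintype F] in
theorem poly_eq_zero_of_v_lt {A : F[X]}
    (h : RatFunc.inftyValuation F (algebraMap F[X] (RatFunc F) A) < 1) : A = 0 := by
  by_contra h0
  rw [v_poly h0, ← exp_zero, exp_lt_exp] at h
  omega

theorem liouville {w : ℕ} {r : (RatFunc F)[X]} (hr : r.natDegree < w)
    (h : Tz F (fun D => ∑ d ∈ range D, r.eval (TT F d) * uu F d ^ w)) : r = 0 := by
  have hq := one_lt_qq F
  obtain ⟨γ, hγ, r', hr'⟩ := exists_clear F r
  have hA : ∀ D, ∃ A : F[X], algebraMap F[X] (RatFunc F) A * uu F D ^ w =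
      algebraMap F[X] (RatFunc F) γ * ∑ d ∈ range (D + 1), r.eval (TT F d) * uu F d ^ w := by
    have he : ∀ d, algebraMap F[X] (RatFunc F) (r'.eval (X ^ qq F ^ d)) =
        algebraMap F[X] (RatFunc F) γ * r.eval (TT F d) := by
      intro d
      rw [← eval_map_TT, hr']; simp
    intro D
    induction D with
    | zero => exact ⟨_, by rw [he 0]; simp [mul_assoc]⟩
    | succ D ih =>
      obtain ⟨A, hA⟩ := ih
      refine ⟨A * (X - X ^ qq F ^ (D + 1)) ^ w + r'.eval (X ^ qq F ^ (D + 1)), ?_⟩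
      rw [sum_range_succ, mul_add, ← hA, map_add, he, ← uu_succ F D, map_mul, map_pow, map_sub,
        ← TT_eq, RatFunc.algebraMap_X, mul_pow]
      ring
  obtain ⟨C, hC⟩ := exists_v_eval_uu F r (m := w - 1) (by omega) w
  have hmono : ∀ D d, D ≤ d → (C + (w - 1 : ℕ) * (qq F : ℤ) ^ d - w * (ell F d).natDegree) ≤
      (C + (w - 1 : ℕ) * (qq F : ℤ) ^ D - w * (ell F D).natDegree) := by
    intro D d hd
    induction d, hd using Nat.le_induction with
    | base => exact le_rfl
    | succ d hd ih =>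
      refine le_trans ?_ ih
      rw [natDegree_ell_succ, Nat.cast_sub (by omega)]
      push_cast
      have h4 : (0 : ℤ) < (qq F : ℤ) ^ d := by positivity
      have h5 : (0 : ℤ) < (qq F : ℤ) ^ (d + 1) := by positivity
      have h6 : (1 : ℤ) ≤ w := by omega
      nlinarith
  have hz : ∀ᶠ D in atTop, ∑ d ∈ range (D + 1), r.eval (TT F d) * uu F d ^ w = 0 := by
    filter_upwards [eventually_lt_pow F (γ.natDegree + C)] with D hD
    obtain ⟨A, hA⟩ := hA D
    have h1 := h.tail F (D := D + 1) (fun d hd => (hC d d).trans (exp_le_exp.mpr (hmono _ d hd)))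
    have h2 : A = 0 := by
      apply poly_eq_zero_of_v_lt
      have h3 := congrArg (RatFunc.inftyValuation F) hA
      rw [map_mul, map_mul, map_pow, v_uu, v_poly hγ, ← exp_nsmul] at h3
      rw [← mul_lt_mul_iff_left₀ (exp_pos (a := w • (-((ell F D).natDegree : ℤ)))), h3, one_mul]
      refine lt_of_le_of_lt (mul_le_mul' le_rfl h1) ?_
      rw [← exp_add, exp_lt_exp, natDegree_ell_succ, Nat.cast_sub (by omega)]
      push_cast
      have h5 : (qq F : ℤ) ^ D ≤ (qq F : ℤ) ^ (D + 1) :=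
        pow_le_pow_right₀ (by omega) (by omega)
      simp only [nsmul_eq_mul]
      nlinarith
    rw [h2, map_zero, zero_mul] at hA
    exact (mul_eq_zero.mp hA.symm).resolve_left (by simpa using hγ)
  apply eq_zero_of_eventually_TT
  obtain ⟨D, hD⟩ := eventually_atTop.mp hz
  filter_upwards [eventually_ge_atTop (D + 1)] with d hd
  obtain ⟨e, rfl⟩ : ∃ e, d = e + 1 := ⟨d - 1, by omega⟩
  have h1 := hD (e + 1) (by omega)
  rw [sum_range_succ, hD e (by omega), zero_add] at h1
  exact (mul_eq_zero.mp h1).resolve_right (pow_ne_zero _ (uu_ne_zero F _))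

theorem Tz_iff_Top {w : ℕ} (hw : 1 ≤ w) {Q : (RatFunc F)[X]}
    (hQ : (qq F - 1) * Q.natDegree < qq F * w) :
    Tz F (fun D => ∑ d ∈ range D, Q.eval (TT F d) * uu F d ^ w) ↔
      ∃ R : (RatFunc F)[X], (qq F - 1) * R.natDegree < w ∧ Q = Top F w R := by
  constructor
  · intro h
    obtain ⟨R, r, h1, h2, h3⟩ := exists_reduce F hw Q hQ
    have h4 := h.sub F (Tz_Top F hw h3)
    have h5 : r = 0 := by
      apply liouville F h2
      convert h4 using 2 with D
      rw [← sum_sub_distrib]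
      apply sum_congr rfl
      intro d _
      rw [h1]; simp only [eval_add]; ring
    exact ⟨R, h3, by rw [h1, h5, add_zero]⟩
  · rintro ⟨R, h1, rfl⟩
    exact Tz_Top F hw h1

omit [DecidableEq (RatFunc F)] in
theorem Ztwo_sub (s₁ s₂ D : ℕ) (c : RatFunc F) :
    Ztwo F s₁ s₂ D - c * Slt F (s₁ + s₂) D =
      ∑ d ∈ range D, (Sd F s₁ d * Slt F s₂ d - c * Sd F (s₁ + s₂) d) := by
  rw [Ztwo, Slt, mul_sum, ← sum_sub_distrib]

/-- Zeta-likeness as a polynomial identity, when `q - 1` divides `s₂`. -/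
theorem zetaLike_iff_poly {n s₂ : ℕ} (hs : 1 ≤ s₂) (hdiv : qq F - 1 ∣ s₂) :
    ZetaLike F (n + 1) s₂ ↔ ∃ (c : RatFunc F) (R : (RatFunc F)[X]),
      (qq F - 1) * R.natDegree < n + 1 + s₂ ∧
      hK F n * PK F s₂ - C c * hK F (n + s₂) = Top F (n + 1 + s₂) R := by
  have hq := one_lt_qq F
  rw [zetaLike_iff (by omega)]
  apply exists_congr
  intro c
  rw [← Tz_iff_Top F (by omega)]
  · apply Iff.of_eq
    change Tz F _ = Tz F _
    congr 1
    funext D
    rw [Ztwo_sub]
    apply sum_congr rfl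
    intro d _
    rw [show n + 1 + s₂ = n + s₂ + 1 by ring, Sd_eq, Sd_eq, Slt_eq F hs hdiv]
    simp only [eval_sub, eval_mul, eval_C]
    ring
  · have h1 := natDegree_hK F n
    have h2 := natDegree_PK F s₂
    have h3 := natDegree_hK F (n + s₂)
    have h4 : (hK F n * PK F s₂).natDegree ≤ _ := natDegree_mul_le
    have h5 := natDegree_C_mul_le c (hK F (n + s₂))
    have h6 := natDegree_sub_le (hK F n * PK F s₂) (C c * hK F (n + s₂))
    rcases le_max_iff.mp h6 with h7 | h7
    · have := Nat.mul_le_mul_left (qq F - 1) (h7.trans h4)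
      nlinarith
    · have := Nat.mul_le_mul_left (qq F - 1) (h7.trans h5)
      nlinarith

end

end ZetaLikeMZV

/-! Digit expansions in base `t^Q` and sequences with bounded carries. -/

namespace ZetaLikeMZV

section

open Polynomial Finset Filter

variable {F : Type*} [Field F]

theorem exists_digits {Q : ℕ} (n : ℕ) : ∀ f : F[X], f.degree < (n * Q : ℕ) →
    ∃ P : F[X][X], P.degree < n ∧ (∀ k, (P.coeff k).degree < Q) ∧ P.eval (X ^ Q) = f := by
  induction n with
  | zero =>
    intro f hf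
    have : f = 0 := by
      rw [zero_mul, Nat.cast_zero] at hf
      exact degree_eq_bot.mp (Nat.WithBot.lt_zero_iff.mp hf)
    exact ⟨0, by simp, by simp, by simp [this]⟩
  | succ n ih =>
    intro f hf
    have hm : (X ^ Q : F[X]).Monic := monic_X_pow Q
    have h1 : (f /ₘ X ^ Q).degree < (n * Q : ℕ) := by
      by_cases h0 : f /ₘ X ^ Q = 0
      · rw [h0, degree_zero]; exact WithBot.bot_lt_coe _
      have hf0 : f ≠ 0 := by rintro rfl; simp at h0
      rw [← natDegree_lt_iff_degree_lt h0, natDegree_divByMonic f hm, natDegree_X_pow]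
      rw [← natDegree_lt_iff_degree_lt hf0, add_mul] at hf
      have h2 : ¬ f.degree < (X ^ Q : F[X]).degree :=
        fun h => h0 ((divByMonic_eq_zero_iff hm).mpr h)
      rw [degree_X_pow, ← natDegree_lt_iff_degree_lt hf0] at h2
      omega
    obtain ⟨P, hP1, hP2, hP3⟩ := ih _ h1
    refine ⟨X * P + C (f %ₘ X ^ Q), ?_, ?_, ?_⟩
    · rw [degree_lt_iff_coeff_zero] at hP1 ⊢
      intro m hm
      obtain ⟨m, rfl⟩ : ∃ m', m = m' + 1 := ⟨m - 1, by omega⟩
      simp [coeff_X_mul, hP1 m (by omega)]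
    · intro k
      rcases k with _ | k
      · have := degree_modByMonic_lt f hm
        rw [degree_X_pow] at this
        simpa using this
      · simpa [coeff_X_mul, coeff_C] using hP2 k
    · simp only [eval_add, eval_mul, eval_X, eval_C, hP3]
      rw [add_comm]; exact modByMonic_add_div f _

theorem top_digit {Q n : ℕ} {P : F[X][X]} (h1 : P.degree < (n + 1 : ℕ))
    (h2 : ∀ k, (P.coeff k).degree < Q) (h0 : P.eval (X ^ Q) ≠ 0)
    (h3 : n * Q ≤ (P.eval (X ^ Q)).natDegree) :
    (P.eval (X ^ Q)).natDegree = (P.coeff n).natDegree + n * Q := by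
  have hP : P.natDegree < n + 1 := by
    by_cases h : P = 0
    · simp [h]
    · exact (natDegree_lt_iff_degree_lt h).mpr h1
  have h4 : (∑ k ∈ range n, P.coeff k * (X ^ Q) ^ k : F[X]).degree <
      ((n * Q : ℕ) : WithBot ℕ) := by
    refine lt_of_le_of_lt (degree_sum_le _ _) ?_
    rw [Finset.sup_lt_iff (WithBot.bot_lt_coe _)]
    intro k hk
    by_cases h : P.coeff k = 0
    · rw [h, zero_mul, degree_zero]; exact WithBot.bot_lt_coe _
    have h5 := (natDegree_lt_iff_degree_lt h).mpr (h2 k)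
    rw [← natDegree_lt_iff_degree_lt (by simp [h]), ← pow_mul, natDegree_mul_X_pow _ h]
    have := mem_range.mp hk
    nlinarith
  have h5 := eval_eq_sum_range' hP (X ^ Q)
  rw [sum_range_succ] at h5
  have h6 : P.coeff n ≠ 0 := by
    intro h
    rw [h, zero_mul, add_zero] at h5
    rw [← h5, ← natDegree_lt_iff_degree_lt h0] at h4
    omega
  have h7 : (P.coeff n * (X ^ Q) ^ n).natDegree = (P.coeff n).natDegree + n * Q := by
    rw [← pow_mul, natDegree_mul_X_pow _ h6, mul_comm]
  rw [h5, ← h7]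
  apply natDegree_add_eq_right_of_degree_lt
  refine lt_of_lt_of_le h4 ?_
  rw [degree_eq_natDegree (by simp [h6]), h7]
  exact_mod_cast Nat.le_add_left _ _

theorem coeff_divX_iterate {R : Type*} [Semiring R] (c : R[X]) (n : ℕ) :
    ∀ k, (divX^[n] c).coeff k = c.coeff (k + n) := by
  induction n with
  | zero => simp
  | succ n ih =>
    intro k
    rw [Function.iterate_succ_apply', coeff_divX, ih]
    congr 1; ring

theorem carry {Q C₀ b : ℕ} {c : F[X][X]} (hc : ∀ n, (c.coeff n).natDegree ≤ Q + C₀)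
    (hb : (c.eval (X ^ Q)).natDegree ≤ b * Q) {n : ℕ} (hn : b ≤ n) :
    ∃ r s : F[X], r.natDegree ≤ C₀ ∧ s.natDegree ≤ C₀ ∧ c.coeff n = r + X ^ Q * s := by
  set H : ℕ → F[X] := fun n => (divX^[n] c).eval (X ^ Q) with hH
  have hstep : ∀ n, H n = X ^ Q * H (n + 1) + c.coeff n := by
    intro n
    have h := congrArg (eval (X ^ Q)) (X_mul_divX_add (divX^[n] c))
    simp only [eval_add, eval_mul, eval_X, eval_C, coeff_divX_iterate, zero_add] at h
    simp only [hH, Function.iterate_succ_apply']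
    exact h.symm
  have hL : ∀ n, ∃ L : F[X], L.natDegree ≤ n * Q + C₀ ∧
      c.eval (X ^ Q) = L + X ^ (n * Q) * H n := by
    intro n
    induction n with
    | zero => exact ⟨0, by simp, by simp [hH]⟩
    | succ n ih =>
      obtain ⟨L, h1, h2⟩ := ih
      refine ⟨L + X ^ (n * Q) * c.coeff n, ?_, ?_⟩
      · refine (natDegree_add_le _ _).trans (max_le ?_ ?_)
        · rw [add_mul]; omega
        · refine natDegree_mul_le.trans ?_
          rw [natDegree_X_pow, add_mul]
          have := hc n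
          omega
      · rw [h2, hstep n]; ring
  have hd : ∀ n, b ≤ n → (H n).natDegree ≤ C₀ := by
    intro n hn
    obtain ⟨L, h1, h2⟩ := hL n
    by_cases h0 : H n = 0
    · simp [h0]
    have h3 : X ^ (n * Q) * H n = c.eval (X ^ Q) - L := by rw [h2]; ring
    have h4 := natDegree_sub_le (c.eval (X ^ Q)) L
    rw [← h3, natDegree_X_pow_mul _ h0] at h4
    have h5 : b * Q ≤ n * Q := Nat.mul_le_mul_right _ hn
    omega
  refine ⟨H n, - H (n + 1), hd n hn, by rw [natDegree_neg]; exact hd _ (by omega), ?_⟩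
  rw [hstep n]; ring

variable (F) [Fintype F]

/-- Sequences of the form `(r + t^(q^d) s) / Δ` with `r, s` of bounded degree. -/
noncomputable def Good : Submodule (RatFunc F) (ℕ → RatFunc F) where
  carrier := {x | ∃ Δ : F[X], Δ ≠ 0 ∧ ∃ C₀ : ℕ, ∀ᶠ d in atTop, ∃ r s : F[X],
    r.natDegree ≤ C₀ ∧ s.natDegree ≤ C₀ ∧ algebraMap F[X] (RatFunc F) Δ * x d =
      algebraMap F[X] (RatFunc F) (r + X ^ qq F ^ d * s)}
  zero_mem' := ⟨1, one_ne_zero, 0, Eventually.of_forall fun d => ⟨0, 0, by simp⟩⟩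
  add_mem' := by
    rintro x y ⟨Δ, hΔ, C₀, h⟩ ⟨Δ', hΔ', C₁, h'⟩
    refine ⟨Δ * Δ', mul_ne_zero hΔ hΔ', Δ.natDegree + Δ'.natDegree + C₀ + C₁, ?_⟩
    filter_upwards [h, h'] with d ⟨r, s, h1, h2, h3⟩ ⟨r', s', h4, h5, h6⟩
    have key : ∀ a a' : F[X], a.natDegree ≤ C₀ → a'.natDegree ≤ C₁ →
        (Δ' * a + Δ * a').natDegree ≤ Δ.natDegree + Δ'.natDegree + C₀ + C₁ := by
      intro a a' ha ha'
      have h7 : (Δ' * a).natDegree ≤ _ := natDegree_mul_le
      have h8 : (Δ * a').natDegree ≤ _ := natDegree_mul_le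
      refine (natDegree_add_le _ _).trans (max_le ?_ ?_) <;> omega
    refine ⟨Δ' * r + Δ * r', Δ' * s + Δ * s', key _ _ h1 h4, key _ _ h2 h5, ?_⟩
    simp only [map_add, map_mul, Pi.add_apply] at h3 h6 ⊢
    linear_combination algebraMap F[X] (RatFunc F) Δ' * h3 + algebraMap F[X] (RatFunc F) Δ * h6
  smul_mem' := by
    rintro k x ⟨Δ, hΔ, C₀, h⟩
    refine ⟨Δ * k.denom, mul_ne_zero hΔ k.denom_ne_zero, k.num.natDegree + C₀, ?_⟩
    filter_upwards [h] with d ⟨r, s, h1, h2, h3⟩
    have h7 : (k.num * r).natDegree ≤ _ := natDegree_mul_le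
    have h8 : (k.num * s).natDegree ≤ _ := natDegree_mul_le
    refine ⟨k.num * r, k.num * s, by omega, by omega, ?_⟩
    have h9 : algebraMap F[X] (RatFunc F) k.num = k * algebraMap F[X] (RatFunc F) k.denom :=
      (div_eq_iff (RatFunc.algebraMap_ne_zero k.denom_ne_zero)).mp k.num_div_denom
    simp only [map_add, map_mul, Pi.smul_apply, smul_eq_mul, h9] at h3 ⊢
    linear_combination k * algebraMap F[X] (RatFunc F) k.denom * h3

theorem not_Good {x : ℕ → RatFunc F} (C₁ : ℤ)
    (h : ∀ᶠ d in atTop, ∃ π : F[X], x d = algebraMap F[X] (RatFunc F) π ∧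
      ((qq F : ℤ) - 1) * π.natDegree ≤ (qq F - 2) * (qq F : ℤ) ^ d + C₁ ∧
      (qq F : ℤ) ^ d + C₁ ≤ ((qq F : ℤ) - 1) * π.natDegree) : x ∉ Good F := by
  rintro ⟨Δ, hΔ, C₀, h'⟩
  have hq := one_lt_qq F
  obtain ⟨d, ⟨⟨π, h1, h2, h3⟩, ⟨r, s, h4, h5, h6⟩⟩, h7, h8, h9⟩ :=
    ((h.and h').and ((eventually_lt_pow F (((qq F : ℤ) - 1) * C₀ - C₁)).and
      ((eventually_lt_pow F C₀).and
        (eventually_lt_pow F (((qq F : ℤ) - 1) * Δ.natDegree + C₁))))).exists
  rw [h1, ← map_mul] at h6
  have h10 := IsFractionRing.injective F[X] (RatFunc F) h6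
  have h11 : (0 : ℤ) < (qq F : ℤ) - 1 := by omega
  have hπ : π ≠ 0 := by
    rintro rfl
    simp only [natDegree_zero, Nat.cast_zero, mul_zero] at h3
    have : (0 : ℤ) ≤ ((qq F : ℤ) - 1) * C₀ := by positivity
    omega
  have h12 := congrArg natDegree h10
  rw [natDegree_mul hΔ hπ] at h12
  by_cases hs : s = 0
  · rw [hs, mul_zero, add_zero] at h12
    have : (π.natDegree : ℤ) ≤ C₀ := by omega
    nlinarith
  · have h13 : C₀ < qq F ^ d := by exact_mod_cast h8
    rw [natDegree_add_eq_right_of_natDegree_lt (by rw [natDegree_X_pow_mul _ hs]; omega),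
      natDegree_X_pow_mul _ hs] at h12
    have h14 : qq F ^ d ≤ Δ.natDegree + π.natDegree := by omega
    have h15 : (qq F : ℤ) ^ d ≤ Δ.natDegree + π.natDegree := by exact_mod_cast h14
    nlinarith

end

end ZetaLikeMZV
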