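import Pool.Agent.P.MP_8c9ada_nt.Div

/-! The reduced polynomials and their binomial coefficients. -/

namespace ZetaLikeMZV

section

open PowerSeries Finset

variable (F : Type*) [Field F] [Fintype F] {κ : Type*} [Field κ] [Algebra F κ]

theorem qq_ne_zero : qq F ≠ 0 := by have := one_lt_qq F; omega

theorem ps_pow_qq (f : κ⟦X⟧) :
    f ^ qq F = map (FiniteField.frobeniusAlgHom F κ).toRingHom (expand (qq F) (qq_ne_zero F) f) := by
  obtain ⟨p, hchar⟩ := CharP.exists F
  obtain ⟨n, hp, hn⟩ := FiniteField.card F p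
  have : Fact p.Prime := ⟨hp⟩
  have : CharP κ p := charP_of_injective_algebraMap (algebraMap F κ).injective p
  have h := MvPowerSeries.map_iterateFrobenius_expand (σ := Unit) (R := κ) p hp.ne_zero f n
  have h2 : (FiniteField.frobeniusAlgHom F κ).toRingHom = iterateFrobenius κ p n := by
    ext x
    simp [iterateFrobenius_def, hn]
  rw [h2]
  simp only [qq, hn]
  exact h.symm

/-- The series `∑ X^(q^i)`. -/
noncomputable def phi (κ : Type*) [Field κ] : κ⟦X⟧ := GG (qq F) (fun _ => 1)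

omit [Algebra F κ] in
theorem expand_phi : expand (qq F) (qq_ne_zero F) (phi F κ) = phi F κ - X := by
  have hq := one_lt_qq F
  ext n
  rw [coeff_expand, map_sub, coeff_X, phi]
  by_cases hn : ∃ i, qq F ^ i = n
  · obtain ⟨i, rfl⟩ := hn
    rw [coeff_GG_pow hq]
    rcases i with _ | i
    · rw [if_neg (by simp; omega)]; simp
    · rw [if_pos (dvd_pow_self _ (by omega)), pow_succ, Nat.mul_div_cancel _ (by omega),
        coeff_GG_pow hq, ← pow_succ,
        if_neg (Nat.one_lt_pow (Nat.succ_ne_zero i) hq).ne', sub_zero]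
  · push Not at hn
    rw [coeff_GG_of_ne _ hn, if_neg (show n ≠ 1 from fun h => hn 0 (by simp [h])), sub_zero]
    split_ifs with h
    · obtain ⟨m, rfl⟩ := h
      rw [Nat.mul_div_cancel_left _ (by omega)]
      apply coeff_GG_of_ne
      intro i hi
      exact hn (i + 1) (by rw [pow_succ', hi])
    · rfl

theorem phi_pow_qq : phi F κ ^ qq F = phi F κ - X := by
  rw [ps_pow_qq, map_expand, ← expand_phi, phi, map_GG]
  simp

omit [Algebra F κ] in
theorem X_dvd_phi : X ∣ phi F κ :=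
  X_dvd_iff.mpr (constantCoeff_GG (one_lt_qq F) _)

theorem coeff_phi_pow (m : ℕ) : ∀ M n : ℕ, (qq F - 1) * m + n = qq F * M →
    coeff M (phi F κ ^ n) = (m.choose M : κ) := by
  have hq := one_lt_qq F
  induction m with
  | zero =>
    intro M n h
    rcases M with _ | M
    · obtain rfl : n = 0 := by omega
      simp
    · have h1 : X ^ n ∣ phi F κ ^ n := pow_dvd_pow_of_dvd (X_dvd_phi F) n
      rw [X_pow_dvd_iff.mp h1 _ (by nlinarith)]
      simp
  | succ m ih =>
    intro M n h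
    obtain ⟨r, hr⟩ : ∃ r, qq F = r + 1 := ⟨qq F - 1, by omega⟩
    have hr1 : qq F - 1 = r := by omega
    rw [hr1] at h ih
    obtain ⟨M, rfl⟩ : ∃ M', M = M' + 1 := by
      refine ⟨M - 1, ?_⟩
      rcases M with _ | M
      · exfalso; nlinarith
      · rfl
    rcases n with _ | n
    · rw [pow_zero, coeff_one, if_neg (by omega)]
      obtain ⟨j, hj⟩ : ∃ j, m = M + 1 + j := ⟨m - (M + 1), by
        have : M + 1 < m + 1 := by
          by_contra hc
          push Not at hc
          rw [hr] at h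
          nlinarith
        omega⟩
      have h1 : m + 1 = qq F * (j + 1) := by
        rw [hr] at h ⊢
        nlinarith
      have h2 : (m + 1).choose (M + 1) = (m + 1).choose (j + 1) := by
        apply Nat.choose_symm_of_eq_add; omega
      have h3 := Nat.add_one_mul_choose_eq m j
      have h4 : (m + 1).choose (j + 1) = qq F * m.choose j := by
        apply Nat.eq_of_mul_eq_mul_right (Nat.succ_pos j)
        rw [← h3, h1]; simp only [Nat.succ_eq_add_one]; ring
      rw [h2, h4, Nat.cast_mul, cast_qq F, zero_mul]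
    · have h1 : phi F κ ^ (n + 1) = X * phi F κ ^ n + phi F κ ^ (n + qq F) := by
        rw [pow_add _ n (qq F), phi_pow_qq]; ring
      rw [h1, map_add, coeff_succ_X_mul, ih M n (by rw [hr] at h ⊢; nlinarith),
        ih (M + 1) (n + qq F) (by rw [hr] at h ⊢; nlinarith), Nat.choose_succ_succ', Nat.cast_add]

theorem coeff_geo_eq_sum {R : Type*} [CommRing R] {φ : R⟦X⟧} (hφ : constantCoeff φ = 0) (k : ℕ) :
    coeff k (geo φ) = ∑ n ∈ range (k + 1), coeff k (φ ^ n) := by
  have h : ∀ N, geo φ = ∑ n ∈ range N, φ ^ n + φ ^ N * geo φ := by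
    intro N
    induction N with
    | zero => simp
    | succ N ih =>
      rw [sum_range_succ]
      have := geo_eq hφ
      linear_combination ih + φ ^ N * this
  rw [h (k + 1), map_add, map_sum]
  have h1 : X ^ (k + 1) ∣ φ ^ (k + 1) * geo φ :=
    (pow_dvd_pow_of_dvd (X_dvd_iff.mpr hφ) _).mul_right _
  rw [X_pow_dvd_iff.mp h1 k (by omega), add_zero]

/-- The reductions of the polynomials `gK`. -/
noncomputable def gb (κ : Type*) [Field κ] (i : ℕ) : Polynomial κ :=
  if i = 0 then 1 else Polynomial.X ^ qq F ^ i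

/-- The substitution `X ↦ η x`. -/
noncomputable def Th (κ : Type*) [Field κ] : κ⟦X⟧ →+* (Polynomial κ)⟦X⟧ :=
  (rescale Polynomial.X).comp (map Polynomial.C)

theorem coeff_Th (f : κ⟦X⟧) (k : ℕ) :
    coeff k (Th κ f) = Polynomial.X ^ k * Polynomial.C (coeff k f) := by
  simp [Th, coeff_rescale]

omit [Algebra F κ] in
theorem GG_gb : GG (qq F) (gb F κ) = X + Th κ (phi F κ - X) := by
  have hq := one_lt_qq F
  ext1 n
  rw [map_add, coeff_Th, map_sub, coeff_X, coeff_X, phi]
  by_cases hn : ∃ i, qq F ^ i = n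
  · obtain ⟨i, rfl⟩ := hn
    rw [coeff_GG_pow hq, coeff_GG_pow hq]
    rcases i with _ | i
    · simp [gb]
    · simp [gb, hq.ne']
  · push Not at hn
    rw [coeff_GG_of_ne _ hn, coeff_GG_of_ne _ hn]
    simp [show n ≠ 1 from fun h => hn 0 (by simp [h])]

theorem coeff_Pb {m M n : ℕ} (hM : M ≤ m) (h : (qq F - 1) * m + n = qq F * M) :
    (PP (qq F) (gb F κ) ((qq F - 1) * m)).coeff (qq F * M) = (-1) ^ n * (m.choose M : κ) := by
  have hq := one_lt_qq F
  set k := (qq F - 1) * m with hk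
  obtain ⟨ψ, hψ⟩ : X ∣ phi F κ - X := dvd_sub (X_dvd_phi F) dvd_rfl
  have h1 : GP (qq F) (gb F κ) = - (C Polynomial.X * Th κ ψ) := by
    have h2 := X_mul_GP hq (g := gb F κ) (by simp [gb])
    rw [GG_gb, hψ, map_mul] at h2
    have h3 : Th κ X = C Polynomial.X * X := by
      simp [Th, rescale_X]
    rw [h3] at h2
    apply mul_left_cancel₀ (X_ne_zero (R := Polynomial κ))
    linear_combination -h2
  have hnk : n ≤ k := by
    obtain ⟨r, hr⟩ : ∃ r, qq F = r + 2 := ⟨qq F - 2, by omega⟩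
    have hr1 : qq F - 1 = r + 1 := by omega
    rw [hr1] at hk
    rw [hr] at h
    nlinarith
  have h4 : ∀ j, coeff k (GP (qq F) (gb F κ) ^ j) =
      Polynomial.C ((-1) ^ j * coeff k (ψ ^ j)) * Polynomial.X ^ (k + j) := by
    intro j
    rw [h1, neg_pow, mul_pow, ← map_pow, ← map_pow]
    have : ((-1 : (Polynomial κ)⟦X⟧) ^ j) = C ((-1) ^ j) := by simp
    rw [this, coeff_C_mul, coeff_C_mul, coeff_Th]
    simp only [map_mul, map_pow, map_neg, map_one]
    ring
  rw [PP, coeff_geo_eq_sum (constantCoeff_GP _ _)]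
  simp only [h4, Polynomial.finsetSum_coeff, Polynomial.coeff_C_mul, Polynomial.coeff_X_pow]
  rw [sum_eq_single n]
  · rw [if_pos h.symm, mul_one, ← coeff_phi_pow F m M n h,
      ← coeff_expand_mul (qq F) (qq_ne_zero F) _ M, map_pow (expand _ _), expand_phi, hψ, mul_pow, ← h,
      coeff_X_pow_mul]
  · intro j _ hj
    rw [if_neg (by omega), mul_zero]
  · intro hn
    exact absurd (mem_range.mpr (by omega)) hn

omit [Algebra F κ] in
theorem coeff_zero_gb (i : ℕ) : (gb F κ i).coeff 0 = if i = 0 then 1 else 0 := by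
  have hq := one_lt_qq F
  unfold gb
  split_ifs with h
  · simp
  · rw [Polynomial.coeff_X_pow, if_neg (by positivity)]

omit [Algebra F κ] in
theorem GG_delta : GG (qq F) (fun i => if i = 0 then (1 : κ) else 0) = X := by
  have hq := one_lt_qq F
  ext n
  rw [coeff_X]
  by_cases hn : ∃ i, qq F ^ i = n
  · obtain ⟨i, rfl⟩ := hn
    rw [coeff_GG_pow hq]
    rcases i with _ | i
    · simp
    · simp [hq.ne']
  · push Not at hn
    rw [coeff_GG_of_ne _ hn]
    simp [show n ≠ 1 from fun h => hn 0 (by simp [h])]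

omit [Algebra F κ] in
theorem coeff_zero_hb (n : ℕ) : (hh (qq F) (gb F κ) n).coeff 0 = 1 := by
  have h := map_hh (Polynomial.constantCoeff (R := κ)) (one_lt_qq F) (gb F κ) n
  simp only [Polynomial.constantCoeff_apply, coeff_zero_gb] at h
  rw [h, hh, GG_delta, ← geo_unique (ψ := mk 1) (by simp) (by rw [mul_comm, mk_one_mul_one_sub_eq_one])]
  simp

omit [Algebra F κ] in
theorem coeff_zero_Pb {k : ℕ} (hk : 1 ≤ k) : (PP (qq F) (gb F κ) k).coeff 0 = 0 := by
  have h := map_PP (Polynomial.constantCoeff (R := κ)) (qq F) (gb F κ) k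
  simp only [Polynomial.constantCoeff_apply, coeff_zero_gb] at h
  have h1 : GP (qq F) (fun i => if i = 0 then (1 : κ) else 0) = 0 := by
    have h2 := X_mul_GP (one_lt_qq F) (g := fun i => if i = 0 then (1 : κ) else 0) (by simp)
    rw [GG_delta] at h2
    apply mul_left_cancel₀ (X_ne_zero (R := κ))
    linear_combination -h2
  rw [h, PP, h1, ← geo_unique (ψ := 1) (by simp) (by simp), coeff_one, if_neg (by omega)]

end

end ZetaLikeMZV

/-! The lower bound `(q - 1) s₁ ≤ s₂` by reduction at the Gauss point `|Y| = |t|`. -/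

namespace ZetaLikeMZV

section

open Polynomial Finset WithZero

variable (F : Type*) [Field F] [Fintype F] [DecidableEq (RatFunc F)]

/-- The residue field at infinity as an algebra over the constants. -/
@[reducible] noncomputable def algKk : Algebra F (kk (RatFunc.inftyValuation F)) :=
  ((IsLocalRing.residue (RatFunc.inftyValuation F).valuationSubring).comp
    ((RatFunc.C (K := F)).codRestrict (RatFunc.inftyValuation F).valuationSubring.toSubring
      (fun a => by
        change RatFunc.inftyValuation F (RatFunc.C a) ≤ 1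
        by_cases h : a = 0
        · simp [h]
        · simp [h]))).toAlgebra

theorem v_TT_sub_X (i : ℕ) :
    RatFunc.inftyValuation F (TT F (i + 1) - RatFunc.X) = exp ((qq F : ℤ) ^ (i + 1)) := by
  rw [Valuation.map_sub_eq_of_lt_left, v_TT]
  rw [v_TT, RatFunc.inftyValuation.X, exp_lt_exp]
  exact_mod_cast Nat.one_lt_pow (Nat.succ_ne_zero i) (one_lt_qq F)

theorem v_div_lt_one {a : RatFunc F} {i : ℕ} {N : ℤ} (ha : RatFunc.inftyValuation F a ≤ exp N)
    (hN : N < (qq F : ℤ) ^ (i + 1)) :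
    RatFunc.inftyValuation F (a * (TT F (i + 1) - RatFunc.X)⁻¹) < 1 := by
  rw [map_mul, map_inv₀, v_TT_sub_X, ← exp_neg]
  refine lt_of_le_of_lt (mul_le_mul' ha le_rfl) ?_
  rw [← exp_add, ← exp_zero, exp_lt_exp]
  omega

/-- The substitution `Y = t (1 - η)`. -/
noncomputable def sig : (RatFunc F)[X] →+* (RatFunc F)[X] :=
  compRingHom (C RatFunc.X * (1 - X))

omit [Fintype F] [DecidableEq (RatFunc F)] in
theorem sig_apply (f : (RatFunc F)[X]) : sig F f = f.comp (C RatFunc.X * (1 - X)) := rfl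

omit [Fintype F] [DecidableEq (RatFunc F)] in
theorem sig_eq (f : (RatFunc F)[X]) : sig F f = (f.comp (C RatFunc.X * X)).comp (1 - X) := by
  rw [sig_apply, comp_assoc]; simp

theorem Red_gK (i : ℕ) : Red (RatFunc.inftyValuation F) (sig F (gK F i))
    (gb F (kk (RatFunc.inftyValuation F)) i) := by
  have hq := one_lt_qq F
  induction i with
  | zero => simpa [gK_zero, gb] using Red.one
  | succ i ih =>
    have h0 := TT_sub_X_ne_zero F i
    have h1 : sig F (gK F (i + 1)) = sig F (gK F i) ^ qq F *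
        (C ((TT F (i + 1) - TT F 1) * (TT F (i + 1) - RatFunc.X)⁻¹) +
          C (TT F 1 * (TT F (i + 1) - RatFunc.X)⁻¹) * X ^ qq F) := by
      rw [gK_succ, map_mul, map_mul, map_pow, mul_assoc]
      congr 1
      simp only [sig_apply, C_comp, X_comp, mul_pow, sub_pow_qq F, one_pow,
        map_mul, map_sub, TT, map_pow, pow_one]
      ring
    rw [h1]
    have hv1 : RatFunc.inftyValuation F RatFunc.X ≤ exp 1 := by simp
    rcases i with _ | i
    · have h2 : Red (RatFunc.inftyValuation F)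
          (C (TT F 1 * (TT F (0 + 1) - RatFunc.X)⁻¹)) 1 := by
        apply Red.C_one
        have : TT F 1 * (TT F (0 + 1) - RatFunc.X)⁻¹ - 1 =
            RatFunc.X * (TT F (0 + 1) - RatFunc.X)⁻¹ := by
          field_simp; ring
        rw [this]
        exact v_div_lt_one F hv1 (by simpa using hq)
      have h3 := (ih.pow (qq F)).mul ((Red.zero).add (h2.mul (Red.X.pow (qq F))))
      simpa [gb] using h3
    · have hlt : (qq F : ℤ) ^ 1 < (qq F : ℤ) ^ (i + 1 + 1) :=
        pow_lt_pow_right₀ (by exact_mod_cast hq) (by omega)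
      have h2 : Red (RatFunc.inftyValuation F)
          (C (TT F 1 * (TT F (i + 1 + 1) - RatFunc.X)⁻¹)) 0 :=
        Red.C_small (v_div_lt_one F (v_TT F 1).le hlt)
      have h4 : Red (RatFunc.inftyValuation F)
          (C ((TT F (i + 1 + 1) - TT F 1) * (TT F (i + 1 + 1) - RatFunc.X)⁻¹)) 1 := by
        apply Red.C_one
        have : (TT F (i + 1 + 1) - TT F 1) * (TT F (i + 1 + 1) - RatFunc.X)⁻¹ - 1 =
            - (TT F (0 + 1) - RatFunc.X) * (TT F (i + 1 + 1) - RatFunc.X)⁻¹ := by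
          field_simp; ring
        rw [this]
        exact v_div_lt_one F (by rw [Valuation.map_neg, v_TT_sub_X]) hlt
      have h3 := (ih.pow (qq F)).mul (h4.add (h2.mul (Red.X.pow (qq F))))
      simpa [gb, ← pow_mul, ← pow_succ] using h3

theorem Red_hK (n : ℕ) : Red (RatFunc.inftyValuation F) (sig F (hK F n))
    (hh (qq F) (gb F (kk (RatFunc.inftyValuation F))) n) := by
  rw [hK, map_hh _ (one_lt_qq F)]
  exact Red.hh (one_lt_qq F) (Red_gK F) n

theorem Red_PK (n : ℕ) : Red (RatFunc.inftyValuation F) (sig F (PK F n))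
    (PP (qq F) (gb F (kk (RatFunc.inftyValuation F))) n) := by
  rw [PK, map_PP]
  exact Red.PP (qq F) (Red_gK F) n

theorem v_coeff_expand_lt {R : (RatFunc F)[X]} {w : ℕ} (hR : (qq F - 1) * R.natDegree < w)
    {a μ : RatFunc F} (ha : 1 < RatFunc.inftyValuation F a) (hμ : μ ≠ 0)
    (h : ∀ n, RatFunc.inftyValuation F (a ^ w * (R.coeff n * a ^ n)) ≤
      RatFunc.inftyValuation F μ) (n : ℕ) :
    RatFunc.inftyValuation F
      ((C μ⁻¹ * (expand (RatFunc F) (qq F) R).comp (C a * X)).coeff n) < 1 := by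
  have hq := one_lt_qq F
  rw [coeff_C_mul, comp_C_mul_X_coeff, coeff_expand (by omega)]
  split_ifs with hn
  · obtain ⟨k, rfl⟩ := hn
    rw [Nat.mul_div_cancel_left _ (by omega)]
    by_cases h0 : R.coeff k = 0
    · simp [h0]
    have h1 : k ≤ R.natDegree := le_natDegree_of_ne_zero h0
    have h2 : qq F * k < w + k := by
      have := Nat.mul_le_mul_left (qq F - 1) h1
      obtain ⟨r, hr⟩ : ∃ r, qq F = r + 1 := ⟨qq F - 1, by omega⟩
      rw [hr] at this hR ⊢
      simp only [Nat.add_sub_cancel] at this hR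
      nlinarith
    have hμ' : 0 < RatFunc.inftyValuation F μ := (Valuation.pos_iff _).mpr hμ
    rw [map_mul, map_inv₀, inv_mul_lt_one₀ hμ']
    refine lt_of_lt_of_le ?_ (h k)
    rw [mul_left_comm, ← pow_add, map_mul, map_mul, map_pow, map_pow]
    exact mul_lt_mul_of_pos_left (pow_lt_pow_right₀ ha h2) ((Valuation.pos_iff _).mpr h0)
  · simp

omit [Fintype F] [DecidableEq (RatFunc F)] in
theorem comp_one_sub_eq_zero {κ : Type*} [Field κ] {f : κ[X]} (h : f.comp (1 - X) = 0) :
    f = 0 := by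
  have := congrArg (fun g => g.comp (1 - X)) h
  simpa [comp_assoc] using this

theorem X_pow_dvd_Pb {n s₂ : ℕ} (hs : 1 ≤ s₂) {c : RatFunc F} {R : (RatFunc F)[X]}
    (hR : (qq F - 1) * R.natDegree < n + 1 + s₂)
    (h : hK F n * PK F s₂ - C c * hK F (n + s₂) = Top F (n + 1 + s₂) R) :
    X ^ (n + 1 + s₂) ∣ PP (qq F) (gb F (kk (RatFunc.inftyValuation F))) s₂ := by
  set v := RatFunc.inftyValuation F with hv
  set w := n + 1 + s₂ with hw
  set R₁ := C (RatFunc.X ^ w) * R.comp (C RatFunc.X * X) with hR₁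
  set f : (RatFunc F)[X] := X * (X * R₁ + C c) + 1 with hf
  have f0 : f.coeff 0 = 1 := by simp [hf]
  have f1 : f.coeff 1 = c := by simp [hf, coeff_X_mul, coeff_one]
  have f2 : ∀ k, f.coeff (k + 2) = R₁.coeff k := by
    intro k; simp [hf, coeff_X_mul, coeff_one]
  obtain ⟨n₀, hμ, hmax⟩ := exists_normalize (v := v) (f := f)
    (by intro h0; rw [h0] at f0; simp at f0)
  set μ := f.coeff n₀ with hμd
  have hμ' : 0 < v μ := (Valuation.pos_iff _).mpr hμ
  have hle : ∀ k, v (μ⁻¹ * f.coeff k) ≤ 1 := fun k => by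
    rw [map_mul, map_inv₀, inv_mul_le_one₀ hμ']; exact hmax k
  obtain ⟨Rb, hRb⟩ := exists_Red (v := v) (f := C μ⁻¹ * R₁)
    (fun k => by rw [coeff_C_mul, ← f2]; exact hle _)
  have hE := Red.of_small (v_coeff_expand_lt F hR (a := RatFunc.X)
    (by rw [RatFunc.inftyValuation.X, ← exp_zero, exp_lt_exp]; omega) hμ
    (fun k => by
      have := hmax (k + 2)
      rwa [f2, hR₁, coeff_C_mul, comp_C_mul_X_coeff] at this))
  have h1 : Red v (1 - X) (1 - X) := Red.one.sub Red.X
  have hα := Red.C (hle 0)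
  have hc := Red.C (hle 1)
  have hL := (hα.mul ((Red_hK F n).mul (Red_PK F s₂))).sub (hc.mul (Red_hK F (n + s₂)))
  have hR' := ((Red.X.pow w).mul (hRb.comp h1)).sub (hE.comp h1)
  have heq : C (μ⁻¹ * f.coeff 0) * (sig F (hK F n) * sig F (PK F s₂)) -
      C (μ⁻¹ * f.coeff 1) * sig F (hK F (n + s₂)) = X ^ w * (C μ⁻¹ * R₁).comp (1 - X) -
      (C μ⁻¹ * (expand (RatFunc F) (qq F) R).comp (C RatFunc.X * X)).comp (1 - X) := by
    have h2 := congrArg (sig F) h
    rw [Top, map_sub, map_sub, map_mul, map_mul, map_mul, map_pow] at h2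
    have h3 : sig F (C RatFunc.X - X) = C RatFunc.X * X := by
      simp only [sig_apply, sub_comp, C_comp, X_comp]; ring
    have h4 : sig F (C c) = C c := by simp [sig_apply]
    rw [h3, h4, sig_eq F R, sig_eq F (expand _ _ R)] at h2
    rw [f0, f1, hR₁]
    simp only [mul_comp, C_comp, map_mul, map_pow, map_one, pow_comp]
    linear_combination C μ⁻¹ * h2
  rw [heq] at hL
  have h5 := hL.unique hR'
  rw [zero_comp, sub_zero] at h5
  have h6 : res v (μ⁻¹ * f.coeff 1) = 0 := by
    have := congrArg (fun p => p.coeff 0) h5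
    simp only [coeff_sub, mul_coeff_zero, coeff_C_zero, coeff_X_pow] at this
    rw [if_neg (by omega), coeff_zero_hb, coeff_zero_hb, coeff_zero_Pb F hs] at this
    simpa using this
  rw [h6, map_zero, zero_mul, sub_zero] at h5
  have h7 : res v (μ⁻¹ * f.coeff 0) ≠ 0 := by
    intro h7
    rw [h7, map_zero, zero_mul, eq_comm, mul_eq_zero] at h5
    have h8 : Rb = 0 := comp_one_sub_eq_zero (h5.resolve_left (pow_ne_zero _ X_ne_zero))
    have h9 : v (μ⁻¹ * f.coeff n₀) = 1 := by rw [inv_mul_cancel₀ hμ, map_one]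
    rcases n₀ with _ | _ | k
    · rw [res_eq_zero_iff (hle 0), h9] at h7; exact lt_irrefl _ h7
    · rw [res_eq_zero_iff (hle 1), h9] at h6; exact lt_irrefl _ h6
    · exact hRb.ne_zero (n := k) (by rw [coeff_C_mul, ← f2]; exact h9) h8
  have h8 : X ^ w ∣ (C (res v (μ⁻¹ * f.coeff 0)) * hh (qq F) (gb F (kk v)) n) *
      PP (qq F) (gb F (kk v)) s₂ := ⟨_, by rw [mul_assoc, h5]⟩
  refine prime_X.pow_dvd_of_dvd_mul_left w ?_ h8
  rw [X_dvd_iff, mul_coeff_zero, coeff_C_zero, coeff_zero_hb, mul_one]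
  exact h7

theorem lower_bound {s₁ s₂ : ℕ} (hs₁ : 1 ≤ s₁) (hs₂ : 1 ≤ s₂) (h : ZetaLike F s₁ s₂) :
    ∃ j, s₂ = j * (qq F - 1) ∧ s₁ ≤ j := by
  have hq := one_lt_qq F
  have hdiv := dvd_of_zetaLike F hs₁ hs₂ h
  obtain ⟨n, rfl⟩ : ∃ n, s₁ = n + 1 := ⟨s₁ - 1, by omega⟩
  obtain ⟨c, R, hR, h1⟩ := (zetaLike_iff_poly F hs₂ hdiv).mp h
  have h2 := X_pow_dvd_Pb F hs₂ hR h1
  obtain ⟨m, rfl⟩ := hdiv
  refine ⟨m, mul_comm _ _, ?_⟩
  let := algKk F
  have h3 := coeff_Pb F (κ := kk (RatFunc.inftyValuation F)) (m := m) (M := m) (n := m) le_rfl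
    (by
      obtain ⟨r, hr⟩ : ∃ r, qq F = r + 1 := ⟨qq F - 1, by omega⟩
      rw [hr]; simp only [Nat.add_sub_cancel]; ring)
  by_contra hc
  rw [X_pow_dvd_iff.mp h2 _ (by
    obtain ⟨r, hr⟩ : ∃ r, qq F = r + 1 := ⟨qq F - 1, by omega⟩
    rw [hr]; simp only [Nat.add_sub_cancel]; nlinarith)] at h3
  simp at h3
  exact absurd h3.symm (pow_ne_zero _ (by simp))

/-- The question of the problem file: a zeta-like pair of weight at most `q ^ 2` is of the form
`(i, j (q - 1))` with `1 ≤ i ≤ q` and `i ≤ j ≤ (q ^ 2 - i) / (q - 1)`. -/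
theorem small_weight {s₁ s₂ : ℕ} (hs₁ : 1 ≤ s₁) (hs₂ : 1 ≤ s₂) (h : ZetaLike F s₁ s₂)
    (hw : s₁ + s₂ ≤ Fintype.card F ^ 2) :
    s₁ ≤ Fintype.card F ∧ ∃ j, s₂ = j * (Fintype.card F - 1) ∧ s₁ ≤ j ∧
      j ≤ (Fintype.card F ^ 2 - s₁) / (Fintype.card F - 1) := by
  obtain ⟨j, h1, h2⟩ := lower_bound F hs₁ hs₂ h
  have hq : 1 < Fintype.card F := one_lt_qq F
  change s₂ = j * (Fintype.card F - 1) at h1
  refine ⟨?_, j, h1, h2, ?_⟩
  · obtain ⟨r, hr⟩ : ∃ r, Fintype.card F = r + 1 := ⟨Fintype.card F - 1, by omega⟩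
    rw [hr] at h1 hw ⊢
    simp only [Nat.add_sub_cancel] at h1
    nlinarith
  · rw [Nat.le_div_iff_mul_le (by omega)]
    omega

end

end ZetaLikeMZV
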