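import Pool.Agent.P.MP_8c9ada_nt.C5
import Pool.Agent.P.MP_8c9ada_nt.Div
import Pool.Agent.P.MP_8c9ada_nt.Liou

/-! The necessary conditions for zeta-like pairs over a prime field. -/

set_option autoImplicit false
set_option linter.unusedSectionVars false

namespace Pool.Agent.P.MP_8c9ada_nt.Cl

open Polynomial ZetaLikeMZV

variable {q : ℕ} [hp : Fact q.Prime]

section
variable {A : Type*} [CommRing A]

theorem GG_eq (g : ℕ → A) : GG q g = U q g := by
  ext n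
  simp only [GG, U, PowerSeries.coeff_mk, eq_comm]

theorem hh_eq (g : ℕ → A) (n : ℕ) : hh q g n = La q g 0 n := by
  rw [La_zero, hh, GG_eq, ← eq_inv1 ((mul_comm _ _).trans (mul_geo (const_U q1 g)))]

theorem PP_eq {g : ℕ → A} (h : g 0 = 1) (n : ℕ) : PP q g n = QU q g n := by
  rw [QU, PP, ← eq_Qs (f := geo (GP q g)) (const_U q1 g) (by
    rw [← GG_eq, ← X_mul_GP q1 h, mul_left_comm, mul_comm (geo _), mul_geo (constantCoeff_GP q g),
      mul_one])]

end

variable {F : Type*} [Field F] [Fintype F] [DecidableEq (RatFunc F)]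

theorem v_X : 1 < RatFunc.inftyValuation F RatFunc.X := by
  rw [RatFunc.inftyValuation.X, ← WithZero.exp_zero, WithZero.exp_lt_exp]
  exact one_pos

variable [Fact (qq F).Prime] [CharP (RatFunc F) (qq F)]

theorem ga_gK (i : ℕ) : (ga (qq F) RatFunc.X i).comp
    (C (br (qq F) RatFunc.X 1)⁻¹ * (C RatFunc.X - X) ^ qq F) = gK F i := by
  induction i with
  | zero => simp [ga, gK]
  | succ i ih =>
    have a := br_ne (q := qq F) (v_X (F := F)) 0
    have b := br_ne (q := qq F) (v_X (F := F)) i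
    have a' : (C (br (qq F) RatFunc.X 1) * C (br (qq F) RatFunc.X 1)⁻¹ : (RatFunc F)[X]) = 1 := by
      rw [← map_mul, mul_inv_cancel₀ a, map_one]
    have b' : (C (br (qq F) RatFunc.X (i + 1)) * C (br (qq F) RatFunc.X (i + 1))⁻¹ :
      (RatFunc F)[X]) = 1 := by rw [← map_mul, mul_inv_cancel₀ b, map_one]
    rw [ga, mul_comp, pow_comp, ih, gK_succ, mul_assoc, Lf, div_eq_mul_inv, map_mul,
      show TT F (i + 1) - RatFunc.X = br (qq F) RatFunc.X (i + 1) from rfl,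
      show TT F (i + 1) = br (qq F) RatFunc.X (i + 1) + RatFunc.X by simp [br, TT], map_add]
    congr 1
    simp only [add_comp, mul_comp, sub_comp, C_comp, X_comp, one_comp, sub_pow_char]
    have e : (C (br (qq F) RatFunc.X 1) : (RatFunc F)[X]) = C RatFunc.X ^ qq F - C RatFunc.X := by
      simp [br]
    linear_combination C (br (qq F) RatFunc.X (i + 1))⁻¹ * (C RatFunc.X ^ qq F - X ^ qq F) * a' -
      b' - C (br (qq F) RatFunc.X (i + 1))⁻¹ * e

theorem hyp_of {N s : ℕ} (hs : 1 ≤ s) (h : ZetaLike F (N + 1) s) :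
    ∃ c G R, Hyp (qq F) (RatFunc.X : RatFunc F) N s c G R := by
  obtain ⟨c, R, h1, h2⟩ := (zetaLike_iff_poly F hs (dvd_of_zetaLike F N.succ_pos hs h)).1 h
  set t : RatFunc F := RatFunc.X
  set τ := br (qq F) t 1 with hτ
  have a : (C τ * C τ⁻¹ : (RatFunc F)[X]) = 1 := by
    rw [← map_mul, mul_inv_cancel₀ (br_ne (q := qq F) (v_X (F := F)) 0), map_one]
  refine ⟨c, _, R.comp (C t - X), ?_, ?_, (add_sub_cancel_right _ _).symm⟩
  · refine le_trans (Nat.mul_le_mul_left _ (natDegree_comp_le.trans ?_))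
      (by omega : (qq F - 1) * R.natDegree ≤ N + s)
    exact (Nat.mul_le_mul_left _ (by compute_degree : (C t - X).natDegree ≤ 1)).trans_eq (mul_one _)
  have e0 : C τ⁻¹ * X ^ qq F = (C τ⁻¹ * (C t - X) ^ qq F).comp (C t - X) := by simp
  have e1 : ∀ n, (La (qq F) (ga (qq F) t) 0 n).comp (C τ⁻¹ * (C t - X) ^ qq F) = hK F n := fun n => by
    rw [hK, hh_eq, ← funext (ga_gK (F := F))]
    exact map_La (q := qq F) (compRingHom (C τ⁻¹ * (C t - X) ^ qq F)) (ga (qq F) t) 0 n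
  have e2 : (QU (qq F) (ga (qq F) t) s).comp (C τ⁻¹ * (C t - X) ^ qq F) = PK F s := by
    rw [PK, PP_eq rfl, ← funext (ga_gK (F := F))]
    exact map_QU (q := qq F) (g := ga (qq F) t) (compRingHom (C τ⁻¹ * (C t - X) ^ qq F)) rfl s
  have e3 : ((C t - X).comp (C τ * (X - 1))).comp (C τ⁻¹ * (C t - X) ^ qq F) = X ^ qq F := by
    have e : (C τ : (RatFunc F)[X]) = C t ^ qq F - C t := by simp [hτ, br]
    simp only [mul_comp, sub_comp, C_comp, X_comp, one_comp, sub_pow_char]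
    linear_combination e - (C t ^ qq F - X ^ qq F) * a
  rw [e0, ← comp_assoc, add_comp, sub_comp, mul_comp, mul_comp, C_comp, e1, e1, e2, h2,
    ZetaLikeMZV.Top, comp_assoc R, comp_assoc R, e3, ← expand_eq_comp_X_pow, sub_add_cancel]
  simp [t]

theorem nec {n s₁ s₂ : ℕ} (h1 : 1 ≤ s₁) (h2 : 1 ≤ s₂) (w1 : qq F ^ n < s₁ + s₂)
    (w2 : s₁ + s₂ ≤ qq F ^ (n + 1)) (h : ZetaLike F s₁ s₂) :
    s₁ ≤ qq F ^ n ∧ ds (qq F) (qq F ^ n - s₁) < qq F ∧ (ds (qq F) (qq F ^ (n + 1) - s₂) = 1 ∨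
      (ds (qq F) (qq F ^ (n + 1) - s₂) = qq F ∧ s₁ ≤ (qq F ^ (n + 1) - s₂) % qq F ^ n)) := by
  obtain ⟨N, rfl⟩ : ∃ N, s₁ = N + 1 := ⟨s₁ - 1, by omega⟩
  obtain ⟨c, G, R, H⟩ := hyp_of h2 h
  obtain ⟨j, rfl⟩ := exists_eq_mul_left_of_dvd (dvd_of_zetaLike F h1 h2 h)
  exact H.nec v_X (Nat.pos_of_ne_zero (by rintro rfl; simp at h2)) (by omega) w2

end Pool.Agent.P.MP_8c9ada_nt.Cl
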