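import Pool.Agent.P.MP_8c9ada_nt.C1
import Pool.Agent.P.MP_8c9ada_nt.Carlitz

/-! Product formulas for power sums, and the sufficient conditions for zeta-like pairs. -/

set_option autoImplicit false
set_option linter.unusedSectionVars false

namespace Pool.Agent.P.MP_8c9ada_nt.Cl

open Polynomial Finset ZetaLikeMZV Filter Topology

/-! ### Sums of powers of `q` -/

section comb
variable {q : ℕ}

/-- The sum of the powers of `q` with the given exponents. -/
def pw (q : ℕ) (E : Multiset ℕ) : ℕ := (E.map (q ^ ·)).sum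

@[simp] theorem pw_zero : pw q 0 = 0 := rfl

@[simp] theorem pw_cons (e : ℕ) (E : Multiset ℕ) : pw q (e ::ₘ E) = q ^ e + pw q E := by simp [pw]

@[simp] theorem pw_add (E E' : Multiset ℕ) : pw q (E + E') = pw q E + pw q E' := by simp [pw]

@[simp] theorem pw_rep (c e : ℕ) : pw q (Multiset.replicate c e) = c * q ^ e := by simp [pw]

theorem pw_ex (hq : 1 < q) (N : ℕ) : ∃ E : Multiset ℕ, E.card = ds q N ∧ pw q E = N := by
  induction N using dig_ind hq with
  | h0 => exact ⟨0, by simp, rfl⟩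
  | h a N ha _ ih =>
    obtain ⟨E, h1, h2⟩ := ih
    refine ⟨Multiset.replicate a 0 + E.map (· + 1), by simp [ds_step hq ha, h1], ?_⟩
    rw [pw_add, pw_rep, ← h2, pw, pw, Multiset.map_map, ← Multiset.sum_map_mul_left]
    simp [pow_succ']

theorem pw_lt (hq : 1 < q) {E : Multiset ℕ} {n : ℕ} (h : pw q E < q ^ n) : ∀ e ∈ E, e < n := by
  intro e he
  obtain ⟨E, rfl⟩ := Multiset.exists_cons_of_mem he
  rw [pw_cons] at h
  exact (Nat.pow_lt_pow_iff_right hq).1 (by omega)

theorem pw_le (hq : 1 < q) {E : Multiset ℕ} {k : ℕ} (h : ∀ e ∈ E, e ≤ k) :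
    pw q E ≤ E.card * q ^ k := by
  have := Multiset.sum_le_card_nsmul (E.map (q ^ ·)) (q ^ k) fun x hx => by
    obtain ⟨e, he, rfl⟩ := Multiset.mem_map.1 hx
    exact Nat.pow_le_pow_right (by omega) (h e he)
  rwa [Multiset.card_map] at this

theorem pw_max (hq : 1 < q) {E : Multiset ℕ} {k c : ℕ} (h : ∀ e ∈ E, e ≤ k) (hc : E.card ≤ c)
    (hp : c * q ^ k ≤ pw q E) : E = Multiset.replicate c k := by
  refine Multiset.eq_replicate.2 ⟨hc.antisymm (Nat.le_of_mul_le_mul_right (hp.trans (pw_le hq h))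
    (by positivity)), fun e he => (h e he).eq_of_not_lt fun l => ?_⟩
  obtain ⟨E, rfl⟩ := Multiset.exists_cons_of_mem he
  have h1 := pw_le hq fun x hx => h x (Multiset.mem_cons_of_mem hx)
  have h2 := Nat.pow_lt_pow_right hq l
  have h3 := Nat.mul_le_mul_right (q ^ k) hc
  rw [Multiset.card_cons, add_mul] at h3
  rw [pw_cons] at hp
  omega

theorem pw_cases (hq : 1 < q) {H : Multiset ℕ} {k : ℕ} (h : ∀ e ∈ H, e ≤ k)
    (hc : H.card < 2 * q) (hp : q * q ^ k ≤ pw q H) : Multiset.replicate q k ≤ H ∨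
      ∃ k', k = k' + 1 ∧ H = Multiset.replicate (q - 1) k + Multiset.replicate q k' := by
  rw [← Multiset.le_count_iff_replicate_le, or_iff_not_imp_left, not_le]
  intro c
  have e := Multiset.filter_add_not (· = k) H
  rw [Multiset.filter_eq'] at e
  have m : ∀ x ∈ H.filter (¬ · = k), x < k := fun x hx =>
    lt_of_le_of_ne (h x (Multiset.mem_filter.1 hx).1) (Multiset.mem_filter.1 hx).2
  generalize H.filter (¬ · = k) = H1 at e m
  generalize H.count k = a at e c
  subst e
  rw [pw_add, pw_rep] at hp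
  rw [Multiset.card_add, Multiset.card_replicate] at hc
  obtain ⟨x, rfl⟩ := Nat.exists_eq_add_of_lt c
  rcases k with _ | k
  · rw [Multiset.eq_zero_of_forall_notMem fun x hx => Nat.not_lt_zero _ (m x hx)] at hp
    simp at hp
  have h1 := pw_le hq fun x hx => Nat.le_of_lt_succ (m x hx)
  have h2 : (x + 1) * (a + x + 1) ≤ H1.card := Nat.le_of_mul_le_mul_right (c := (a + x + 1) ^ k) (by
    rw [pow_succ'] at hp; nlinarith) (by positivity)
  obtain rfl : x = 0 := by nlinarith
  refine ⟨k, rfl, congrArg₂ _ (by simp) (pw_max hq (fun x hx => Nat.le_of_lt_succ (m x hx))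
    (by omega) ?_)⟩
  rw [pow_succ'] at hp
  nlinarith

end comb

/-! ### Vanishing -/

variable {F : Type*} [Field F] [Fintype F]

theorem sum_lowP {M : Type*} [AddCommMonoid M] (f : F[X] → M) (d : ℕ) :
    ∑ a ∈ lowP F (d + 1), f a = ∑ b ∈ lowP F d, ∑ c : F, f (C c * X ^ d + b) := by
  rw [← sum_product']
  symm
  refine sum_bij' (fun x _ => C x.2 * X ^ d + x.1) (fun a _ => (a.erase d, a.coeff d))
    (fun x h => ?_) (fun a h => ?_) (fun x h => ?_) (fun a h => ?_) fun _ _ => rfl
  · have := mem_lowP.1 (mem_product.1 h).1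
    exact mem_lowP.2 ((degree_add_le _ _).trans_lt (max_lt ((degree_C_mul_X_pow_le _ _).trans_lt
      (by exact_mod_cast d.lt_succ_self)) (this.trans (by exact_mod_cast d.lt_succ_self))))
  · refine mem_product.2 ⟨mem_lowP.2 ((degree_lt_iff_coeff_zero _ _).2 fun i hi => ?_), mem_univ _⟩
    rcases hi.eq_or_lt with rfl | l
    · exact erase_same _ _
    · rw [erase_ne _ l.ne']
      exact (degree_lt_iff_coeff_zero _ _).1 (mem_lowP.1 h) i l
  · have := coeff_eq_zero_of_degree_lt (mem_lowP.1 (mem_product.1 h).1)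
    refine Prod.ext (Polynomial.ext fun i => ?_) (by simp [this])
    rcases eq_or_ne i d with rfl | c
    · simp [this]
    · simp [erase_ne _ c, coeff_X_pow, c]
  · simp only [C_mul_X_pow_eq_monomial, monomial_add_erase]

theorem van {K : Type*} [CommRing K] [Algebra F K] (t c : ℕ → K) (d : ℕ) : ∀ E : Multiset ℕ,
    E.card < d * (qq F - 1) → ∑ b ∈ lowP F d, (E.map fun e => c e + aeval (t e) b).prod = 0 := by
  induction d with
  | zero => intro E h; simp at h
  | succ d ih =>
    intro E h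
    have e : ∀ (b : F[X]) (a : F), (E.map fun e => c e + aeval (t e) (C a * X ^ d + b)).prod =
        (E.antidiagonal.map fun p => algebraMap F K (a ^ p.1.card) * ((p.1.map (t · ^ d)).prod *
          (p.2.map fun e => c e + aeval (t e) b).prod)).sum := fun b a => by
      simp only [map_add, map_mul, map_pow, aeval_C, aeval_X, add_left_comm (c _),
        Multiset.prod_map_add, Multiset.prod_map_mul, Multiset.map_const', Multiset.prod_replicate,
        mul_assoc]
    rw [sum_lowP]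
    simp only [e, ← Multiset.sum_map_sum, ← sum_mul, ← mul_sum, ← map_sum]
    refine Multiset.sum_eq_zero fun x hx => ?_
    obtain ⟨p, hp, rfl⟩ := Multiset.mem_map.1 hx
    have := congrArg Multiset.card (Multiset.mem_antidiagonal.1 hp)
    rw [Multiset.card_add] at this
    rcases lt_or_ge p.1.card (qq F - 1) with l | l
    · rw [FiniteField.sum_pow_lt_card_sub_one F _ l, map_zero, zero_mul]
    · rw [ih p.2 (by rw [add_mul] at h; omega), mul_zero, mul_zero]

/-- The image of a polynomial. -/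
noncomputable abbrev al (a : F[X]) : RatFunc F := algebraMap F[X] (RatFunc F) a

theorem aeval_TT (a : F[X]) (e : ℕ) : aeval (TT F e) a = al a ^ qq F ^ e := by
  induction e with
  | zero => rw [TT_zero, pow_zero, pow_one, ← RatFunc.algebraMap_X, aeval_algebraMap_apply]; simp
  | succ e ih =>
    rw [TT_succ, pow_succ, pow_mul, ← ih]
    exact aeval_algHom_apply (FiniteField.frobeniusAlgHom F (RatFunc F)) _ a

theorem pow_pw (a : F[X]) (E : Multiset ℕ) :
    al a ^ pw (qq F) E = (E.map fun e => aeval (TT F e) a).prod := by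
  induction E using Multiset.induction with
  | empty => simp
  | cons e E ih => rw [pw_cons, pow_add, ih, Multiset.map_cons, Multiset.prod_cons, aeval_TT]

theorem van1 {d : ℕ} {E : Multiset ℕ} (h : E.card < d * (qq F - 1)) :
    ∑ a ∈ monics F d, al a ^ pw (qq F) E = 0 := by
  classical
  rw [monics_eq, sum_image fun _ _ _ _ e => add_left_cancel e,
    ← van (TT F) (fun e => TT F e ^ d) d E h]
  exact sum_congr rfl fun b _ => by rw [pow_pw]; simp only [map_add, map_pow, aeval_X]

open Classical in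
theorem van2 {d j : ℕ} {E : Multiset ℕ} (h : E.card = (j + 1) * (qq F - 1)) (hj : j < d) :
    ∑ a ∈ (lowP F (d + 1)).filter Monic, al a ^ pw (qq F) E = 0 := by
  have hq := one_lt_qq F
  have h0 := van (F := F) (TT F) 0 (d + 1) E
    (h.trans_lt (Nat.mul_lt_mul_of_pos_right (by omega) (by omega)))
  simp only [Pi.zero_apply, zero_add] at h0
  obtain ⟨e, he⟩ := Multiset.card_pos_iff_exists_mem.1
    ((Nat.mul_pos j.succ_pos (by omega)).trans_eq h.symm)
  rw [← sum_erase (a := 0) _ (Multiset.prod_eq_zero (Multiset.mem_map.2 ⟨e, he, map_zero _⟩)),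
    sum_nonzero, sum_congr rfl (g := fun a => -al a ^ pw (qq F) E) fun a _ => by
      rw [sum_congr rfl (g := fun _ => al a ^ pw (qq F) E) fun c hc => by
        simp only [map_mul, aeval_C, Multiset.prod_map_mul, Multiset.map_const',
          Multiset.prod_replicate, ← pow_pw]
        rw [h, mul_comm (j + 1), pow_mul, ← map_pow,
          FiniteField.pow_card_sub_one_eq_one c (mem_erase.1 hc).1, map_one, one_pow, one_mul]]
      rw [sum_const, card_erase_of_mem (mem_univ _), card_univ, nsmul_eq_mul,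
        Nat.cast_pred Fintype.card_pos, cast_qq F]
      ring, sum_neg_distrib, neg_eq_zero] at h0
  convert h0

/-! ### Product formulas -/

theorem TT_inj : Function.Injective (TT F) := fun a b h => by
  rw [TT_eq, TT_eq] at h
  have := congrArg natDegree (IsFractionRing.injective F[X] (RatFunc F) h)
  rw [natDegree_X_pow, natDegree_X_pow] at this
  exact Nat.pow_right_injective (one_lt_qq F) this

theorem TT_ne {a b : ℕ} (h : a < b) : TT F a - TT F b ≠ 0 := sub_ne_zero.2 (TT_inj.ne h.ne)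

variable (F) in
/-- The basic products. -/
noncomputable def BB (m d e : ℕ) : RatFunc F := ∏ j ∈ range d, (TT F e - TT F (m + j))

theorem BB_succ (m d e : ℕ) : BB F m (d + 1) e = BB F m d e * (TT F e - TT F (m + d)) :=
  prod_range_succ _ _

theorem BB_succ' (m d e : ℕ) : BB F m (d + 1) e = BB F (m + 1) d e * (TT F e - TT F m) := by
  rw [BB, prod_range_succ', BB]
  simp only [add_assoc, add_comm 1, add_zero]

theorem BB_pow (m d e : ℕ) :
    BB F m d e ^ qq F * (TT F (e + 1) - TT F m) = BB F m (d + 1) (e + 1) := by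
  rw [BB_succ', BB, ← prod_pow, BB]
  simp only [sub_pow_qq F, ← TT_succ, add_right_comm m 1]

theorem uu_pow (m d : ℕ) :
    uu F (d + 1) ^ qq F ^ m * (TT F m - TT F (m + 1 + d)) = uu F d ^ qq F ^ m := by
  rw [← uu_succ F d, mul_pow, sub_pow_qq_pow F, TT_pow, show d + 1 + m = m + 1 + d by ring]
  rfl

theorem uu_BB (m d : ℕ) : uu F d ^ qq F ^ m * BB F (m + 1) d m = 1 := by
  induction d with
  | zero => simp [uu_zero, BB]
  | succ d ih => rw [BB_succ, mul_left_comm, uu_pow, mul_comm, ih]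

variable (F) in
/-- The terms of the power sums. -/
noncomputable def tm (m : ℕ) (E : Multiset ℕ) (a : F[X]) : RatFunc F :=
  al a ^ pw (qq F) E * (al a ^ qq F ^ m)⁻¹

theorem al_ne {a : F[X]} (h : a.Monic) : al a ≠ 0 :=
  (map_ne_zero_iff _ (IsFractionRing.injective F[X] (RatFunc F))).2 h.ne_zero

theorem Sd_tm {s m : ℕ} {E : Multiset ℕ} (h : s + pw (qq F) E = qq F ^ m) (d : ℕ) :
    Sd F s d = ∑ a ∈ monics F d, tm F m E a := sum_congr rfl fun a ha => by
  have := al_ne (mem_monics.1 ha).1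
  rw [tm, ← h, pow_add]
  field_simp

theorem interp {S : Finset F[X]} {d : ℕ} (hS : ∀ a ∈ S, a.Monic ∧ a.natDegree ≤ d) (m e : ℕ)
    {E : Multiset ℕ} (h : ∀ j < d, ∀ R : Multiset ℕ, R.card = E.card + j * (qq F - 1) →
      ∑ a ∈ S, al a ^ pw (qq F) R = 0) :
    ∑ a ∈ S, tm F m (e ::ₘ E) a =
      BB F m d e * ∑ a ∈ S, algebraMap F _ (a.coeff d) * tm F m E a := by
  have hq := one_lt_qq F
  have ex : ∀ j, ∃ R : Multiset ℕ, R.card = j * (qq F - 1) ∧
      qq F ^ (m + j) = qq F ^ m + pw (qq F) R := fun j => by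
    induction j with
    | zero => exact ⟨0, by simp, by simp⟩
    | succ j ih =>
      obtain ⟨R, h1, h2⟩ := ih
      refine ⟨R + Multiset.replicate (qq F - 1) (m + j), by simp [h1, add_mul], ?_⟩
      rw [pw_add, pw_rep, ← add_assoc (qq F ^ m), ← h2, ← add_assoc, pow_succ', ← one_add_mul,
        show 1 + (qq F - 1) = qq F by omega]
  set b : (RatFunc F)[X] := ∏ j ∈ range d, (X - C (TT F (m + j))) with hb
  have b1 : b.Monic := monic_prod_of_monic _ _ fun _ _ => monic_X_sub_C _
  have b2 : b.natDegree = d := by rw [hb, natDegree_finsetProd_X_sub_C_eq_card, card_range]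
  have ev : ∀ x, (∑ a ∈ S, C (tm F m E a) * (a.map (algebraMap F _) -
      C (algebraMap F _ (a.coeff d)) * b)).eval (TT F x) = ∑ a ∈ S, tm F m (x ::ₘ E) a -
        BB F m d x * ∑ a ∈ S, algebraMap F _ (a.coeff d) * tm F m E a := fun x => by
    rw [eval_finsetSum, mul_sum, ← sum_sub_distrib]
    refine sum_congr rfl fun a _ => ?_
    simp only [eval_mul, eval_sub, eval_C, eval_map_algebraMap, aeval_TT, hb, eval_prod, eval_X,
      tm, BB, pw_cons, pow_add]
    ring
  rw [← sub_eq_zero, ← ev, eq_zero_of_degree_lt_of_eval_index_eq_zero (range d)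
    (f := ∑ a ∈ S, _) (v := fun j => TT F (m + j))
    (fun _ _ _ _ e => add_left_cancel (TT_inj e)) ?_ fun j hj => ?_, eval_zero]
  · rw [card_range, degree_lt_iff_coeff_zero]
    intro i hi
    rw [finsetSum_coeff]
    refine sum_eq_zero fun a ha => ?_
    rw [coeff_C_mul, coeff_sub, coeff_C_mul, coeff_map]
    rcases hi.eq_or_lt with rfl | l
    · rw [← b2, b1.coeff_natDegree, mul_one, sub_self, mul_zero]
    · rw [coeff_eq_zero_of_natDegree_lt ((hS a ha).2.trans_lt l),
        coeff_eq_zero_of_natDegree_lt (b2.trans_lt l)]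
      simp
  · obtain ⟨R, h1, h2⟩ := ex j
    rw [ev, BB, prod_eq_zero hj (sub_self _), zero_mul, sub_zero,
      ← h j (mem_range.1 hj) (E + R) (by simp [h1])]
    refine sum_congr rfl fun a ha => ?_
    have := al_ne (hS a ha).1
    rw [tm, pw_cons, h2, pw_add, pow_add, pow_add, pow_add]
    field_simp

theorem P1 (m d : ℕ) (E : Multiset ℕ) (h : E.card < qq F) :
    ∑ a ∈ monics F d, tm F m E a = (E.map (BB F m d)).prod * uu F d ^ qq F ^ m := by
  induction E using Multiset.induction with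
  | empty =>
    have h1 := Sd_eq F 0 d
    have h2 : hK F 0 = 1 := by
      have := congrArg PowerSeries.constantCoeff (mul_geo (constantCoeff_GG (one_lt_qq F) (gK F)))
      simpa [hK, hh, constantCoeff_GG (one_lt_qq F)] using this
    simp only [h2, eval_one, one_mul, zero_add, pow_one] at h1
    simp only [tm, pw_zero, pow_zero, one_mul, Multiset.map_zero, Multiset.prod_zero, ← h1, Sd,
      pow_one, ← inv_pow]
    induction m with
    | zero => simp
    | succ m ih => simp only [pow_succ, pow_mul, ← ih, sum_pow_qq F]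
  | cons e E ih =>
    rw [Multiset.card_cons] at h
    rw [interp (fun a ha => ⟨(mem_monics.1 ha).1, (mem_monics.1 ha).2.le⟩) m e fun j hj R hR =>
      van1 (by
        have := Nat.mul_le_mul_right (qq F - 1) (Nat.succ_le_of_lt hj)
        rw [Nat.succ_mul] at this
        omega), Multiset.map_cons, Multiset.prod_cons, mul_assoc, ← ih (by omega)]
    refine congrArg _ (sum_congr rfl fun a ha => ?_)
    rw [← (mem_monics.1 ha).2, (mem_monics.1 ha).1.coeff_natDegree, map_one, one_mul]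

theorem Sd_P1 {s m : ℕ} {E : Multiset ℕ} (h : s + pw (qq F) E = qq F ^ m) (hE : E.card < qq F)
    (d : ℕ) : Sd F s d = (E.map (BB F m d)).prod * uu F d ^ qq F ^ m :=
  (Sd_tm h d).trans (P1 m d E hE)

theorem Slt_one {s m e : ℕ} (h : s + qq F ^ e = qq F ^ m) (d : ℕ) :
    (TT F e - TT F m) * Slt F s (d + 1) = BB F m (d + 1) e * uu F d ^ qq F ^ m := by
  induction d with
  | zero => simp [Slt_succ, Slt_zero, Sd_zero, BB, uu_zero]
  | succ d ih =>
    rw [Slt_succ, mul_add, ih, Sd_P1 (E := {e}) (by simpa [pw] using h) (one_lt_qq F),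
      BB_succ m (d + 1), ← uu_pow m d, add_right_comm m 1, add_assoc m]
    simp only [Multiset.map_singleton, Multiset.prod_singleton]
    ring

theorem Slt_q {s m : ℕ} {E : Multiset ℕ} (h : s + pw (qq F) E = qq F ^ m) (hE : E.card = qq F)
    (d : ℕ) : Slt F s (d + 1) = (E.map (BB F m d)).prod * uu F d ^ qq F ^ m := by
  classical
  have hq := one_lt_qq F
  obtain ⟨e, he⟩ := Multiset.card_pos_iff_exists_mem.1 (show 0 < E.card by omega)
  obtain ⟨E, rfl⟩ := Multiset.exists_cons_of_mem he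
  rw [Multiset.card_cons] at hE
  rw [Slt, sum_congr rfl fun i _ => Sd_tm h i, ← sum_monic_lowP, interp (d := d) (fun a ha => ?_) m e
    fun j hj R hR => van2 (by rw [hR, add_mul]; omega) hj, sum_monic_lowP, sum_range_succ,
    sum_eq_zero fun i hi => sum_eq_zero fun a ha => ?_, zero_add, Multiset.map_cons,
    Multiset.prod_cons, mul_assoc, ← P1 m d E (by omega)]
  · refine congrArg _ (sum_congr rfl fun a ha => ?_)
    rw [← (mem_monics.1 ha).2, (mem_monics.1 ha).1.coeff_natDegree, map_one, one_mul]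
  · rw [coeff_eq_zero_of_natDegree_lt ((mem_monics.1 ha).2.trans_lt (mem_range.1 hi)), map_zero,
      zero_mul]
  · have := mem_filter.1 ha
    exact ⟨this.2, Nat.le_of_lt_succ ((natDegree_lt_iff_degree_lt this.2.ne_zero).2
      (mem_lowP.1 this.1))⟩

theorem Sd_first {s n : ℕ} {E : Multiset ℕ} (h : s + pw (qq F) E = qq F ^ n) (hE : E.card < qq F) :
    ∃ c, ∀ d, Sd F s (d + 1) = c * (E.map (BB F (n + 1) d)).prod * uu F (d + 1) ^ qq F ^ n :=
  ⟨(E.map fun e => TT F e - TT F n).prod, fun d => by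
    rw [Sd_P1 h hE, mul_comm (Multiset.prod _) (Multiset.prod _), ← Multiset.prod_map_mul]
    simp only [← BB_succ']⟩

/-! ### The four cases -/

variable [DecidableEq (RatFunc F)] {s₁ s₂ n : ℕ}

theorem fin (h1 : 1 ≤ s₁) {a b : RatFunc F} (h : ∀ d, Sd F s₁ (d + 1) * Slt F s₂ (d + 1) =
    a * Sd F (s₁ + s₂) d + b * (Slt F (s₁ + s₂) d - Slt F (s₁ + s₂) (d - 1))) :
    ZetaLike F s₁ s₂ := by
  have hw : 1 ≤ s₁ + s₂ := by omega
  have e : ∀ D, Ztwo F s₁ s₂ (D + 1) = a * Slt F (s₁ + s₂) D + b * Slt F (s₁ + s₂) (D - 1) := by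
    intro D
    induction D with
    | zero => simp [Ztwo, Slt_zero]
    | succ D ih => rw [Ztwo_succ, ih, h, Slt_succ, Nat.add_sub_cancel]; ring
  have t1 := (tendsto_zetaTwo (F := F) s₂ h1).comp (tendsto_add_atTop_nat 1)
  have t2 := ((tendsto_zeta (F := F) hw).const_mul (algebraMap _ _ a)).add
    (((tendsto_zeta (F := F) hw).comp (tendsto_sub_atTop_nat 1)).const_mul (algebraMap _ _ b))
  refine ⟨a + b, ?_⟩
  rw [div_eq_iff (zeta_ne_zero hw), map_add, add_mul]
  exact tendsto_nhds_unique t1 (t2.congr fun D => by simp [e])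

theorem fin1 (h1 : 1 ≤ s₁) {E : Multiset ℕ} (hE : E.card < qq F)
    (hw : s₁ + s₂ + pw (qq F) E = qq F ^ (n + 1)) {c : RatFunc F}
    (h : ∀ d, (TT F n - TT F (n + 1)) * (Sd F s₁ (d + 1) * Slt F s₂ (d + 1)) =
      c * (uu F (d + 1) ^ qq F ^ n * BB F (n + 1) (d + 1) n) *
        ((E.map (BB F (n + 1) d)).prod * uu F d ^ qq F ^ (n + 1))) : ZetaLike F s₁ s₂ :=
  fin h1 (a := c / (TT F n - TT F (n + 1))) (b := 0) fun d => by
    rw [zero_mul, add_zero, Sd_P1 hw hE, div_mul_eq_mul_div, eq_div_iff (TT_ne n.lt_succ_self),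
      mul_comm, h, uu_BB, mul_one]

theorem fin3 (h1 : 1 ≤ s₁) {k : ℕ} (hw : s₁ + s₂ = qq F ^ (k + 1 + 1)) {c : RatFunc F}
    (h : ∀ d, (TT F k - TT F (k + 1 + 1)) * (Sd F s₁ (d + 1) * Slt F s₂ (d + 1)) =
      c * BB F (k + 1 + 1) d k ^ (qq F - 1) * uu F (d + 1) ^ qq F ^ (k + 1) *
        (BB F (k + 1 + 1) (d + 1) k * uu F d ^ qq F ^ (k + 1 + 1))) : ZetaLike F s₁ s₂ := by
  have hq := one_lt_qq F
  have n1 := TT_ne (F := F) (show k + 1 < k + 1 + 1 by omega)
  have n2 := TT_ne (F := F) (show k < k + 1 + 1 by omega)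
  have z : ∀ d, Sd F (s₁ + s₂) d = uu F d ^ qq F ^ (k + 1 + 1) := fun d => by
    simpa using Sd_P1 (E := 0) hw (by simp; omega) d
  refine fin h1 (a := c / (TT F (k + 1) - TT F (k + 1 + 1)))
    (b := c / (TT F (k + 1) - TT F (k + 1 + 1)) / (TT F k - TT F (k + 1 + 1))) fun d => ?_
  have z' : Slt F (s₁ + s₂) d - Slt F (s₁ + s₂) (d - 1) =
      uu F d ^ qq F ^ (k + 1 + 1) * (TT F (k + 1 + 1) - TT F (k + 1 + 1 + d)) := by
    rcases d with _ | d
    · simp
    · rw [Slt_succ, Nat.add_sub_cancel, add_sub_cancel_left, z, ← uu_pow (k + 1 + 1) d,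
        add_right_comm _ 1 d, add_assoc (k + 1 + 1)]
  have u := uu_BB (F := F) (k + 1) (d + 1)
  rw [← BB_pow, ← pow_sub_one_mul (by omega : qq F ≠ 0) (BB F _ d k)] at u
  have v := h d
  rw [BB_succ] at v
  rw [z, z']
  field_simp
  linear_combination (TT F (k + 1) - TT F (k + 1 + 1)) * v +
    c * uu F d ^ qq F ^ (k + 1 + 1) * (TT F k - TT F (k + 1 + 1 + d)) * u

theorem suff (h1 : 1 ≤ s₁) (h2 : 1 ≤ s₂) (hw : s₁ + s₂ ≤ qq F ^ (n + 1)) (hs : s₁ ≤ qq F ^ n)
    (hd : ds (qq F) (qq F ^ n - s₁) < qq F) (hM : ds (qq F) (qq F ^ (n + 1) - s₂) = 1 ∨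
      (ds (qq F) (qq F ^ (n + 1) - s₂) = qq F ∧ s₁ ≤ (qq F ^ (n + 1) - s₂) % qq F ^ n)) :
    ZetaLike F s₁ s₂ := by
  have hq := one_lt_qq F
  obtain ⟨E, e1, e2⟩ := pw_ex hq (qq F ^ n - s₁)
  rw [← e1] at hd
  have e3 : s₁ + pw (qq F) E = qq F ^ n := by omega
  have e4 := pw_lt hq (show pw (qq F) E < qq F ^ n by omega)
  obtain ⟨c, hc⟩ := Sd_first e3 hd
  rcases hM with h | ⟨h, h'⟩
  · obtain ⟨f, hf⟩ := ds_eq_one hq h
    have f1 : s₂ + qq F ^ f = qq F ^ (n + 1) := by omega
    have f2 : f < n + 1 := (Nat.pow_lt_pow_iff_right hq).1 (by omega)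
    rcases (Nat.le_of_lt_succ f2).eq_or_lt with rfl | f3
    · refine fin1 h1 hd (n := f) (by omega) (c := c) fun d => ?_
      rw [mul_left_comm, Slt_one f1, hc]
      ring
    obtain ⟨k, rfl⟩ : ∃ k, n = k + 1 := ⟨n - 1, by omega⟩
    have f4 := Nat.pow_le_pow_right (by omega : 0 < qq F) (Nat.le_of_lt_succ f3)
    have f5 : qq F ^ k + (qq F - 1) * qq F ^ k = qq F ^ (k + 1) := by
      rw [← one_add_mul, show 1 + (qq F - 1) = qq F by omega, pow_succ']
    obtain rfl := pw_max hq (c := qq F - 1) (fun e he => Nat.le_of_lt_succ (e4 e he)) (by omega)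
      (by omega)
    rw [pw_rep] at e3
    obtain rfl : f = k := Nat.pow_right_injective hq (by simp only; omega)
    refine fin3 h1 (k := f) (by omega) (c := c) fun d => ?_
    rw [mul_left_comm, Slt_one f1, hc, Multiset.map_replicate, Multiset.prod_replicate]
  have T0 : 0 < qq F ^ n := by positivity
  have m1 := Nat.mod_lt (qq F ^ (n + 1) - s₂) T0
  have m2 := Nat.mod_add_div (qq F ^ (n + 1) - s₂) (qq F ^ n)
  rw [ds_mod_div hq n, ← ds_pow_mul hq n (_ / _)] at h
  obtain ⟨A, a1, a2⟩ := pw_ex hq ((qq F ^ (n + 1) - s₂) % qq F ^ n)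
  obtain ⟨B, b1, b2⟩ := pw_ex hq (qq F ^ n * ((qq F ^ (n + 1) - s₂) / qq F ^ n))
  rw [← a1, ← b1] at h
  rw [← a2] at h' m1
  rw [← a2, ← b2] at m2
  have g := Slt_q (F := F) (s := s₂) (m := n + 1) (E := A + B) (by rw [pw_add]; omega) (by simpa using h)
  obtain ⟨k, rfl⟩ : ∃ k, n = k + 1 := ⟨n - 1, by
    rcases n with _ | n
    · rw [pow_zero] at m1; omega
    · rfl⟩
  rcases pw_cases hq (H := E + A) (k := k) (fun e he => Nat.le_of_lt_succ
    ((Multiset.mem_add.1 he).elim (e4 e) (pw_lt hq m1 e))) (by rw [Multiset.card_add]; omega)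
    (by rw [pw_add, ← pow_succ']; omega) with c1 | ⟨k, rfl, c1⟩
  · obtain ⟨H, c2⟩ := Multiset.le_iff_exists_add.1 c1
    have c3 := congrArg Multiset.card c2
    have c4 := congrArg (pw (qq F)) c2
    rw [pw_add, pw_add, pw_rep, ← pow_succ'] at c4
    simp only [Multiset.card_add, Multiset.card_replicate] at c3
    refine fin1 h1 (E := H + B) (n := k + 1) (by rw [Multiset.card_add]; omega)
      (by rw [pw_add]; omega) (c := c) fun d => ?_
    have c5 := congrArg (fun X => (X.map (BB F (k + 1 + 1) d)).prod) c2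
    simp only [Multiset.map_add, Multiset.prod_add, Multiset.map_replicate,
      Multiset.prod_replicate] at c5
    rw [hc, g, ← BB_pow]
    simp only [Multiset.map_add, Multiset.prod_add]
    linear_combination c * uu F (d + 1) ^ qq F ^ (k + 1) * (TT F (k + 1) - TT F (k + 1 + 1)) *
      (B.map (BB F (k + 1 + 1) d)).prod * uu F d ^ qq F ^ (k + 1 + 1) * c5
  have c3 := congrArg Multiset.card c1
  have c4 := congrArg (pw (qq F)) c1
  simp only [Multiset.card_add, Multiset.card_replicate] at c3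
  obtain rfl : B = 0 := Multiset.card_eq_zero.1 (by omega)
  have f5 : qq F ^ (k + 1) + (qq F - 1) * qq F ^ (k + 1) = qq F ^ (k + 1 + 1) := by
    rw [← one_add_mul, show 1 + (qq F - 1) = qq F by omega, ← pow_succ']
  rw [pw_add, pw_add, pw_rep, pw_rep, ← pow_succ'] at c4
  rw [pw_zero] at m2
  refine fin3 h1 (k := k + 1) (by omega) (c := c) fun d => ?_
  have c5 := congrArg (fun X => (X.map (BB F (k + 1 + 1 + 1) d)).prod) c1
  simp only [Multiset.map_add, Multiset.prod_add, Multiset.map_replicate,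
    Multiset.prod_replicate] at c5
  rw [hc, g, ← BB_pow, add_zero]
  linear_combination c * uu F (d + 1) ^ qq F ^ (k + 1 + 1) * (TT F (k + 1) - TT F (k + 1 + 1 + 1)) *
    uu F d ^ qq F ^ (k + 1 + 1 + 1) * c5

end Pool.Agent.P.MP_8c9ada_nt.Cl
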