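import Pool.Agent.P.MP_8c9ada_nt.Lower

/-! Congruences for the reduced polynomials and a lemma on roots of powers of `1 - X`. -/

namespace ZetaLikeMZV

section Lucas

open Polynomial Finset

theorem lucas_block {p : ℕ} [hp : Fact p.Prime] (e : ℕ) : ∀ j i b b' : ℕ, b < p ^ e → b' < p ^ e →
    (j * p ^ e + b).choose (i * p ^ e + b') ≡ j.choose i * b.choose b' [MOD p] := by
  have hp0 := hp.out.pos
  induction e with
  | zero =>
    intro j i b b' h h'
    obtain rfl : b = 0 := by simpa using h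
    obtain rfl : b' = 0 := by simpa using h'
    simp [Nat.ModEq]
  | succ e ih =>
    intro j i b b' h h'
    have h1 : ∀ j b : ℕ, (j * p ^ (e + 1) + b) % p = b % p := fun j b => by
      rw [pow_succ, ← mul_assoc, Nat.mul_add_mod']
    have h2 : ∀ j b : ℕ, (j * p ^ (e + 1) + b) / p = j * p ^ e + b / p := fun j b => by
      rw [pow_succ, ← mul_assoc, add_comm, Nat.add_mul_div_right _ _ hp0, add_comm]
    have h3 := Choose.choose_modEq_choose_mod_mul_choose_div_nat (p := p)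
      (n := j * p ^ (e + 1) + b) (k := i * p ^ (e + 1) + b')
    rw [h1, h1, h2, h2] at h3
    have h4 := ih j i (b / p) (b' / p) (by rwa [Nat.div_lt_iff_lt_mul hp0, ← pow_succ])
      (by rwa [Nat.div_lt_iff_lt_mul hp0, ← pow_succ])
    have h5 := Choose.choose_modEq_choose_mod_mul_choose_div_nat (p := p) (n := b) (k := b')
    refine h3.trans ((h4.mul_left _).trans ?_)
    rw [mul_left_comm]
    exact (h5.symm.mul_left _)

variable {κ : Type*} [Field κ]

theorem choose_block_ne_zero {p : ℕ} [hp : Fact p.Prime] [CharP κ p] {e j i b b' : ℕ}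
    (hb : b < p ^ e) (hb' : b' = 0 ∨ b' = b) (hj : j < p) (hi : i ≤ j) :
    (((j * p ^ e + b).choose (i * p ^ e + b') : ℕ) : κ) ≠ 0 := by
  have h1 := lucas_block (p := p) e j i b b' hb (by omega)
  have h2 : b.choose b' = 1 := by rcases hb' with rfl | rfl <;> simp
  rw [h2, mul_one] at h1
  rw [(CharP.natCast_eq_natCast κ p).mpr h1, Ne, CharP.cast_eq_zero_iff κ p,
    ← hp.out.coprime_iff_not_dvd]
  exact hp.out.coprime_choose_of_lt hj hi

theorem coeff_one_sub_X_pow (b n : ℕ) :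
    ((1 - X : κ[X]) ^ b).coeff n = (b.choose n : κ) * (-1) ^ n := by
  have : (1 - X : κ[X]) ^ b = ((1 + X) ^ b).comp (C (-1) * X) := by
    simp [sub_eq_add_neg]
  rw [this, comp_C_mul_X_coeff, coeff_one_add_X_pow]

theorem natDegree_one_sub_X_pow (b : ℕ) : ((1 - X : κ[X]) ^ b).natDegree = b := by
  rw [natDegree_pow, ← C_1, natDegree_C_sub_X, mul_one]

theorem X_pow_dvd_of_mod {p : ℕ} [Fact p.Prime] [CharP κ p] (e a : ℕ) :
    X ^ p ^ e ∣ (1 - X : κ[X]) ^ a - (1 - X) ^ (a % p ^ e) := by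
  conv_rhs => rw [← Nat.div_add_mod a (p ^ e), pow_add, pow_mul, sub_pow_char_pow, one_pow,
    Nat.div_add_mod]
  have h := sub_dvd_pow_sub_pow (1 - X ^ p ^ e : κ[X]) 1 (a / p ^ e)
  rw [sub_sub_cancel_left, neg_dvd, one_pow] at h
  obtain ⟨u, hu⟩ := h
  exact ⟨u * (1 - X) ^ (a % p ^ e), by linear_combination (1 - X) ^ (a % p ^ e) * hu⟩

variable (F : Type*) [Field F] [Fintype F] [Algebra F κ]

theorem dvd_sub_of_pow {H B : κ[X]} {L : ℕ} (h0 : H.coeff 0 = B.coeff 0) (hB : B.coeff 0 ≠ 0)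
    (h : X ^ L ∣ H ^ (qq F - 1) - B ^ (qq F - 1)) : X ^ L ∣ H - B := by
  have hq := one_lt_qq F
  obtain ⟨r, hr⟩ : ∃ r, qq F = r + 2 := ⟨qq F - 2, by omega⟩
  have h1 : (H - B) ^ (r + 2) = H ^ (r + 2) - B ^ (r + 2) := hr ▸ sub_pow_qq F H B
  rw [hr, show r + 2 - 1 = r + 1 by omega] at h
  have h2 : X ^ L ∣ ((H - B) ^ (r + 1) - B ^ (r + 1)) * (H - B) := by
    obtain ⟨u, hu⟩ := h
    exact ⟨H * u, by linear_combination h1 + H * hu⟩
  refine prime_X.pow_dvd_of_dvd_mul_left L ?_ h2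
  rw [X_dvd_iff, coeff_sub, coeff_zero_eq_eval_zero, coeff_zero_eq_eval_zero, eval_pow, eval_pow,
    ← coeff_zero_eq_eval_zero, ← coeff_zero_eq_eval_zero, coeff_sub, h0]
  simp [hB]

theorem root_lemma {p f : ℕ} [hp : Fact p.Prime] [CharP κ p] (hpq : qq F = p ^ f)
    (hq3 : 3 ≤ qq F) {H : κ[X]} {c : κ} (hc : c ≠ 0) {s L : ℕ}
    (h : X ^ L ∣ H ^ (qq F - 1) - C c * (1 - X) ^ s) (hD : (qq F - 1) * H.natDegree < s) :
    (∃ e, L ≤ p ^ e ∧ p ^ e ≤ s) ∨ qq F ^ 2 * L ≤ (qq F ^ 2 - 1) * s := by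
  have hp1 := hp.out.one_lt
  by_cases hL : L ≤ 1
  · exact Or.inl ⟨0, by simpa using hL, by simp; omega⟩
  set q := qq F with hqd
  set D := H.natDegree with hDd
  obtain ⟨r, hr⟩ : ∃ r, q = r + 3 := ⟨q - 3, by omega⟩
  have hq1 : q - 1 = r + 2 := by omega
  have hq2 : q ^ 2 - 1 = (r + 2) * (r + 4) := by
    rw [hr]; apply Nat.sub_eq_of_eq_add; ring
  set e := Nat.log p (L - 1) with he
  have he1 : p ^ e ≤ L - 1 := Nat.pow_log_le_self p (by omega)
  have he2 : L - 1 < p ^ (e + 1) := Nat.lt_pow_succ_log_self hp1 _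
  have hf : f ≠ 0 := by rintro rfl; simp at hpq; omega
  have hco : Nat.Coprime (q - 1) (p ^ (e + 1)) := by
    apply Nat.Coprime.pow_right
    have h1 : Nat.Coprime (q - 1) q := by
      rw [hq1, hr, show r + 3 = r + 2 + 1 by ring]
      exact Nat.coprime_self_add_right.mpr (Nat.coprime_one_right _)
    exact h1.coprime_dvd_right (hpq ▸ dvd_pow_self p hf)
  obtain ⟨b, hb, hbs⟩ := Nat.exists_mul_mod_eq_of_coprime s hco (by positivity)
  have h1 : X ^ L ∣ (1 - X : κ[X]) ^ s - (1 - X) ^ ((q - 1) * b) := by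
    refine (pow_dvd_pow X (by omega : L ≤ p ^ (e + 1))).trans ?_
    have h2 := X_pow_dvd_of_mod (κ := κ) (p := p) (e + 1) s
    have h3 := X_pow_dvd_of_mod (κ := κ) (p := p) (e + 1) ((q - 1) * b)
    rw [hbs] at h3
    simpa using dvd_sub h2 h3
  have h0 : H.coeff 0 ^ (q - 1) = c := by
    have := X_pow_dvd_iff.mp h 0 (by omega)
    rw [coeff_sub, coeff_C_mul, coeff_one_sub_X_pow, coeff_zero_eq_eval_zero, eval_pow,
      ← coeff_zero_eq_eval_zero] at this
    simpa [sub_eq_zero] using this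
  have hH0 : H.coeff 0 ≠ 0 := by
    intro h2; rw [h2, zero_pow (by omega)] at h0; exact hc h0.symm
  have hU : X ^ L ∣ H - C (H.coeff 0) * (1 - X) ^ b := by
    apply dvd_sub_of_pow F (by simp [coeff_one_sub_X_pow]) (by simpa [coeff_one_sub_X_pow])
    rw [mul_pow, ← C_pow, h0, ← pow_mul, mul_comm b]
    have := dvd_add h (h1.mul_left (C c))
    convert this using 1
    ring
  have hco' : ∀ n < L, (b.choose n : κ) ≠ 0 → n ≤ D := by
    intro n hn h2
    apply le_natDegree_of_ne_zero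
    have := X_pow_dvd_iff.mp hU n hn
    rw [coeff_sub, coeff_C_mul, coeff_one_sub_X_pow, sub_eq_zero] at this
    rw [this]
    simp [hH0, h2]
  by_cases hLD : L ≤ D
  · right
    rw [hq2, hr]; rw [hq1] at hD
    calc (r + 3) ^ 2 * L ≤ (r + 3) ^ 2 * D := Nat.mul_le_mul_left _ hLD
      _ ≤ ((r + 2) * (r + 4) * (r + 2)) * D := Nat.mul_le_mul_right _ (by nlinarith)
      _ = (r + 2) * (r + 4) * ((r + 2) * D) := by ring
      _ ≤ _ := Nat.mul_le_mul_left _ hD.le
  by_cases hLb : b < L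
  · left
    have h2 : H - C (H.coeff 0) * (1 - X) ^ b = 0 := by
      apply eq_zero_of_dvd_of_natDegree_lt hU
      rw [natDegree_X_pow]
      refine lt_of_le_of_lt (natDegree_sub_le _ _) (max_lt (by omega) ?_)
      rw [natDegree_C_mul hH0, natDegree_one_sub_X_pow]; exact hLb
    have h3 : D = b := by
      rw [hDd, sub_eq_zero.mp h2, natDegree_C_mul hH0, natDegree_one_sub_X_pow]
    refine ⟨e + 1, by omega, ?_⟩
    rw [h3] at hD
    have h4 := (Nat.modEq_iff_dvd' hD.le).mp hbs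
    have h5 := Nat.le_of_dvd (by omega) h4
    omega
  right
  set P := p ^ e with hP
  have hP0 : 0 < P := by positivity
  obtain ⟨j, b', hb', rfl⟩ : ∃ j b', b' < P ∧ b = j * P + b' :=
    ⟨b / P, b % P, Nat.mod_lt _ hP0, (Nat.div_add_mod' b P).symm⟩
  have hj : j < p := by
    rw [pow_succ] at hb
    by_contra hc
    push Not at hc
    nlinarith
  obtain ⟨i, i', hi', hi⟩ : ∃ i i', i' < P ∧ L - 1 = i * P + i' :=
    ⟨(L - 1) / P, (L - 1) % P, Nat.mod_lt _ hP0, (Nat.div_add_mod' _ P).symm⟩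
  have hi1 : 1 ≤ i := by
    by_contra hc
    obtain rfl : i = 0 := by omega
    omega
  have hij : i ≤ j := by
    by_contra hc
    push Not at hc
    have : (j + 1) * P ≤ i * P := Nat.mul_le_mul_right _ hc
    rw [add_mul] at this
    omega
  have h2 : i * P ≤ D := hco' _ (by omega)
    (by simpa using choose_block_ne_zero (κ := κ) hb' (Or.inl rfl) hj hij)
  have h3 : P ≤ i * P := Nat.le_mul_of_pos_left _ hi1
  rcases r with _ | r
  · have hp3 : p = 3 := by
      have h4 : p ∣ 3 := by rw [← show q = 3 by omega, hpq]; exact dvd_pow_self p hf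
      exact (Nat.prime_dvd_prime_iff_eq hp.out Nat.prime_three).mp h4
    have h4 : P + b' < L → P + b' ≤ D := fun h4 => hco' _ h4
      (by simpa using choose_block_ne_zero (κ := κ) hb' (Or.inr rfl) hj (hi1.trans hij))
    rw [hq2, hr]
    rw [hq1] at hD hbs
    rw [pow_succ, ← hP, hp3] at hbs
    have hj' : j = 1 ∨ j = 2 := by omega
    by_cases h5 : 2 * (j * P + b') ≤ s
    · omega
    · have h6 := (Nat.modEq_iff_dvd' (by omega : s ≤ 2 * (j * P + b'))).mp hbs.symm
      obtain ⟨u, hu⟩ := h6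
      have hu1 : u = 1 := by
        rcases u with _ | _ | u
        · omega
        · rfl
        · exfalso
          have : P * 3 * 2 ≤ P * 3 * (u + 1 + 1) := Nat.mul_le_mul_left _ (by omega)
          rcases hj' with rfl | rfl <;> omega
      subst hu1
      rcases hj' with rfl | rfl <;> omega
  · rw [hq2, hr]; rw [hq1] at hD
    have h4 : L ≤ 2 * D := by omega
    calc (r + 1 + 3) ^ 2 * L ≤ (r + 1 + 3) ^ 2 * (2 * D) := Nat.mul_le_mul_left _ h4
      _ = ((r + 1 + 3) ^ 2 * 2) * D := by ring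
      _ ≤ ((r + 1 + 2) * (r + 1 + 4) * (r + 1 + 2)) * D :=
        Nat.mul_le_mul_right _ (by nlinarith)
      _ = (r + 1 + 2) * (r + 1 + 4) * ((r + 1 + 2) * D) := by ring
      _ ≤ _ := Nat.mul_le_mul_left _ hD.le

end Lucas

section Fil

open PowerSeries Finset

variable {κ : Type*} [Field κ]

/-- The coefficient of `x^n` is divisible by `η^(n - a)`. -/
def Fil (f : (Polynomial κ)⟦X⟧) (a : ℕ) : Prop :=
  ∀ n, Polynomial.X ^ (n - a) ∣ coeff n f

theorem Fil.mul {f g : (Polynomial κ)⟦X⟧} {a b : ℕ} (hf : Fil f a) (hg : Fil g b) :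
    Fil (f * g) (a + b) := by
  intro n
  rw [coeff_mul]
  apply dvd_sum
  intro x hx
  have h1 := mem_antidiagonal.mp hx
  refine (pow_dvd_pow _ (by omega : n - (a + b) ≤ (x.1 - a) + (x.2 - b))).trans ?_
  rw [pow_add]
  exact mul_dvd_mul (hf _) (hg _)

theorem Fil.sub {f g : (Polynomial κ)⟦X⟧} {a : ℕ} (hf : Fil f a) (hg : Fil g a) :
    Fil (f - g) a := fun n => by rw [map_sub]; exact dvd_sub (hf n) (hg n)

theorem Fil.mono {f : (Polynomial κ)⟦X⟧} {a b : ℕ} (hf : Fil f a) (h : a ≤ b) : Fil f b :=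
  fun n => (pow_dvd_pow _ (by omega)).trans (hf n)

theorem Fil_Th (f : κ⟦X⟧) : Fil (Th κ f) 0 := fun n => by
  rw [coeff_Th]; exact Dvd.intro _ rfl

theorem Fil_one_sub_X_pow (k : ℕ) : ∀ n, k < n →
    coeff n ((1 - X : (Polynomial κ)⟦X⟧) ^ k) = 0 := by
  induction k with
  | zero => intro n hn; rw [pow_zero, coeff_one, if_neg (by omega)]
  | succ k ih =>
    intro n hn
    obtain ⟨n, rfl⟩ : ∃ m, n = m + 1 := ⟨n - 1, by omega⟩
    rw [pow_succ', sub_mul, one_mul, map_sub, coeff_succ_X_mul, ih _ (by omega), ih _ (by omega),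
      sub_zero]

theorem Fil_pow (k : ℕ) : Fil ((1 - X : (Polynomial κ)⟦X⟧) ^ k) k := fun n => by
  by_cases h : k < n
  · rw [Fil_one_sub_X_pow k n h]; exact dvd_zero _
  · rw [show n - k = 0 by omega, pow_zero]; exact one_dvd _

theorem Fil_diff {z : (Polynomial κ)⟦X⟧} (hz : Fil z 0) (k : ℕ) :
    Fil ((1 - X - z) ^ (k + 1) - (1 - X) ^ (k + 1)) k := by
  have h1 : Fil (1 - X - z) 1 := by
    have := Fil_pow (κ := κ) 1
    rw [pow_one] at this
    exact this.sub (hz.mono (by omega))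
  induction k with
  | zero =>
    have : (1 - X - z) ^ (0 + 1) - (1 - X) ^ (0 + 1) = 0 - z := by ring
    rw [this]
    exact Fil.sub (fun n => by simp) hz
  | succ k ih =>
    have : (1 - X - z) ^ (k + 1 + 1) - (1 - X) ^ (k + 1 + 1) =
        ((1 - X - z) ^ (k + 1) - (1 - X) ^ (k + 1)) * (1 - X - z) - (1 - X) ^ (k + 1) * z := by
      ring
    rw [this]
    have h2 := Fil.mul (Fil_pow (κ := κ) (k + 1)) hz
    rw [add_zero] at h2
    exact (ih.mul h1).sub h2

variable (F : Type*) [Field F] [Fintype F] [Algebra F κ]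

theorem hb_step (n : ℕ) : Polynomial.X ^ (n + 2) ∣ hh (qq F) (gb F κ) (n + (qq F - 1)) -
    (1 - Polynomial.X ^ qq F) * hh (qq F) (gb F κ) n := by
  have hq := one_lt_qq F
  obtain ⟨r, hr⟩ : ∃ r, qq F = r + 2 := ⟨qq F - 2, by omega⟩
  set z := Th κ (phi F κ - X) with hz
  have h1 : z ^ qq F = z - C (Polynomial.X ^ qq F) * X ^ qq F := by
    have h2 : Th κ X = C Polynomial.X * X := by simp [Th, rescale_X]
    rw [hz, ← map_pow, sub_pow_qq F, phi_pow_qq, map_sub _ _ (X ^ qq F), map_pow, h2, mul_pow,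
      map_pow]
  have h2 := mul_geo (constantCoeff_GG hq (gb F κ))
  set U := geo (GG (qq F) (gb F κ)) with hU
  rw [GG_gb, ← hz, ← sub_sub] at h2
  have h3 : (1 - X - z) ^ qq F = 1 - X ^ qq F - z ^ qq F := by
    rw [sub_pow_qq F, sub_pow_qq F, one_pow]
  rw [h1, hr] at h3
  have h4 : X * U - C (1 - Polynomial.X ^ (r + 2)) * (X ^ (r + 2) * U) =
      ((1 - X - z) ^ (r + 1) - (1 - X) ^ (r + 1)) + (1 - X) ^ (r + 1) - 1 := by
    rw [map_sub, map_one]
    linear_combination (-U) * h3 + ((1 - X - z) ^ (r + 1) - 1) * h2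
  have h5 := congrArg (coeff (n + (r + 2))) h4
  rw [map_sub, coeff_C_mul, map_sub _ _ 1, map_add, coeff_X_pow_mul, Fil_one_sub_X_pow _ _ (by omega),
    coeff_one, if_neg (by omega), show n + (r + 2) = n + (r + 1) + 1 by ring,
    coeff_succ_X_mul] at h5
  have h6 := Fil_diff (Fil_Th (phi F κ - X)) r (n + (r + 1) + 1)
  rw [show n + (r + 1) + 1 - r = n + 2 by omega, ← hz] at h6
  rw [hh, hh, ← hU, hr, show r + 2 - 1 = r + 1 by omega, h5]
  simpa using h6

theorem hb_steps (n j : ℕ) : Polynomial.X ^ (n + 2) ∣ hh (qq F) (gb F κ) (n + j * (qq F - 1)) -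
    (1 - Polynomial.X ^ qq F) ^ j * hh (qq F) (gb F κ) n := by
  induction j with
  | zero => simp
  | succ j ih =>
    have h1 := (pow_dvd_pow Polynomial.X (by omega : n + 2 ≤ n + j * (qq F - 1) + 2)).trans
      (hb_step (κ := κ) F (n + j * (qq F - 1)))
    have h2 := dvd_add h1 (ih.mul_left (1 - Polynomial.X ^ qq F))
    convert h2 using 1
    rw [add_mul, one_mul, ← add_assoc]
    ring

omit [Algebra F κ] in
theorem natDegree_hb (n : ℕ) : (hh (qq F) (gb F κ) n).natDegree ≤ n := by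
  have hq := one_lt_qq F
  have := natDegree_coeff_geo (constantCoeff_GG hq (gb F κ)) (a := 1) (b := 1) (fun j => by
    by_cases hj : ∃ i, qq F ^ i = j
    · obtain ⟨i, rfl⟩ := hj
      rw [coeff_GG_pow hq, gb]
      split_ifs <;> simp
    · push Not at hj
      simp [coeff_GG_of_ne _ hj]) n
  simpa [hh] using this

end Fil

end ZetaLikeMZV
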