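import Pool.Agent.P.MP_8c9ada_nt.Upa

/-! The upper bound `s₂ ≤ (q ^ 2 - 1) s₁` by reduction at the Gauss point `|Y| = |t| ^ q`. -/

namespace ZetaLikeMZV

open Polynomial Finset WithZero Filter

section Generic

variable {R : Type*} [CommRing R]

theorem pow_dvd_coeff_geo {φ : PowerSeries R} (hφ : PowerSeries.constantCoeff φ = 0) {ε : R}
    (h : ∀ j, ε ^ (j + 2) ∣ PowerSeries.coeff (j + 1) φ) (k : ℕ) :
    ε ^ (k + 2) ∣ PowerSeries.coeff (k + 1) (geo φ) := by
  induction k using Nat.strong_induction_on with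
  | _ k ih =>
    rw [coeff_succ_geo hφ]
    apply dvd_sum
    intro i hi
    have hi' := mem_range.mp hi
    have h1 : ε ^ (k - i) ∣ PowerSeries.coeff (k - i) (geo φ) := by
      rcases Nat.eq_zero_or_pos (k - i) with h0 | h0
      · rw [h0, pow_zero]; exact one_dvd _
      · obtain ⟨l, hl⟩ : ∃ l, k - i = l + 1 := ⟨k - i - 1, by omega⟩
        rw [hl]
        exact (pow_dvd_pow _ (by omega)).trans (ih l (by omega))
    rw [show k + 2 = (i + 2) + (k - i) by omega, pow_add]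
    exact mul_dvd_mul (h i) h1

theorem hh_rescale {q : ℕ} (hq : 1 < q) (g : ℕ → R) (a : R) (n : ℕ) :
    hh q (fun i => g i * a ^ q ^ i) n = a ^ n * hh q g n := by
  rw [hh, hh, ← rescale_GG, ← rescale_geo _ (constantCoeff_GG hq g), PowerSeries.coeff_rescale]

theorem hh_mul_of_zero {q : ℕ} (hq : 1 < q) {g : ℕ → R} (h0 : g 0 = 0) (k : ℕ) :
    hh q g (q * k) = hh q (fun i => g (i + 1)) k := by
  have hq0 : q ≠ 0 := by omega
  have h1 : GG q g = PowerSeries.expand q hq0 (GG q (fun i => g (i + 1))) := by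
    ext n
    rw [PowerSeries.coeff_expand]
    by_cases hn : ∃ i, q ^ i = n
    · obtain ⟨i, rfl⟩ := hn
      rw [coeff_GG_pow hq]
      rcases i with _ | i
      · rw [if_neg (by simp; omega), h0]
      · rw [if_pos (dvd_pow_self _ (by omega)), pow_succ, Nat.mul_div_cancel _ (by omega),
          coeff_GG_pow hq]
    · push Not at hn
      rw [coeff_GG_of_ne _ hn]
      split_ifs with h
      · obtain ⟨m, rfl⟩ := h
        rw [Nat.mul_div_cancel_left _ (by omega)]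
        symm
        apply coeff_GG_of_ne
        intro i hi
        exact hn (i + 1) (by rw [pow_succ', hi])
      · rfl
  have h2 : PowerSeries.expand q hq0 (geo (GG q (fun i => g (i + 1)))) = geo (GG q g) := by
    apply geo_unique (constantCoeff_GG hq g)
    have := congrArg (PowerSeries.expand q hq0) (mul_geo (constantCoeff_GG hq (fun i => g (i + 1))))
    rwa [map_mul, map_sub, map_one, ← h1] at this
  rw [hh, hh, ← h2, PowerSeries.coeff_expand_mul]

end Generic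

section Scale

variable {K Γ : Type*} [Field K] [LinearOrderedCommGroupWithZero Γ] {v : Valuation K Γ}

theorem Red_scale {f : K[X]} {a b : K} {g g' : (kk v)[X]} (ha : a ≠ 0) (h : Red v (C a * f) g)
    (hg : g ≠ 0) (h' : Red v (C b * f) g') : ∃ ρ, g' = C ρ * g := by
  obtain ⟨j, hj⟩ : ∃ j, g.coeff j ≠ 0 := ⟨_, leadingCoeff_ne_zero.mpr hg⟩
  obtain ⟨h1, h2⟩ := h.coeff j
  rw [h2, Ne, res_eq_zero_iff h1, not_lt] at hj
  have h3 := le_antisymm h1 hj
  have h4 := (h'.coeff j).1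
  have h5 : (Polynomial.C b * f).coeff j = (b * a⁻¹) * (Polynomial.C a * f).coeff j := by
    rw [coeff_C_mul, coeff_C_mul]; field_simp
  rw [h5, map_mul, h3, mul_one] at h4
  refine ⟨res v (b * a⁻¹), h'.unique ?_⟩
  have := (Red.C h4).mul h
  rwa [← mul_assoc, ← C_mul, inv_mul_cancel_right₀ ha] at this

theorem exists_normalize₂ {f : K[X]} (g : K[X]) (hf : f ≠ 0) : ∃ μ : K, μ ≠ 0 ∧
    (∀ n, v (f.coeff n) ≤ v μ) ∧ (∀ n, v (g.coeff n) ≤ v μ) ∧
    ((∃ n, f.coeff n = μ) ∨ ∃ n, g.coeff n = μ) := by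
  obtain ⟨n, h1, h2⟩ := exists_normalize (v := v) hf
  by_cases hg : g = 0
  · exact ⟨_, h1, h2, by simp [hg], Or.inl ⟨n, rfl⟩⟩
  obtain ⟨m, h3, h4⟩ := exists_normalize (v := v) hg
  rcases le_total (v (f.coeff n)) (v (g.coeff m)) with h | h
  · exact ⟨_, h3, fun k => (h2 k).trans h, h4, Or.inr ⟨m, rfl⟩⟩
  · exact ⟨_, h1, h2, fun k => (h4 k).trans h, Or.inl ⟨n, rfl⟩⟩

end Scale

variable (F : Type*) [Field F] [Fintype F]

theorem hK_frob (n : ℕ) : hK F (n + (n + 1) * (qq F - 1)) = hK F n ^ qq F := by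
  have hq := one_lt_qq F
  rw [← sub_eq_zero]
  apply eq_zero_of_eventually_TT
  refine Eventually.of_forall (fun d => ?_)
  have h1 : n + (n + 1) * (qq F - 1) + 1 = (n + 1) * qq F := by
    obtain ⟨r, hr⟩ : ∃ r, qq F = r + 1 := ⟨qq F - 1, by omega⟩
    rw [hr]; simp only [Nat.add_sub_cancel]; ring
  have h2 := Sd_eq F (n + (n + 1) * (qq F - 1)) d
  have h3 : Sd F ((n + 1) * qq F) d = Sd F (n + 1) d ^ qq F := by
    simp only [Sd, sum_pow_qq F, pow_mul, inv_pow]
  rw [h1, h3, Sd_eq, mul_pow, ← pow_mul] at h2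
  rw [eval_sub, eval_pow, sub_eq_zero]
  exact (mul_right_cancel₀ (pow_ne_zero _ (uu_ne_zero F d)) h2).symm

theorem hK_frob_pow (r n : ℕ) : hK F (qq F ^ r * (n + 1) - 1) = hK F n ^ qq F ^ r := by
  have hq := one_lt_qq F
  induction r with
  | zero => simp
  | succ r ih =>
    rw [pow_succ (qq F) r, pow_mul, ← ih, ← hK_frob]
    congr 1
    have h1 : 0 < qq F ^ r * (n + 1) := by positivity
    obtain ⟨a, ha⟩ : ∃ a, qq F ^ r * (n + 1) = a + 1 := ⟨_, (Nat.sub_add_cancel h1).symm⟩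
    obtain ⟨s, hs⟩ : ∃ s, qq F = s + 1 := ⟨qq F - 1, by omega⟩
    rw [mul_right_comm, ha, hs]
    simp only [Nat.add_sub_cancel]
    apply Nat.sub_eq_of_eq_add
    ring

theorem hK_ne_zero (n : ℕ) : hK F n ≠ 0 := by
  intro h
  have := Sd_eq F n 0
  rw [h, Sd_zero] at this
  simp at this

theorem expand_PK {n : ℕ} (hdiv : qq F - 1 ∣ n + 1) :
    expand (RatFunc F) (qq F) (PK F (n + 1)) =
      expand (RatFunc F) (qq F) (C RatFunc.X - X) ^ (n + 1) * (PK F (n + 1) + hK F n) := by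
  rw [← sub_eq_zero]
  apply eq_zero_of_eventually_TT
  refine Eventually.of_forall (fun d => ?_)
  have h1 := Slt_succ F (n + 1) d
  rw [Slt_eq F (by omega) hdiv, Slt_eq F (by omega) hdiv, Sd_eq, ← uu_succ F d, mul_pow] at h1
  simp only [eval_sub, eval_mul, eval_pow, eval_add, expand_eval, eval_C, eval_X, ← TT_succ]
  apply mul_right_cancel₀ (pow_ne_zero (n + 1) (uu_ne_zero F (d + 1)))
  linear_combination h1

theorem pow_dvd_gK (i : ℕ) : (C RatFunc.X - X) ^ qq F ^ (i + 1) ∣ gK F (i + 1) := by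
  induction i with
  | zero =>
    rw [gK_succ, zero_add, pow_one, sub_pow_qq F, ← C_pow, TT, pow_one]
    exact (dvd_mul_left _ _).mul_right _
  | succ i ih =>
    rw [gK_succ, pow_succ, pow_mul]
    exact ((pow_dvd_pow_of_dvd ih _).mul_right _).mul_right _

theorem pow_dvd_PK (k : ℕ) : (C RatFunc.X - X) ^ (k + 2) ∣ PK F (k + 1) := by
  apply pow_dvd_coeff_geo (constantCoeff_GP _ _)
  intro j
  rw [coeff_succ_GP, dvd_neg]
  by_cases hj : ∃ i, qq F ^ i = j + 2
  · obtain ⟨i, hi⟩ := hj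
    rcases i with _ | i
    · simp at hi
    · rw [← hi, coeff_GG_pow (one_lt_qq F)]
      exact pow_dvd_gK F i
  · push Not at hj
    rw [coeff_GG_of_ne _ hj]
    exact dvd_zero _

theorem expand_gK (i : ℕ) : expand (RatFunc F) (qq F) (gK F (i + 1)) =
    expand (RatFunc F) (qq F) (C RatFunc.X - X) ^ qq F ^ (i + 1) * gK F i ^ qq F *
      C (TT F (i + 1) - RatFunc.X)⁻¹ := by
  rw [← sub_eq_zero]
  apply eq_zero_of_eventually_TT
  refine Eventually.of_forall (fun d => ?_)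
  have h1 := gK_R3 F (TT F d) i
  have h0 := TT_sub_X_ne_zero F i
  simp only [eval_sub, eval_mul, eval_pow, expand_eval, eval_C, eval_X]
  rw [sub_pow_qq_pow F, ← pow_mul, ← pow_succ', ← TT, ← h1]
  field_simp
  ring

/-- The substitution `Y = t^q (1 - η^q)`. -/
noncomputable def sig2 : (RatFunc F)[X] →+* (RatFunc F)[X] :=
  (sig F).comp (expand (RatFunc F) (qq F)).toRingHom

theorem sig2_apply (f : (RatFunc F)[X]) : sig2 F f = sig F (expand (RatFunc F) (qq F) f) := rfl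

theorem sig2_eq (f : (RatFunc F)[X]) :
    sig2 F f = (f.comp (C (TT F 1) * X)).comp (1 - X ^ qq F) := by
  rw [sig2_apply, sig_apply, expand_eq_comp_X_pow, comp_assoc, comp_assoc]
  congr 1
  simp [mul_pow, sub_pow_qq F, TT]

theorem TT_ne_zero (i : ℕ) : TT F i ≠ 0 := pow_ne_zero _ RatFunc.X_ne_zero

theorem sig2_C_sub_X : sig2 F (C RatFunc.X - X) =
    C (- TT F 1) * (1 - X ^ qq F - C (RatFunc.X * (TT F 1)⁻¹)) := by
  have h : (C (TT F 1) : (RatFunc F)[X]) * C (TT F 1)⁻¹ = 1 := by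
    rw [← C_mul, mul_inv_cancel₀ (TT_ne_zero F 1), C_1]
  rw [sig2_eq]
  simp only [sub_comp, C_comp, X_comp, mul_comp, map_neg, map_mul]
  linear_combination (- C RatFunc.X) * h

omit [Field F] in
theorem comp_om_eq_zero (hq : 1 < qq F) {κ : Type*} [Field κ] {f : κ[X]}
    (h : f.comp (1 - X ^ qq F) = 0) : f = 0 := by
  rcases comp_eq_zero_iff.mp h with h1 | ⟨_, h1⟩
  · exact h1
  · have := congrArg (fun p => p.coeff (qq F)) h1
    rw [coeff_C, coeff_sub, coeff_one, coeff_X_pow, if_neg (by omega : ¬ qq F = 0),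
      if_neg (by omega : ¬ qq F = 0)] at this
    simp at this

/-- The reductions at the second Gauss point. -/
noncomputable def gb2 (κ : Type*) [Field κ] : ℕ → κ[X]
  | 0 => 0
  | i + 1 => gb F κ i ^ qq F * ((- (1 - X ^ qq F)) ^ qq F) ^ qq F ^ i

variable [DecidableEq (RatFunc F)]

theorem v_a_lt : RatFunc.inftyValuation F (RatFunc.X * (TT F 1)⁻¹) < 1 := by
  rw [map_mul, map_inv₀, v_TT, RatFunc.inftyValuation.X, ← exp_neg, ← exp_add, ← exp_zero,
    exp_lt_exp, pow_one]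
  have := one_lt_qq F
  omega

theorem Red_tau : Red (RatFunc.inftyValuation F) (1 - X ^ qq F - C (RatFunc.X * (TT F 1)⁻¹))
    (1 - X ^ qq F) := by
  simpa using (Red.one.sub (Red.X.pow (qq F))).sub (Red.C_small (v_a_lt F))

theorem Red_gK2 (i : ℕ) : Red (RatFunc.inftyValuation F)
    (sig2 F (gK F i) * C (RatFunc.X * (TT F 1)⁻¹) ^ qq F ^ i)
    (gb2 F (kk (RatFunc.inftyValuation F)) i) := by
  have hq := one_lt_qq F
  rcases i with _ | i
  · simpa [gK_zero, gb2] using Red.C_small (v_a_lt F)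
  · have h0 := TT_sub_X_ne_zero F i
    have h1 : sig2 F (gK F (i + 1)) * C (RatFunc.X * (TT F 1)⁻¹) ^ qq F ^ (i + 1) =
        sig F (gK F i) ^ qq F * ((0 - (1 - X ^ qq F - C (RatFunc.X * (TT F 1)⁻¹))) ^ qq F) ^
          qq F ^ i * C (TT F (i + 1) * (TT F (i + 1) - RatFunc.X)⁻¹) := by
      have h2 : (C (- TT F 1) : (RatFunc F)[X]) * C (RatFunc.X * (TT F 1)⁻¹) = - C RatFunc.X := by
        rw [← C_mul, ← C_neg]; congr 1; field_simp [TT_ne_zero F 1]
      have h3 : sig F (C (TT F (i + 1) - RatFunc.X)⁻¹) = C (TT F (i + 1) - RatFunc.X)⁻¹ := by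
        simp [sig_apply]
      rw [sig2_apply, expand_gK, map_mul, map_mul, map_pow, map_pow, ← sig2_apply, sig2_C_sub_X,
        h3, ← pow_mul, ← pow_succ', map_mul C (TT F (i + 1)),
        show C (TT F (i + 1)) = (C RatFunc.X : (RatFunc F)[X]) ^ qq F ^ (i + 1) from C_pow]
      have h4 : (C (-TT F 1) * (1 - X ^ qq F - C (RatFunc.X * (TT F 1)⁻¹))) ^ qq F ^ (i + 1) *
          C (RatFunc.X * (TT F 1)⁻¹) ^ qq F ^ (i + 1) =
          (0 - (1 - X ^ qq F - C (RatFunc.X * (TT F 1)⁻¹))) ^ qq F ^ (i + 1) *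
            C RatFunc.X ^ qq F ^ (i + 1) := by
        rw [← mul_pow, ← mul_pow]
        congr 1
        linear_combination (1 - X ^ qq F - C (RatFunc.X * (TT F 1)⁻¹)) * h2
      linear_combination (sig F (gK F i) ^ qq F * C (TT F (i + 1) - RatFunc.X)⁻¹) * h4
    rw [h1]
    have h2 : Red (RatFunc.inftyValuation F)
        (C (TT F (i + 1) * (TT F (i + 1) - RatFunc.X)⁻¹)) 1 := by
      apply Red.C_one
      have : TT F (i + 1) * (TT F (i + 1) - RatFunc.X)⁻¹ - 1 =
          RatFunc.X * (TT F (i + 1) - RatFunc.X)⁻¹ := by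
        field_simp; ring
      rw [this]
      exact v_div_lt_one F (N := 1) (by simp)
        (by exact_mod_cast Nat.one_lt_pow (Nat.succ_ne_zero i) hq)
    have h3 := (((Red_gK F i).pow (qq F)).mul
      (((Red.zero.sub (Red_tau F)).pow (qq F)).pow (qq F ^ i))).mul h2
    simpa [gb2] using h3

theorem Red_hK2 (n : ℕ) : Red (RatFunc.inftyValuation F)
    (C ((RatFunc.X * (TT F 1)⁻¹) ^ n) * sig2 F (hK F n))
    (hh (qq F) (gb2 F (kk (RatFunc.inftyValuation F))) n) := by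
  rw [hK, map_hh _ (one_lt_qq F), C_pow, ← hh_rescale (one_lt_qq F)]
  exact Red.hh (one_lt_qq F) (Red_gK2 F) n

theorem hb_pow (n : ℕ) : X ^ (n + 2) ∣
    hh (qq F) (gb F (kk (RatFunc.inftyValuation F))) n ^ (qq F - 1) - (1 - X ^ qq F) ^ (n + 1) := by
  let := algKk F
  have hq := one_lt_qq F
  have h1 := hb_steps (κ := kk (RatFunc.inftyValuation F)) F n (n + 1)
  have h2 := Red_hK F (n + (n + 1) * (qq F - 1))
  rw [hK_frob, map_pow] at h2
  rw [h2.unique ((Red_hK F n).pow _)] at h1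
  refine prime_X.pow_dvd_of_dvd_mul_left (a := hh (qq F) (gb F _) n) _ ?_ ?_
  · rw [X_dvd_iff, coeff_zero_hb]; exact one_ne_zero
  · convert h1 using 1
    conv_rhs => rw [show qq F = (qq F - 1) + 1 by omega, pow_succ]
    rw [show qq F - 1 + 1 = qq F by omega]
    ring

theorem second_red {n m : ℕ} (hdiv : qq F - 1 ∣ m + 1) {c : RatFunc F} {R : (RatFunc F)[X]}
    (hR : (qq F - 1) * R.natDegree < n + 1 + (m + 1))
    (h : hK F n * PK F (m + 1) - C c * hK F (n + (m + 1)) = Top F (n + 1 + (m + 1)) R) :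
    ∃ (μ : RatFunc F) (Ab : (kk (RatFunc.inftyValuation F))[X]) (cb : kk (RatFunc.inftyValuation F)),
      Red (RatFunc.inftyValuation F) (C μ * sig2 F (hK F n)) Ab ∧ Ab ≠ 0 ∧
      X ^ (m + 2) ∣ Ab * hh (qq F) (gb F _) m -
        C cb * (1 - X ^ qq F) ^ (n + 1) * hh (qq F) (gb F _) (n + (m + 1)) := by
  have hq := one_lt_qq F
  set v := RatFunc.inftyValuation F with hv
  set w := n + 1 + (m + 1) with hw
  have hT := TT_ne_zero F 1
  set A₁ := C ((- TT F 1) ^ (n + 1))⁻¹ * sig2 F (hK F n) with hA₁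
  set R₁ := R.comp (C (TT F 1) * X) with hR₁
  have hA0 : A₁ ≠ 0 := by
    refine mul_ne_zero (by simp [hT]) ?_
    intro h0
    rw [sig2_eq] at h0
    have h1 := comp_om_eq_zero F hq h0
    apply hK_ne_zero F n
    ext k
    have := congrArg (fun p => p.coeff k) h1
    simpa [comp_C_mul_X_coeff, hT] using this
  obtain ⟨μ, hμ, h1, h2, h3⟩ := exists_normalize₂ (v := v) (X * R₁ + C c) hA0
  have hμ' : 0 < v μ := (Valuation.pos_iff _).mpr hμ
  have f0 : (X * R₁ + C c).coeff 0 = c := by simp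
  have f1 : ∀ k, (X * R₁ + C c).coeff (k + 1) = R₁.coeff k := fun k => by simp [coeff_X_mul]
  have hle : ∀ x, v x ≤ v μ → v (μ⁻¹ * x) ≤ 1 := fun x hx => by
    rwa [map_mul, map_inv₀, inv_mul_le_one₀ hμ']
  obtain ⟨Ab, hAb⟩ := exists_Red (v := v) (f := C μ⁻¹ * A₁)
    (fun k => by rw [coeff_C_mul]; exact hle _ (h1 k))
  obtain ⟨Rb, hRb⟩ := exists_Red (v := v) (f := C μ⁻¹ * R₁)
    (fun k => by rw [coeff_C_mul, ← f1]; exact hle _ (h2 _))
  have hcle : v (μ⁻¹ * c) ≤ 1 := hle _ (f0 ▸ h2 0)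
  have hc := Red.C hcle
  have hom : Red v (1 - X ^ qq F) (1 - X ^ qq F) := Red.one.sub (Red.X.pow _)
  have hE := Red.of_small (v_coeff_expand_lt F hR (a := TT F 1) (μ := μ * (- TT F 1) ^ w)
    (by rw [v_TT, ← exp_zero, exp_lt_exp]; positivity) (by simp [hμ, hT])
    (fun k => by
      have := h2 (k + 1)
      rw [f1, hR₁, comp_C_mul_X_coeff] at this
      rw [map_mul, map_mul _ μ, map_pow, map_pow, Valuation.map_neg, mul_comm]
      exact mul_le_mul' this le_rfl))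
  have hsm : Red v (C (((- TT F 1) ^ w)⁻¹ * ((RatFunc.X * (TT F 1)⁻¹) ^ (n + (m + 1)))⁻¹)) 0 := by
    apply Red.C_small
    rw [map_mul, map_inv₀, map_inv₀, map_pow, map_pow, map_mul, map_inv₀, Valuation.map_neg, v_TT,
      RatFunc.inftyValuation.X, ← exp_neg, ← exp_add, ← exp_nsmul, ← exp_nsmul, ← exp_neg,
      ← exp_neg, ← exp_add, ← exp_zero, exp_lt_exp, hw]
    simp only [nsmul_eq_mul, pow_one]
    push_cast
    have : (1 : ℤ) < qq F := by exact_mod_cast hq
    nlinarith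
  have hL := (hAb.mul (((Red_tau F).pow (m + 1)).mul ((Red_PK F (m + 1)).add (Red_hK F m)))).sub
    (hc.mul (hsm.mul (Red_hK2 F (n + (m + 1)))))
  have hR' := (((Red_tau F).pow w).mul (hRb.comp hom)).sub (hE.comp hom)
  have hs2C : ∀ x, sig2 F (C x) = C x := fun x => by simp [sig2_eq]
  have hsC : ∀ x, sig F (C x) = C x := fun x => by simp [sig_apply]
  have heq : C μ⁻¹ * A₁ * ((1 - X ^ qq F - C (RatFunc.X * (TT F 1)⁻¹)) ^ (m + 1) *
      (sig F (PK F (m + 1)) + sig F (hK F m))) - C (μ⁻¹ * c) *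
      (C (((- TT F 1) ^ w)⁻¹ * ((RatFunc.X * (TT F 1)⁻¹) ^ (n + (m + 1)))⁻¹) *
        (C ((RatFunc.X * (TT F 1)⁻¹) ^ (n + (m + 1))) * sig2 F (hK F (n + (m + 1))))) =
      (1 - X ^ qq F - C (RatFunc.X * (TT F 1)⁻¹)) ^ w * (C μ⁻¹ * R₁).comp (1 - X ^ qq F) -
      (C (μ * (- TT F 1) ^ w)⁻¹ *
        (expand (RatFunc F) (qq F) R).comp (C (TT F 1) * X)).comp (1 - X ^ qq F) := by
    have h4 := congrArg (sig2 F) h
    have h5 : sig2 F (PK F (m + 1)) = sig2 F (C RatFunc.X - X) ^ (m + 1) *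
        (sig F (PK F (m + 1)) + sig F (hK F m)) := by
      rw [sig2_apply, expand_PK F hdiv, map_mul, map_pow, map_add, ← sig2_apply]
    rw [Top, map_sub, map_sub, map_mul, map_mul, map_mul, map_pow, h5, hs2C, sig2_C_sub_X,
      sig2_eq F R, sig2_eq F (expand _ _ R), ← hR₁, mul_pow, mul_pow, ← C_pow, ← C_pow] at h4
    rw [← mul_assoc (C (((- TT F 1) ^ w)⁻¹ * _)), ← C_mul, inv_mul_cancel_right₀ (by simp [hT, RatFunc.X_ne_zero]),
      mul_comp, mul_comp, C_comp, C_comp, hA₁, mul_inv, map_mul C μ⁻¹, map_mul C μ⁻¹]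
    have h6 : (C ((- TT F 1) ^ w)⁻¹ : (RatFunc F)[X]) * C ((- TT F 1) ^ w) = 1 := by
      rw [← C_mul, inv_mul_cancel₀ (by simp [hT]), C_1]
    have h7 : (C ((- TT F 1) ^ w)⁻¹ : (RatFunc F)[X]) * C ((- TT F 1) ^ (m + 1)) =
        C ((- TT F 1) ^ (n + 1))⁻¹ := by
      rw [← C_mul, hw, pow_add, mul_inv, inv_mul_cancel_right₀ (by simp [hT])]
    linear_combination (C μ⁻¹ * C ((- TT F 1) ^ w)⁻¹) * h4 -
      (C μ⁻¹ * sig2 F (hK F n) * (1 - X ^ qq F - C (RatFunc.X * (TT F 1)⁻¹)) ^ (m + 1) *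
        (sig F (PK F (m + 1)) + sig F (hK F m))) * h7 +
      (C μ⁻¹ * (1 - X ^ qq F - C (RatFunc.X * (TT F 1)⁻¹)) ^ w * R₁.comp (1 - X ^ qq F)) * h6
  rw [heq] at hL
  have h5 := hL.unique hR'
  rw [zero_comp, sub_zero, zero_mul, mul_zero, sub_zero] at h5
  have hom0 : (1 - X ^ qq F : (kk v)[X]) ≠ 0 := by
    intro h0
    have := congrArg (fun p => p.coeff 0) h0
    simp only [coeff_sub, coeff_one, coeff_zero, coeff_X_pow] at this
    rw [if_neg (by omega : ¬ 0 = qq F)] at this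
    simp at this
  have h6 : Ab * (PP (qq F) (gb F (kk v)) (m + 1) + hh (qq F) (gb F (kk v)) m) =
      (1 - X ^ qq F) ^ (n + 1) * Rb.comp (1 - X ^ qq F) := by
    apply mul_left_cancel₀ (pow_ne_zero (m + 1) hom0)
    rw [hw, pow_add] at h5
    linear_combination h5
  have hsX : sig F (C RatFunc.X - X) = C RatFunc.X * X := by
    simp only [sig_apply, sub_comp, C_comp, X_comp]; ring
  have hPd : X ^ (m + 2) ∣ sig F (PK F (m + 1)) := by
    have := map_dvd (sig F) (pow_dvd_PK F m)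
    rw [map_pow, hsX, mul_pow] at this
    exact (dvd_mul_left _ _).trans this
  have h7 : X ^ (m + 2) ∣ Rb.comp (1 - X ^ qq F) -
      C (res v (μ⁻¹ * c)) * hh (qq F) (gb F (kk v)) (n + (m + 1)) := by
    refine ((hRb.comp hom).sub (hc.mul (Red_hK F (n + (m + 1))))).X_pow_dvd ?_
    have h8 := congrArg (sig F) h
    rw [Top, map_sub, map_sub, map_mul, map_mul, map_mul, map_pow, hsX, hsC, ← sig2_apply,
      sig2_eq, ← hR₁, mul_pow] at h8
    have h9 : (C μ⁻¹ * R₁).comp (1 - X ^ qq F) - C (μ⁻¹ * c) * sig F (hK F (n + (m + 1))) =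
        C μ⁻¹ * (C RatFunc.X ^ w * X ^ w * sig F R - sig F (hK F n) * sig F (PK F (m + 1))) := by
      rw [mul_comp, C_comp, C_mul]
      linear_combination C μ⁻¹ * h8
    rw [h9]
    refine Dvd.dvd.mul_left (dvd_sub ?_ (hPd.mul_left _)) _
    exact (((pow_dvd_pow X (by omega : m + 2 ≤ w)).mul_left _).mul_right _)
  refine ⟨μ⁻¹ * ((- TT F 1) ^ (n + 1))⁻¹, Ab, res v (μ⁻¹ * c), ?_, ?_, ?_⟩
  · rwa [C_mul, mul_assoc]
  · intro h0
    rw [h0, zero_mul, eq_comm, mul_eq_zero] at h6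
    have h8 := h6.resolve_left (pow_ne_zero _ hom0)
    have h9 : Rb = 0 := comp_om_eq_zero F hq h8
    have h10 : res v (μ⁻¹ * c) = 0 := by
      have := X_pow_dvd_iff.mp h7 0 (by omega)
      rw [h8, zero_sub, coeff_neg, coeff_C_mul, coeff_zero_hb] at this
      simpa using this
    have h11 : v (μ⁻¹ * μ) = 1 := by rw [inv_mul_cancel₀ hμ, map_one]
    rcases h3 with ⟨k, hk⟩ | ⟨k, hk⟩
    · exact hAb.ne_zero (n := k) (by rw [coeff_C_mul, hk]; exact h11) h0
    · rcases k with _ | k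
      · rw [f0] at hk
        rw [res_eq_zero_iff hcle, hk, h11] at h10
        exact lt_irrefl _ h10
      · rw [f1] at hk
        exact hRb.ne_zero (n := k) (by rw [coeff_C_mul, hk]; exact h11) h9
  · have h8 := (Red_PK F (m + 1)).X_pow_dvd hPd
    have h9 := dvd_sub (h7.mul_left ((1 - X ^ qq F) ^ (n + 1))) (h8.mul_left Ab)
    convert h9 using 1
    linear_combination h6

omit [DecidableEq (RatFunc F)] [Field F] in
theorem not_X_dvd_om (hq : 1 < qq F) {κ : Type*} [Field κ] (k : ℕ) :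
    ¬ X ∣ ((1 - X ^ qq F) ^ k : κ[X]) := by
  rw [X_dvd_iff, coeff_zero_eq_eval_zero]
  simp [zero_pow (by omega : qq F ≠ 0)]

theorem second_pow {n m : ℕ} {Ab : (kk (RatFunc.inftyValuation F))[X]}
    {cb : kk (RatFunc.inftyValuation F)}
    (h : X ^ (m + 2) ∣ Ab * hh (qq F) (gb F _) m -
        C cb * (1 - X ^ qq F) ^ (n + 1) * hh (qq F) (gb F _) (n + (m + 1))) :
    X ^ (m + 2) ∣ Ab ^ (qq F - 1) - C (cb ^ (qq F - 1)) * (1 - X ^ qq F) ^ (qq F * (n + 1)) := by
  have hq := one_lt_qq F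
  have h1 := h.trans (sub_dvd_pow_sub_pow _ _ (qq F - 1))
  have h2 := hb_pow F m
  have h3 := (pow_dvd_pow X (by omega : m + 2 ≤ n + (m + 1) + 2)).trans (hb_pow F (n + (m + 1)))
  refine prime_X.pow_dvd_of_dvd_mul_left _ (not_X_dvd_om F hq (m + 1)) ?_
  have h4 := dvd_add (dvd_sub h1 (h2.mul_left (Ab ^ (qq F - 1))))
    (h3.mul_left ((C cb * (1 - X ^ qq F) ^ (n + 1)) ^ (qq F - 1)))
  convert h4 using 1
  obtain ⟨r, hr⟩ : ∃ r, qq F = r + 1 := ⟨qq F - 1, by omega⟩
  have h5 : qq F * (n + 1) = (n + 1) * (qq F - 1) + (n + 1) := by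
    rw [hr]; simp only [Nat.add_sub_cancel]; ring
  rw [h5, C_pow, mul_pow, mul_pow, mul_pow, pow_add _ ((n + 1) * (qq F - 1)), pow_mul]
  ring

theorem no_power {p : ℕ} [hp : Fact p.Prime] [CharP F p] {m w e : ℕ} (hw : w ≤ qq F * m)
    (h : X ^ w ∣ PP (qq F) (gb F (kk (RatFunc.inftyValuation F))) ((qq F - 1) * m))
    (he : (qq F - 1) * m < qq F * p ^ e) : w ≤ qq F * p ^ e := by
  let := algKk F
  have : CharP (kk (RatFunc.inftyValuation F)) p :=
    charP_of_injective_algebraMap (algebraMap F _).injective p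
  have hq := one_lt_qq F
  by_contra hc
  push Not at hc
  have h1 : p ^ e < m := Nat.lt_of_mul_lt_mul_left (lt_of_lt_of_le hc hw)
  have h2 : m < 2 * p ^ e := by
    obtain ⟨r, hr⟩ : ∃ r, qq F = r + 2 := ⟨qq F - 2, by omega⟩
    rw [hr, show r + 2 - 1 = r + 1 by omega] at he
    by_contra h3
    push Not at h3
    nlinarith
  have h3 := coeff_Pb F (κ := kk (RatFunc.inftyValuation F)) (m := m) (M := p ^ e)
    (n := qq F * p ^ e - (qq F - 1) * m) h1.le (by omega)
  rw [X_pow_dvd_iff.mp h _ hc] at h3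
  have h4 := choose_block_ne_zero (κ := kk (RatFunc.inftyValuation F)) (p := p) (e := e) (j := 1)
    (i := 1) (b := m - p ^ e) (b' := 0) (by omega) (Or.inl rfl) hp.out.one_lt le_rfl
  rw [one_mul, add_zero, Nat.add_sub_cancel' h1.le] at h4
  exact mul_ne_zero (pow_ne_zero _ (by simp)) h4 h3.symm

omit [DecidableEq (RatFunc F)] in
theorem hh_gb2 {κ : Type*} [Field κ] (k : ℕ) : hh (qq F) (gb2 F κ) (qq F * k) =
    ((- (1 - X ^ qq F)) ^ qq F) ^ k * expand κ (qq F) (hh (qq F) (gb F κ) k) := by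
  have hq := one_lt_qq F
  rw [hh_mul_of_zero hq rfl]
  simp only [gb2]
  rw [hh_rescale hq]
  congr 1
  have := map_hh (expand κ (qq F)).toRingHom hq (gb F κ) k
  simp only [AlgHom.toRingHom_eq_coe, RingHom.coe_coe] at this
  rw [this]
  congr 1
  funext i
  unfold gb
  split_ifs
  · simp
  · rw [map_pow, expand_X, ← pow_mul, ← pow_mul, mul_comm]

theorem upper_bound {s₁ s₂ : ℕ} (hs₁ : 1 ≤ s₁) (hs₂ : 1 ≤ s₂) (h : ZetaLike F s₁ s₂) :
    s₂ ≤ (qq F ^ 2 - 1) * s₁ := by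
  have hq := one_lt_qq F
  obtain ⟨j, hj1, hj2⟩ := lower_bound F hs₁ hs₂ h
  have hdiv := dvd_of_zetaLike F hs₁ hs₂ h
  obtain ⟨n, rfl⟩ : ∃ n, s₁ = n + 1 := ⟨s₁ - 1, by omega⟩
  obtain ⟨c, R, hR, h1⟩ := (zetaLike_iff_poly F hs₂ hdiv).mp h
  have hP := X_pow_dvd_Pb F hs₂ hR h1
  obtain ⟨m, rfl⟩ : ∃ m, s₂ = m + 1 := ⟨s₂ - 1, by omega⟩
  obtain ⟨μ, Ab, cb, hRed, hAb, h2⟩ := second_red F hdiv hR h1
  have h3 := second_pow F h2
  obtain ⟨p, hchar⟩ := CharP.exists F
  obtain ⟨f, hp, hf⟩ := FiniteField.card F p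
  have : Fact p.Prime := ⟨hp⟩
  let := algKk F
  have : CharP (kk (RatFunc.inftyValuation F)) p :=
    charP_of_injective_algebraMap (algebraMap F _).injective p
  have hN : ∀ e, m + 1 < qq F * p ^ e → n + 1 + (m + 1) ≤ qq F * p ^ e := by
    intro e he
    rw [mul_comm] at hj1
    refine no_power F (m := j) ?_ (hj1 ▸ hP) (hj1 ▸ he)
    obtain ⟨r, hr⟩ : ∃ r, qq F = r + 1 := ⟨qq F - 1, by omega⟩
    rw [hj1, hr]; simp only [Nat.add_sub_cancel]; nlinarith
  have hsub : (qq F ^ 2 - 1) * (n + 1) + (n + 1) = qq F ^ 2 * (n + 1) := by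
    have : 1 ≤ qq F ^ 2 := Nat.one_le_pow _ _ (by omega)
    obtain ⟨r, hr⟩ : ∃ r, qq F ^ 2 = r + 1 := ⟨qq F ^ 2 - 1, by omega⟩
    rw [hr]; simp only [Nat.add_sub_cancel]; ring
  by_cases hq3 : 3 ≤ qq F
  · have hdeg : (qq F - 1) * Ab.natDegree ≤ qq F ^ 2 * n := by
      have h4 : Ab.natDegree ≤ (hK F n).natDegree * qq F := by
        refine hRed.natDegree_le.trans ((natDegree_C_mul_le _ _).trans ?_)
        rw [sig2_apply, sig_apply]
        refine natDegree_comp_le.trans ?_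
        rw [natDegree_expand]
        refine mul_le_of_le_one_right (Nat.zero_le _) ?_
        refine (natDegree_C_mul_le _ _).trans ?_
        rw [← C_1, natDegree_C_sub_X]
      have h5 := natDegree_hK F n
      calc (qq F - 1) * Ab.natDegree ≤ (qq F - 1) * ((hK F n).natDegree * qq F) :=
            Nat.mul_le_mul_left _ h4
        _ = ((qq F - 1) * (hK F n).natDegree) * qq F := by ring
        _ ≤ (qq F * n) * qq F := Nat.mul_le_mul_right _ h5
        _ = _ := by ring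
    have h9 : 9 ≤ qq F ^ 2 := by nlinarith
    by_cases hcb : cb = 0
    · rw [hcb, map_zero, zero_mul, zero_mul, sub_zero, mul_comm] at h2
      have h4 := natDegree_le_of_dvd (prime_X.pow_dvd_of_dvd_mul_left _
        (by rw [X_dvd_iff, coeff_zero_hb]; exact one_ne_zero) h2) hAb
      rw [natDegree_X_pow] at h4
      have h5 : 2 * (m + 2) ≤ (qq F - 1) * Ab.natDegree := Nat.mul_le_mul (by omega) h4
      nlinarith
    · have h4 : (1 - X ^ qq F : (kk (RatFunc.inftyValuation F))[X]) ^ (qq F * (n + 1)) =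
          (1 - X) ^ (qq F ^ 2 * (n + 1)) := by
        rw [pow_two, mul_assoc, pow_mul (1 - X), sub_pow_qq F, one_pow]
      rw [h4] at h3
      rcases root_lemma F hf hq3 (pow_ne_zero _ hcb) h3 (by nlinarith) with ⟨e, h5, h6⟩ | h5
      · by_cases he : (f : ℕ) ≤ e
        · have h7 : p ^ e = qq F * p ^ (e - f) := by
            rw [qq, hf, ← pow_add, Nat.add_sub_cancel' he]
          have := hN (e - f) (by omega)
          omega
        · have h7 : p ^ e ≤ qq F := by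
            rw [qq, hf]; exact Nat.pow_le_pow_right hp.pos (by omega)
          nlinarith
      · rw [mul_left_comm] at h5
        have := Nat.le_of_mul_le_mul_left h5 (by omega)
        omega
  · have hq2 : qq F = 2 := by omega
    have hp2 : p = 2 := by
      have h4 : p ∣ 2 := by rw [← hq2, qq, hf]; exact dvd_pow_self p f.ne_zero
      exact (Nat.prime_dvd_prime_iff_eq hp Nat.prime_two).mp h4
    obtain ⟨r, s, hs, hrs⟩ := Nat.exists_eq_two_pow_mul_odd (n := n + 1) (by omega)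
    obtain ⟨k, rfl⟩ := hs
    have h4 : hK F n = hK F (qq F * k) ^ qq F ^ r := by
      rw [← hK_frob_pow, hq2, ← hrs, Nat.add_sub_cancel]
    have h5 := (Red_hK2 F (qq F * k)).pow (qq F ^ r)
    rw [mul_pow, ← C_pow, ← map_pow, ← h4, hh_gb2] at h5
    set lam := expand (kk (RatFunc.inftyValuation F)) (qq F) (hh (qq F) (gb F _) k) with hlam
    have hlam0 : lam.coeff 0 = 1 := by
      rw [hlam, coeff_expand (by omega), if_pos (dvd_zero _), Nat.zero_div, coeff_zero_hb]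
    have hlamd : lam.natDegree ≤ k * 2 := by
      rw [hlam, natDegree_expand, hq2]
      exact Nat.mul_le_mul_right _ (hq2 ▸ natDegree_hb F k)
    have hom := not_X_dvd_om F hq (κ := kk (RatFunc.inftyValuation F))
    have hom0 : (1 - X ^ qq F : (kk (RatFunc.inftyValuation F))[X]) ≠ 0 := fun h0 =>
      hom 1 (by rw [h0]; simp)
    obtain ⟨ρ, hρ⟩ := Red_scale (by simp [RatFunc.X_ne_zero, TT_ne_zero]) h5
      (pow_ne_zero _ (mul_ne_zero (pow_ne_zero _ (pow_ne_zero _ (neg_ne_zero.mpr hom0))) (by intro h0; simp [h0] at hlam0))) hRed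
    have hρ0 : ρ ≠ 0 := by rintro rfl; simp at hρ; exact hAb hρ
    set P := 2 ^ r with hPd
    have hP0 : 0 < P := by positivity
    rw [hq2] at h3 hρ hom
    have h6 : X ^ (m + 2) ∣ C ρ * lam ^ P - C cb * (1 - X ^ 2) ^ (2 * P * (k + 1)) := by
      refine prime_X.pow_dvd_of_dvd_mul_left _ (hom (2 * k * P)) ?_
      convert h3 using 1
      rw [hρ, hrs, neg_sq, ← pow_mul]
      simp only [Nat.add_one_sub_one, pow_one, hPd]
      ring
    have h7 : ρ = cb := by
      have := X_pow_dvd_iff.mp h6 0 (by omega)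
      rw [coeff_sub, coeff_C_mul, coeff_C_mul, coeff_zero_eq_eval_zero, eval_pow,
        ← coeff_zero_eq_eval_zero, hlam0, coeff_zero_eq_eval_zero] at this
      simpa [sub_eq_zero] using this
    have h8 : m + 2 ≤ 4 * P * (k + 1) := by
      by_contra hc
      have h9 := X_pow_dvd_iff.mp h6 (4 * P * (k + 1)) (by omega)
      have h10 : (1 - X ^ 2 : (kk (RatFunc.inftyValuation F))[X]) ^ (2 * P * (k + 1)) =
          (1 - X) ^ (4 * P * (k + 1)) := by
        have := sub_pow_qq F (1 : (kk (RatFunc.inftyValuation F))[X]) X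
        rw [hq2, one_pow] at this
        rw [← this, ← pow_mul]
        congr 1; ring
      rw [coeff_sub, coeff_C_mul, coeff_C_mul, h10, coeff_one_sub_X_pow,
        coeff_eq_zero_of_natDegree_lt (lt_of_le_of_lt natDegree_pow_le (by nlinarith)),
        ← h7] at h9
      simp [hρ0] at h9
    rw [hq2]
    rcases k with _ | k
    · have := hN (r + 1) (by rw [hq2, hp2, pow_succ]; omega)
      rw [hq2, hp2, pow_succ] at this
      omega
    · rw [hrs, show 2 ^ 2 - 1 = 3 by norm_num]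
      nlinarith [Nat.zero_le (P * k)]

end ZetaLikeMZV
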